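import Pool.Agent.RPDepth.Fodor

/-!
# Closure properties of the functions without descending functionals
-/

set_option autoImplicit false

namespace Pool.Agent.RPDepth

universe u

open Cardinal Filter Order Ordinal

theorem NoDescent.mono {ι : Type u} {D : Filter ι} {A A' : Set ι} {f f' : ι → Ordinal.{u}}
    (h : NoDescent D A f) (hA : A' ⊆ A) (hf : ∀ i ∈ A', f' i ≤ f i) : NoDescent D A' f' := by
  rintro S hS hpos ⟨Φ, h1, h2, h3⟩
  exact h S (hS.trans hA) hpos ⟨Φ, h1, fun p hp i hi =>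
    (h2 p hp i hi).trans (hf i (hS (((h1 0).pos p hp).1 hi))), h3⟩

/-- It is enough to look at the functions that are less than `f`, locally. -/
theorem NoDescent.of_below {ι : Type u} {D : Filter ι} {A : Set ι} {f : ι → Ordinal.{u}}
    (h : ∀ S : Set ι, S ⊆ A → (∃ᶠ i in D, i ∈ S) → ∀ g : ι → Ordinal.{u}, (∀ i ∈ S, g i < f i) →
      ∃ S' : Set ι, S' ⊆ S ∧ (∃ᶠ i in D, i ∈ S') ∧ NoDescent D S' g) : NoDescent D A f := by
  rintro S hSA hS ⟨Φ, hΦ, h0, hdesc⟩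
  obtain ⟨r, hr, -⟩ := (hΦ 1).max S subset_rfl hS
  obtain ⟨hrS, hrpos⟩ := (hΦ 1).pos r hr
  have hrf : ∀ i ∈ r.1, r.2 i < f i := by
    intro i hi
    obtain ⟨q, hq, h1, h2⟩ := hdesc 0 r hr
    exact (h2 i hi).trans_le (h0 q hq i (h1 hi))
  obtain ⟨S', hS'r, hS', hND⟩ := h r.1 (hrS.trans hSA) hrpos r.2 hrf
  refine hND S' subset_rfl hS' ⟨fun n => {p | ∃ q ∈ Φ (n + 1), p.1 = q.1 ∩ S' ∧ p.2 = q.2 ∧
    ∃ᶠ i in D, i ∈ p.1}, fun n => ⟨?_, ?_, ?_⟩, ?_, ?_⟩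
  · rintro p ⟨q, hq, h1, h2, h3⟩
    exact ⟨by rw [h1]; exact Set.inter_subset_right, h3⟩
  · rintro p ⟨q, hq, h1, h2, h3⟩ p' ⟨q', hq', h1', h2', h3'⟩ hne
    have hqq : q ≠ q' := by
      rintro rfl
      exact hne (Prod.ext (h1.trans h1'.symm) (h2.trans h2'.symm))
    filter_upwards [(hΦ (n + 1)).disj q hq q' hq' hqq] with i hi hi'
    rw [h1, h1'] at hi'
    exact hi ⟨hi'.1.1, hi'.2.1⟩
  · intro Y hY hYpos
    obtain ⟨q, hq, hqY⟩ := (hΦ (n + 1)).max Y (hY.trans (hS'r.trans hrS)) hYpos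
    refine ⟨(q.1 ∩ S', q.2), ⟨q, hq, rfl, rfl, hqY.mono fun i hi => ⟨hi.1, hY hi.2⟩⟩,
      hqY.mono fun i hi => ⟨⟨hi.1, hY hi.2⟩, hi.2⟩⟩
  · rintro p ⟨q, hq, h1, h2, h3⟩ i hi
    have hqr : q = r := by
      by_contra hne
      obtain ⟨j, hj, hj'⟩ := (h3.and_eventually ((hΦ 1).disj q hq r hr hne)).exists
      rw [h1] at hj
      exact hj' ⟨hj.1, hS'r hj.2⟩
    rw [h2, hqr]
  · rintro n p ⟨q, hq, h1, h2, h3⟩
    obtain ⟨q', hq', h4, h5⟩ := hdesc (n + 1) q hq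
    refine ⟨(q'.1 ∩ S', q'.2), ⟨q', hq', rfl, rfl, h3.mono fun i hi => ?_⟩, ?_, fun i hi => ?_⟩
    · rw [h1] at hi
      exact ⟨h4 hi.1, hi.2⟩
    · rw [h1]
      exact Set.inter_subset_inter_left _ h4
    · rw [h1] at hi
      rw [h2]
      exact h5 i hi.1

/-- successors -/
theorem NoDescent.succ {ι : Type u} {D : Filter ι} {A : Set ι} {f : ι → Ordinal.{u}}
    (h : NoDescent D A f) : NoDescent D A (fun i => f i + 1) :=
  NoDescent.of_below fun S hS hpos _ hg => ⟨S, subset_rfl, hpos,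
    h.mono hS fun i hi => Order.lt_add_one_iff.1 (hg i hi)⟩

/-- diagonal suprema, for normal filters -/
theorem NoDescent.diag {ι : Type u} [LinearOrder ι] {D : Filter ι} (hD : Normal D) {A : Set ι}
    {f : ι → Ordinal.{u}} (F : ι → ι → Ordinal.{u}) (hF : ∀ j, NoDescent D A (F j))
    (hf : ∀ i ∈ A, ∀ β < f i, ∃ j < i, β ≤ F j i) : NoDescent D A f := by
  refine NoDescent.of_below fun S hS hpos g hg => ?_
  classical
  have hex : ∀ i ∈ S, ∃ j, j < i ∧ g i ≤ F j i := fun i hi => hf i (hS hi) _ (hg i hi)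
  choose! h hlt hle using hex
  obtain ⟨j, hj⟩ := hD S hpos h hlt
  exact ⟨{i | i ∈ S ∧ h i = j}, fun i hi => hi.1, hj, (hF j).mono (fun i hi => hS hi.1)
    fun i hi => by rw [← hi.2]; exact hle i hi.1⟩

/-- suprema of few functions, for complete filters -/
theorem NoDescent.sup {ι : Type u} {D : Filter ι} {θ : Cardinal.{u}} (hθ : Complete D θ)
    {J : Type u} (hJ : #J < θ) {A : Set ι}
    {f : ι → Ordinal.{u}} (F : J → ι → Ordinal.{u}) (hF : ∀ j, NoDescent D A (F j))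
    (hf : ∀ i ∈ A, ∀ β < f i, ∃ j, β ≤ F j i) : NoDescent D A f := by
  refine NoDescent.of_below fun S hS hpos g hg => ?_
  obtain ⟨j, hj⟩ := exists_pos_of_complete hθ hJ (fun j => {i | i ∈ S ∧ g i ≤ F j i}) hpos
    (fun i hi => by
      obtain ⟨j, h⟩ := hf i (hS hi) _ (hg i hi)
      exact ⟨j, hi, h⟩)
  exact ⟨{i | i ∈ S ∧ g i ≤ F j i}, fun i hi => hi.1, hj, (hF j).mono (fun i hi => hS hi.1)
    fun i hi => hi.2⟩

end Pool.Agent.RPDepth
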