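import Pool.Agent.RPDepth.Cat

/-!
# Blocks of chains, one above the other: few blocks below one function
-/

set_option autoImplicit false

namespace Pool.Agent.RPDepth

universe u

open Cardinal Filter Order Ordinal

/-- Few blocks: if chains of all lengths `χ x` exist below one function `g`, then their lengths
can be added. -/
theorem blocks_one {ι : Type u} [Infinite ι] {D : Filter ι} [D.NeBot] {B : ι → Type u}
    [∀ i, Preorder (B i)] {lam : ι → Cardinal.{u}}
    (h2 : ∀ i, 2 ^ #ι < lam i) (hB : ∀ i, lam i < depthPlus (B i))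
    {T θ : Cardinal.{u}} (hθ : θ ≤ 2 ^ #ι) (χ : θ.ord.ToType → Cardinal.{u})
    (hT : T ≤ Cardinal.sum χ) (g : ι → Ordinal.{u}) (hg : ∀ i, g i < (lam i).ord)
    (hc : ∀ x, ∃ X : Set ι, (∃ᶠ i in D, i ∈ X) ∧ ∃ G : (χ x).ord.ToType → ι → Ordinal.{u},
      (∀ v, ∀ i ∈ X, G v i < g i) ∧ ∀ v w, v < w → ∀ᶠ i in D, i ∈ X → G v i < G w i) :
    T < depthPlus (RedProd D B) := by
  classical
  choose X hX G hG hGm using hc
  choose c hcm using fun i => exists_chain_of_lt (hB i)
  have hι : ℵ₀ ≤ #ι := aleph0_le_mk ι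
  have hκ : #ι < 2 ^ #ι := cantor _
  -- the value of the member `v` of block `x` at `i`
  let val : ∀ x : θ.ord.ToType, (χ x).ord.ToType → ι → Ordinal.{u} := fun x v i =>
    (g i + 1) * (x.toOrd : Ordinal.{u}) + (if i ∈ X x then G x v i else 0)
  have hsmall : ∀ x v i, (if i ∈ X x then G x v i else 0) < g i + 1 := by
    intro x v i
    split_ifs with h
    · exact (hG x v i h).trans (lt_add_one _)
    · exact lt_of_le_of_lt bot_le (lt_add_one _)
  have hval : ∀ x v i, val x v i < (lam i).ord := by
    intro x v i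
    have hlam0 : ℵ₀ ≤ lam i := hι.trans (hκ.le.trans (h2 i).le)
    have h3 : val x v i < (g i + 1) * ((x.toOrd : Ordinal.{u}) + 1) := by
      rw [mul_add_one]
      exact (add_lt_add_iff_left _).2 (hsmall x v i)
    refine h3.trans ?_
    rw [lt_ord, card_mul]
    refine mul_lt_of_lt hlam0 ?_ ?_
    · rw [card_add, card_one]
      exact add_lt_of_lt hlam0 (lt_ord.1 (hg i)) (one_lt_aleph0.trans_le hlam0)
    · rw [card_add, card_one]
      refine add_lt_of_lt hlam0 ?_ (one_lt_aleph0.trans_le hlam0)
      exact (lt_ord.1 x.toOrd.2).trans_le (hθ.trans (h2 i).le)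
  let k : ∀ x : θ.ord.ToType, (χ x).ord.ToType → RedProd D B := fun x v i =>
    c i (ToType.mk ⟨val x v i, hval x v i⟩)
  have hkle : ∀ i x v y w, val x v i ≤ val y w i → k x v i ≤ k y w i := by
    intro i x v y w h
    exact (hcm i).monotone (ToType.mk.le_iff_le.2 h)
  have hklt : ∀ i x v y w, val x v i < val y w i → k x v i < k y w i := by
    intro i x v y w h
    exact hcm i (ToType.mk.lt_iff_lt.2 h)
  refine concat χ hT k (fun x v w hvw => ?_) (fun x y hxy v w => ?_)
  · refine lt_iff_le_not_ge.2 ⟨?_, fun h3 => ?_⟩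
    · have h4 : ∀ᶠ i in D, k x v i ≤ k x w i := by
        filter_upwards [hGm x v w hvw] with i hi
        refine hkle i x v x w ?_
        refine (add_le_add_iff_left _).2 ?_
        split_ifs with h
        · exact (hi h).le
        · exact le_rfl
      exact h4
    · have h3' : ∀ᶠ i in D, k x w i ≤ k x v i := h3
      obtain ⟨i, hiX, h4, h5⟩ := ((hX x).and_eventually (h3'.and (hGm x v w hvw))).exists
      refine absurd (hklt i x v x w ?_) (not_lt_of_ge h4)
      refine (add_lt_add_iff_left _).2 ?_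
      rw [if_pos hiX, if_pos hiX]
      exact h5 hiX
  · have hxy' : (x.toOrd : Ordinal.{u}) < (y.toOrd : Ordinal.{u}) := ToType.mk.symm.lt_iff_lt.2 hxy
    have hall : ∀ i, val x v i < val y w i := by
      intro i
      have h3 : val x v i < (g i + 1) * ((x.toOrd : Ordinal.{u}) + 1) := by
        rw [mul_add_one]
        exact (add_lt_add_iff_left _).2 (hsmall x v i)
      refine h3.trans_le ((mul_le_mul_right (add_one_le_of_lt hxy') _).trans ?_)
      exact le_self_add
    refine lt_iff_le_not_ge.2 ⟨?_, fun h3 => ?_⟩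
    · have h4 : ∀ᶠ i in D, k x v i ≤ k y w i :=
        Eventually.of_forall fun i => hkle i x v y w (hall i).le
      exact h4
    · have h3' : ∀ᶠ i in D, k y w i ≤ k x v i := h3
      obtain ⟨i, hi⟩ := h3'.exists
      exact absurd (hklt i x v y w (hall i)) (not_lt_of_ge hi)

end Pool.Agent.RPDepth
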