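import Pool.Agent.RPDepth.Prec

/-!
# Chains from blocks
-/

set_option autoImplicit false

namespace Pool.Agent.RPDepth

universe u

open Cardinal Filter Order Ordinal

/-- `f < g` in the reduced product over `A`: `f ≤ g` almost everywhere on `A`, and `f < g` on a
positive subset of `A`. -/
def WLt {ι : Type u} (D : Filter ι) (A : Set ι) (f g : ι → Ordinal.{u}) : Prop :=
  (∀ᶠ i in D, i ∈ A → f i ≤ g i) ∧ ∃ᶠ i in D, i ∈ A ∧ f i < g i

theorem WLt.trans_le {ι : Type u} {D : Filter ι} {A : Set ι} {f g h : ι → Ordinal.{u}}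
    (h1 : WLt D A f g) (h2 : ∀ᶠ i in D, i ∈ A → g i ≤ h i) : WLt D A f h := by
  refine ⟨?_, ?_⟩
  · filter_upwards [h1.1, h2] with i a b hi using (a hi).trans (b hi)
  · exact (h1.2.and_eventually h2).mono fun i hi => ⟨hi.1.1, hi.1.2.trans_le (hi.2 hi.1.1)⟩

/-- blocks one above the other give a chain -/
theorem chain_of_blocks {ι : Type u} {D : Filter ι} {B : ι → Type u} [∀ i, Preorder (B i)]
    {lam : ι → Cardinal.{u}} (h : ∀ i, ∃ c : (lam i).ord.ToType → B i, StrictMono c)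
    (hpos : ∀ i, 0 < lam i) {A : Set ι}
    {X : Type u} [LinearOrder X] [WellFoundedLT X] {χ : X → Cardinal.{u}} (hχ : ∀ x, ℵ₀ ≤ χ x)
    {T : Cardinal.{u}} (hT : ∀ β < T.ord, ∃ x, β < (χ x).ord)
    (c : ∀ x, (χ x).ord.ToType → ι → Ordinal.{u}) (b : X → ι → Ordinal.{u})
    (hlt : ∀ x v, ∀ i ∈ A, c x v i < (lam i).ord)
    (hcb : ∀ x v, ∀ i ∈ A, c x v i ≤ b x i)
    (hbc : ∀ x y, x < y → ∀ v, ∀ᶠ i in D, i ∈ A → b x i ≤ c y v i)
    (hch : ∀ x v w, v < w → WLt D A (c x v) (c x w)) :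
    T < depthPlus (RedProd D B) := by
  classical
  choose e he using h
  let E : (ι → Ordinal.{u}) → RedProd D B := fun f i =>
    if hi : f i < (lam i).ord ∧ i ∈ A then e i (ToType.mk ⟨f i, hi.1⟩)
    else e i (ToType.mk ⟨0, ord_pos.2 (hpos i)⟩)
  have hE : ∀ f g : ι → Ordinal.{u}, (∀ i ∈ A, f i < (lam i).ord) →
      (∀ i ∈ A, g i < (lam i).ord) → WLt D A f g → E f < E g := by
    intro f g hf hg hfg
    have hlt' : ∀ i ∈ A, f i < g i → E f i < E g i := by
      intro i hi h1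
      simp only [E, dif_pos (And.intro (hf i hi) hi), dif_pos (And.intro (hg i hi) hi)]
      exact he i (ToType.mk.lt_iff_lt.2 h1)
    refine lt_iff_le_not_ge.2 ⟨?_, fun h3 => ?_⟩
    · have h4 : ∀ᶠ i in D, E f i ≤ E g i := by
        filter_upwards [hfg.1] with i hi
        by_cases hiA : i ∈ A
        · rcases (hi hiA).lt_or_eq with h5 | h5
          · exact (hlt' i hiA h5).le
          · simp only [E, h5]
            exact le_rfl
        · have h6 : ¬ (f i < (lam i).ord ∧ i ∈ A) := fun h => hiA h.2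
          have h7 : ¬ (g i < (lam i).ord ∧ i ∈ A) := fun h => hiA h.2
          simp only [E, dif_neg h6, dif_neg h7]
          exact le_rfl
      exact h4
    · have h3' : ∀ᶠ i in D, E g i ≤ E f i := h3
      obtain ⟨i, ⟨hiA, h4⟩, h5⟩ := (hfg.2.and_eventually h3').exists
      exact absurd (hlt' i hiA h4) (not_lt_of_ge h5)
  -- the index of the block
  have hne : ∀ v : T.ord.ToType, {x : X | (v.toOrd : Ordinal.{u}) < (χ x).ord}.Nonempty :=
    fun v => by
      obtain ⟨x, hx⟩ := hT (v.toOrd : Ordinal.{u}) v.toOrd.2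
      exact ⟨x, hx⟩
  let xf : T.ord.ToType → X := fun v => wellFounded_lt.min _ (hne v)
  have hxf : ∀ v, (v.toOrd : Ordinal.{u}) < (χ (xf v)).ord := fun v =>
    wellFounded_lt.min_mem _ (hne v)
  have hxmono : ∀ v w, v < w → xf v ≤ xf w := by
    intro v w hvw
    by_contra hcon
    have hvw' : (v.toOrd : Ordinal.{u}) < (w.toOrd : Ordinal.{u}) :=
      ToType.mk.symm.lt_iff_lt.2 hvw
    exact wellFounded_lt.not_lt_min {x : X | (v.toOrd : Ordinal.{u}) < (χ x).ord}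
      (show (v.toOrd : Ordinal.{u}) < (χ (xf w)).ord from hvw'.trans (hxf w)) (not_le.1 hcon)
  -- comparison of the blocks
  have hcross : ∀ x y, x < y → ∀ v w, WLt D A (c x v) (c y w) := by
    intro x y hxy v w
    have hs : succ (v.toOrd : Ordinal.{u}) < (χ x).ord :=
      (isSuccLimit_ord (hχ x)).succ_lt v.toOrd.2
    have hv : v < ToType.mk ⟨succ (v.toOrd : Ordinal.{u}), hs⟩ := by
      rw [← (ToType.mk (o := (χ x).ord)).symm.lt_iff_lt, OrderIso.symm_apply_apply]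
      exact lt_succ (v.toOrd : Ordinal.{u})
    refine (hch x _ _ hv).trans_le ?_
    filter_upwards [hbc x y hxy w] with i hi hiA
    exact (hcb x _ i hiA).trans (hi hiA)
  refine lt_depthPlus ⟨fun v => E (c (xf v) (ToType.mk ⟨(v.toOrd : Ordinal.{u}), hxf v⟩)), ?_⟩
  intro v w hvw
  refine hE _ _ (hlt _ _) (hlt _ _) ?_
  rcases (hxmono v w hvw).lt_or_eq with h1 | h1
  · exact hcross _ _ h1 _ _
  · have hvw' : (v.toOrd : Ordinal.{u}) < (w.toOrd : Ordinal.{u}) :=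
      ToType.mk.symm.lt_iff_lt.2 hvw
    have key : ∀ (x : X) (hx : x = xf w) (p : (v.toOrd : Ordinal.{u}) < (χ x).ord),
        WLt D A (c x (ToType.mk ⟨(v.toOrd : Ordinal.{u}), p⟩))
          (c (xf w) (ToType.mk ⟨(w.toOrd : Ordinal.{u}), hxf w⟩)) := by
      intro x hx p
      subst hx
      exact hch _ _ _ (ToType.mk.lt_iff_lt.2 hvw')
    exact key _ h1 _

theorem Big.anti {ι : Type u} {D : Filter ι} {χ χ' : Cardinal.{u}} {g : ι → Ordinal.{u}}
    {A : Set ι} (h : Big D χ g A) (hle : χ' ≤ χ) : Big D χ' g A := by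
  obtain ⟨hA, f, hf, hne⟩ := h
  obtain ⟨e⟩ : Nonempty (χ'.ord.ToType ↪ χ.ord.ToType) := by
    rw [← Cardinal.le_def, mk_ord_toType, mk_ord_toType]; exact hle
  exact ⟨hA, fun v => f (e v), fun v i hi => hf _ i hi,
    fun v w hvw => hne _ _ fun h => hvw (e.injective h)⟩

/-- chains of all regular lengths below `g` -/
theorem wchain_of_big {ι : Type u} {D : Filter ι} {A A' : Set ι} (hP : Precipitous (D ⊓ 𝓟 A))
    {χ : Cardinal.{u}} (hχ : χ.IsRegular) (h2 : 2 ^ #ι < χ) {g : ι → Ordinal.{u}} (hs : A' ⊆ A)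
    (hbig : Big D χ g A') :
    ∃ (A'' : Set ι) (c : χ.ord.ToType → ι → Ordinal.{u}), A'' ⊆ A' ∧
      (∀ v, ∀ i ∈ A'', c v i < g i) ∧ (∀ v, ∀ i ∉ A'', c v i = 0) ∧
      ∀ v w, v < w → (∀ᶠ i in D, c v i ≤ c w i) ∧ ∃ᶠ i in D, i ∈ A'' ∧ c v i < c w i := by
  classical
  have hmin : ∃ (g' : ι → Ordinal.{u}) (A'' : Set ι), (Big D χ g' A'' ∧ A'' ⊆ A' ∧
      ∀ i ∈ A'', g' i ≤ g i) ∧ ∀ (g'' : ι → Ordinal.{u}) (X : Set ι), X ⊆ A'' →
        (∀ i ∈ X, g'' i < g' i) → ¬ Big D χ g'' X := by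
    by_contra hcon
    push Not at hcon
    refine not_precipitous (E := D ⊓ 𝓟 A) (P := fun g' X => Big D χ g' X ∧ X ⊆ A' ∧
      ∀ i ∈ X, g' i ≤ g i) (g := g) (A := A') ?_ ?_ ?_ ⟨hbig, subset_rfl, fun i _ => le_rfl⟩ hP
    · rintro g' X ⟨h1, h3, -⟩
      rw [frequently_inf_principal]
      exact h1.1.mono fun i hi => ⟨hs (h3 hi), hi⟩
    · rintro g' X Y ⟨h1, h3, h4⟩ h5 h6
      rw [frequently_inf_principal] at h5
      exact ⟨h1.restrict (h5.mono fun i hi => hi.2) h6, h6.trans h3, fun i hi => h4 i (h6 hi)⟩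
    · rintro g' X ⟨h1, h3, h4⟩
      obtain ⟨g'', Y, hYX, hlt, hbig'⟩ := hcon g' X ⟨h1, h3, h4⟩
      exact ⟨g'', Y, hYX, hlt, hbig', hYX.trans h3,
        fun i hi => (hlt i hi).le.trans (h4 i (hYX hi))⟩
  obtain ⟨g', A'', ⟨hbig', hs', hle⟩, hmin⟩ := hmin
  obtain ⟨G, hG, hmono⟩ := chain_of_minimal hχ h2 hbig' hmin
  refine ⟨A'', fun v i => if i ∈ A'' then G v i else 0, hs', fun v i hi => ?_, fun v i hi => ?_,
    fun v w hvw => ⟨?_, ?_⟩⟩
  · simp only [if_pos hi]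
    exact (hG v i hi).trans_le (hle i hi)
  · simp only [if_neg hi]
  · filter_upwards [hmono v w hvw] with i hi
    by_cases hiA : i ∈ A''
    · simp only [if_pos hiA]
      exact (hi hiA).le
    · simp only [if_neg hiA]
      exact le_rfl
  · refine (hbig'.1.and_eventually (hmono v w hvw)).mono fun i hi => ⟨hi.1, ?_⟩
    simp only [if_pos hi.1]
    exact hi.2 hi.1

end Pool.Agent.RPDepth
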