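import Pool.Agent.RPDepth.Below

/-!
# The canonical functions of a normal filter
-/

set_option autoImplicit false

namespace Pool.Agent.RPDepth

universe u

open Cardinal Filter Order Ordinal

/-- an ordinal below the order type of a set is the order type of an initial segment -/
theorem exists_segment {ι : Type u} (r : ι → ι → Prop) [IsWellOrder ι r] (p : ι → Prop)
    {β : Ordinal.{u}} (hβ : β < Ordinal.type (Subrel r p)) :
    ∃ j, p j ∧ β ≤ Ordinal.type (Subrel r fun k => p k ∧ r k j) := by
  obtain ⟨j, hj⟩ := (Ordinal.mem_range_typein_iff (Subrel r p)).2 hβ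
  refine ⟨j.1, j.2, ?_⟩
  rw [← hj, ← Ordinal.type_subrel]
  refine Ordinal.type_le_iff'.2 ⟨⟨⟨fun x => ⟨x.1.1, x.1.2, x.2⟩, fun x y h => ?_⟩, Iff.rfl⟩⟩
  exact Subtype.ext (Subtype.ext (Subtype.mk.inj h))

/-- The canonical functions: for a normal filter `D` and a well-ordering `r` of `ι` the function
`i ↦ type of ({j | j < i}, r)` is well-founded. -/
theorem NoDescent.canon {ι : Type u} [LinearOrder ι] {D : Filter ι} (hD : Normal D) (A : Set ι)
    (r : ι → ι → Prop) [IsWellOrder ι r] :
    NoDescent D A (fun i => Ordinal.type (Subrel r fun j => j < i)) := by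
  have key : ∀ x, NoDescent D A (fun i => Ordinal.type (Subrel r fun j => j < i ∧ r j x)) := by
    intro x
    induction x using IsWellFounded.induction r with
    | ind x ih =>
      classical
      refine NoDescent.diag hD (fun j i => if r j x then
        Ordinal.type (Subrel r fun k => k < i ∧ r k j) else 0) (fun j => ?_) fun i _ β hβ => ?_
      · by_cases h : r j x
        · simp only [if_pos h]
          exact ih j h
        · simp only [if_neg h]
          exact (NoDescent.of_fodor (Fodor.of_nat D 0 A)).mono subset_rfl fun i _ => by simp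
      · obtain ⟨j, hj, hle⟩ := exists_segment r _ hβ
        refine ⟨j, hj.1, ?_⟩
        simp only [if_pos hj.2]
        exact hle.trans (Ordinal.type_le_iff'.2 ⟨⟨⟨fun y => ⟨y.1, y.2.1.1, y.2.2⟩,
          fun y z h => Subtype.ext (Subtype.mk.inj h)⟩, Iff.rfl⟩⟩)
  refine NoDescent.diag hD (fun j i => Ordinal.type (Subrel r fun k => k < i ∧ r k j)) key
    fun i _ β hβ => ?_
  obtain ⟨j, hj, hle⟩ := exists_segment r _ hβ
  exact ⟨j, hj, hle⟩

end Pool.Agent.RPDepth
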