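import Pool.Agent.RPDepth.Step

/-!
# Concatenation of chains, attainment of `T_D`, and fundamental sequences
-/

set_option autoImplicit false

namespace Pool.Agent.RPDepth

universe u

open Cardinal Filter Order Ordinal

/-- chains of lengths `χ j`, one above the other -/
theorem concat {P : Type u} [Preorder P] {T : Cardinal.{u}} {J : Type u} [LinearOrder J]
    [WellFoundedLT J] (χ : J → Cardinal.{u}) (hT : T ≤ Cardinal.sum χ)
    (c : ∀ j, (χ j).ord.ToType → P) (hc : ∀ j, StrictMono (c j))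
    (hlt : ∀ j j', j < j' → ∀ v w, c j v < c j' w) : T < depthPlus P := by
  have hmono : StrictMono (fun p : Σₗ j : J, (χ j).ord.ToType =>
      (toLex ((ofLex p).1, ((ofLex p).2.toOrd : Ordinal.{u})) : J ×ₗ Ordinal.{u})) := by
    intro p q hpq
    rw [Sigma.Lex.lt_def] at hpq
    rw [Prod.Lex.toLex_lt_toLex]
    rcases hpq with h | ⟨h, h'⟩
    · exact Or.inl h
    · refine Or.inr ⟨h, ?_⟩
      obtain ⟨j, v⟩ := p
      obtain ⟨j', w⟩ := q
      dsimp at h
      subst h
      exact ToType.mk.symm.lt_iff_lt.2 h'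
  have hwf : WellFoundedLT (Σₗ j : J, (χ j).ord.ToType) := hmono.wellFoundedLT
  have hcard : #(Σₗ j : J, (χ j).ord.ToType) = Cardinal.sum χ := by
    have h : #(Σ j : J, (χ j).ord.ToType) = Cardinal.sum χ := by
      rw [mk_sigma]
      simp only [mk_ord_toType]
    exact h
  obtain ⟨e⟩ : Nonempty (T.ord.ToType ≤i (Σₗ j : J, (χ j).ord.ToType)) := by
    rw [← Ordinal.type_le_iff]
    have h1 : T.ord ≤ (#(Σₗ j : J, (χ j).ord.ToType)).ord := ord_le_ord.2 (by rw [hcard]; exact hT)
    have h2 := h1.trans (ord_le_type ((· < ·) : (Σₗ j : J, (χ j).ord.ToType) → _ → Prop))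
    simpa using h2
  have key : ∀ p q : Σₗ j : J, (χ j).ord.ToType, p < q →
      c (ofLex p).1 (ofLex p).2 < c (ofLex q).1 (ofLex q).2 := by
    intro p q hpq
    rw [Sigma.Lex.lt_def] at hpq
    rcases hpq with h | ⟨h, h'⟩
    · exact hlt _ _ h _ _
    · obtain ⟨j, x⟩ := p
      obtain ⟨j', y⟩ := q
      dsimp at h
      subst h
      exact hc j h'
  exact lt_depthPlus ⟨fun v => c (ofLex (e v)).1 (ofLex (e v)).2,
    fun v w hvw => key _ _ (e.strictMono hvw)⟩

/-- The supremum is attained. -/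
theorem attained {ι : Type u} [Infinite ι] {D : Filter ι} [D.NeBot] {lam : ι → Cardinal.{u}}
    (h2 : ∀ i, 2 ^ #ι < lam i) : ∃ F : Set (∀ i, (lam i).ord.ToType),
      (∀ f ∈ F, ∀ g ∈ F, f ≠ g → ∀ᶠ i in D, f i ≠ g i) ∧ TD D lam ≤ #F := by
  classical
  obtain ⟨F, hF⟩ := zorn_subset {F : Set (∀ i, (lam i).ord.ToType) |
    ∀ f ∈ F, ∀ g ∈ F, f ≠ g → ∀ᶠ i in D, f i ≠ g i} (by
      intro C hC hchain
      refine ⟨⋃₀ C, ?_, fun s hs => Set.subset_sUnion_of_mem hs⟩
      rintro f ⟨s, hs, hf⟩ g ⟨t, ht, hg⟩ hfg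
      rcases hchain.total hs ht with hst | hst
      · exact hC ht f (hst hf) g hg hfg
      · exact hC hs f hf g (hst hg) hfg)
  have hFd := hF.1
  -- every function agrees with a member of `F` on a positive set
  have hmax : ∀ g : ∀ i, (lam i).ord.ToType, ∃ f ∈ F, ∃ᶠ i in D, f i = g i := by
    intro g
    by_contra hcon
    push Not at hcon
    have hgF : g ∉ F := by
      intro hg
      obtain ⟨i, hi⟩ := (hcon g hg).exists
      exact hi rfl
    have hins : insert g F ∈ {F : Set (∀ i, (lam i).ord.ToType) |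
        ∀ f ∈ F, ∀ g ∈ F, f ≠ g → ∀ᶠ i in D, f i ≠ g i} := by
      rintro x (rfl | hx) y (rfl | hy) hxy
      · exact absurd rfl hxy
      · exact (hcon y hy).mono fun i hi => fun h => hi h.symm
      · exact hcon x hx
      · exact hFd x hx y hy hxy
    exact hgF (hF.2 hins (Set.subset_insert g F) (Set.mem_insert g F))
  choose p hp hpos using hmax
  have hle : ∀ G : Set (∀ i, (lam i).ord.ToType),
      (∀ f ∈ G, ∀ g ∈ G, f ≠ g → ∀ᶠ i in D, f i ≠ g i) → #G ≤ #F * 2 ^ #ι := by
    intro G hG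
    have hinj : Function.Injective (fun g : G => ((⟨p g.1, hp g.1⟩, {i | p g.1 i = g.1 i}) :
        F × Set ι)) := by
      intro g g' hgg
      have h3 : p g.1 = p g'.1 := congrArg (fun x : F × Set ι => x.1.1) hgg
      have h4 : {i | p g.1 i = g.1 i} = {i | p g'.1 i = g'.1 i} :=
        congrArg (fun x : F × Set ι => x.2) hgg
      apply Subtype.ext
      by_contra hne
      obtain ⟨i, hi, hi'⟩ := ((hpos g.1).and_eventually (hG _ g.2 _ g'.2 hne)).exists
      have h5 : i ∈ {i | p g'.1 i = g'.1 i} := h4 ▸ hi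
      have h6 : p g'.1 i = g'.1 i := h5
      apply hi'
      rw [← hi, ← h6, h3]
    have h7 := mk_le_of_injective hinj
    rwa [mk_prod, Cardinal.lift_id, Cardinal.lift_id, mk_set] at h7
  have hT : TD D lam ≤ #F * 2 ^ #ι := ciSup_le' fun G => hle G.1 G.2
  refine ⟨F, hFd, ?_⟩
  have hι : ℵ₀ ≤ #ι := aleph0_le_mk ι
  have hκ : #ι < 2 ^ #ι := cantor _
  -- constants: `T` is larger than `2 ^ κ`
  have hTbig : 2 ^ #ι < TD D lam := by
    have h8 : succ (2 ^ #ι) ≤ TD D lam := by
      have hlt : ∀ i, succ (2 ^ #ι) ≤ lam i := fun i => succ_le_of_lt (h2 i)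
      have h9 : Big D (succ (2 ^ #ι)) (fun i => (lam i).ord) Set.univ := by
        refine ⟨Eventually.frequently (Eventually.of_forall fun i => Set.mem_univ i),
          fun v _ => (v.toOrd : Ordinal.{u}), fun v i _ => v.toOrd.2.trans_le
            (ord_le_ord.2 (hlt i)), fun v w hvw => Eventually.of_forall fun i _ h => hvw ?_⟩
        exact ToType.mk.symm.injective (Subtype.ext h)
      have h10 := le_TD_of_big h9 (fun i => bot_le.trans_lt (h2 i)) (fun i _ => le_rfl)
      rwa [principal_univ, inf_top_eq] at h10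
    exact (lt_succ _).trans_le h8
  by_contra hcon
  have h11 : #F < TD D lam := not_le.1 hcon
  have h12 : #F * 2 ^ #ι < TD D lam :=
    mul_lt_of_lt (hι.trans (hκ.le.trans hTbig.le)) h11 hTbig
  exact absurd hT (not_le_of_gt h12)

end Pool.Agent.RPDepth
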