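import Pool.Agent.RPDepth.PrecF

/-!
# Consequences for somewhere precipitous filters
-/

set_option autoImplicit false

namespace Pool.Agent.RPDepth

universe u

open Cardinal Filter Order Ordinal

/-- restriction to a positive set does not raise the depth -/
theorem depthPlus_restrict_le {ι : Type u} (D : Filter ι) (B : ι → Type u)
    [∀ i, Preorder (B i)] (A : Set ι) :
    depthPlus (RedProd (D ⊓ 𝓟 A) B) ≤ depthPlus (RedProd D B) := by
  classical
  by_contra hcon
  obtain ⟨k, hk⟩ := exists_chain_of_lt (not_le.1 hcon)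
  by_cases hne : Nonempty (depthPlus (RedProd D B)).ord.ToType
  · obtain ⟨w0⟩ := hne
    refine absurd (lt_depthPlus (P := RedProd D B) (c := depthPlus (RedProd D B))
      ⟨fun w i => if i ∈ A then k w i else k w0 i, fun v w hvw => ?_⟩) (lt_irrefl _)
    obtain ⟨h1, h2⟩ := lt_iff_le_not_ge.1 (hk hvw)
    have h1' : ∀ᶠ i in D ⊓ 𝓟 A, k v i ≤ k w i := h1
    rw [eventually_inf_principal] at h1'
    refine lt_iff_le_not_ge.2 ⟨?_, fun h3 => h2 ?_⟩
    · have h4 : ∀ᶠ i in D, (if i ∈ A then k v i else k w0 i) ≤ if i ∈ A then k w i else k w0 i := by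
        filter_upwards [h1'] with i hi
        by_cases hiA : i ∈ A
        · simp only [if_pos hiA]; exact hi hiA
        · simp only [if_neg hiA]; exact le_rfl
      exact h4
    · have h3' : ∀ᶠ i in D, (if i ∈ A then k w i else k w0 i) ≤ if i ∈ A then k v i else k w0 i :=
        h3
      have h5 : ∀ᶠ i in D ⊓ 𝓟 A, k w i ≤ k v i := by
        rw [eventually_inf_principal]
        filter_upwards [h3'] with i hi hiA
        simpa only [if_pos hiA] using hi
      exact h5
  · refine absurd (lt_depthPlus (P := RedProd D B) (c := depthPlus (RedProd D B))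
      ⟨fun w => absurd ⟨w⟩ hne, fun v => absurd ⟨v⟩ hne⟩) (lt_irrefl _)

theorem TD_le_restrict {ι : Type u} (D : Filter ι) (lam : ι → Cardinal.{u}) (A : Set ι) :
    TD D lam ≤ TD (D ⊓ 𝓟 A) lam := by
  refine ciSup_le' fun F => le_TD (fun f hf g hg hfg => ?_)
  exact (F.2 f hf g hg hfg).filter_mono inf_le_left

/-- Q1 for filters that are precipitous on a positive set, sharper form. -/
theorem q1_strong {ι : Type u} [Infinite ι] (D : Filter ι) (B : ι → Type u)
    [∀ i, Preorder (B i)] (lam : ι → Cardinal.{u}) (h2 : ∀ i, 2 ^ #ι < lam i)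
    (hB : ∀ i, lam i < depthPlus (B i)) {A : Set ι} (hA : ∃ᶠ i in D, i ∈ A)
    (hP : Precipitous (D ⊓ 𝓟 A)) :
    TD D lam ≤ TD (D ⊓ 𝓟 A) lam ∧ TD (D ⊓ 𝓟 A) lam < depthPlus (RedProd D B) := by
  have hNB : (D ⊓ 𝓟 A).NeBot := by
    rw [← frequently_mem_iff_neBot]
    exact hA
  refine ⟨TD_le_restrict D lam A, ?_⟩
  refine (q1_of_precipitous (D ⊓ 𝓟 A) B lam h2 hB (A := Set.univ)
    (Eventually.frequently (Eventually.of_forall fun i => Set.mem_univ i)) ?_).trans_le
    (depthPlus_restrict_le D B A)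
  rwa [principal_univ, inf_top_eq]

/-- An ultrafilter that is closed under countable intersections is precipitous. -/
theorem precipitous_of_ultrafilter {ι : Type u} (U : Ultrafilter ι)
    (hU : ∀ s : ℕ → Set ι, (∀ n, s n ∈ U) → ⋂ n, s n ∈ U) :
    Precipitous (U : Filter ι) := by
  rintro S hS ⟨Φ, hΦ, hdesc⟩
  have hfr : ∀ X : Set ι, (∃ᶠ i in (U : Filter ι), i ∈ X) ↔ X ∈ U := by
    intro X
    rw [Ultrafilter.frequently_iff_eventually]
    exact Iff.rfl
  -- the piece of `Φ n` that is in `U`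
  have hex : ∀ n, ∃ p ∈ Φ n, p.1 ∈ U := by
    intro n
    obtain ⟨p, hp, -⟩ := (hΦ n).max S subset_rfl hS
    exact ⟨p, hp, (hfr _).1 ((hΦ n).pos p hp).2⟩
  choose p hp hpU using hex
  have huniq : ∀ n, ∀ q ∈ Φ n, q = p n := by
    intro n q hq
    by_contra hne
    have h1 := (hΦ n).disj q hq (p n) (hp n) hne
    have h2 : q.1 ∈ U := (hfr _).1 ((hΦ n).pos q hq).2
    have h3 : q.1 ∩ (p n).1 ∈ U := Filter.inter_mem h2 (hpU n)
    obtain ⟨i, hi, hi'⟩ := (((hfr _).2 h3).and_eventually h1).exists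
    exact hi' hi
  have hstep : ∀ n, (p (n + 1)).1 ⊆ (p n).1 ∧ ∀ i ∈ (p (n + 1)).1, (p (n + 1)).2 i < (p n).2 i := by
    intro n
    obtain ⟨q, hq, h1, h2⟩ := hdesc n (p (n + 1)) (hp (n + 1))
    rw [huniq n q hq] at h1 h2
    exact ⟨h1, h2⟩
  obtain ⟨i, hi⟩ := ((hfr _).2 (hU (fun n => (p n).1) hpU)).exists
  have hi' : ∀ n, i ∈ (p n).1 := fun n => Set.mem_iInter.1 hi n
  have hanti : StrictAnti fun n => (p n).2 i :=
    strictAnti_nat_of_succ_lt fun n => (hstep n).2 i (hi' (n + 1))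
  exact (wellFounded_iff_isEmpty_descending_chain.1
    (wellFounded_lt (α := Ordinal.{u}))).elim ⟨fun n => (p n).2 i, fun n => hanti (Nat.lt_succ_self n)⟩

end Pool.Agent.RPDepth
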