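import Pool.Agent.RPDepth.Ext2
import Pool.Agent.RPDepth.PrecG

/-!
# Thinning of chains, and blocks over a chain
-/

set_option autoImplicit false

namespace Pool.Agent.RPDepth

universe u

open Cardinal Filter Order Ordinal

/-- a set of size `χ` in `χ` contains a copy of `χ` -/
theorem exists_strictMono_mem {χ : Cardinal.{u}} (S : Set χ.ord.ToType) (hS : χ ≤ #S) :
    ∃ e : χ.ord.ToType → χ.ord.ToType, StrictMono e ∧ ∀ v, e v ∈ S := by
  obtain ⟨e⟩ : Nonempty (χ.ord.ToType ≤i S) := by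
    rw [← Ordinal.type_le_iff, Ordinal.type_toType]
    exact ord_le.2 (by rw [card_type]; exact hS)
  exact ⟨fun v => (e v).1, fun v w hvw => e.strictMono hvw, fun v => (e v).2⟩

/-- A weak chain of regular length is strict on one positive set, on `χ` many indices. -/
theorem exists_strict_of_weak {ι : Type u} {D : Filter ι} {A : Set ι} {χ : Cardinal.{u}}
    (hχ : χ.IsRegular) (h2 : 2 ^ #ι < χ) (c : χ.ord.ToType → ι → Ordinal.{u})
    (hc : ∀ v w, v < w → WLt D A (c v) (c w)) :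
    ∃ A' : Set ι, A' ⊆ A ∧ (∃ᶠ i in D, i ∈ A') ∧ ∃ e : χ.ord.ToType → χ.ord.ToType,
      ∀ v w, v < w → ∀ᶠ i in D, i ∈ A' → c (e v) i < c (e w) i := by
  classical
  have hsucc : ∀ v : χ.ord.ToType, Order.succ (v.toOrd : Ordinal.{u}) < χ.ord := fun v =>
    (isSuccLimit_ord hχ.aleph0_le).succ_lt v.toOrd.2
  let s : χ.ord.ToType → χ.ord.ToType := fun v =>
    ToType.mk ⟨Order.succ (v.toOrd : Ordinal.{u}), hsucc v⟩
  have hs : ∀ v, v < s v := by
    intro v
    rw [← (ToType.mk (o := χ.ord)).symm.lt_iff_lt, OrderIso.symm_apply_apply]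
    exact Order.lt_succ (v.toOrd : Ordinal.{u})
  have hs' : ∀ v w, v < w → s v ≤ w := by
    intro v w hvw
    rw [← (ToType.mk (o := χ.ord)).symm.le_iff_le, OrderIso.symm_apply_apply]
    exact Order.succ_le_of_lt
      (show (v.toOrd : Ordinal.{u}) < (w.toOrd : Ordinal.{u}) from ToType.mk.symm.lt_iff_lt.2 hvw)
  obtain ⟨E, hE⟩ := infinite_pigeonhole_card
    (fun v : χ.ord.ToType => ({i | i ∈ A ∧ c v i < c (s v) i} : Set ι)) χ
    (by rw [mk_ord_toType]) hχ.aleph0_le (by rw [mk_set, hχ.cof_ord]; exact h2)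
  obtain ⟨e, he, heS⟩ := exists_strictMono_mem _ hE
  have heE : ∀ v, {i | i ∈ A ∧ c (e v) i < c (s (e v)) i} = E := fun v => heS v
  have hne0 : Nonempty χ.ord.ToType := by
    rw [← mk_ne_zero_iff, mk_ord_toType]
    exact (aleph0_pos.trans_le hχ.aleph0_le).ne'
  obtain ⟨v0⟩ := hne0
  refine ⟨E, ?_, ?_, e, fun v w hvw => ?_⟩
  · rw [← heE v0]
    exact fun i hi => hi.1
  · rw [← heE v0]
    exact (hc _ _ (hs (e v0))).2
  · have h1 : ∀ᶠ i in D, i ∈ A → c (s (e v)) i ≤ c (e w) i := by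
      rcases (hs' _ _ (he hvw)).lt_or_eq with h | h
      · exact (hc _ _ h).1
      · rw [h]
        exact Eventually.of_forall fun i _ => le_rfl
    filter_upwards [h1] with i hi hiE
    rw [← heE v] at hiE
    exact hiE.2.trans_le (hi hiE.1)

/-- blocks over a chain -/
theorem lt_of_mul' {ι : Type u} {D : Filter ι} {B : ι → Type u}
    [∀ i, Preorder (B i)] {lam : ι → Cardinal.{u}}
    (h : ∀ i, ∃ c : (lam i).ord.ToType → B i, StrictMono c) (hpos : ∀ i, ℵ₀ ≤ lam i)
    {A : Set ι} {T : Cardinal.{u}} {X : Type u} [LinearOrder X] [WellFoundedLT X]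
    (H : X → ι → Ordinal.{u}) (hH : ∀ x, ∀ i ∈ A, H x i < (lam i).ord)
    (hHs : ∀ x y, x < y → ∀ᶠ i in D, i ∈ A → H x i < H y i)
    {g : ι → Ordinal.{u}} (hg : ∀ i ∈ A, g i < (lam i).ord)
    {χ : X → Cardinal.{u}} (hχ0 : ∀ x, ℵ₀ ≤ χ x)
    (hT : ∀ β < T.ord, ∃ x, β < (χ x).ord)
    (c : ∀ x, (χ x).ord.ToType → ι → Ordinal.{u}) (hc : ∀ x v, ∀ i ∈ A, c x v i ≤ g i)
    (hch : ∀ x v w, v < w → WLt D A (c x v) (c x w)) :
    T < depthPlus (RedProd D B) := by
  refine chain_of_blocks h (fun i => aleph0_pos.trans_le (hpos i)) (A := A) hχ0 hT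
    (fun x v i => (g i + 1) * H x i + c x v i)
    (fun x i => (g i + 1) * H x i + g i) ?_ ?_ ?_ ?_
  · intro x v i hi
    have h1 : g i + 1 < (lam i).ord := (isSuccLimit_ord (hpos i)).succ_lt (hg i hi)
    have h2 : H x i + 1 < (lam i).ord := (isSuccLimit_ord (hpos i)).succ_lt (hH x i hi)
    have h3 := isPrincipal_mul_ord (hpos i) h1 h2
    refine lt_of_le_of_lt ?_ h3
    show (g i + 1) * H x i + c x v i ≤ (g i + 1) * (H x i + 1)
    rw [mul_add_one]
    exact (add_le_add_iff_left _).2 ((hc x v i hi).trans (le_succ (g i)))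
  · intro x v i hi
    exact (add_le_add_iff_left _).2 (hc x v i hi)
  · intro x y hxy v
    filter_upwards [hHs x y hxy] with i hi hiA
    have hxy' : H x i + 1 ≤ H y i := succ_le_of_lt (hi hiA)
    calc (g i + 1) * H x i + g i
        ≤ (g i + 1) * H x i + (g i + 1) := (add_le_add_iff_left _).2 (le_succ (g i))
      _ = (g i + 1) * (H x i + 1) := by rw [mul_add_one]
      _ ≤ (g i + 1) * H y i := mul_le_mul_right hxy' _
      _ ≤ (g i + 1) * H y i + c y v i := le_self_add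
  · intro x v w hvw
    obtain ⟨h1, h2⟩ := hch x v w hvw
    refine ⟨h1.mono fun i hi hiA => (add_le_add_iff_left _).2 (hi hiA),
      h2.mono fun i hi => ⟨hi.1, (add_lt_add_iff_left _).2 hi.2⟩⟩

end Pool.Agent.RPDepth
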