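import Pool.Agent.RPDepth.RkDef
import Pool.Agent.RPDepth.Thin

/-!
# The cobounded filter of a regular uncountable cardinal has diagonally complete extensions, hereditarily
-/

namespace Pool.Agent.RPDepth

universe u

open Cardinal Filter Order Ordinal

namespace Club

variable {κ : Cardinal.{u}}

/-- fewer than `κ` elements are bounded -/
theorem bound (hκ : κ.IsRegular) {W : Type u} (hW : #W < κ) (f : W → κ.ord.ToType) :
    ∃ b : κ.ord.ToType, ∀ w, f w < b := by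
  have hb : (⨆ w, (((f w).toOrd : Ordinal.{u}) + 1)) < κ.ord :=
    iSup_add_one_lt_of_lt_cof (by rw [hκ.cof_ord]; exact hW) (fun w => (f w).toOrd.2)
  refine ⟨ToType.mk ⟨_, hb⟩, fun w => ?_⟩
  have h0 : ((f w).toOrd : Ordinal.{u}) < ⨆ w, (((f w).toOrd : Ordinal.{u}) + 1) :=
    lt_of_lt_of_le (lt_add_one _)
      (le_ciSup (f := fun w => ((f w).toOrd : Ordinal.{u}) + 1) Ordinal.bddAbove_of_small w)
  have h1 : (f w).toOrd < (⟨_, hb⟩ : Set.Iio κ.ord) := h0
  have h2 := (ToType.mk (o := κ.ord)).lt_iff_lt.2 h1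
  rwa [ToType.toOrd, OrderIso.apply_symm_apply] at h2

theorem exists_gt (hκ : κ.IsRegular) (x : κ.ord.ToType) : ∃ y, x < y := by
  obtain ⟨b, hb⟩ := bound hκ (W := PUnit.{u + 1}) (by
    rw [mk_punit]
    exact one_lt_aleph0.trans_le hκ.aleph0_le) (fun _ => x)
  exact ⟨b, hb PUnit.unit⟩

theorem mk_Iic_lt (hκ : κ.IsRegular) (x : κ.ord.ToType) : #(Set.Iic x) < κ := by
  obtain ⟨y, hy⟩ := exists_gt hκ x
  refine lt_of_le_of_lt (mk_le_mk_of_subset (fun z hz => lt_of_le_of_lt hz hy)) (mk_Iio_toType_ord_lt y)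

/-- The club filter on `κ`: the sets that contain the (non-minimal) closed points of some function. -/
def club (κ : Cardinal.{u}) : Filter κ.ord.ToType where
  sets := {S | ∃ h : κ.ord.ToType → κ.ord.ToType, ∀ x, (∃ y, y < x) → (∀ y < x, h y < x) → x ∈ S}
  univ_sets := ⟨id, fun _ _ _ => trivial⟩
  sets_of_superset := by
    rintro S T ⟨h, hh⟩ hST
    exact ⟨h, fun x h1 h2 => hST (hh x h1 h2)⟩
  inter_sets := by
    rintro S T ⟨h, hh⟩ ⟨h', hh'⟩
    exact ⟨fun y => max (h y) (h' y), fun x h1 h2 =>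
      ⟨hh x h1 fun y hy => (le_max_left _ _).trans_lt (h2 y hy),
        hh' x h1 fun y hy => (le_max_right _ _).trans_lt (h2 y hy)⟩⟩

theorem mem_club {S : Set κ.ord.ToType} : S ∈ club κ ↔
    ∃ h : κ.ord.ToType → κ.ord.ToType, ∀ x, (∃ y, y < x) → (∀ y < x, h y < x) → x ∈ S := Iff.rfl

theorem club_neBot (hκ : κ.IsRegular) (hω : ℵ₀ < κ) : (club κ).NeBot := by
  refine ⟨fun hbot => ?_⟩
  have hemp : (∅ : Set κ.ord.ToType) ∈ club κ := by rw [hbot]; exact mem_bot
  obtain ⟨h, hh⟩ := mem_club.1 hemp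
  obtain ⟨x0⟩ : Nonempty κ.ord.ToType := by
    rw [← mk_ne_zero_iff, mk_ord_toType]
    exact (aleph0_pos.trans_le hκ.aleph0_le).ne'
  have hnext : ∀ x : κ.ord.ToType, ∃ z, x < z ∧ ∀ y ≤ x, h y < z := by
    intro x
    obtain ⟨b, hb⟩ := bound hκ (mk_Iic_lt hκ x) (fun y : Set.Iic x => max (h y.1) x)
    exact ⟨b, lt_of_le_of_lt (le_max_right _ _) (hb ⟨x, Set.mem_Iic.2 le_rfl⟩),
      fun y hy => lt_of_le_of_lt (le_max_left _ _) (hb ⟨y, Set.mem_Iic.2 hy⟩)⟩
  choose nx hnx1 hnx2 using hnext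
  obtain ⟨X, hX0, hXs⟩ : ∃ X : ℕ → κ.ord.ToType, X 0 = x0 ∧ ∀ n, X (n + 1) = nx (X n) :=
    ⟨fun n => nx^[n] x0, rfl, fun n => Function.iterate_succ_apply' _ _ _⟩
  obtain ⟨b, hb⟩ := bound hκ (W := ULift.{u} ℕ) (by rw [mk_uLift, mk_nat, lift_aleph0]; exact hω)
    (fun n => X n.down)
  have hne : {b : κ.ord.ToType | ∀ n, X n < b}.Nonempty := ⟨b, fun n => hb ⟨n⟩⟩
  obtain ⟨x, hx⟩ : ∃ x, x = WellFounded.min (wellFounded_lt (α := κ.ord.ToType)) _ hne := ⟨_, rfl⟩
  have hxm : ∀ n, X n < x := by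
    rw [hx]
    exact WellFounded.min_mem wellFounded_lt _ hne
  refine hh x ⟨X 0, hxm 0⟩ fun y hy => ?_
  have hy' : ¬ ∀ n, X n < y := by
    intro hc
    rw [hx] at hy
    exact WellFounded.not_lt_min wellFounded_lt {b : κ.ord.ToType | ∀ n, X n < b} (show y ∈ {b : κ.ord.ToType | ∀ n, X n < b} from hc) hy
  push Not at hy'
  obtain ⟨n, hn⟩ := hy'
  have h1 := hnx2 (X n) y hn
  rw [← hXs] at h1
  exact h1.trans (hxm (n + 1))

theorem club_tail (w : κ.ord.ToType) : ∀ᶠ x in club κ, w < x := by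
  refine mem_club.2 ⟨fun _ => w, fun x h1 h2 => ?_⟩
  obtain ⟨y, hy⟩ := h1
  exact h2 y hy

theorem club_omega (hκ : κ.IsRegular) (hω : ℵ₀ < κ) : OmegaComplete (club κ) := by
  intro S hS
  choose h hh using fun n => mem_club.1 (hS n)
  have hb : ∀ y, ∃ b, ∀ n, h n y < b := by
    intro y
    obtain ⟨b, hb⟩ := bound hκ (W := ULift.{u} ℕ) (by rw [mk_uLift, mk_nat, lift_aleph0]; exact hω)
      (fun n => h n.down y)
    exact ⟨b, fun n => hb ⟨n⟩⟩
  choose H hH using hb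
  refine mem_club.2 ⟨H, fun x h1 h2 n => hh n x h1 fun y hy => (hH y n).trans (h2 y hy)⟩

theorem club_diag (hκ : κ.IsRegular) : QComplete (fun i j : κ.ord.ToType => j < i) (club κ) := by
  intro S hS
  choose h hh using fun w => mem_club.1 (hS w)
  have hb : ∀ y, ∃ b, ∀ w ≤ y, ∀ z ≤ y, h w z < b := by
    intro y
    obtain ⟨b, hb⟩ := bound hκ (W := Set.Iic y × Set.Iic y) (by
      rw [mk_prod, Cardinal.lift_id]
      exact mul_lt_of_lt hκ.aleph0_le (mk_Iic_lt hκ y) (mk_Iic_lt hκ y)) (fun q => h q.1.1 q.2.1)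
    exact ⟨b, fun w hw z hz => hb (⟨w, hw⟩, ⟨z, hz⟩)⟩
  choose H hH using hb
  refine mem_club.2 ⟨H, fun x h1 h2 w hw => hh w x h1 fun y hy => ?_⟩
  exact (hH (max w y) w (le_max_left _ _) y (le_max_right _ _)).trans (h2 _ (max_lt hw hy))

end Club

/-- The cobounded filter of a regular uncountable cardinal, restricted to any unbounded set, has a proper extension
that is fine, closed under countable intersections and diagonally complete. -/
theorem hereditary_atTop {κ : Cardinal.{u}} (hκ : κ.IsRegular) (hω : ℵ₀ < κ) (Y : Set κ.ord.ToType)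
    (hY : ∃ᶠ i in atTop, i ∈ Y) :
    ∃ (Q : κ.ord.ToType → κ.ord.ToType → Prop) (D' : Filter κ.ord.ToType), D' ≤ atTop ⊓ 𝓟 Y ∧
      D'.NeBot ∧ (∀ w, ∀ᶠ i in atTop ⊓ 𝓟 Y, Q i w) ∧ OmegaComplete D' ∧ QComplete Q D' := by
  have : Nonempty κ.ord.ToType := by
    rw [← mk_ne_zero_iff, mk_ord_toType]
    exact (aleph0_pos.trans_le hκ.aleph0_le).ne'
  have hcard : κ ≤ #Y := by
    by_contra hc
    rw [not_le] at hc
    obtain ⟨b, hb⟩ := Club.bound hκ hc (fun y : Y => y.1)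
    obtain ⟨y, hy, hyY⟩ := frequently_atTop.1 hY b
    exact absurd (hb ⟨y, hyY⟩) (not_lt_of_ge hy)
  obtain ⟨e, he, heY⟩ := exists_strictMono_mem Y hcard
  have := Club.club_neBot hκ hω
  refine ⟨fun i w => e w < i, Filter.map e (Club.club κ), le_inf ?_ ?_, inferInstance, ?_, ?_, ?_⟩
  · refine tendsto_atTop.2 fun b => ?_
    filter_upwards [Club.club_tail b] with x hx
    exact hx.le.trans he.le_apply
  · rw [le_principal_iff, mem_map]
    exact univ_mem' heY
  · intro w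
    obtain ⟨b, hb⟩ := Club.exists_gt hκ (e w)
    filter_upwards [(eventually_ge_atTop b).filter_mono inf_le_left] with i hi
    exact lt_of_lt_of_le hb hi
  · intro S hS
    exact Club.club_omega hκ hω (fun n => e ⁻¹' S n) hS
  · intro S hS
    have h1 := Club.club_diag hκ (fun w => e ⁻¹' S w) hS
    rw [mem_map]
    filter_upwards [h1] with x hx w hw
    exact hx w (he.lt_iff_lt.1 hw)

end Pool.Agent.RPDepth
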