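import Mathlib

/-! # Cofinalities between two alephs -/

set_option autoImplicit false

namespace Pool.Agent.RPDepth

open Cardinal Ordinal

universe u

/-- a cardinal in `(ℵ_o, ℵ_{o+α}]` with `|α| < θ` has cofinality below `θ` or above `ℵ_o` -/
theorem cof_between (o α : Ordinal.{u}) (θ : Cardinal.{u}) (_hθ : ℵ₀ ≤ θ) (hα : α.card < θ)
    (t : Cardinal.{u}) (h1 : ℵ_ o < t) (h2 : t ≤ ℵ_ (o + α)) :
    t.ord.cof < θ ∨ ℵ_ o < t.ord.cof := by
  have ht : ℵ₀ ≤ t := (aleph0_le_aleph o).trans h1.le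
  obtain ⟨b, rfl⟩ : ∃ b, ℵ_ b = t := by
    have h3 : t ∈ Set.range aleph := by
      rw [range_aleph]
      exact ht
    exact h3
  have hob : o < b := aleph_lt_aleph.1 h1
  have hb2 : b ≤ o + α := aleph_le_aleph.1 h2
  rcases Ordinal.zero_or_succ_or_isSuccLimit b with h0 | ⟨c, rfl⟩ | hl
  · exact absurd hob (by rw [h0]; exact not_lt_bot)
  · right
    rw [(isRegular_aleph_succ c).cof_ord]
    exact h1
  · left
    have hd : b = o + (b - o) := (Ordinal.add_sub_cancel_of_le hob.le).symm
    have hd0 : b - o ≠ 0 := by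
      intro h
      rw [h, add_zero] at hd
      exact hob.ne' hd
    have hdα : b - o ≤ α := by
      rw [Ordinal.sub_le]
      exact hb2
    rw [ord_aleph, cof_omega hl, hd, cof_add o hd0]
    exact ((cof_le_card _).trans (card_le_card hdα)).trans_lt hα

end Pool.Agent.RPDepth
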