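import Mathlib

/-!
# Strictly increasing sequences in reduced products of ordered sets
-/

set_option autoImplicit false

namespace Pool.Agent.RPDepth

universe u

open Cardinal Filter Order Ordinal

/-- `Depth⁺(P)`: the least cardinal `c` for which there is no strictly increasing sequence of
length `c` in `P`. -/
noncomputable def depthPlus (P : Type u) [Preorder P] : Cardinal.{u} :=
  sInf {c | ¬ ∃ h : c.ord.ToType → P, StrictMono h}

/-- The elements of the product of the `B i`, to be compared modulo the filter `D`. -/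
def RedProd {ι : Type u} (_D : Filter ι) (B : ι → Type u) : Type u := ∀ i, B i

/-- The reduced product `∏ B i / D` as a preorder: `f ≤ g` if `{i | f i ≤ g i} ∈ D`; so `f < g` if
`{i | f i ≤ g i} ∈ D` and `{i | g i ≤ f i} ∉ D`. -/
instance {ι : Type u} (D : Filter ι) (B : ι → Type u) [∀ i, Preorder (B i)] :
    Preorder (RedProd D B) where
  le f g := ∀ᶠ i in D, f i ≤ g i
  le_refl f := Eventually.of_forall fun i => le_rfl
  le_trans f g h h1 h2 := by filter_upwards [h1, h2] with i a b using a.trans b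

/-- The cardinal `T_D(lam)`: the supremum of the sizes of the families of functions in `∏ lam i`
any two distinct members of which differ at `D`-almost all `i`. -/
noncomputable def TD {ι : Type u} (D : Filter ι) (lam : ι → Cardinal.{u}) : Cardinal.{u} :=
  ⨆ F : {F : Set (∀ i, (lam i).ord.ToType) //
    ∀ f ∈ F, ∀ g ∈ F, f ≠ g → ∀ᶠ i in D, f i ≠ g i}, #F.1

theorem exists_chain_of_lt {P : Type u} [Preorder P] {c : Cardinal.{u}} (h : c < depthPlus P) :
    ∃ k : c.ord.ToType → P, StrictMono k := by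
  by_contra hc
  exact absurd (csInf_le' hc) (not_le_of_gt h)

theorem lt_depthPlus {P : Type u} [Preorder P] {c : Cardinal.{u}}
    (h : ∃ k : c.ord.ToType → P, StrictMono k) : c < depthPlus P := by
  have hne : {c : Cardinal.{u} | ¬ ∃ h : c.ord.ToType → P, StrictMono h}.Nonempty := by
    refine ⟨succ #P, ?_⟩
    rintro ⟨k, hk⟩
    have := mk_le_of_injective hk.injective
    rw [mk_ord_toType] at this
    exact absurd this (not_le_of_gt (lt_succ _))
  have hmem := csInf_mem hne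
  by_contra hle
  have hle' : depthPlus P ≤ c := not_lt.1 hle
  apply hmem
  obtain ⟨k, hk⟩ := h
  obtain ⟨e⟩ : Nonempty ((depthPlus P).ord.ToType ≤i c.ord.ToType) := by
    rw [← Ordinal.type_le_iff]
    simpa using hle'
  exact ⟨k ∘ e, hk.comp e.strictMono⟩

/-- chains from ordinal valued functions -/
theorem chain_of {ι : Type u} {D : Filter ι} [D.NeBot] {B : ι → Type u} [∀ i, Preorder (B i)]
    {lam : ι → Cardinal.{u}} (h : ∀ i, ∃ c : (lam i).ord.ToType → B i, StrictMono c)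
    {W : Type u} [LinearOrder W] (G : W → ι → Ordinal.{u}) (hG : ∀ w i, G w i < (lam i).ord)
    (hmono : ∀ v w, v < w → ∀ᶠ i in D, G v i < G w i) :
    ∃ k : W → RedProd D B, StrictMono k := by
  choose c hc using h
  refine ⟨fun w i => c i (ToType.mk ⟨G w i, hG w i⟩), fun v w hvw => ?_⟩
  have h2 : ∀ᶠ i in D, c i (ToType.mk ⟨G v i, hG v i⟩) < c i (ToType.mk ⟨G w i, hG w i⟩) := by
    filter_upwards [hmono v w hvw] with i hi
    exact hc i (ToType.mk.lt_iff_lt.2 hi)
  refine lt_iff_le_not_ge.2 ⟨h2.mono fun i hi => hi.le, fun h3 => ?_⟩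
  have h3' : ∀ᶠ i in D, c i (ToType.mk ⟨G w i, hG w i⟩) ≤ c i (ToType.mk ⟨G v i, hG v i⟩) := h3
  obtain ⟨i, h4, h5⟩ := (h2.and h3').exists
  exact absurd h4 (not_lt_of_ge h5)

theorem sup_lt {J : Type u} {χ : Cardinal.{u}} (h0 : ℵ₀ ≤ χ) (hJ : #J ≤ χ) (g : J → Ordinal.{u})
    (hg : ∀ j, g j < (succ χ).ord) : ∃ b : Ordinal.{u}, b < (succ χ).ord ∧ ∀ j, g j < b := by
  have hr : (succ χ).IsRegular := isRegular_succ h0
  refine ⟨⨆ j, (g j + 1), ?_, fun j => ?_⟩
  · exact iSup_add_one_lt_of_lt_cof (by rw [hr.cof_ord]; exact lt_succ_of_le hJ) hg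
  · exact lt_of_lt_of_le (lt_add_one _) (le_ciSup Ordinal.bddAbove_of_small j)

/-- families of at most `L` functions are bounded modulo `D` -/
theorem exists_bound {ι : Type u} {D : Filter ι} {L : Cardinal.{u}} {ρ : ι → Cardinal.{u}}
    (hρ : ∀ i, ℵ₀ ≤ ρ i) (hlim : ∀ ν < L, ∀ᶠ i in D, ν < ρ i)
    {J : Type u} (hJ : #J ≤ L) (g : J → ι → Ordinal.{u}) (hg : ∀ j i, g j i < (succ (ρ i)).ord) :
    ∃ g' : ι → Ordinal.{u}, (∀ i, g' i < (succ (ρ i)).ord) ∧ ∀ j, ∀ᶠ i in D, g j i < g' i := by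
  obtain ⟨e⟩ : Nonempty (J ↪ L.ord.ToType) := by
    rw [← Cardinal.le_def, mk_ord_toType]; exact hJ
  have hr : ∀ j, ((e j).toOrd : Ordinal.{u}).card < L := fun j => lt_ord.1 (e j).toOrd.2
  have hU : ∀ i, #{j : J // ((e j).toOrd : Ordinal.{u}).card < ρ i} ≤ ρ i := by
    intro i
    have h1 : Function.Injective
        (fun j : {j : J // ((e j).toOrd : Ordinal.{u}).card < ρ i} =>
          (ToType.mk ⟨((e j.1).toOrd : Ordinal.{u}), lt_ord.2 j.2⟩ : (ρ i).ord.ToType)) := by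
      intro j j' hjj
      have h2 := ToType.mk.injective hjj
      have h3 : ((e j.1).toOrd : Ordinal.{u}) = ((e j'.1).toOrd : Ordinal.{u}) :=
        Subtype.mk.inj h2
      exact Subtype.ext (e.injective (ToType.mk.symm.injective (Subtype.ext h3)))
    have h2 := mk_le_of_injective h1
    rwa [mk_ord_toType] at h2
  have h3 : ∀ i, ∃ b : Ordinal.{u}, b < (succ (ρ i)).ord ∧
      ∀ j : {j : J // ((e j).toOrd : Ordinal.{u}).card < ρ i}, g j.1 i < b :=
    fun i => sup_lt (hρ i) (hU i) (fun j => g j.1 i) (fun j => hg j.1 i)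
  choose b hb hb' using h3
  refine ⟨b, hb, fun j => ?_⟩
  filter_upwards [hlim _ (hr j)] with i hi
  exact hb' i ⟨j, hi⟩

theorem exists_chain {ι : Type u} {D : Filter ι} {L : Cardinal.{u}} {ρ : ι → Cardinal.{u}}
    (hρ : ∀ i, ℵ₀ ≤ ρ i) (hlim : ∀ ν < L, ∀ᶠ i in D, ν < ρ i) :
    ∃ G : (succ L).ord.ToType → ι → Ordinal.{u}, (∀ w i, G w i < (succ (ρ i)).ord) ∧
      ∀ v w, v < w → ∀ᶠ i in D, G v i < G w i := by
  have step : ∀ (w : (succ L).ord.ToType)
      (f : ∀ v, v < w → {g : ι → Ordinal.{u} // ∀ i, g i < (succ (ρ i)).ord}),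
      ∃ g : {g : ι → Ordinal.{u} // ∀ i, g i < (succ (ρ i)).ord},
        ∀ v (hv : v < w), ∀ᶠ i in D, (f v hv).1 i < g.1 i := by
    intro w f
    have hJ : #{v : (succ L).ord.ToType // v < w} ≤ L := by
      have h1 := mk_Iio_lt w (by simp)
      rw [mk_ord_toType] at h1
      exact lt_succ_iff.1 h1
    obtain ⟨g, hg, h⟩ := exists_bound hρ hlim hJ (fun v => (f v.1 v.2).1)
      (fun v i => (f v.1 v.2).2 i)
    exact ⟨⟨g, hg⟩, fun v hv => h ⟨v, hv⟩⟩
  choose F hF using step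
  let H : (succ L).ord.ToType → {g : ι → Ordinal.{u} // ∀ i, g i < (succ (ρ i)).ord} :=
    (wellFounded_lt (α := (succ L).ord.ToType)).fix F
  have hH : ∀ w, H w = F w (fun v _ => H v) := fun w => WellFounded.fix_eq _ _ w
  refine ⟨fun w => (H w).1, fun w i => (H w).2 i, fun v w hvw => ?_⟩
  have h1 := hF w (fun v _ => H v) v hvw
  rw [← hH w] at h1
  exact h1

theorem power_succ_le {ι : Type u} (χ : Cardinal.{u}) (h : #ι ≤ χ) (h0 : ℵ₀ ≤ χ) :
    (succ χ) ^ #ι ≤ succ χ * χ ^ #ι := by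
  have key : ∀ g : ι → (succ χ).ord.ToType, ∃ b : (succ χ).ord.ToType, ∀ i, g i < b := by
    intro g
    obtain ⟨b, hb, hb'⟩ := sup_lt h0 h (fun i => ((g i).toOrd : Ordinal.{u}))
      (fun i => (g i).toOrd.2)
    refine ⟨ToType.mk ⟨b, hb⟩, fun i => ?_⟩
    have h1 : (g i).toOrd < (⟨b, hb⟩ : Set.Iio (succ χ).ord) := hb' i
    have h2 := (ToType.mk (o := (succ χ).ord)).lt_iff_lt.2 h1
    rwa [ToType.toOrd, OrderIso.apply_symm_apply] at h2
  choose b hb using key
  have h1 := mk_le_mk_mul_of_mk_preimage_le (c := χ ^ #ι) b (fun w => ?_)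
  · rwa [← power_def, mk_ord_toType] at h1
  · have h2 : Function.Injective (fun (g : b ⁻¹' {w}) (i : ι) =>
        (⟨g.1 i, by have := hb g.1 i; rwa [g.2] at this⟩ : Set.Iio w)) := by
      intro g g' hgg
      apply Subtype.ext
      funext i
      exact congrArg Subtype.val (congrFun hgg i)
    refine (mk_le_of_injective h2).trans ?_
    rw [← power_def]
    apply power_le_power_right
    have h3 := mk_Iio_lt w (by simp)
    rw [mk_ord_toType] at h3
    exact lt_succ_iff.1 h3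

theorem eq_of_eqOn {ι : Type u} {D : Filter ι} {X : ι → Type u} {F : Set (∀ i, X i)}
    (hF : ∀ f ∈ F, ∀ g ∈ F, f ≠ g → ∀ᶠ i in D, f i ≠ g i) {S : Set ι} (hS : ∃ᶠ i in D, i ∈ S)
    {f g : ∀ i, X i} (hf : f ∈ F) (hg : g ∈ F) (h : ∀ i ∈ S, f i = g i) : f = g := by
  by_contra hne
  obtain ⟨i, hi, hne'⟩ := (hS.and_eventually (hF f hf g hg hne)).exists
  exact hne' (h i hi)

theorem card_le {ι : Type u} {D : Filter ι} {lam : ι → Cardinal.{u}}
    {F : Set (∀ i, (lam i).ord.ToType)}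
    (hF : ∀ f ∈ F, ∀ g ∈ F, f ≠ g → ∀ᶠ i in D, f i ≠ g i)
    {S : Set ι} (hS : ∃ᶠ i in D, i ∈ S) {c : Cardinal.{u}} (hc : c ≠ 0)
    (h : ∀ f ∈ F, ∀ i ∈ S, ((f i).toOrd : Ordinal.{u}) < c.ord) : #F ≤ c ^ #ι := by
  classical
  have : Nonempty c.ord.ToType := by
    rw [← mk_ne_zero_iff, mk_ord_toType]; exact hc
  let φ : F → (ι → c.ord.ToType) := fun f i =>
    if hi : i ∈ S then ToType.mk ⟨((f.1 i).toOrd : Ordinal.{u}), h f.1 f.2 i hi⟩
    else Classical.arbitrary _
  have hφ : Function.Injective φ := by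
    intro f g hfg
    apply Subtype.ext
    apply eq_of_eqOn hF hS f.2 g.2
    intro i hi
    have h1 := congrFun hfg i
    simp only [φ, dif_pos hi] at h1
    have h2 := ToType.mk.injective h1
    have h3 : ((f.1 i).toOrd : Ordinal.{u}) = ((g.1 i).toOrd : Ordinal.{u}) := Subtype.mk.inj h2
    exact ToType.mk.symm.injective (Subtype.ext h3)
  have h4 := mk_le_of_injective hφ
  rwa [← power_def, mk_ord_toType] at h4

/-- a large family has a member whose values are cofinal -/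
theorem exists_good {ι : Type u} [Infinite ι] {D : Filter ι} {lam : ι → Cardinal.{u}}
    {L : Cardinal.{u}} (h2 : 2 ^ #ι ≤ L) (H1 : ∀ ν < L, ν ^ #ι ≤ L)
    {F : Set (∀ i, (lam i).ord.ToType)}
    (hF : ∀ f ∈ F, ∀ g ∈ F, f ≠ g → ∀ᶠ i in D, f i ≠ g i) (hlt : L < #F) :
    ∃ f ∈ F, ∀ ν < L, ∀ᶠ i in D, ν < max (2 ^ #ι) ((f i).toOrd : Ordinal.{u}).card := by
  have hι : ℵ₀ ≤ #ι := aleph0_le_mk ι
  have hκ : #ι < 2 ^ #ι := cantor _
  have hL : ℵ₀ ≤ L := hι.trans (hκ.le.trans h2)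
  by_contra hcon
  push Not at hcon
  have hcon' : ∀ f : F, ∃ ν < L, ∃ᶠ i in D,
      max (2 ^ #ι) ((f.1 i).toOrd : Ordinal.{u}).card ≤ ν := by
    intro f
    obtain ⟨ν, h1, h3⟩ := hcon f.1 f.2
    exact ⟨ν, h1, by simpa [Filter.not_eventually] using h3⟩
  choose ν hνL hν using hcon'
  let ψ : F → L.ord.ToType × Set ι := fun f =>
    (ToType.mk ⟨(ν f).ord, ord_lt_ord.2 (hνL f)⟩,
      {i | max (2 ^ #ι) ((f.1 i).toOrd : Ordinal.{u}).card ≤ ν f})
  have hle := mk_le_mk_mul_of_mk_preimage_le (c := L) ψ (fun b => ?_)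
  · have h5 : #F ≤ L := by
      refine hle.trans ?_
      rw [mk_prod, Cardinal.lift_id, Cardinal.lift_id, mk_ord_toType, mk_set]
      calc L * 2 ^ #ι * L ≤ L * L * L := by gcongr
        _ = L := by rw [mul_eq_self hL, mul_eq_self hL]
    exact absurd h5 (not_le_of_gt hlt)
  · by_cases hne : (ψ ⁻¹' {b}).Nonempty
    · obtain ⟨f0, hf0⟩ := hne
      have hfib : ∀ f ∈ ψ ⁻¹' {b}, ν f = ν f0 ∧
          {i | max (2 ^ #ι) ((f.1 i).toOrd : Ordinal.{u}).card ≤ ν f} =
            {i | max (2 ^ #ι) ((f0.1 i).toOrd : Ordinal.{u}).card ≤ ν f0} := by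
        intro f hf
        have h6 : ψ f = ψ f0 := by
          rw [Set.mem_preimage, Set.mem_singleton_iff] at hf hf0
          rw [hf, hf0]
        have h7 := ToType.mk.injective (congrArg Prod.fst h6)
        exact ⟨ord_injective (Subtype.mk.inj h7), congrArg Prod.snd h6⟩
      have hκν : 2 ^ #ι ≤ ν f0 := by
        obtain ⟨i, hi⟩ := (hν f0).exists
        exact (le_max_left _ _).trans hi
      have h8 : #(Subtype.val '' (ψ ⁻¹' {b})) ≤ (succ (ν f0)) ^ #ι := by
        refine card_le (D := D)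
          (S := {i | max (2 ^ #ι) ((f0.1 i).toOrd : Ordinal.{u}).card ≤ ν f0}) ?_ (hν f0)
          (bot_le.trans_lt (lt_succ (ν f0))).ne' ?_
        · rintro _ ⟨f, -, rfl⟩ _ ⟨g, -, rfl⟩ hne
          exact hF f.1 f.2 g.1 g.2 hne
        · rintro _ ⟨f, hf, rfl⟩ i hi
          have h9 := (hfib f hf).2
          have h10 : i ∈ {i | max (2 ^ #ι) ((f.1 i).toOrd : Ordinal.{u}).card ≤ ν f} := by
            rw [h9]; exact hi
          rw [lt_ord]
          refine lt_succ_of_le ?_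
          rw [← (hfib f hf).1]
          exact (le_max_right _ _).trans h10
      rw [mk_image_eq Subtype.val_injective] at h8
      refine h8.trans ?_
      have h11 : succ (ν f0) ≤ L := succ_le_of_lt (hνL f0)
      calc (succ (ν f0)) ^ #ι ≤ succ (ν f0) * (ν f0) ^ #ι :=
            power_succ_le _ (hκ.le.trans hκν) (hι.trans (hκ.le.trans hκν))
        _ ≤ L * L := by
            gcongr
            exact H1 _ (hνL f0)
        _ = L := mul_eq_self hL
    · rw [Set.not_nonempty_iff_eq_empty.1 hne]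
      simp

section main

variable {ι : Type u} (D : Filter ι) [D.NeBot]
  (B : ι → Type u) [∀ i, Preorder (B i)] (lam : ι → Cardinal.{u})

theorem liminf_facts (h2 : ∀ i, 2 ^ #ι < lam i) :
    2 ^ #ι < liminf lam D ∧ (∃ᶠ i in D, lam i ≤ liminf lam D) ∧
      ∀ ν < liminf lam D, ∀ᶠ i in D, ν < lam i := by
  have hcob : IsCoboundedUnder (· ≥ ·) D lam := by
    refine ⟨⨆ i, lam i, fun a ha => ?_⟩
    obtain ⟨i, hi⟩ := (show ∀ᶠ x in D, a ≤ lam x from ha).exists
    exact hi.trans (le_ciSup Cardinal.bddAbove_of_small i)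
  refine ⟨?_, ?_, fun ν hν => eventually_lt_of_lt_liminf hν⟩
  · exact (lt_succ _).trans_le (le_liminf_of_le hcob
      (Eventually.of_forall fun i => succ_le_of_lt (h2 i)))
  · have h1 := frequently_lt_of_liminf_lt hcob (lt_succ (liminf lam D))
    exact h1.mono fun i hi => lt_succ_iff.1 hi

theorem lt_depth [Infinite ι] (h2 : ∀ i, 2 ^ #ι < lam i) (hB : ∀ i, lam i < depthPlus (B i))
    (H1 : ∀ ν < liminf lam D, ν ^ #ι ≤ liminf lam D)
    (H2 : (liminf lam D) ^ #ι ≤ succ (liminf lam D)) :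
    TD D lam < depthPlus (RedProd D B) := by
  classical
  obtain ⟨hL, hfreq, hev⟩ := liminf_facts D lam h2
  have hch := fun i => exists_chain_of_lt (hB i)
  have hι : ℵ₀ ≤ #ι := aleph0_le_mk ι
  have hκ : #ι < 2 ^ #ι := cantor _
  by_cases hbig : ∃ F : Set (∀ i, (lam i).ord.ToType),
      (∀ f ∈ F, ∀ g ∈ F, f ≠ g → ∀ᶠ i in D, f i ≠ g i) ∧ liminf lam D < #F
  · obtain ⟨F, hF, hlt⟩ := hbig
    obtain ⟨f, hfF, hf⟩ := exists_good hL.le H1 hF hlt
    obtain ⟨G, hG, hmono⟩ := exists_chain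
      (ρ := fun i => max (2 ^ #ι) ((f i).toOrd : Ordinal.{u}).card)
      (fun i => hι.trans (hκ.le.trans (le_max_left _ _))) hf
    have hGl : ∀ w i, G w i < (lam i).ord := by
      intro w i
      refine (hG w i).trans_le (ord_le_ord.2 (succ_le_of_lt (max_lt (h2 i) ?_)))
      exact lt_ord.1 (f i).toOrd.2
    have h3 := lt_depthPlus (chain_of hch G hGl hmono)
    refine lt_of_le_of_lt ?_ h3
    refine ciSup_le' fun F => ?_
    refine (card_le (D := D) (S := {i | lam i ≤ liminf lam D}) F.2 hfreq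
      (bot_le.trans_lt hL).ne' ?_).trans H2
    intro g _ i hi
    exact (g i).toOrd.2.trans_le (ord_le_ord.2 hi)
  · have h3 : TD D lam ≤ liminf lam D := by
      refine ciSup_le' fun F => ?_
      by_contra hcon
      exact hbig ⟨F.1, F.2, not_le.1 hcon⟩
    refine lt_of_le_of_lt h3 (lt_depthPlus (chain_of hch
      (fun (w : (liminf lam D).ord.ToType) i =>
        if ((w.toOrd : Ordinal.{u}) < (lam i).ord) then (w.toOrd : Ordinal.{u}) else 0)
      ?_ ?_))
    · intro w i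
      split_ifs with h
      · exact h
      · exact ord_pos.2 (bot_le.trans_lt (h2 i))
    · intro v w hvw
      have hvw' : (v.toOrd : Ordinal.{u}) < (w.toOrd : Ordinal.{u}) :=
        ToType.mk.symm.lt_iff_lt.2 hvw
      have h4 : ((w.toOrd : Ordinal.{u})).card < liminf lam D := lt_ord.1 w.toOrd.2
      filter_upwards [hev _ h4] with i hi
      have h5 : (w.toOrd : Ordinal.{u}) < (lam i).ord := lt_ord.2 hi
      rw [if_pos h5, if_pos (hvw'.trans h5)]
      exact hvw'

end main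

end Pool.Agent.RPDepth
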