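import Pool.Agent.RPDepth.TauF

/-!
# Minimal pairs and long chains
-/

set_option autoImplicit false

namespace Pool.Agent.RPDepth

universe u

open Cardinal Filter Order Ordinal

/-- `T_{D+A}(g) ≥ χ`, witnessed by a family: `A` is `D`-positive and there are `χ` functions that
are less than `g` on `A` and any two of which differ at `D`-almost all members of `A`. -/
def Big {ι : Type u} (D : Filter ι) (χ : Cardinal.{u}) (g : ι → Ordinal.{u}) (A : Set ι) : Prop :=
  (∃ᶠ i in D, i ∈ A) ∧ ∃ f : χ.ord.ToType → ι → Ordinal.{u},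
    (∀ v, ∀ i ∈ A, f v i < g i) ∧ ∀ v w, v ≠ w → ∀ᶠ i in D, i ∈ A → f v i ≠ f w i

/-- A minimal pair gives a chain. -/
theorem chain_of_minimal {ι : Type u} {D : Filter ι} {χ : Cardinal.{u}} (hχ : χ.IsRegular)
    (h2 : 2 ^ #ι < χ) {g : ι → Ordinal.{u}} {A : Set ι} (hbig : Big D χ g A)
    (hmin : ∀ (g' : ι → Ordinal.{u}) (A' : Set ι), A' ⊆ A → (∀ i ∈ A', g' i < g i) →
      ¬ Big D χ g' A') :
    ∃ G : χ.ord.ToType → ι → Ordinal.{u}, (∀ w, ∀ i ∈ A, G w i < g i) ∧
      ∀ v w, v < w → ∀ᶠ i in D, i ∈ A → G v i < G w i := by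
  classical
  obtain ⟨hA, f, hf, hne⟩ := hbig
  let Bad : χ.ord.ToType → Set χ.ord.ToType := fun v => {w | ∃ᶠ i in D, i ∈ A ∧ f w i ≤ f v i}
  have hinj : Function.Injective f := by
    intro v w hvw
    by_contra hcon
    obtain ⟨i, hi, hi'⟩ := (hA.and_eventually (hne v w hcon)).exists
    exact hi' hi (congrFun hvw i)
  -- few functions are bad for `f v`
  have hbad : ∀ v, #(Bad v) < χ := by
    intro v
    by_contra hcon
    have hcon' : χ ≤ #(Bad v) := not_lt.1 hcon
    let Bad' : Set χ.ord.ToType := Bad v \ {v}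
    have h3 : χ ≤ #(Bad' : Set χ.ord.ToType) := by
      by_contra h4
      have h5 : #(Bad v) ≤ #(Bad' : Set χ.ord.ToType) + #({v} : Set χ.ord.ToType) := by
        refine (mk_le_mk_of_subset ?_).trans (mk_union_le _ _)
        intro w hw
        by_cases hwv : w = v
        · exact Or.inr hwv
        · exact Or.inl ⟨hw, hwv⟩
      have h6 : #(Bad' : Set χ.ord.ToType) + #({v} : Set χ.ord.ToType) < χ :=
        add_lt_of_lt hχ.aleph0_le (not_le.1 h4)
          (by rw [mk_singleton]; exact one_lt_aleph0.trans_le hχ.aleph0_le)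
      exact absurd (hcon'.trans h5) (not_le_of_gt h6)
    obtain ⟨A', hA'⟩ := infinite_pigeonhole_card
      (fun w : Bad' => ({i | i ∈ A ∧ f w.1 i < f v i} : Set ι)) χ h3 hχ.aleph0_le
      (by rw [mk_set, hχ.cof_ord]; exact h2)
    obtain ⟨e⟩ : Nonempty (χ.ord.ToType ↪
        ((fun w : Bad' => ({i | i ∈ A ∧ f w.1 i < f v i} : Set ι)) ⁻¹' {A'})) := by
      rw [← Cardinal.le_def, mk_ord_toType]; exact hA'
    have he : ∀ x, {i | i ∈ A ∧ f (e x).1.1 i < f v i} = A' := fun x => (e x).2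
    have hpos : ∃ᶠ i in D, i ∈ A' := by
      have hne0 : Nonempty χ.ord.ToType := ⟨v⟩
      obtain ⟨x⟩ := hne0
      have h7 : ∃ᶠ i in D, i ∈ A ∧ f (e x).1.1 i ≤ f v i := (e x).1.2.1
      have h8 := hne (e x).1.1 v (fun h => (e x).1.2.2 h)
      refine (h7.and_eventually h8).mono fun i hi => ?_
      rw [← he x]
      exact ⟨hi.1.1, lt_of_le_of_ne hi.1.2 (hi.2 hi.1.1)⟩
    refine hmin (f v) A' ?_ ?_ ⟨hpos, fun x => f (e x).1.1, ?_, ?_⟩
    · intro i hi
      rw [← he v] at hi
      exact hi.1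
    · intro i hi
      rw [← he v] at hi
      exact hf v i hi.1
    · intro x i hi
      rw [← he x] at hi
      exact hi.2
    · intro x y hxy
      have h9 : (e x).1.1 ≠ (e y).1.1 := fun h =>
        hxy (e.injective (Subtype.ext (Subtype.ext h)))
      filter_upwards [hne _ _ h9] with i hi hiA
      rw [← he x] at hiA
      exact hi hiA.1
  -- the recursion
  have step : ∀ (w : χ.ord.ToType) (e : ∀ v, v < w → χ.ord.ToType),
      ∃ z : χ.ord.ToType, ∀ v (hv : v < w), z ∉ Bad (e v hv) := by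
    intro w e
    by_contra hcon
    push Not at hcon
    choose p hp hz using hcon
    have hJ : #{v : χ.ord.ToType // v < w} < χ := by
      have h1 := mk_Iio_lt w (by simp)
      rwa [mk_ord_toType] at h1
    obtain ⟨⟨v, hv⟩, h3⟩ := infinite_pigeonhole_card
      (fun z : χ.ord.ToType => (⟨p z, hp z⟩ : {v : χ.ord.ToType // v < w})) χ
      (by rw [mk_ord_toType]) hχ.aleph0_le (by rw [hχ.cof_ord]; exact hJ)
    have h4 : (fun z : χ.ord.ToType => (⟨p z, hp z⟩ : {v : χ.ord.ToType // v < w})) ⁻¹' {⟨v, hv⟩}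
        ⊆ Bad (e v hv) := by
      intro z hz'
      have h5 : p z = v := Subtype.mk.inj hz'
      have h6 := hz z
      subst h5
      exact h6
    exact absurd (h3.trans (mk_le_mk_of_subset h4)) (not_le_of_gt (hbad _))
  choose F hF using step
  let H : χ.ord.ToType → χ.ord.ToType := (wellFounded_lt (α := χ.ord.ToType)).fix F
  have hH : ∀ w, H w = F w (fun v _ => H v) := fun w => WellFounded.fix_eq _ _ w
  refine ⟨fun w => f (H w), fun w i hi => hf _ i hi, fun v w hvw => ?_⟩
  have h1 := hF w (fun v _ => H v) v hvw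
  rw [← hH w] at h1
  have h2 : ¬ ∃ᶠ i in D, i ∈ A ∧ f (H w) i ≤ f (H v) i := h1
  rw [not_frequently] at h2
  filter_upwards [h2] with i hi hiA
  exact not_le.1 fun h => hi ⟨hiA, h⟩

/-- chains from ordinal valued functions, increasing on a positive set -/
theorem chain_of_pos {ι : Type u} {D : Filter ι} {B : ι → Type u} [∀ i, Preorder (B i)]
    {lam : ι → Cardinal.{u}} (h : ∀ i, ∃ c : (lam i).ord.ToType → B i, StrictMono c)
    (hpos : ∀ i, 0 < lam i) {A : Set ι} (hA : ∃ᶠ i in D, i ∈ A)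
    {W : Type u} [LinearOrder W] (G : W → ι → Ordinal.{u}) (hG : ∀ w, ∀ i ∈ A, G w i < (lam i).ord)
    (hmono : ∀ v w, v < w → ∀ᶠ i in D, i ∈ A → G v i < G w i) :
    ∃ k : W → RedProd D B, StrictMono k := by
  classical
  choose c hc using h
  let k : W → RedProd D B := fun w i =>
    if hi : i ∈ A then c i (ToType.mk ⟨G w i, hG w i hi⟩)
    else c i (ToType.mk ⟨0, ord_pos.2 (hpos i)⟩)
  have hlt : ∀ v w, v < w → ∀ i ∈ A, G v i < G w i → k v i < k w i := by
    intro v w hvw i hi h1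
    simp only [k, dif_pos hi]
    exact hc i (ToType.mk.lt_iff_lt.2 h1)
  refine ⟨k, fun v w hvw => ?_⟩
  refine lt_iff_le_not_ge.2 ⟨?_, fun h3 => ?_⟩
  · have h4 : ∀ᶠ i in D, k v i ≤ k w i := by
      filter_upwards [hmono v w hvw] with i hi
      by_cases hiA : i ∈ A
      · exact (hlt v w hvw i hiA (hi hiA)).le
      · simp only [k, dif_neg hiA]
        exact le_rfl
    exact h4
  · have h3' : ∀ᶠ i in D, k w i ≤ k v i := h3
    obtain ⟨i, hiA, h4, h5⟩ := (hA.and_eventually (h3'.and (hmono v w hvw))).exists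
    exact absurd (hlt v w hvw i hiA (h5 hiA)) (not_lt_of_ge h4)

end Pool.Agent.RPDepth
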