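import Pool.Agent.RPDepth.RkDef

/-!
# Directed products: the base of the induction
-/

set_option autoImplicit false

namespace Pool.Agent.RPDepth

universe u

open Cardinal Filter Order Ordinal

/-- If `∏ g / F` is `< χ`-directed and `ν ^ κ < χ`, then `F`-almost all cofinalities of the `g i`
are larger than `ν`. -/
theorem dir_base' {ι : Type u} {F : Filter ι} {g : ι → Ordinal.{u}} {χ : Cardinal.{u}}
    (hFd : ∀ μ < χ, Dir F g Set.univ μ) {ν : Cardinal.{u}} (h0 : ℵ₀ ≤ ν) (hν : ν ^ #ι < χ) :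
    {i | ν < (g i).cof} ∈ F := by
  classical
  -- a function below `g`
  obtain ⟨c0, hc0, -⟩ := hFd 0 (bot_le.trans_lt hν) PEmpty (fun v => v.elim)
    (by simp) (fun v => v.elim)
  have hex : ∀ i, ∃ s : Set (g i).ToType, IsCofinal s ∧ #s = (g i).cof := fun i => by
    obtain ⟨s, hs, hs1⟩ := Order.exists_cof_eq (α := (g i).ToType)
    exact ⟨s, hs, by rw [hs1, cof_toType]⟩
  choose s hs hs1 using hex
  let N : Type u := {i // (g i).cof ≤ ν ∧ g i ≠ 0}
  let V : Type u := ∀ i : N, s i.1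
  let c : V → ι → Ordinal.{u} := fun v i =>
    if hi : (g i).cof ≤ ν ∧ g i ≠ 0 then ((v ⟨i, hi⟩).1.toOrd : Ordinal.{u}) else c0 i
  have hVcard : #V ≤ ν ^ #ι := by
    have h1 : #V = Cardinal.prod fun i : N => #(s i.1) := mk_pi _
    have h2 : #V ≤ Cardinal.prod fun _ : N => ν := by
      rw [h1]
      exact prod_le_prod _ _ fun i => (hs1 i.1).trans_le i.2.1
    rw [prod_const'] at h2
    exact h2.trans (power_le_power_left (aleph0_pos.trans_le h0).ne' (mk_subtype_le _))
  obtain ⟨c', hc', hcc'⟩ := hFd #V (hVcard.trans_lt hν) V c le_rfl (fun v => by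
    filter_upwards [hc0] with i hi _
    by_cases h3 : (g i).cof ≤ ν ∧ g i ≠ 0
    · simp only [c, dif_pos h3]
      exact (v ⟨i, h3⟩).1.toOrd.2
    · simp only [c, dif_neg h3]
      exact hi (Set.mem_univ i))
  -- a member of the family above `c'`
  have hne : ∀ i : N, (c' i.1 < g i.1) → ∃ a : s i.1, c' i.1 ≤ (a.1.toOrd : Ordinal.{u}) := by
    intro i hi
    obtain ⟨a, ha, hle⟩ := hs i.1 (ToType.mk ⟨c' i.1, hi⟩)
    refine ⟨⟨a, ha⟩, ?_⟩
    have h3 := (ToType.mk (o := g i.1)).symm.le_iff_le.2 hle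
    rw [OrderIso.symm_apply_apply] at h3
    exact h3
  have hall : ∀ i : N, Nonempty (s i.1) := by
    intro i
    rw [← mk_ne_zero_iff, hs1, Ne, cof_eq_zero]
    exact i.2.2
  let v : V := fun i => if hi : c' i.1 < g i.1 then (hne i hi).choose else (hall i).some
  filter_upwards [hc', hcc' v] with i h3 h4
  by_contra h5
  have h6 := h3 (Set.mem_univ i)
  have h7 := h4 (Set.mem_univ i)
  have h8 : (g i).cof ≤ ν ∧ g i ≠ 0 := ⟨not_lt.1 h5, (bot_le.trans_lt h6).ne'⟩
  simp only [c, dif_pos h8, v, dif_pos h6] at h7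
  exact absurd (hne ⟨i, h8⟩ h6).choose_spec (not_le_of_gt h7)

/-- `dir_base'` with the filter `D` of the application. -/
theorem dir_base {ι : Type u} {D F : Filter ι} (_hF : F ≤ D) [F.NeBot] {g : ι → Ordinal.{u}}
    {χ : Cardinal.{u}} (hFd : ∀ μ < χ, Dir F g Set.univ μ) {ν : Cardinal.{u}} (h0 : ℵ₀ ≤ ν)
    (hν : ν ^ #ι < χ) : {i | ν < (g i).cof} ∈ F :=
  dir_base' hFd h0 hν

/-- Pointwise suprema. -/
theorem dir_pointwise {ι : Type u} {D : Filter ι} {g : ι → Ordinal.{u}} {A : Set ι}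
    {μ : Cardinal.{u}} (h : ∀ᶠ i in D, i ∈ A → μ < (g i).cof) : Dir D g A μ := by
  classical
  intro V c hV hc
  refine ⟨fun i => ⨆ v, if c v i < g i then c v i + 1 else 0, ?_, fun v => ?_⟩
  · filter_upwards [h] with i hi hiA
    have h1 := hi hiA
    refine iSup_lt_of_lt_cof (hV.trans_lt h1) fun v => ?_
    by_cases h2 : c v i < g i
    · rw [if_pos h2]
      have h3 : 1 ≤ μ := (Cardinal.one_le_iff_ne_zero.2 (mk_ne_zero_iff.2 ⟨v⟩)).trans hV
      exact (one_lt_cof_iff.1 (h3.trans_lt h1)).add_one_lt h2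
    · rw [if_neg h2]
      exact cof_pos.1 (bot_le.trans_lt h1)
  · filter_upwards [hc v] with i hi hiA
    have h1 := hi hiA
    have h2 := Ordinal.le_iSup (fun v => if c v i < g i then c v i + 1 else 0) v
    simp only [if_pos h1] at h2
    exact (lt_add_one _).trans_le h2

end Pool.Agent.RPDepth
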