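import Pool.Agent.RPDepth.RkDef

/-!
# Directed products: singular cardinals, and pseudo-intersections
-/

set_option autoImplicit false

namespace Pool.Agent.RPDepth

universe u

open Cardinal Filter Order Ordinal

theorem dir_singular {ι : Type u} {D : Filter ι} {g : ι → Ordinal.{u}} {A : Set ι}
    {ρ : Cardinal.{u}} (h0 : ℵ₀ ≤ ρ) (hcof : ρ.ord.cof < ρ) (h : ∀ ν < ρ, Dir D g A ν) :
    Dir D g A ρ := by
  intro V c hV hc
  obtain ⟨e⟩ : Nonempty (V ↪ ρ.ord.ToType) := by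
    rw [← Cardinal.le_def, mk_ord_toType]
    exact hV
  obtain ⟨s, hs, hsc⟩ : ∃ s : Set ρ.ord.ToType, IsCofinal s ∧ #s = ρ.ord.cof := by
    obtain ⟨s, hs, hs1⟩ := Order.exists_cof_eq (α := ρ.ord.ToType)
    exact ⟨s, hs, by rw [hs1, cof_toType]⟩
  have hpiece : ∀ x : s, ∃ c' : ι → Ordinal.{u}, (∀ᶠ i in D, i ∈ A → c' i < g i) ∧
      ∀ v, e v ≤ x.1 → ∀ᶠ i in D, i ∈ A → c v i < c' i := by
    intro x
    obtain ⟨y, hy⟩ : ∃ y : Ordinal.{u}, y = (x.1).toOrd.1 := ⟨_, rfl⟩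
    have hy1 : y < ρ.ord := by
      rw [hy]
      exact (x.1).toOrd.2
    have hx : (y + 1).card < ρ := by
      rw [← Cardinal.lt_ord, ← Order.succ_eq_add_one]
      exact (Cardinal.isSuccLimit_ord h0).succ_lt hy1
    obtain ⟨c', h1, h2⟩ := h _ hx {v : V // e v ≤ x.1} (fun v => c v.1) (by
      have h3 : #{v : V // e v ≤ x.1} ≤ #((y + 1).ToType) := by
        rw [Cardinal.le_def]
        refine ⟨⟨fun v => ToType.mk ⟨(e v.1).toOrd.1, ?_⟩, ?_⟩⟩
        · rw [hy]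
          have h5 : (e v.1).toOrd ≤ (x.1).toOrd := ToType.mk.symm.le_iff_le.2 v.2
          have h6 : (e v.1).toOrd.1 ≤ (x.1).toOrd.1 := h5
          exact Set.mem_Iio.2 (Order.lt_add_one_iff.2 h6)
        · intro v w hvw
          have h4 := Subtype.mk.inj (ToType.mk.injective hvw)
          exact Subtype.ext (e.injective (ToType.mk.symm.injective (Subtype.ext h4)))
      rwa [mk_toType] at h3) (fun v => hc v.1)
    exact ⟨c', h1, fun v hv => h2 ⟨v, hv⟩⟩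
  choose b hb1 hb2 using hpiece
  obtain ⟨c'', h1, h2⟩ := h _ hcof s b hsc.le hb1
  refine ⟨c'', h1, fun v => ?_⟩
  obtain ⟨x, hx, hvx⟩ := hs (e v)
  filter_upwards [hb2 ⟨x, hx⟩ v hvx, h2 ⟨x, hx⟩] with i h4 h5 hi
  exact (h4 hi).trans (h5 hi)

/-- pseudo-intersections of at most `#W` members of a diagonally complete filter -/
theorem exists_pseudo {ι W : Type u} {Q : ι → W → Prop} {D F : Filter ι} (hF : QComplete Q F)
    (hQ : ∀ w, ∀ᶠ i in D, Q i w) {Y : Type u} (hY : #Y ≤ #W) {S : Y → Set ι}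
    (hS : ∀ y, S y ∈ F) : ∃ A ∈ F, ∀ y, ∀ᶠ i in D, i ∈ A → i ∈ S y := by
  obtain ⟨e⟩ : Nonempty (Y ↪ W) := hY
  refine ⟨{i | ∀ w, Q i w → i ∈ {i | ∀ y, e y = w → i ∈ S y}}, hF _ fun w => ?_, fun y => ?_⟩
  · by_cases hw : ∃ y, e y = w
    · obtain ⟨y, hy⟩ := hw
      filter_upwards [hS y] with i hi y' hy'
      have : y' = y := e.injective (hy'.trans hy.symm)
      rwa [this]
    · exact Filter.mem_of_superset Filter.univ_mem fun i _ y hy => absurd ⟨y, hy⟩ hw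
  · filter_upwards [hQ (e y)] with i hi hiA
    exact hiA (e y) hi y rfl

end Pool.Agent.RPDepth
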