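import Pool.Agent.RPDepth.RkDef

/-!
# Directed products: limit steps and chains
-/

set_option autoImplicit false

namespace Pool.Agent.RPDepth

universe u

open Cardinal Filter Order Ordinal

theorem dir_limit {ι : Type u} {D : Filter ι} {g : ι → Ordinal.{u}} {A : Set ι} {o β : Ordinal.{u}}
    (hβl : IsSuccLimit β) (hβ : β.card ≤ ℵ_ o) (h : ∀ γ < β, Dir D g A (ℵ_ (o + γ))) :
    Dir D g A (ℵ_ (o + β)) := by
  intro V c hV hc
  -- an injection of `V` into the ordinals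
  obtain ⟨e⟩ : Nonempty (V ↪ (ℵ_ (o + β)).ord.ToType) := by
    rw [← Cardinal.le_def, mk_ord_toType]
    exact hV
  let r : V → Ordinal.{u} := fun v => ((e v).toOrd : Ordinal.{u})
  have hr : ∀ v, r v < (ℵ_ (o + β)).ord := fun v => (e v).toOrd.2
  have hrinj : Function.Injective r := by
    intro v w hvw
    apply e.injective
    exact ToType.mk.symm.injective (Subtype.ext hvw)
  have hsup : ∀ v, ∃ γ < β, r v < (ℵ_ (o + γ)).ord := by
    intro v
    have h1 : (r v).card < ℵ_ (o + β) := Cardinal.lt_ord.1 (hr v)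
    have hn : Order.IsNormal (fun γ : Ordinal.{u} => ℵ_ (o + γ)) :=
      isNormal_aleph.comp (isNormal_add_right o)
    obtain ⟨γ, hγ, h2⟩ := (hn.lt_iff_exists_lt hβl).1 h1
    exact ⟨γ, hγ, Cardinal.lt_ord.2 h2⟩
  -- bounds for the pieces
  have hpiece : ∀ γ < β, ∃ c' : ι → Ordinal.{u}, (∀ᶠ i in D, i ∈ A → c' i < g i) ∧
      ∀ v, r v < (ℵ_ (o + γ)).ord → ∀ᶠ i in D, i ∈ A → c v i < c' i := by
    intro γ hγ
    obtain ⟨c', h1, h2⟩ := h γ hγ {v : V // r v < (ℵ_ (o + γ)).ord} (fun v => c v.1) (by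
      have h3 : #{v : V // r v < (ℵ_ (o + γ)).ord} ≤ #((ℵ_ (o + γ)).ord.ToType) := by
        rw [Cardinal.le_def]
        refine ⟨⟨fun v => ToType.mk ⟨r v.1, v.2⟩, ?_⟩⟩
        intro v w hvw
        have h4 := ToType.mk.injective hvw
        exact Subtype.ext (hrinj (Subtype.mk.inj h4))
      rwa [mk_ord_toType] at h3) (fun v => hc v.1)
    exact ⟨c', h1, fun v hv => h2 ⟨v, hv⟩⟩
  choose! b hb1 hb2 using hpiece
  -- bound of the bounds
  have h0 : (0 : Ordinal.{u}) < β := hβl.bot_lt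
  obtain ⟨c'', h1, h2⟩ := h 0 h0 β.ToType (fun x => b (x.toOrd : Ordinal.{u})) (by
    rw [mk_toType, add_zero]
    exact hβ) (fun x => hb1 _ x.toOrd.2)
  refine ⟨c'', h1, fun v => ?_⟩
  obtain ⟨γ, hγ, hv⟩ := hsup v
  have h3 := h2 (ToType.mk ⟨γ, hγ⟩)
  have e3 : (ToType.mk ⟨γ, hγ⟩ : β.ToType).toOrd = ⟨γ, hγ⟩ := ToType.mk.symm_apply_apply _
  rw [e3] at h3
  filter_upwards [hb2 γ hγ v hv, h3] with i h4 h5 hi
  exact (h4 hi).trans (h5 hi)

theorem chain_of_dir {ι : Type u} {D : Filter ι} {g : ι → Ordinal.{u}} {A : Set ι}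
    {χ : Cardinal.{u}} (hA : ∃ᶠ i in D, i ∈ A) (h : ∀ μ < χ, Dir D g A μ) :
    ∃ A' ⊆ A, (∃ᶠ i in D, i ∈ A') ∧ (∀ᶠ i in D, i ∈ A → i ∈ A') ∧
      ∃ c : χ.ord.ToType → ι → Ordinal.{u}, (∀ v, ∀ i ∈ A', c v i < g i) ∧
        (∀ v, ∀ i ∉ A', c v i = 0) ∧
        ∀ v w, v < w → ∀ᶠ i in D, i ∈ A' → c v i < c w i := by
  classical
  rcases eq_or_ne χ 0 with rfl | hχ
  · have : IsEmpty ((0 : Cardinal.{u}).ord.ToType) := by
      rw [← Cardinal.mk_eq_zero_iff, mk_ord_toType]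
    exact ⟨A, subset_rfl, hA, Eventually.of_forall fun _ h => h, fun v => isEmptyElim v,
      fun v => isEmptyElim v, fun v => isEmptyElim v, fun v => isEmptyElim v⟩
  set A' : Set ι := {i | i ∈ A ∧ g i ≠ 0} with hA'
  have hAA' : ∀ᶠ i in D, i ∈ A → i ∈ A' := by
    obtain ⟨c', h1, -⟩ := h 0 (pos_iff_ne_zero.2 hχ) PEmpty (fun v => v.elim) (by simp)
      (fun v => v.elim)
    filter_upwards [h1] with i h2 hi
    exact ⟨hi, (zero_le.trans_lt (h2 hi)).ne'⟩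
  refine ⟨A', fun i hi => hi.1, (hA.and_eventually hAA').mono fun i hi => hi.2 hi.1, hAA', ?_⟩
  have hex : ∀ (v : χ.ord.ToType) (f : (w : χ.ord.ToType) → w < v → ι → Ordinal.{u}),
      (∀ w hw, ∀ᶠ i in D, i ∈ A → f w hw i < g i) →
      ∃ c' : ι → Ordinal.{u}, (∀ᶠ i in D, i ∈ A → c' i < g i) ∧
        ∀ w hw, ∀ᶠ i in D, i ∈ A → f w hw i < c' i := by
    intro v f hf
    obtain ⟨c', h1, h2⟩ := h (#(Set.Iio v)) (mk_Iio_toType_ord_lt v) (Set.Iio v)
      (fun w => f w.1 w.2) le_rfl (fun w => hf w.1 w.2)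
    exact ⟨c', h1, fun w hw => h2 ⟨w, hw⟩⟩
  choose! b hb1 hb2 using hex
  let G : (v : χ.ord.ToType) → ((w : χ.ord.ToType) → w < v → ι → Ordinal.{u}) →
      ι → Ordinal.{u} := fun v f i => if i ∈ A' ∧ b v f i < g i then b v f i else 0
  let c : χ.ord.ToType → ι → Ordinal.{u} := (wellFounded_lt (α := χ.ord.ToType)).fix G
  have hc : ∀ v, c v = G v (fun w _ => c w) := fun v => WellFounded.fix_eq _ _ _
  have hlt : ∀ v, ∀ i ∈ A', c v i < g i := by
    intro v i hi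
    rw [hc v]
    show (if i ∈ A' ∧ b v (fun w _ => c w) i < g i then b v (fun w _ => c w) i else 0) < g i
    split_ifs with h1
    · exact h1.2
    · exact pos_iff_ne_zero.2 hi.2
  have hev : ∀ v, ∀ᶠ i in D, i ∈ A → c v i < g i := by
    intro v
    filter_upwards [hAA'] with i hi hiA
    exact hlt v i (hi hiA)
  refine ⟨c, hlt, ?_, ?_⟩
  · intro v i hi
    rw [hc v]
    show (if i ∈ A' ∧ b v (fun w _ => c w) i < g i then b v (fun w _ => c w) i else 0) = 0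
    rw [if_neg (fun h1 => hi h1.1)]
  · intro v w hvw
    have h1 := hb1 w (fun w _ => c w) (fun w _ => hev w)
    have h2 := hb2 w (fun w _ => c w) (fun w _ => hev w) v hvw
    filter_upwards [h1, h2] with i h3 h4 hi
    rw [hc w]
    show c v i < if i ∈ A' ∧ b w (fun w _ => c w) i < g i then b w (fun w _ => c w) i else 0
    rw [if_pos ⟨hi, h3 hi.1⟩]
    exact h4 hi.1

end Pool.Agent.RPDepth
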