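import Pool.Agent.RPDepth.RkDef

/-!
# The successor step for directed products
-/

set_option autoImplicit false

namespace Pool.Agent.RPDepth

universe u

open Cardinal Filter Order Ordinal

theorem mk_Iic_lt {θ : Cardinal.{u}} (hθ : ℵ₀ ≤ θ) (v : θ.ord.ToType) : #(Set.Iic v) < θ := by
  rw [← Set.Iio_insert]
  refine mk_insert_le.trans_lt (add_lt_of_lt hθ (mk_Iio_toType_ord_lt v) ?_)
  exact one_lt_aleph0.trans_le hθ

/-- a family that is directed modulo `F ≤ D` up to `θ` and modulo `D` on `A` below `θ` is directed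
modulo `D` up to `θ` on a smaller set in `F` -/
theorem dir_succ {ι : Type u} [Infinite ι] {D F : Filter ι} (hF : F ≤ D) [F.NeBot]
    {g : ι → Ordinal.{u}} {θ : Cardinal.{u}} (hθ : θ.IsRegular) (h2 : 2 ^ #ι < θ)
    (hFd : Dir F g Set.univ θ) {A : Set ι} (hA : A ∈ F) (h : ∀ μ < θ, Dir D g A μ) :
    ∃ A' ∈ F, A' ⊆ A ∧ Dir D g A' θ := by
  classical
  by_contra hcon
  push Not at hcon
  obtain ⟨c0, hc0, -⟩ := h 0 (bot_le.trans_lt h2) PEmpty (fun v => v.elim) (by simp)
    (fun v => v.elim)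
  -- unbounded families on the sets in `F` that are contained in `A`
  have hbad : ∀ B : Set ι, ∃ c : θ.ord.ToType → ι → Ordinal.{u},
      (∀ w, ∀ᶠ i in D, i ∈ A → c w i < g i) ∧
      (B ∈ F → B ⊆ A → ∀ c' : ι → Ordinal.{u}, (∀ᶠ i in D, i ∈ B → c' i < g i) →
        ∃ w, ¬ ∀ᶠ i in D, i ∈ B → c w i < c' i) := by
    intro B
    by_cases hB : B ∈ F ∧ B ⊆ A
    · have h1 := hcon B hB.1 hB.2
      unfold Dir at h1
      push Not at h1
      obtain ⟨V, c, hV, hc, hno⟩ := h1
      have h3 : Nonempty (V ↪ θ.ord.ToType) := by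
        rw [← Cardinal.le_def, mk_ord_toType]
        exact hV
      obtain ⟨e⟩ := h3
      refine ⟨fun w i => if i ∈ B then (if hw : ∃ v, e v = w then c hw.choose i else c0 i)
        else c0 i, fun w => ?_, fun _ _ c' hc' => ?_⟩
      · by_cases hw : ∃ v, e v = w
        · filter_upwards [hc hw.choose, hc0] with i h4 h5 hiA
          by_cases hi : i ∈ B
          · simp only [if_pos hi, dif_pos hw]
            exact h4 hi
          · simp only [if_neg hi]
            exact h5 hiA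
        · filter_upwards [hc0] with i h5 hiA
          simp only [dif_neg hw, ite_self]
          exact h5 hiA
      · obtain ⟨v, hv⟩ := hno c' hc'
        refine ⟨e v, fun hev => ?_⟩
        have hw : ∃ v', e v' = e v := ⟨v, rfl⟩
        have h6 : hw.choose = v := e.injective hw.choose_spec
        obtain ⟨i, ⟨hiB, hi⟩, h7⟩ := (hv.and_eventually hev).exists
        have h8 := h7 hiB
        simp only [if_pos hiB, dif_pos hw, h6] at h8
        exact absurd h8 (not_lt_of_ge hi)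
    · exact ⟨fun _ => c0, fun _ => hc0, fun h3 h4 => absurd ⟨h3, h4⟩ hB⟩
  choose c hc1 hc2 using hbad
  -- bounds
  have hf : ∀ v : θ.ord.ToType, ∃ f : ι → Ordinal.{u}, (∀ᶠ i in D, i ∈ A → f i < g i) ∧
      ∀ B, ∀ w ≤ v, ∀ᶠ i in D, i ∈ A → c B w i < f i := by
    intro v
    have h3 : #(Set ι × Set.Iic v) < θ := by
      rw [mk_prod, Cardinal.lift_id, Cardinal.lift_id, mk_set]
      exact mul_lt_of_lt hθ.aleph0_le h2 (mk_Iic_lt hθ.aleph0_le v)
    obtain ⟨f, hf1, hf2⟩ := h _ h3 (Set ι × Set.Iic v) (fun x => c x.1 x.2.1) le_rfl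
      (fun x => hc1 x.1 x.2.1)
    exact ⟨f, hf1, fun B w hw => hf2 (B, ⟨w, hw⟩)⟩
  choose f hf1 hf2 using hf
  have hfF : ∀ v, ∀ᶠ i in F, i ∈ Set.univ → f v i < g i := fun v => by
    filter_upwards [hF (hf1 v), hA] with i h3 hi _
    exact h3 hi
  obtain ⟨s, hs1, hs2⟩ := hFd θ.ord.ToType f (by rw [mk_ord_toType]) hfF
  let C : θ.ord.ToType → Set ι := fun v => {i | i ∈ A ∧ s i < g i ∧ f v i < s i}
  have hCF : ∀ v, C v ∈ F := fun v => by
    filter_upwards [hA, hs1, hs2 v] with i h3 h4 h5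
    exact ⟨h3, h4 trivial, h5 trivial⟩
  obtain ⟨B, hB⟩ := infinite_pigeonhole C (by rw [mk_ord_toType]; exact hθ.aleph0_le)
    (by rw [mk_ord_toType, hθ.cof_ord, mk_set]; exact h2)
  rw [mk_ord_toType] at hB
  have hcof : ∀ w, ∃ v, w ≤ v ∧ C v = B := by
    intro w
    by_contra hno
    push Not at hno
    have h3 : C ⁻¹' {B} ⊆ Set.Iio w := by
      intro v hv
      by_contra hvw
      exact hno v (not_lt.1 hvw) hv
    exact absurd hB (((mk_le_mk_of_subset h3).trans_lt (mk_Iio_toType_ord_lt w)).ne)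
  have hne : (C ⁻¹' {B}).Nonempty := by
    rw [Set.nonempty_iff_ne_empty]
    intro h3
    rw [h3, mk_emptyCollection] at hB
    exact hθ.pos.ne hB
  obtain ⟨v0, hv0⟩ := hne
  have hv0' : C v0 = B := hv0
  have hBF : B ∈ F := hv0' ▸ hCF v0
  have hBA : B ⊆ A := by
    intro i hi
    rw [← hv0'] at hi
    exact hi.1
  obtain ⟨w, hw⟩ := hc2 B hBF hBA s (Eventually.of_forall fun i hi => by
    rw [← hv0'] at hi
    exact hi.2.1)
  apply hw
  obtain ⟨v, hwv, hv⟩ := hcof w
  filter_upwards [hf2 v B w hwv] with i h3 hi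
  have h4 : i ∈ C v := hv ▸ hi
  exact (h3 h4.1).trans h4.2.2

end Pool.Agent.RPDepth
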