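import Pool.Agent.RPDepth.UFin

/-!
# Q1 from chains of regular lengths above a bound
-/

set_option autoImplicit false

namespace Pool.Agent.RPDepth

universe u

open Cardinal Filter Order Ordinal

/-- Q1 from weak chains of the regular lengths above `X`, if `T_D(lam)` is regular or of small
cofinality. -/
theorem q1_of_lengths {ι : Type u} [Infinite ι] (D : Filter ι) [D.NeBot] (B : ι → Type u)
    [∀ i, Preorder (B i)] (lam : ι → Cardinal.{u}) (h2 : ∀ i, 2 ^ #ι < lam i)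
    (hB : ∀ i, lam i < depthPlus (B i)) {X : Cardinal.{u}} (h2X : 2 ^ #ι ≤ X)
    (hXT : X < TD D lam)
    (hW : ∀ χ' : Cardinal.{u}, χ'.IsRegular → X < χ' → χ' ≤ TD D lam →
      ∀ (g : ι → Ordinal.{u}) (Y : Set ι), (∀ i ∈ Y, g i ≤ (lam i).ord) → Big D χ' g Y →
        ∃ (A'' : Set ι) (c : χ'.ord.ToType → ι → Ordinal.{u}), A'' ⊆ Y ∧
          (∀ v, ∀ i ∈ A'', c v i < g i) ∧ (∀ v, ∀ i ∉ A'', c v i = 0) ∧
          ∀ v w, v < w → (∀ᶠ i in D, c v i ≤ c w i) ∧ ∃ᶠ i in D, i ∈ A'' ∧ c v i < c w i)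
    (hcf : (TD D lam).ord.cof < TD D lam → (TD D lam).ord.cof ≤ 2 ^ #ι) :
    TD D lam < depthPlus (RedProd D B) := by
  classical
  have hch := fun i => exists_chain_of_lt (hB i)
  have hι : ℵ₀ ≤ #ι := aleph0_le_mk ι
  have hκ : #ι < 2 ^ #ι := cantor _
  have hκ0 : ℵ₀ ≤ 2 ^ #ι := hι.trans hκ.le
  have hpos : ∀ i, 0 < lam i := fun i => bot_le.trans_lt (h2 i)
  have h2T : 2 ^ #ι < TD D lam := h2X.trans_lt hXT
  have huniv : ∃ᶠ i in D, i ∈ (Set.univ : Set ι) :=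
    Eventually.frequently (Eventually.of_forall fun i => Set.mem_univ i)
  obtain ⟨F, hF, hTF⟩ := exists_family_attained h2T
  set T := TD D lam with hTdef
  have hT0 : ℵ₀ ≤ T := hκ0.trans h2T.le
  -- the regular case
  by_cases hreg : T ≤ T.ord.cof
  · obtain ⟨A'', c, -, hc1, hc2, hc3⟩ := hW T ⟨hT0, hreg⟩ hXT le_rfl (fun i => (lam i).ord)
      Set.univ (fun i _ => le_rfl) (big_of_family hF hTF huniv)
    exact lt_of_wchain hch hpos c hc1 hc2 hc3
  -- the singular case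
  have hcof : T.ord.cof < T := not_le.1 hreg
  have hθ := hcf hcof
  have hlim : ∀ μ < T, succ μ < T := by
    intro μ hμ
    refine lt_of_le_of_ne (succ_le_of_lt hμ) fun h => ?_
    have h3 : ℵ₀ ≤ μ := by
      by_contra h4
      have h5 : succ μ < ℵ₀ := (isSuccLimit_aleph0).succ_lt (not_le.1 h4)
      rw [h] at h5
      exact absurd hT0 (not_le_of_gt h5)
    have h6 := (isRegular_succ h3).cof_ord
    rw [h] at h6
    exact absurd h6 hcof.ne
  have hbig : ∀ X : Set ι, (∃ᶠ i in D, i ∈ X) → ∀ χ < T, Big D χ (fun i => (lam i).ord) X :=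
    fun X hX χ hχ => big_of_family hF (hχ.le.trans hTF) hX
  -- regular cardinals cofinal in `T`
  obtain ⟨s, hs, hscard⟩ := Order.exists_cof_eq (α := T.ord.ToType)
  rw [cof_toType] at hscard
  obtain ⟨σ⟩ : Nonempty (T.ord.cof.ord.ToType ≃ s) := by
    rw [← Cardinal.eq, mk_ord_toType, hscard]
  let χ : T.ord.cof.ord.ToType → Cardinal.{u} := fun x =>
    succ (max ((σ x).1.toOrd : Ordinal.{u}).card X)
  have hχ0 : ∀ x, ℵ₀ ≤ max ((σ x).1.toOrd : Ordinal.{u}).card X :=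
    fun x => hκ0.trans (h2X.trans (le_max_right _ _))
  have hχr : ∀ x, (χ x).IsRegular := fun x => isRegular_succ (hχ0 x)
  have hχT : ∀ x, χ x < T := fun x => hlim _ (max_lt (lt_ord.1 (σ x).1.toOrd.2) hXT)
  have hχ2 : ∀ x, X < χ x := fun x => lt_succ_of_le (le_max_right _ _)
  have hcofinal : ∀ β < T.ord, ∃ x, β < (χ x).ord := by
    intro β hβ
    obtain ⟨w, hw, hle⟩ := hs (ToType.mk ⟨β, hβ⟩)
    refine ⟨σ.symm ⟨w, hw⟩, lt_ord.2 (lt_succ_of_le ((card_le_card ?_).trans (le_max_left _ _)))⟩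
    rw [Equiv.apply_symm_apply]
    have h3 := (ToType.mk (o := T.ord)).symm.le_iff_le.2 hle
    rw [OrderIso.symm_apply_apply] at h3
    exact h3
  have hX : ∀ x : T.ord.cof.ord.ToType, #{y // y < x} < T.ord.cof := by
    intro x
    have h1 := mk_Iio_lt x (by simp)
    rwa [mk_ord_toType] at h1
  have hθ0 : ℵ₀ ≤ T.ord.cof := by
    rw [Ordinal.aleph0_le_cof_iff, Ordinal.one_lt_cof_iff]
    exact isSuccLimit_ord hT0
  by_cases hg : ∃ g : ι → Ordinal.{u}, (∀ i ∈ (Set.univ : Set ι), g i < (lam i).ord) ∧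
      ∀ μ < T, ∃ Y ⊆ (Set.univ : Set ι), Big D μ g Y
  · obtain ⟨g, hgl, hgb⟩ := hg
    have h3 : ∀ x, ∃ c : (χ x).ord.ToType → ι → Ordinal.{u},
        (∀ v, ∀ i ∈ (Set.univ : Set ι), c v i ≤ g i) ∧
        ∀ v w, v < w → WLt D Set.univ (c v) (c w) := by
      intro x
      obtain ⟨Y, hYA, hYb⟩ := hgb _ (hχT x)
      obtain ⟨Z, c, hZY, hc1, hc2, hc3⟩ := hW (χ x) (hχr x) (hχ2 x) (hχT x).le g Y
        (fun i hi => (hgl i (hYA hi)).le) hYb
      refine ⟨c, fun v i _ => ?_, fun v w hvw => ⟨(hc3 v w hvw).1.mono fun i hi _ => hi,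
        (hc3 v w hvw).2.mono fun i hi => ⟨hYA (hZY hi.1), hi.2⟩⟩⟩
      by_cases hi : i ∈ Z
      · exact (hc1 v i hi).le
      · rw [hc2 v i hi]
        exact bot_le
    choose c hc1 hc2 using h3
    exact lt_of_mul hch (fun i => hκ0.trans (h2 i).le) hθ0
      (fun i _ => hθ.trans (h2 i).le) hgl (fun x => (hχr x).aleph0_le) hcofinal c hc1 hc2
  · push Not at hg
    refine lt_of_small' hch hpos (G := fun i => (lam i).ord) (A' := Set.univ)
      (fun i _ => le_rfl) hlim h2X hXT (fun χ' hr hL hT' g Y _ hg' hb => hW χ' hr hL hT'.le g Y hg' hb)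
      (hbig _ huniv) (fun g hgl => ?_) hX (fun x => (hχr x).aleph0_le) hχT hcofinal
    obtain ⟨μ, h4, h5⟩ := hg g hgl
    exact ⟨μ, h4, h5⟩

end Pool.Agent.RPDepth
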