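import Pool.Agent.RPDepth.Rk
import Pool.Agent.RPDepth.DirB
import Pool.Agent.RPDepth.DirL
import Pool.Agent.RPDepth.DirG
import Pool.Agent.RPDepth.DirS
import Pool.Agent.RPDepth.Lens

/-!
# The induction on the number of steps
-/

set_option autoImplicit false

namespace Pool.Agent.RPDepth

universe u

open Cardinal Filter Order Ordinal

theorem Dir.anti_card {ι : Type u} {E : Filter ι} {g : ι → Ordinal.{u}} {A : Set ι}
    {μ ν : Cardinal.{u}} (h : Dir E g A μ) (hν : ν ≤ μ) : Dir E g A ν :=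
  fun V c hV hc => h V c (hV.trans hν) hc

theorem Dir.mono_set {ι : Type u} {E : Filter ι} {g : ι → Ordinal.{u}} {A A' : Set ι}
    {μ : Cardinal.{u}} (h : Dir E g A μ) (hA' : ∀ᶠ i in E, i ∈ A' → i ∈ A) : Dir E g A' μ := by
  classical
  intro V c hV hc
  obtain ⟨c0, h0, -⟩ := h PEmpty (fun v => v.elim) (by simp) (fun v => v.elim)
  obtain ⟨c', h1, h2⟩ := h V (fun v i => if i ∈ A' then c v i else c0 i) hV (fun v => by
    filter_upwards [hc v, h0] with i h3 h4 hi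
    by_cases h5 : i ∈ A'
    · rw [if_pos h5]
      exact h3 h5
    · rw [if_neg h5]
      exact h4 hi)
  refine ⟨c', ?_, fun v => ?_⟩
  · filter_upwards [h1, hA'] with i h3 h4 hi using h3 (h4 hi)
  · filter_upwards [h2 v, hA'] with i h3 h4 hi
    have h5 := h3 (h4 hi)
    rwa [if_pos hi] at h5

theorem dir_all {ι W : Type u} [Infinite ι] {D F : Filter ι} (hF : F ≤ D) [F.NeBot]
    {Q : ι → W → Prop} (hQ : QComplete Q F) (htail : ∀ w, ∀ᶠ i in D, Q i w)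
    {g : ι → Ordinal.{u}} {χ : Cardinal.{u}} (hFd : ∀ μ < χ, Dir F g Set.univ μ)
    {o : Ordinal.{u}} (h2o : 2 ^ #ι ≤ ℵ_ o) {A₀ : Set ι} (hA₀ : A₀ ∈ F)
    (h0 : Dir D g A₀ (ℵ_ o)) (hWo : #W ≤ ℵ_ o) :
    ∀ β : Ordinal.{u}, β.card ≤ #W → ℵ_ (o + β) < χ → ∃ A ∈ F, Dir D g A (ℵ_ (o + β)) := by
  intro β
  induction β using WellFoundedLT.induction with
  | ind β ih =>
    intro hβ hχ
    rcases Ordinal.zero_or_succ_or_isSuccLimit β with rfl | ⟨γ, rfl⟩ | hlim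
    · refine ⟨A₀, hA₀, ?_⟩
      rwa [add_zero]
    · have hγ : γ < γ + 1 := lt_add_one γ
      have hγ1 : ℵ_ (o + γ) < ℵ_ (o + (γ + 1)) :=
        aleph_lt_aleph.2 ((add_lt_add_iff_left o).2 hγ)
      obtain ⟨A, hA, hdir⟩ := ih γ hγ ((card_le_card hγ.le).trans hβ) (hγ1.trans hχ)
      have hs : ℵ_ (o + (γ + 1)) = succ (ℵ_ (o + γ)) := by
        rw [← add_assoc, Ordinal.add_one_eq_succ, aleph_succ]
      have hreg : (ℵ_ (o + (γ + 1))).IsRegular := by
        rw [hs]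
        exact isRegular_succ (aleph0_le_aleph _)
      obtain ⟨A', hA', -, hdir'⟩ := dir_succ hF hreg
        (h2o.trans_lt ((aleph_le_aleph.2 le_self_add).trans_lt hγ1)) (hFd _ hχ) hA
        (fun μ hμ => hdir.anti_card (by rw [hs] at hμ; exact le_of_lt_succ hμ))
      exact ⟨A', hA', hdir'⟩
    · have h1 : ∀ y : β.ToType, ∃ A ∈ F, Dir D g A (ℵ_ (o + (y.toOrd : Ordinal.{u}))) := by
        intro y
        have hy : (y.toOrd : Ordinal.{u}) < β := y.toOrd.2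
        exact ih _ hy ((card_le_card hy.le).trans hβ)
          ((aleph_lt_aleph.2 ((add_lt_add_iff_left o).2 hy)).trans hχ)
      choose S hS hSd using h1
      obtain ⟨A, hA, hAS⟩ := exists_pseudo hQ htail (by rw [mk_toType]; exact hβ) hS
      refine ⟨A, hA, dir_limit hlim (hβ.trans hWo) fun γ hγ => ?_⟩
      have h3 := (hSd (ToType.mk ⟨γ, hγ⟩)).mono_set (hAS (ToType.mk ⟨γ, hγ⟩))
      rwa [show (((ToType.mk ⟨γ, hγ⟩ : β.ToType).toOrd : Set.Iio β) : Ordinal.{u}) = γ by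
        rw [ToType.toOrd, OrderIso.symm_apply_apply]] at h3

/-- an infinite cardinal above `ℵ_ o` and at most `ℵ_ (o + β)`: successor or of small cofinality -/
theorem steps_aux {o β : Ordinal.{u}} {χ : Cardinal.{u}} (hoχ : ℵ_ o < χ)
    (hχβ : χ ≤ ℵ_ (o + β)) :
    (∃ γ, γ.card ≤ β.card ∧ χ = succ (ℵ_ (o + γ))) ∨ χ.ord.cof ≤ β.card := by
  obtain ⟨b, hb⟩ : ∃ b, ℵ_ b = χ := by
    have h5 : χ ∈ Set.range aleph := by
      rw [range_aleph]
      exact (aleph0_le_aleph _).trans hoχ.le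
    exact h5
  have h1 : o < b := aleph_lt_aleph.1 (hb ▸ hoχ)
  have h3 : b ≤ o + β := aleph_le_aleph.1 (hb ▸ hχβ)
  have h4 : o + (b - o) = b := Ordinal.add_sub_cancel_of_le h1.le
  have h5 : b - o ≤ β := by
    rw [← h4] at h3
    exact (add_le_add_iff_left o).1 h3
  rcases Ordinal.zero_or_succ_or_isSuccLimit (b - o) with h | ⟨γ, h⟩ | hlim
  · rw [h, add_zero] at h4
    exact absurd h4 h1.ne
  · refine Or.inl ⟨γ, card_le_card ?_, ?_⟩
    · exact (le_succ γ).trans (h.le.trans h5)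
    · rw [← hb, ← h4, ← h, Ordinal.add_succ, aleph_succ]
  · right
    rw [← hb, ← h4, ord_aleph, cof_omega (isSuccLimit_add o hlim), cof_add o hlim.ne_bot]
    exact (cof_le_card _).trans (card_le_card h5)

/-- Weak chains modulo `D` of the regular lengths few steps above `ρ`, from families for a larger
filter `D'`. -/
theorem wchain_of_steps {ι W : Type u} [Infinite ι] {D D' : Filter ι} (hDD' : D' ≤ D) [D'.NeBot]
    (hω : OmegaComplete D') {Q : ι → W → Prop} (hQ : QComplete Q D')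
    (htail : ∀ w, ∀ᶠ i in D, Q i w) (hWι : #W ≤ #ι) {o : Ordinal.{u}} (h2o : 2 ^ #ι ≤ ℵ_ o)
    (hν : ∀ ν < ℵ_ o, ν ^ #ι ≤ ℵ_ o) (hcof : (ℵ_ o) ^ #ι = ℵ_ o ∨ (ℵ_ o).ord.cof ≤ #W)
    {β : Ordinal.{u}} (hβ : β.card ≤ #W) {χ : Cardinal.{u}} (hχ : χ.IsRegular)
    (hoχ : ℵ_ o < χ) (hχβ : χ ≤ ℵ_ (o + β)) {g : ι → Ordinal.{u}} {A : Set ι}
    (hbig : Big D' χ g A) :
    ∃ (A'' : Set ι) (c : χ.ord.ToType → ι → Ordinal.{u}), A'' ⊆ A ∧
      (∀ v, ∀ i ∈ A'', c v i < g i) ∧ (∀ v, ∀ i ∉ A'', c v i = 0) ∧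
      ∀ v w, v < w → (∀ᶠ i in D, c v i ≤ c w i) ∧ ∃ᶠ i in D, i ∈ A'' ∧ c v i < c w i := by
  have hι : ℵ₀ ≤ #ι := aleph0_le_mk ι
  have hκ : #ι < 2 ^ #ι := cantor _
  have hWo : #W ≤ ℵ_ o := hWι.trans (hκ.le.trans h2o)
  obtain ⟨g', A', F, hA', hg', hFD', hA'F, hNB, hQF, hFd⟩ :=
    exists_directed hω hQ hχ (h2o.trans_lt hoχ) hbig
  have hFD : F ≤ D := hFD'.trans hDD'
  -- the base
  have hbase : ∃ A₀ ∈ F, Dir D g' A₀ (ℵ_ o) := by
    rcases hcof with h | h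
    · refine ⟨_, dir_base hFD hFd (aleph0_le_aleph o) (h.trans_lt hoχ), ?_⟩
      exact dir_pointwise (Eventually.of_forall fun i hi => hi)
    · obtain ⟨s, hs, hscard⟩ := Order.exists_cof_eq (α := (ℵ_ o).ord.ToType)
      rw [cof_toType] at hscard
      obtain ⟨A₀, hA₀, hS⟩ := exists_pseudo (D := D) hQF htail (Y := s) (by rw [hscard]; exact h)
        (S := fun y => {i | max ℵ₀ ((y.1.toOrd : Ordinal.{u}).card) < (g' i).cof}) (fun y => by
          have hy : ((y.1.toOrd : Ordinal.{u}).card) < ℵ_ o := lt_ord.1 y.1.toOrd.2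
          refine dir_base hFD hFd (le_max_left _ _) ?_
          exact lt_of_le_of_lt (hν _ (max_lt ((hι.trans_lt hκ).trans_le h2o) hy)) hoχ)
      refine ⟨A₀, hA₀, dir_singular (aleph0_le_aleph o) (h.trans_lt ?_) fun ν hνo => ?_⟩
      · exact hWι.trans_lt (hκ.trans_le h2o)
      · have h1 : ν.ord < (ℵ_ o).ord := ord_lt_ord.2 hνo
        obtain ⟨w, hw, hle⟩ := hs (ToType.mk ⟨ν.ord, h1⟩)
        refine dir_pointwise ?_
        filter_upwards [hS ⟨w, hw⟩] with i hi hiA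
        have h3 : ν ≤ ((w.toOrd : Ordinal.{u}).card) := by
          have h4 := (ToType.mk (o := (ℵ_ o).ord)).symm.le_iff_le.2 hle
          rw [OrderIso.symm_apply_apply] at h4
          have h5 := card_le_card (show ν.ord ≤ (w.toOrd : Ordinal.{u}) from h4)
          rwa [card_ord] at h5
        exact (h3.trans (le_max_right _ _)).trans_lt (hi hiA)
  obtain ⟨A₀, hA₀, h0⟩ := hbase
  rcases steps_aux hoχ hχβ with ⟨γ, hγ, rfl⟩ | h
  · obtain ⟨A1, hA1, hdir⟩ := dir_all hFD hQF htail hFd h2o hA₀ h0 hWo γ (hγ.trans hβ) (lt_succ _)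
    have hpos : ∃ᶠ i in D, i ∈ A1 ∩ A' := by
      intro hcon
      have h1 := hFD hcon
      obtain ⟨i, hi, hi'⟩ := F.nonempty_of_mem (inter_mem h1 (inter_mem hA1 hA'F))
      exact hi hi'
    obtain ⟨A'', hA'', hpos'', -, c, hc1, hc2, hc3⟩ := chain_of_dir (χ := succ (ℵ_ (o + γ))) hpos
      (fun μ hμ => (hdir.mono_set (Eventually.of_forall fun i hi => hi.1)).anti_card
        (le_of_lt_succ hμ))
    refine ⟨A'', c, fun i hi => hA' (hA'' hi).2, fun v i hi => (hc1 v i hi).trans_le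
      (hg' i (hA'' hi).2), hc2, fun v w hvw => ⟨?_, ?_⟩⟩
    · filter_upwards [hc3 v w hvw] with i hi
      by_cases hiA : i ∈ A''
      · exact (hi hiA).le
      · rw [hc2 v i hiA]
        exact bot_le
    · exact (hpos''.and_eventually (hc3 v w hvw)).mono fun i hi => ⟨hi.1, hi.2 hi.1⟩
  · rw [hχ.cof_ord] at h
    exact absurd (h.trans (hβ.trans hWo)) (not_le_of_gt hoχ)

/-- Q1 if `T_D(lam)` is at most few steps above `ρ`. -/
theorem q1_of_steps {ι W : Type u} [Infinite ι] (D : Filter ι) [D.NeBot] (B : ι → Type u)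
    [∀ i, Preorder (B i)] (lam : ι → Cardinal.{u}) (h2 : ∀ i, 2 ^ #ι < lam i)
    (hB : ∀ i, lam i < depthPlus (B i))
    (hω : OmegaComplete D) {Q : ι → W → Prop} (hQ : QComplete Q D)
    (htail : ∀ w, ∀ᶠ i in D, Q i w) (hWι : #W ≤ #ι) {o : Ordinal.{u}} (h2o : 2 ^ #ι ≤ ℵ_ o)
    (hν : ∀ ν < ℵ_ o, ν ^ #ι ≤ ℵ_ o) (hcof : (ℵ_ o) ^ #ι = ℵ_ o ∨ (ℵ_ o).ord.cof ≤ #W)
    {β : Ordinal.{u}} (hβ : β.card ≤ #W) (hT : TD D lam ≤ ℵ_ (o + β))
    (hoT : ℵ_ o < TD D lam ∨ ∃ᶠ i in D, ℵ_ o < lam i) :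
    TD D lam < depthPlus (RedProd D B) := by
  rcases lt_or_ge (ℵ_ o) (TD D lam) with h | h
  · refine q1_of_lengths D B lam h2 hB h2o h (fun χ' hr hL hT' g Y _ hb =>
      wchain_of_steps le_rfl hω hQ htail hWι h2o hν hcof hβ hr hL (hT'.trans hT) hb) fun hsing => ?_
    rcases steps_aux h hT with ⟨γ, hγ, h3⟩ | h3
    · have h4 := (isRegular_succ (aleph0_le_aleph (o + γ))).cof_ord
      rw [h3, h4] at hsing
      exact absurd hsing (lt_irrefl _)
    · exact h3.trans (hβ.trans (hWι.trans (cantor _).le))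
  · rcases hoT with h' | h'
    · exact absurd h' (not_lt_of_ge h)
    · exact lt_depthPlus (chain_freq (fun i => exists_chain_of_lt (hB i))
        (fun i => bot_le.trans_lt (h2 i)) (h'.mono fun i hi => h.trans hi.le))

end Pool.Agent.RPDepth
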