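import Pool.Agent.RPDepth.Blocks

/-!
# Bounded chains above few functions
-/

set_option autoImplicit false

namespace Pool.Agent.RPDepth

universe u

open Cardinal Filter Order Ordinal

/-- few functions of a family are less than `h` on a positive set -/
theorem mk_below_lt {ι : Type u} {D : Filter ι} {χ : Cardinal.{u}} (hχ : χ.IsRegular)
    (h2 : 2 ^ #ι < χ) {h : ι → Ordinal.{u}} {A : Set ι} {W : Type u} (f : W → ι → Ordinal.{u})
    (hne : ∀ v w, v ≠ w → ∀ᶠ i in D, i ∈ A → f v i ≠ f w i)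
    (hno : ∀ X : Set ι, X ⊆ A → ¬ Big D χ h X) :
    #{w | ∃ᶠ i in D, i ∈ A ∧ f w i < h i} < χ := by
  classical
  by_contra hcon
  have hcon' := not_lt.1 hcon
  obtain ⟨A', hA'⟩ := infinite_pigeonhole_card
    (fun w : {w | ∃ᶠ i in D, i ∈ A ∧ f w i < h i} => ({i | i ∈ A ∧ f w.1 i < h i} : Set ι)) χ
    hcon' hχ.aleph0_le (by rw [mk_set, hχ.cof_ord]; exact h2)
  obtain ⟨e⟩ : Nonempty (χ.ord.ToType ↪
      ((fun w : {w | ∃ᶠ i in D, i ∈ A ∧ f w i < h i} =>
        ({i | i ∈ A ∧ f w.1 i < h i} : Set ι)) ⁻¹' {A'})) := by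
    rw [← Cardinal.le_def, mk_ord_toType]; exact hA'
  have he : ∀ x, {i | i ∈ A ∧ f (e x).1.1 i < h i} = A' := fun x => (e x).2
  have hne0 : Nonempty χ.ord.ToType := by
    rw [← mk_ne_zero_iff, mk_ord_toType]
    exact (aleph0_pos.trans_le hχ.aleph0_le).ne'
  obtain ⟨x0⟩ := hne0
  have hsub : A' ⊆ A := by
    rw [← he x0]
    exact fun i hi => hi.1
  have hpos : ∃ᶠ i in D, i ∈ A' := by
    have h7 : ∃ᶠ i in D, i ∈ A ∧ f (e x0).1.1 i < h i := (e x0).1.2
    rw [← he x0]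
    exact h7
  refine hno A' hsub ⟨hpos, fun x => f (e x).1.1, ?_, ?_⟩
  · intro x i hi
    rw [← he x] at hi
    exact hi.2
  · intro x y hxy
    have h9 : (e x).1.1 ≠ (e y).1.1 := fun h =>
      hxy (e.injective (Subtype.ext (Subtype.ext h)))
    filter_upwards [hne _ _ h9] with i hi hiA
    exact hi (hsub hiA)

/-- a subtype that misses fewer than `χ` elements of a set of size `χ` -/
theorem exists_emb_compl {χ : Cardinal.{u}} (h0 : ℵ₀ ≤ χ) (Bad : Set χ.ord.ToType)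
    (hBad : #Bad < χ) : ∃ e : χ.ord.ToType ↪ χ.ord.ToType, ∀ v, e v ∉ Bad := by
  have h3 : χ ≤ #(Badᶜ : Set χ.ord.ToType) := by
    by_contra h4
    have h5 : #χ.ord.ToType ≤ #Bad + #(Badᶜ : Set χ.ord.ToType) := by
      rw [mk_sum_compl]
    rw [mk_ord_toType] at h5
    exact absurd h5 (not_le_of_gt (add_lt_of_lt h0 hBad (not_le.1 h4)))
  obtain ⟨e⟩ : Nonempty (χ.ord.ToType ↪ (Badᶜ : Set χ.ord.ToType)) := by
    rw [← Cardinal.le_def, mk_ord_toType]; exact h3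
  exact ⟨e.trans (Function.Embedding.subtype _), fun v => (e v).2⟩

/-- the upper bound -/
theorem exists_upper {ι : Type u} [Infinite ι] {D : Filter ι} {A' : Set ι}
    {G : ι → Ordinal.{u}} {T : Cardinal.{u}} (h2T : 2 ^ #ι < T) (hlim : ∀ μ < T, succ μ < T)
    (hG : ∀ χ < T, Big D χ G A')
    (hm : ∀ g : ι → Ordinal.{u}, (∀ i ∈ A', g i < G i) → ∃ μ < T, ∀ X ⊆ A', ¬ Big D μ g X)
    {J : Type u} (hJ : #J < T.ord.cof) (h : J → ι → Ordinal.{u})
    (hh : ∀ j, ∀ i ∈ A', h j i < G i) :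
    ∃ b : ι → Ordinal.{u}, (∀ i ∈ A', b i < G i) ∧ ∀ j, ∀ᶠ i in D, i ∈ A' → h j i ≤ b i := by
  classical
  choose μ hμT hμ using fun j => hm (h j) (hh j)
  have hι : ℵ₀ ≤ #ι := aleph0_le_mk ι
  have hκ : #ι < 2 ^ #ι := cantor _
  have hsup : (⨆ j, μ j) < T := iSup_lt_of_lt_cof_ord hJ hμT
  have hJT : #J < T := hJ.trans_le (cof_ord_le T)
  have hρT : max (max (⨆ j, μ j) #J) (2 ^ #ι) < T := max_lt (max_lt hsup hJT) h2T
  set ρ := max (max (⨆ j, μ j) #J) (2 ^ #ι) with hρ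
  have hρ0 : ℵ₀ ≤ ρ := hι.trans (hκ.le.trans (le_max_right _ _))
  have hr : (succ ρ).IsRegular := isRegular_succ hρ0
  obtain ⟨hA, f, hf, hne⟩ := hG _ (hlim _ hρT)
  by_contra hcon
  push Not at hcon
  have hbad : ∀ v, ∃ j, ∃ᶠ i in D, i ∈ A' ∧ f v i < h j i := by
    intro v
    obtain ⟨j, hj⟩ := hcon (f v) (hf v)
    refine ⟨j, hj.mono fun i hi => ?_⟩
    simpa using hi
  choose p hp using hbad
  obtain ⟨j, hj⟩ := infinite_pigeonhole_card p (succ ρ) (by rw [mk_ord_toType]) hr.aleph0_le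
    (by rw [hr.cof_ord]; exact lt_succ_of_le ((le_max_right _ _).trans (le_max_left _ _)))
  have h3 : #{w | ∃ᶠ i in D, i ∈ A' ∧ f w i < h j i} < succ ρ := by
    refine mk_below_lt hr (lt_succ_of_le (le_max_right _ _)) f hne (fun X hX hbig => ?_)
    refine hμ j X hX (hbig.anti ?_)
    exact (le_ciSup Cardinal.bddAbove_of_small j).trans
      ((le_max_left _ _).trans ((le_max_left _ _).trans (le_succ _)))
  have h4 : p ⁻¹' {j} ⊆ {w | ∃ᶠ i in D, i ∈ A' ∧ f w i < h j i} := by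
    intro w hw
    have h5 : p w = j := hw
    have h6 := hp w
    rw [h5] at h6
    exact h6
  exact absurd ((hj.trans (mk_le_mk_of_subset h4)).trans_lt h3) (lt_irrefl _)

/-- a bounded chain above `h` -/
theorem exists_block {ι : Type u} [Infinite ι] {D : Filter ι} {A A' : Set ι}
    (hP : Precipitous (D ⊓ 𝓟 A)) (hs : A' ⊆ A)
    {G : ι → Ordinal.{u}} {T : Cardinal.{u}} (h2T : 2 ^ #ι < T) (hlim : ∀ μ < T, succ μ < T)
    (hG : ∀ χ < T, Big D χ G A')
    (hm : ∀ g : ι → Ordinal.{u}, (∀ i ∈ A', g i < G i) → ∃ μ < T, ∀ X ⊆ A', ¬ Big D μ g X)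
    {h : ι → Ordinal.{u}} (hh : ∀ i ∈ A', h i < G i) {χ : Cardinal.{u}} (hχT : χ < T) :
    ∃ (c : χ.ord.ToType → ι → Ordinal.{u}) (b : ι → Ordinal.{u}), (∀ i ∈ A', b i < G i) ∧
      (∀ v, ∀ i ∈ A', c v i ≤ b i) ∧ (∀ v, ∀ i ∈ A', h i ≤ c v i) ∧
      ∀ v w, v < w → WLt D A' (c v) (c w) := by
  classical
  have hι : ℵ₀ ≤ #ι := aleph0_le_mk ι
  have hκ : #ι < 2 ^ #ι := cantor _
  obtain ⟨μ, hμT, hμ⟩ := hm h hh
  have hρT : max (max μ χ) (2 ^ #ι) < T := max_lt (max_lt hμT hχT) h2T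
  set ρ := max (max μ χ) (2 ^ #ι) with hρ
  have hρ0 : ℵ₀ ≤ ρ := hι.trans (hκ.le.trans (le_max_right _ _))
  have hr : (succ ρ).IsRegular := isRegular_succ hρ0
  have h2ρ : 2 ^ #ι < succ ρ := lt_succ_of_le (le_max_right _ _)
  obtain ⟨hA, f, hf, hne⟩ := hG _ (hlim _ hρT)
  have h3 : #{w | ∃ᶠ i in D, i ∈ A' ∧ f w i < h i} < succ ρ := by
    refine mk_below_lt hr h2ρ f hne (fun X hX hbig => ?_)
    exact hμ X hX (hbig.anti ((le_max_left _ _).trans ((le_max_left _ _).trans (le_succ _))))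
  obtain ⟨e, he⟩ := exists_emb_compl hr.aleph0_le _ h3
  have he' : ∀ v, ∀ᶠ i in D, i ∈ A' → h i ≤ f (e v) i := by
    intro v
    have h4 := he v
    rw [Set.mem_ofPred_eq, not_frequently] at h4
    filter_upwards [h4] with i hi hiA
    exact not_lt.1 fun h5 => hi ⟨hiA, h5⟩
  have hbig : Big D (succ ρ) (fun i => G i - h i) A' := by
    refine ⟨hA, fun v i => f (e v) i - h i, fun v i hi => ?_, fun v w hvw => ?_⟩
    · rw [Ordinal.lt_sub]
      show h i + (f (e v) i - h i) < G i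
      rcases le_total (h i) (f (e v) i) with h5 | h5
      · rw [Ordinal.add_sub_cancel_of_le h5]
        exact hf _ i hi
      · rw [Ordinal.sub_eq_zero_iff_le.2 h5, add_zero]
        exact hh i hi
    · filter_upwards [hne _ _ (fun h => hvw (e.injective h)), he' v, he' w] with i h5 h6 h7 hi h8
      apply h5 hi
      rw [← Ordinal.add_sub_cancel_of_le (h6 hi), ← Ordinal.add_sub_cancel_of_le (h7 hi), h8]
  obtain ⟨A'', c, hs', hc1, hc2, hc3⟩ := wchain_of_big hP hr h2ρ hs hbig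
  -- the bound
  have hχρ : χ.ord < (succ ρ).ord :=
    ord_lt_ord.2 (lt_succ_of_le ((le_max_right _ _).trans (le_max_left _ _)))
  let s : (succ ρ).ord.ToType := ToType.mk ⟨χ.ord, hχρ⟩
  have hem : ∀ v : χ.ord.ToType, (v.toOrd : Ordinal.{u}) < (succ ρ).ord :=
    fun v => (show (v.toOrd : Ordinal.{u}) < χ.ord from v.toOrd.2).trans hχρ
  let em : χ.ord.ToType → (succ ρ).ord.ToType := fun v => ToType.mk ⟨(v.toOrd : Ordinal.{u}), hem v⟩
  have hems : ∀ v, em v < s := fun v => ToType.mk.lt_iff_lt.2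
    (show (v.toOrd : Ordinal.{u}) < χ.ord from v.toOrd.2)
  have hemm : ∀ v w, v < w → em v < em w := fun v w hvw => ToType.mk.lt_iff_lt.2
    (show (v.toOrd : Ordinal.{u}) < (w.toOrd : Ordinal.{u}) from ToType.mk.symm.lt_iff_lt.2 hvw)
  refine ⟨fun v i => h i + min (c (em v) i) (c s i), fun i => h i + c s i, fun i hi => ?_,
    fun v i hi => ?_, fun v i hi => ?_, fun v w hvw => ⟨?_, ?_⟩⟩
  · by_cases hi' : i ∈ A''
    · exact Ordinal.lt_sub.1 (hc1 s i hi')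
    · show h i + c s i < G i
      rw [hc2 s i hi', add_zero]
      exact hh i hi
  · exact (add_le_add_iff_left (h i)).2 (min_le_right _ _)
  · exact le_self_add
  · filter_upwards [(hc3 _ _ (hemm v w hvw)).1] with i hi _
    exact (add_le_add_iff_left (h i)).2 (min_le_min_right _ hi)
  · refine ((hc3 _ _ (hemm v w hvw)).2.and_eventually (hc3 _ _ (hems w)).1).mono fun i hi => ?_
    refine ⟨hs' hi.1.1, ?_⟩
    show h i + min (c (em v) i) (c s i) < h i + min (c (em w) i) (c s i)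
    rw [min_eq_left hi.2, min_eq_left (hi.1.2.le.trans hi.2)]
    exact (add_lt_add_iff_left (h i)).2 hi.1.2

end Pool.Agent.RPDepth
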