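import Pool.Agent.RPDepth.PrecQ

/-!
# Blocks of chains, if chains below are given
-/

set_option autoImplicit false

namespace Pool.Agent.RPDepth

universe u

open Cardinal Filter Order Ordinal

/-- a bounded chain above `h`, if chains below are given -/
theorem exists_block' {ι : Type u} [Infinite ι] {D : Filter ι} {A' : Set ι}
    {G : ι → Ordinal.{u}} {T : Cardinal.{u}} (hlim : ∀ μ < T, succ μ < T)
    {L : Cardinal.{u}} (h2L : 2 ^ #ι ≤ L) (hLT : L < T)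
    (hW : ∀ χ' : Cardinal.{u}, χ'.IsRegular → L < χ' → χ' < T →
      ∀ (g : ι → Ordinal.{u}) (Y : Set ι), Y ⊆ A' → (∀ i ∈ Y, g i ≤ G i) → Big D χ' g Y →
        ∃ (A'' : Set ι) (c : χ'.ord.ToType → ι → Ordinal.{u}), A'' ⊆ Y ∧
          (∀ v, ∀ i ∈ A'', c v i < g i) ∧ (∀ v, ∀ i ∉ A'', c v i = 0) ∧
          ∀ v w, v < w → (∀ᶠ i in D, c v i ≤ c w i) ∧ ∃ᶠ i in D, i ∈ A'' ∧ c v i < c w i)
    (hG : ∀ χ < T, Big D χ G A')
    (hm : ∀ g : ι → Ordinal.{u}, (∀ i ∈ A', g i < G i) → ∃ μ < T, ∀ X ⊆ A', ¬ Big D μ g X)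
    {h : ι → Ordinal.{u}} (hh : ∀ i ∈ A', h i < G i) {χ : Cardinal.{u}} (hχT : χ < T) :
    ∃ (c : χ.ord.ToType → ι → Ordinal.{u}) (b : ι → Ordinal.{u}), (∀ i ∈ A', b i < G i) ∧
      (∀ v, ∀ i ∈ A', c v i ≤ b i) ∧ (∀ v, ∀ i ∈ A', h i ≤ c v i) ∧
      ∀ v w, v < w → WLt D A' (c v) (c w) := by
  classical
  have hι : ℵ₀ ≤ #ι := aleph0_le_mk ι
  have hκ : #ι < 2 ^ #ι := cantor _
  obtain ⟨μ, hμT, hμ⟩ := hm h hh
  have hρT : max (max μ χ) L < T := max_lt (max_lt hμT hχT) hLT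
  set ρ := max (max μ χ) L with hρ
  have hρ0 : ℵ₀ ≤ ρ := hι.trans (hκ.le.trans (h2L.trans (le_max_right _ _)))
  have hr : (succ ρ).IsRegular := isRegular_succ hρ0
  have h2ρ : 2 ^ #ι < succ ρ := lt_succ_of_le (h2L.trans (le_max_right _ _))
  obtain ⟨hA, f, hf, hne⟩ := hG _ (hlim _ hρT)
  have h3 : #{w | ∃ᶠ i in D, i ∈ A' ∧ f w i < h i} < succ ρ := by
    refine mk_below_lt hr h2ρ f hne (fun X hX hbig => ?_)
    exact hμ X hX (hbig.anti ((le_max_left _ _).trans ((le_max_left _ _).trans (le_succ _))))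
  obtain ⟨e, he⟩ := exists_emb_compl hr.aleph0_le _ h3
  have he' : ∀ v, ∀ᶠ i in D, i ∈ A' → h i ≤ f (e v) i := by
    intro v
    have h4 := he v
    rw [Set.mem_ofPred_eq, not_frequently] at h4
    filter_upwards [h4] with i hi hiA
    exact not_lt.1 fun h5 => hi ⟨hiA, h5⟩
  have hbig : Big D (succ ρ) (fun i => G i - h i) A' := by
    refine ⟨hA, fun v i => f (e v) i - h i, fun v i hi => ?_, fun v w hvw => ?_⟩
    · rw [Ordinal.lt_sub]
      show h i + (f (e v) i - h i) < G i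
      rcases le_total (h i) (f (e v) i) with h5 | h5
      · rw [Ordinal.add_sub_cancel_of_le h5]
        exact hf _ i hi
      · rw [Ordinal.sub_eq_zero_iff_le.2 h5, add_zero]
        exact hh i hi
    · filter_upwards [hne _ _ (fun h => hvw (e.injective h)), he' v, he' w] with i h5 h6 h7 hi h8
      apply h5 hi
      rw [← Ordinal.add_sub_cancel_of_le (h6 hi), ← Ordinal.add_sub_cancel_of_le (h7 hi), h8]
  obtain ⟨A'', c, hs', hc1, hc2, hc3⟩ := hW _ hr (lt_succ_of_le (le_max_right _ _))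
    (hlim _ hρT) (fun i => G i - h i) A' subset_rfl (fun i _ => Ordinal.sub_le_self _ _) hbig
  -- the bound
  have hχρ : χ.ord < (succ ρ).ord :=
    ord_lt_ord.2 (lt_succ_of_le ((le_max_right _ _).trans (le_max_left _ _)))
  let s : (succ ρ).ord.ToType := ToType.mk ⟨χ.ord, hχρ⟩
  have hem : ∀ v : χ.ord.ToType, (v.toOrd : Ordinal.{u}) < (succ ρ).ord :=
    fun v => (show (v.toOrd : Ordinal.{u}) < χ.ord from v.toOrd.2).trans hχρ
  let em : χ.ord.ToType → (succ ρ).ord.ToType := fun v => ToType.mk ⟨(v.toOrd : Ordinal.{u}), hem v⟩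
  have hems : ∀ v, em v < s := fun v => ToType.mk.lt_iff_lt.2
    (show (v.toOrd : Ordinal.{u}) < χ.ord from v.toOrd.2)
  have hemm : ∀ v w, v < w → em v < em w := fun v w hvw => ToType.mk.lt_iff_lt.2
    (show (v.toOrd : Ordinal.{u}) < (w.toOrd : Ordinal.{u}) from ToType.mk.symm.lt_iff_lt.2 hvw)
  refine ⟨fun v i => h i + min (c (em v) i) (c s i), fun i => h i + c s i, fun i hi => ?_,
    fun v i hi => ?_, fun v i hi => ?_, fun v w hvw => ⟨?_, ?_⟩⟩
  · by_cases hi' : i ∈ A''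
    · exact Ordinal.lt_sub.1 (hc1 s i hi')
    · show h i + c s i < G i
      rw [hc2 s i hi', add_zero]
      exact hh i hi
  · exact (add_le_add_iff_left (h i)).2 (min_le_right _ _)
  · exact le_self_add
  · filter_upwards [(hc3 _ _ (hemm v w hvw)).1] with i hi _
    exact (add_le_add_iff_left (h i)).2 (min_le_min_right _ hi)
  · refine ((hc3 _ _ (hemm v w hvw)).2.and_eventually (hc3 _ _ (hems w)).1).mono fun i hi => ?_
    refine ⟨hs' hi.1.1, ?_⟩
    show h i + min (c (em v) i) (c s i) < h i + min (c (em w) i) (c s i)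
    rw [min_eq_left hi.2, min_eq_left (hi.1.2.le.trans hi.2)]
    exact (add_lt_add_iff_left (h i)).2 hi.1.2

/-- the singular case: blocks, if there is a pair below which everything is small, and chains below
are given -/
theorem lt_of_small' {ι : Type u} [Infinite ι] {D : Filter ι} {B : ι → Type u}
    [∀ i, Preorder (B i)] {lam : ι → Cardinal.{u}}
    (h : ∀ i, ∃ c : (lam i).ord.ToType → B i, StrictMono c) (hpos : ∀ i, 0 < lam i)
    {A' : Set ι}
    {G : ι → Ordinal.{u}} (hGl : ∀ i ∈ A', G i ≤ (lam i).ord)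
    {T : Cardinal.{u}} (hlim : ∀ μ < T, succ μ < T)
    {L : Cardinal.{u}} (h2L : 2 ^ #ι ≤ L) (hLT : L < T)
    (hW : ∀ χ' : Cardinal.{u}, χ'.IsRegular → L < χ' → χ' < T →
      ∀ (g : ι → Ordinal.{u}) (Y : Set ι), Y ⊆ A' → (∀ i ∈ Y, g i ≤ G i) → Big D χ' g Y →
        ∃ (A'' : Set ι) (c : χ'.ord.ToType → ι → Ordinal.{u}), A'' ⊆ Y ∧
          (∀ v, ∀ i ∈ A'', c v i < g i) ∧ (∀ v, ∀ i ∉ A'', c v i = 0) ∧
          ∀ v w, v < w → (∀ᶠ i in D, c v i ≤ c w i) ∧ ∃ᶠ i in D, i ∈ A'' ∧ c v i < c w i)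
    (hG : ∀ χ < T, Big D χ G A')
    (hm : ∀ g : ι → Ordinal.{u}, (∀ i ∈ A', g i < G i) → ∃ μ < T, ∀ X ⊆ A', ¬ Big D μ g X)
    {X : Type u} [LinearOrder X] [WellFoundedLT X] (hX : ∀ x : X, #{y // y < x} < T.ord.cof)
    {χ : X → Cardinal.{u}} (hχ0 : ∀ x, ℵ₀ ≤ χ x) (hχT : ∀ x, χ x < T)
    (hT : ∀ β < T.ord, ∃ x, β < (χ x).ord) :
    T < depthPlus (RedProd D B) := by
  classical
  have step : ∀ (x : X) (prev : ∀ y, y < x →
      (((χ y).ord.ToType → ι → Ordinal.{u}) × {b : ι → Ordinal.{u} // ∀ i ∈ A', b i < G i})),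
      ∃ m : ((χ x).ord.ToType → ι → Ordinal.{u}) × {b : ι → Ordinal.{u} // ∀ i ∈ A', b i < G i},
        (∀ v, ∀ i ∈ A', m.1 v i ≤ m.2.1 i) ∧
        (∀ v w, v < w → WLt D A' (m.1 v) (m.1 w)) ∧
        ∀ y (hy : y < x) v, ∀ᶠ i in D, i ∈ A' → (prev y hy).2.1 i ≤ m.1 v i := by
    intro x prev
    obtain ⟨b, hb, hub⟩ := exists_upper (h2L.trans_lt hLT) hlim hG hm (hX x)
      (fun y : {y // y < x} => (prev y.1 y.2).2.1) (fun y => (prev y.1 y.2).2.2)
    obtain ⟨c, b', h1, h2, h3, h4⟩ := exists_block' hlim h2L hLT hW hG hm hb (hχT x)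
    refine ⟨(c, ⟨b', h1⟩), h2, h4, fun y hy v => ?_⟩
    filter_upwards [hub ⟨y, hy⟩] with i hi hiA
    exact (hi hiA).trans (h3 v i hiA)
  choose F hF1 hF2 hF3 using step
  let H : ∀ x : X, ((χ x).ord.ToType → ι → Ordinal.{u}) ×
      {b : ι → Ordinal.{u} // ∀ i ∈ A', b i < G i} := (wellFounded_lt (α := X)).fix F
  have hH : ∀ x, H x = F x (fun y _ => H y) := fun x => WellFounded.fix_eq _ _ x
  refine chain_of_blocks h hpos (A := A') hχ0 hT (fun x => (H x).1) (fun x => (H x).2.1) ?_ ?_ ?_ ?_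
  · intro x v i hi
    have h1 := hF1 x (fun y _ => H y) v i hi
    rw [← hH x] at h1
    exact h1.trans_lt (((H x).2.2 i hi).trans_le (hGl i hi))
  · intro x v i hi
    have h1 := hF1 x (fun y _ => H y) v i hi
    rwa [← hH x] at h1
  · intro y x hyx v
    have h1 := hF3 x (fun y _ => H y) y hyx v
    rwa [← hH x] at h1
  · intro x v w hvw
    have h1 := hF2 x (fun y _ => H y) v w hvw
    rwa [← hH x] at h1

end Pool.Agent.RPDepth
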