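import Pool.Agent.RPDepth.Step

/-!
# The bound of Galvin and Hajnal for `T_D`, finite steps, and long chains
-/

set_option autoImplicit false

namespace Pool.Agent.RPDepth

universe u

open Cardinal Filter Order Ordinal

/-- few functions are not almost everywhere above `f v`, if there is no smaller pair -/
theorem mk_bad_lt {ι : Type u} {D : Filter ι} {χ : Cardinal.{u}} (hχ : χ.IsRegular)
    (h2 : 2 ^ #ι < χ) {g : ι → Ordinal.{u}} {A : Set ι} {W : Type u} (f : W → ι → Ordinal.{u})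
    (hf : ∀ v, ∀ i ∈ A, f v i < g i) (hne : ∀ v w, v ≠ w → ∀ᶠ i in D, i ∈ A → f v i ≠ f w i)
    (hmin : ∀ (g' : ι → Ordinal.{u}) (A' : Set ι), A' ⊆ A → (∀ i ∈ A', g' i < g i) →
      ¬ Big D χ g' A') (v : W) :
    #{w | ∃ᶠ i in D, i ∈ A ∧ f w i ≤ f v i} < χ := by
  classical
  by_contra hcon
  have hcon' := not_lt.1 hcon
  let Bad' : Set W := {w | ∃ᶠ i in D, i ∈ A ∧ f w i ≤ f v i} \ {v}
  have h3 : χ ≤ #(Bad' : Set W) := by
    by_contra h4
    have h5 : #{w | ∃ᶠ i in D, i ∈ A ∧ f w i ≤ f v i} ≤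
        #(Bad' : Set W) + #({v} : Set W) := by
      refine (mk_le_mk_of_subset ?_).trans (mk_union_le _ _)
      intro w hw
      by_cases hwv : w = v
      · exact Or.inr hwv
      · exact Or.inl ⟨hw, hwv⟩
    have h6 : #(Bad' : Set W) + #({v} : Set W) < χ :=
      add_lt_of_lt hχ.aleph0_le (not_le.1 h4)
        (by rw [mk_singleton]; exact one_lt_aleph0.trans_le hχ.aleph0_le)
    exact absurd (hcon'.trans h5) (not_le_of_gt h6)
  obtain ⟨A', hA'⟩ := infinite_pigeonhole_card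
    (fun w : Bad' => ({i | i ∈ A ∧ f w.1 i < f v i} : Set ι)) χ h3 hχ.aleph0_le
    (by rw [mk_set, hχ.cof_ord]; exact h2)
  obtain ⟨e⟩ : Nonempty (χ.ord.ToType ↪
      ((fun w : Bad' => ({i | i ∈ A ∧ f w.1 i < f v i} : Set ι)) ⁻¹' {A'})) := by
    rw [← Cardinal.le_def, mk_ord_toType]; exact hA'
  have he : ∀ x, {i | i ∈ A ∧ f (e x).1.1 i < f v i} = A' := fun x => (e x).2
  have hne0 : Nonempty χ.ord.ToType := by
    rw [← mk_ne_zero_iff, mk_ord_toType]
    exact (aleph0_pos.trans_le hχ.aleph0_le).ne'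
  obtain ⟨x0⟩ := hne0
  have hpos : ∃ᶠ i in D, i ∈ A' := by
    have h7 : ∃ᶠ i in D, i ∈ A ∧ f (e x0).1.1 i ≤ f v i := (e x0).1.2.1
    have h8 := hne (e x0).1.1 v (fun h => (e x0).1.2.2 h)
    refine (h7.and_eventually h8).mono fun i hi => ?_
    rw [← he x0]
    exact ⟨hi.1.1, lt_of_le_of_ne hi.1.2 (hi.2 hi.1.1)⟩
  refine hmin (f v) A' ?_ ?_ ⟨hpos, fun x => f (e x).1.1, ?_, ?_⟩
  · intro i hi
    rw [← he x0] at hi
    exact hi.1
  · intro i hi
    rw [← he x0] at hi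
    exact hf v i hi.1
  · intro x i hi
    rw [← he x] at hi
    exact hi.2
  · intro x y hxy
    have h9 : (e x).1.1 ≠ (e y).1.1 := fun h =>
      hxy (e.injective (Subtype.ext (Subtype.ext h)))
    filter_upwards [hne _ _ h9] with i hi hiA
    rw [← he x] at hiA
    exact hi hiA.1

/-- The step of Galvin and Hajnal. -/
theorem gh_step {ι : Type u} {D : Filter ι} {X : Cardinal.{u}} (h0 : ℵ₀ ≤ X)
    (h2 : 2 ^ #ι ≤ X) {g : ι → Ordinal.{u}} {A : Set ι} (hbig : Big D (succ (succ X)) g A) :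
    ∃ (g' : ι → Ordinal.{u}) (A' : Set ι), A' ⊆ A ∧ (∀ i ∈ A', g' i < g i) ∧
      Big D (succ X) g' A' := by
  classical
  by_contra hmin
  push Not at hmin
  obtain ⟨hA, f, hf, hne⟩ := hbig
  have hr : (succ X).IsRegular := isRegular_succ h0
  have hbad := mk_bad_lt hr (h2.trans_lt (lt_succ X)) f hf hne hmin
  obtain ⟨e⟩ : Nonempty ((succ X).ord.ToType ↪ (succ (succ X)).ord.ToType) := by
    rw [← Cardinal.le_def, mk_ord_toType, mk_ord_toType]; exact (le_succ _)
  -- a function above `succ X` many others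
  have hw : ∃ w, ∀ v : (succ X).ord.ToType, ¬ ∃ᶠ i in D, i ∈ A ∧ f w i ≤ f (e v) i := by
    by_contra hcon
    push Not at hcon
    choose p hp using hcon
    obtain ⟨v, hv⟩ := infinite_pigeonhole_card p (succ (succ X)) (by rw [mk_ord_toType])
      (h0.trans ((le_succ _).trans (le_succ _)))
      (by rw [(isRegular_succ (h0.trans (le_succ _))).cof_ord, mk_ord_toType]; exact lt_succ _)
    have h4 : p ⁻¹' {v} ⊆ {w | ∃ᶠ i in D, i ∈ A ∧ f w i ≤ f (e v) i} := by
      intro z hz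
      have h5 : p z = v := hz
      have h6 := hp z
      rw [h5] at h6
      exact fun h7 => h6 h7
    have h8 := (hv.trans (mk_le_mk_of_subset h4)).trans_lt (hbad (e v))
    exact absurd h8 (not_lt_of_ge (le_succ _))
  obtain ⟨w, hw⟩ := hw
  have hw' : ∀ v : (succ X).ord.ToType, ∀ᶠ i in D, i ∈ A → f (e v) i < f w i := by
    intro v
    have h3 := hw v
    rw [not_frequently] at h3
    filter_upwards [h3] with i hi hiA
    exact not_le.1 fun h => hi ⟨hiA, h⟩
  have hne0 : Nonempty (succ X).ord.ToType := by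
    rw [← mk_ne_zero_iff, mk_ord_toType]
    exact (bot_le.trans_lt (lt_succ X)).ne'
  obtain ⟨v0⟩ := hne0
  have hpos : ∃ᶠ i in D, i ∈ {i | i ∈ A ∧ 0 < f w i} := by
    refine (hA.and_eventually (hw' v0)).mono fun i hi => ?_
    exact ⟨hi.1, lt_of_le_of_lt bot_le (hi.2 hi.1)⟩
  refine hmin (f w) {i | i ∈ A ∧ 0 < f w i} (fun i hi => hi.1) (fun i hi => hf w i hi.1)
    ⟨hpos, fun v i => if f (e v) i < f w i then f (e v) i else 0, fun v i hi => ?_,
      fun v v' hvv => ?_⟩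
  · show (if f (e v) i < f w i then f (e v) i else 0) < f w i
    split_ifs with h
    · exact h
    · exact hi.2
  · filter_upwards [hw' v, hw' v', hne (e v) (e v') (fun h => hvv (e.injective h))] with
      i h3 h4 h5 hi
    show (if f (e v) i < f w i then f (e v) i else 0) ≠
      (if f (e v') i < f w i then f (e v') i else 0)
    rw [if_pos (h3 hi.1), if_pos (h4 hi.1)]
    exact h5 hi.1

theorem complete_aleph0 {ι : Type u} (D : Filter ι) : Complete D ℵ₀ := by
  intro S hS hSD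
  rw [sInter_mem (lt_aleph0_iff_set_finite.1 hS)]
  exact hSD

theorem not_big_steps {ι : Type u} {D : Filter ι} {X : Cardinal.{u}} (h0 : ℵ₀ ≤ X)
    (h2 : 2 ^ #ι ≤ X) (o : ι → Ordinal.{u})
    (hμ : ∀ A : Set ι, (∃ᶠ i in D, i ∈ A) → ¬ Big D (succ X) (fun i => (ℵ_ (o i)).ord) A) :
    ∀ n : ℕ, ∀ (g : ι → Ordinal.{u}) (A : Set ι), (∀ i ∈ A, g i ≤ (ℵ_ (o i + n)).ord) →
      ¬ Big D (succ (succ^[n] X)) g A := by
  intro n
  induction n with
  | zero =>
    intro g A hg hbig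
    refine hμ A hbig.1 (hbig.mono fun i hi => ?_)
    have h3 := hg i hi
    rwa [Nat.cast_zero, add_zero] at h3
  | succ n ih =>
    intro g A hg hbig
    rw [Function.iterate_succ_apply'] at hbig
    have hle : ∀ m : ℕ, X ≤ succ^[m] X := by
      intro m
      induction m with
      | zero => exact le_rfl
      | succ m hm => rw [Function.iterate_succ_apply']; exact hm.trans (le_succ _)
    obtain ⟨g', A', hs, hlt, hbig'⟩ := gh_step (h0.trans (hle n)) (h2.trans (hle n)) hbig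
    refine ih (fun i => (g' i).card.ord) A' (fun i hi => ord_le_ord.2 ?_) hbig'.card
    have h3 : (g' i).card < ℵ_ (o i + (n + 1 : ℕ)) :=
      lt_ord.1 ((hlt i hi).trans_le (hg i (hs hi)))
    have h4 : o i + ((n + 1 : ℕ) : Ordinal.{u}) = succ (o i + n) := by
      rw [Nat.cast_succ, ← add_assoc, ← Ordinal.add_one_eq_succ]
    rw [h4, aleph_succ, lt_succ_iff] at h3
    exact h3

theorem succ_of_between {X t : Cardinal.{u}} (h0 : ℵ₀ ≤ X) (h1 : X < t) :
    ∀ n : ℕ, t ≤ succ^[n] X → ∃ Y, ℵ₀ ≤ Y ∧ t = succ Y := by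
  intro n
  induction n with
  | zero => intro h; exact absurd h (not_le_of_gt h1)
  | succ n ih =>
    intro h
    rw [Function.iterate_succ_apply'] at h
    rcases h.lt_or_eq with h3 | h3
    · exact ih (lt_succ_iff.1 h3)
    · refine ⟨succ^[n] X, h0.trans ?_, h3⟩
      rw [h3] at h1
      exact lt_succ_iff.1 h1

/-- attainment at successor cardinals -/
theorem exists_family_of_succ {ι : Type u} {D : Filter ι} {lam : ι → Cardinal.{u}}
    {Y : Cardinal.{u}} (h : Y < TD D lam) : ∃ F : Set (∀ i, (lam i).ord.ToType),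
      (∀ f ∈ F, ∀ g ∈ F, f ≠ g → ∀ᶠ i in D, f i ≠ g i) ∧ succ Y ≤ #F := by
  obtain ⟨F, hF⟩ := exists_lt_of_lt_ciSup' h
  exact ⟨F.1, F.2, succ_le_of_lt hF⟩

section gh

variable {ι : Type u} [Infinite ι] (D : Filter ι) (B : ι → Type u) [∀ i, Preorder (B i)]
  (lam : ι → Cardinal.{u})

omit [Infinite ι] in
/-- Galvin and Hajnal for `T_D`, finitely many steps. -/
theorem TD_le_steps {X : Cardinal.{u}} (h0 : ℵ₀ ≤ X) (h2 : 2 ^ #ι ≤ X) (o : ι → Ordinal.{u})
    (hμ : ∀ A : Set ι, (∃ᶠ i in D, i ∈ A) → TD (D ⊓ 𝓟 A) (fun i => ℵ_ (o i)) ≤ X) (n : ℕ)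
    (hfr : ∃ᶠ i in D, lam i ≤ ℵ_ (o i + n)) : TD D lam ≤ succ^[n] X := by
  by_contra hcon
  obtain ⟨F, hF, hle⟩ := exists_family_of_succ (not_le.1 hcon)
  refine not_big_steps h0 h2 o (fun A hA hbig => ?_) n (fun i => (lam i).ord)
    {i | lam i ≤ ℵ_ (o i + n)} (fun i hi => ord_le_ord.2 hi) (big_of_family hF hle hfr)
  exact absurd (le_TD_of_big hbig (fun i => aleph0_pos.trans_le (aleph0_le_aleph _))
    (fun i _ => le_rfl)) (not_le_of_gt (lt_succ_of_le (hμ A hA)))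

/-- The inequality of Q1 holds for `lam` if `lam i ≤ μ i ^{+n}` for `D`-positively many `i` and
`T_D(lam)` is larger than `T_{D+A}(μ)` for all positive `A`. -/
theorem lt_of_steps (hlam : ∀ i, 2 ^ #ι < lam i) (hB : ∀ i, lam i < depthPlus (B i))
    {X : Cardinal.{u}} (h2 : 2 ^ #ι ≤ X) (o : ι → Ordinal.{u})
    (hμ : ∀ A : Set ι, (∃ᶠ i in D, i ∈ A) → TD (D ⊓ 𝓟 A) (fun i => ℵ_ (o i)) ≤ X) (n : ℕ)
    (hfr : ∃ᶠ i in D, lam i ≤ ℵ_ (o i + n)) (hX : X < TD D lam) :
    TD D lam < depthPlus (RedProd D B) := by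
  have h0 : ℵ₀ ≤ X := (aleph0_le_mk ι).trans ((cantor _).le.trans h2)
  obtain ⟨Y, hY, hT⟩ := succ_of_between h0 hX n (TD_le_steps D lam h0 h2 o hμ n hfr)
  obtain ⟨F, hF, hle⟩ := exists_family_of_succ (D := D) (lam := lam) (Y := Y)
    (by rw [hT]; exact lt_succ Y)
  rw [← hT] at hle
  by_contra hno
  obtain ⟨A, hA, h3⟩ := step_down D B lam hlam hB (χ := TD D lam)
    (by rw [hT]; exact isRegular_succ hY) (h2.trans_lt hX) hno hF hle (complete_aleph0 D) o
    (α := n) (by rw [card_nat]; exact nat_lt_aleph0 n) hfr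
  exact absurd (h3.trans (hμ A hA)) (not_le_of_gt hX)

end gh

end Pool.Agent.RPDepth
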