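import Pool.Agent.RPDepth.WF
import Pool.Agent.RPDepth.Gh

/-!
# Functions without descending functionals
-/

set_option autoImplicit false

namespace Pool.Agent.RPDepth

universe u

open Cardinal Filter Order Ordinal

/-- Every function below `f` on a `D`-positive subset of `A` is constant on a `D`-positive
subset. -/
def Fodor {ι : Type u} (D : Filter ι) (A : Set ι) (f : ι → Ordinal.{u}) : Prop :=
  ∀ S : Set ι, S ⊆ A → (∃ᶠ i in D, i ∈ S) → ∀ g : ι → Ordinal.{u}, (∀ i ∈ S, g i < f i) →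
    ∃ α : Ordinal.{u}, ∃ᶠ i in D, i ∈ S ∧ g i = α

theorem NoDescent.of_fodor {ι : Type u} {D : Filter ι} {A : Set ι} {f : ι → Ordinal.{u}}
    (h : Fodor D A f) : NoDescent D A f := by
  rintro S hSA hS ⟨Φ, hΦ, h0, hdesc⟩
  have hle : ∀ n, ∀ p ∈ Φ n, ∀ i ∈ p.1, p.2 i ≤ f i := by
    intro n
    induction n with
    | zero => exact h0
    | succ n ih =>
      intro p hp i hi
      obtain ⟨q, hq, h1, h2⟩ := hdesc n p hp
      exact (h2 i hi).le.trans (ih q hq i (h1 hi))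
  have hlt : ∀ n, ∀ p ∈ Φ (n + 1), ∀ i ∈ p.1, p.2 i < f i := by
    intro n p hp i hi
    obtain ⟨q, hq, h1, h2⟩ := hdesc n p hp
    exact (h2 i hi).trans_le (hle n q hq i (h1 hi))
  have key : ∀ α : Ordinal.{u}, ∀ n, ∀ p ∈ Φ (n + 1), ∀ X ⊆ p.1, (∃ᶠ i in D, i ∈ X) →
      (∀ i ∈ X, p.2 i = α) → False := by
    intro α
    induction α using WellFoundedLT.induction with
    | ind α ih =>
      intro n p hp X hXp hX hconst
      have hXS : X ⊆ S := hXp.trans ((hΦ (n + 1)).pos p hp).1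
      obtain ⟨r, hr, hfr⟩ := (hΦ (n + 2)).max X hXS hX
      obtain ⟨q, hq, h1, h2⟩ := hdesc (n + 1) r hr
      have hqp : q = p := by
        by_contra hne
        obtain ⟨i, hi, hi'⟩ := (hfr.and_eventually ((hΦ (n + 1)).disj q hq p hp hne)).exists
        exact hi' ⟨h1 hi.1, hXp hi.2⟩
      rw [hqp] at h2
      have hsub : {i | i ∈ r.1 ∧ i ∈ X} ⊆ A := fun i hi => hSA (hXS hi.2)
      obtain ⟨β, hβ⟩ := h {i | i ∈ r.1 ∧ i ∈ X} hsub hfr r.2 (fun i hi => hlt _ r hr i hi.1)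
      obtain ⟨i, hi, hi'⟩ := hβ.exists
      have hβα : β < α := by
        have h3 := h2 i hi.1
        rwa [hi', hconst i hi.2] at h3
      exact ih β hβα (n + 1) r hr {i | i ∈ {i | i ∈ r.1 ∧ i ∈ X} ∧ r.2 i = β}
        (fun i hi => hi.1.1) hβ (fun i hi => hi.2)
  obtain ⟨r, hr, hfr⟩ := (hΦ 1).max S subset_rfl hS
  have hrS := ((hΦ 1).pos r hr)
  obtain ⟨β, hβ⟩ := h r.1 (hrS.1.trans hSA) hrS.2 r.2 (hlt 0 r hr)
  exact key β 0 r hr {i | i ∈ r.1 ∧ r.2 i = β} (fun i hi => hi.1) hβ (fun i hi => hi.2)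

theorem NoDescent.of_precipitous {ι : Type u} {D : Filter ι} {A : Set ι}
    (h : Precipitous (D ⊓ 𝓟 A)) (f : ι → Ordinal.{u}) : NoDescent D A f := by
  rintro S hSA hS ⟨Φ, hΦ, -, hdesc⟩
  have hfr : ∀ X ⊆ A, (∃ᶠ i in D ⊓ 𝓟 A, i ∈ X) ↔ ∃ᶠ i in D, i ∈ X := by
    intro X hX
    rw [frequently_inf_principal]
    exact ⟨fun h => h.mono fun i hi => hi.2, fun h => h.mono fun i hi => ⟨hX hi, hi⟩⟩
  refine h S ((hfr S hSA).2 hS) ⟨Φ, fun n => ⟨fun p hp => ?_, fun p hp q hq hpq => ?_,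
    fun Y hY hYpos => ?_⟩, hdesc⟩
  · obtain ⟨h1, h2⟩ := (hΦ n).pos p hp
    exact ⟨h1, (hfr _ (h1.trans hSA)).2 h2⟩
  · exact ((hΦ n).disj p hp q hq hpq).filter_mono inf_le_left
  · obtain ⟨p, hp, h1⟩ := (hΦ n).max Y hY ((hfr _ (hY.trans hSA)).1 hYpos)
    refine ⟨p, hp, ?_⟩
    rw [frequently_inf_principal]
    exact h1.mono fun i hi => ⟨hSA (hY hi.2), hi⟩

theorem Fodor.mono {ι : Type u} {D : Filter ι} {A A' : Set ι} {f f' : ι → Ordinal.{u}}
    (h : Fodor D A f) (hA : A' ⊆ A) (hf : ∀ i ∈ A', f' i ≤ f i) : Fodor D A' f' :=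
  fun S hS hpos g hg => h S (hS.trans hA) hpos g fun i hi => (hg i hi).trans_le (hf i (hS hi))

theorem Fodor.of_complete {ι : Type u} {D : Filter ι} {θ : Cardinal.{u}} (hθ : Complete D θ)
    {α : Ordinal.{u}} (hα : α.card < θ) (A : Set ι) : Fodor D A (fun _ => α) := by
  intro S hSA hS g hg
  obtain ⟨j, hj⟩ := exists_pos_of_complete (J := α.ToType) hθ (by rw [mk_toType]; exact hα)
    (fun j => {i | i ∈ S ∧ g i = (j.toOrd : Ordinal.{u})}) hS (fun i hi => by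
      refine ⟨ToType.mk ⟨g i, hg i hi⟩, hi, ?_⟩
      rw [ToType.toOrd, OrderIso.symm_apply_apply])
  exact ⟨_, hj⟩

theorem Fodor.of_nat {ι : Type u} (D : Filter ι) (n : ℕ) (A : Set ι) :
    Fodor D A (fun _ => (n : Ordinal.{u})) :=
  Fodor.of_complete (complete_aleph0 D) (by rw [card_nat]; exact natCast_lt_aleph0) A

/-- a normal filter: every regressive function on a positive set is constant on a positive set -/
def Normal {ι : Type u} [LinearOrder ι] (D : Filter ι) : Prop :=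
  ∀ S : Set ι, (∃ᶠ i in D, i ∈ S) → ∀ h : ι → ι, (∀ i ∈ S, h i < i) →
    ∃ j, ∃ᶠ i in D, i ∈ S ∧ h i = j

theorem Fodor.of_normal {ι : Type u} [LinearOrder ι] [WellFoundedLT ι] {D : Filter ι}
    (hD : Normal D) (A : Set ι) :
    Fodor D A (fun i => Ordinal.typein (α := ι) (· < ·) i) := by
  intro S hSA hS g hg
  classical
  have hex : ∀ i ∈ S, ∃ j, j < i ∧ g i = Ordinal.typein (α := ι) (· < ·) j := by
    intro i hi
    have h1 := hg i hi
    obtain ⟨j, hj⟩ := Ordinal.mem_range_typein_iff (α := ι) (· < ·) |>.2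
      (h1.trans (Ordinal.typein_lt_type (α := ι) (· < ·) i))
    refine ⟨j, ?_, hj.symm⟩
    rw [← hj] at h1
    exact (Ordinal.typein_lt_typein (α := ι) (· < ·)).1 h1
  choose! h hlt hgh using hex
  obtain ⟨j, hj⟩ := hD S hS h hlt
  exact ⟨Ordinal.typein (α := ι) (· < ·) j, hj.mono fun i hi => ⟨hi.1, by rw [hgh i hi.1, hi.2]⟩⟩

end Pool.Agent.RPDepth
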