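import Pool.Agent.RPDepth.Tau

/-!
# Fubini sums of filters
-/

set_option autoImplicit false

namespace Pool.Agent.RPDepth

universe u

open Cardinal Filter Order Ordinal

/-- The Fubini sum of the filters `E i` on `J i` along the filter `D` on `ι`, a filter on the
disjoint union of the `J i`: a set is in it if, for `D`-almost all `i`, it contains `⟨i, j⟩` for
`E i`-almost all `j`. -/
def fubini {ι : Type u} {J : ι → Type u} (D : Filter ι) (E : ∀ i, Filter (J i)) :
    Filter (Σ i, J i) :=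
  D.bind fun i => (E i).map (Sigma.mk i)

section
variable {ι : Type u} {J : ι → Type u} {D : Filter ι} {E : ∀ i, Filter (J i)}

theorem eventually_fubini {p : (Σ i, J i) → Prop} :
    (∀ᶠ x in fubini D E, p x) ↔ ∀ᶠ i in D, ∀ᶠ j in E i, p ⟨i, j⟩ := by
  rw [fubini, eventually_bind]
  simp only [eventually_map]

theorem frequently_fubini {p : (Σ i, J i) → Prop} :
    (∃ᶠ x in fubini D E, p x) ↔ ∃ᶠ i in D, ∃ᶠ j in E i, p ⟨i, j⟩ := by
  simp only [Filter.Frequently, eventually_fubini, not_not]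

instance [D.NeBot] [∀ i, (E i).NeBot] : (fubini D E).NeBot := by
  constructor
  intro h
  have h1 : ∀ᶠ x in fubini D E, False := by rw [h]; exact eventually_bot
  rw [eventually_fubini] at h1
  obtain ⟨i, hi⟩ := h1.exists
  obtain ⟨j, hj⟩ := hi.exists
  exact hj

/-- a maximal family of functions that differ almost everywhere -/
theorem exists_cover {ι : Type u} (D : Filter ι) [D.NeBot] (X : ι → Type u) :
    ∃ F : Set (∀ i, X i), (∀ f ∈ F, ∀ g ∈ F, f ≠ g → ∀ᶠ i in D, f i ≠ g i) ∧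
      ∀ f : ∀ i, X i, ∃ g ∈ F, ∃ᶠ i in D, f i = g i := by
  obtain ⟨F, hF⟩ := zorn_subset {F : Set (∀ i, X i) |
    ∀ f ∈ F, ∀ g ∈ F, f ≠ g → ∀ᶠ i in D, f i ≠ g i} (by
      intro c hc hchain
      refine ⟨⋃₀ c, ?_, fun s hs => Set.subset_sUnion_of_mem hs⟩
      rintro f ⟨s, hs, hf⟩ g ⟨t, ht, hg⟩ hne
      rcases hchain.total hs ht with h | h
      · exact hc ht f (h hf) g hg hne
      · exact hc hs f hf g (h hg) hne)
  refine ⟨F, hF.prop, fun f => ?_⟩
  by_contra hcon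
  push Not at hcon
  have h1 : ∀ g ∈ F, ∀ᶠ i in D, f i ≠ g i := hcon
  have h2 : insert f F ∈ {F : Set (∀ i, X i) |
      ∀ f ∈ F, ∀ g ∈ F, f ≠ g → ∀ᶠ i in D, f i ≠ g i} := by
    rintro a (rfl | ha) b (rfl | hb) hne
    · exact absurd rfl hne
    · exact h1 b hb
    · exact (h1 a ha).mono fun i hi => hi.symm
    · exact hF.prop a ha b hb hne
  have h3 := hF.le_of_ge h2 (Set.subset_insert f F)
  obtain ⟨i, hi⟩ := (h1 f (h3 (Set.mem_insert f F))).exists
  exact hi rfl

/-- a covering family bounds the families of functions that differ almost everywhere -/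
theorem card_le_cover {ι : Type u} {D : Filter ι} {X : ι → Type u} {F G : Set (∀ i, X i)}
    (hF : ∀ f ∈ F, ∀ g ∈ F, f ≠ g → ∀ᶠ i in D, f i ≠ g i)
    (hG : ∀ f : ∀ i, X i, ∃ g ∈ G, ∃ᶠ i in D, f i = g i) : #F ≤ #G * 2 ^ #ι := by
  classical
  choose c hc1 hc2 using hG
  let φ : F → G × Set ι := fun f => (⟨c f.1, hc1 f.1⟩, {i | f.1 i = c f.1 i})
  have hφ : Function.Injective φ := by
    intro f g hfg
    apply Subtype.ext
    have h1 : c f.1 = c g.1 := congrArg (fun x => x.1.1) hfg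
    have h2 : {i | f.1 i = c f.1 i} = {i | g.1 i = c g.1 i} := congrArg (fun x => x.2) hfg
    refine eq_of_eqOn hF (S := {i | f.1 i = c f.1 i}) (hc2 f.1) f.2 g.2 fun i hi => ?_
    have h3 : i ∈ {i | g.1 i = c g.1 i} := h2 ▸ hi
    have h4 : f.1 i = c f.1 i := hi
    have h5 : g.1 i = c g.1 i := h3
    rw [h4, h5, h1]
  have h6 := mk_le_of_injective hφ
  rwa [mk_prod, Cardinal.lift_id, Cardinal.lift_id, mk_set] at h6

theorem lt_TD {ι : Type u} {D : Filter ι} [D.NeBot] {lam : ι → Cardinal.{u}} {c : Cardinal.{u}}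
    (h : ∀ i, c < lam i) : c < TD D lam := by
  classical
  have h1 : ∀ i, Nonempty ((succ c).ord.ToType ↪ (lam i).ord.ToType) := fun i => by
    rw [← Cardinal.le_def, mk_ord_toType, mk_ord_toType]
    exact succ_le_of_lt (h i)
  let e := fun i => Classical.choice (h1 i)
  let φ : (succ c).ord.ToType → ∀ i, (lam i).ord.ToType := fun x i => e i x
  have hφ : ∀ x y, x ≠ y → ∀ i, φ x i ≠ φ y i := fun x y hxy i hi => hxy ((e i).injective hi)
  have hinj : Function.Injective φ := by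
    intro x y hxy
    by_contra hne
    obtain ⟨i⟩ : Nonempty ι := (inferInstance : D.NeBot).nonempty
    exact hφ x y hne i (congrFun hxy i)
  have h2 : #(Set.range φ) ≤ TD D lam := by
    apply le_TD
    rintro _ ⟨x, rfl⟩ _ ⟨y, rfl⟩ hne
    exact Eventually.of_forall (hφ x y fun h => hne (by rw [h]))
  rw [mk_range_eq φ hinj, mk_ord_toType] at h2
  exact (lt_succ c).trans_le h2

/-- `T_D` is attained by a covering family -/
theorem exists_attained {ι : Type u} {D : Filter ι} [D.NeBot] {lam : ι → Cardinal.{u}}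
    {c : Cardinal.{u}} (hc : ℵ₀ ≤ c) (hι : 2 ^ #ι ≤ c) (h : ∀ i, c < lam i) :
    ∃ F : Set (∀ i, (lam i).ord.ToType), (∀ f ∈ F, ∀ g ∈ F, f ≠ g → ∀ᶠ i in D, f i ≠ g i) ∧
      (∀ f : ∀ i, (lam i).ord.ToType, ∃ g ∈ F, ∃ᶠ i in D, f i = g i) ∧ #F = TD D lam := by
  obtain ⟨F, hF1, hF2⟩ := exists_cover D fun i => (lam i).ord.ToType
  refine ⟨F, hF1, hF2, (le_TD hF1).antisymm ?_⟩
  have hcT := lt_TD (D := D) h
  have h1 : TD D lam ≤ #F * c := by
    apply ciSup_le'
    rintro ⟨F', hF'⟩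
    exact (card_le_cover hF' hF2).trans (mul_le_mul_right hι _)
  by_contra hcon
  rw [not_le] at hcon
  exact absurd h1 (not_le_of_gt (mul_lt_of_lt (hc.trans hcT.le) hcon hcT))

end

section
variable {ι : Type u} {J : ι → Type u} [Infinite (Σ i, J i)] {D : Filter ι} [D.NeBot]
  {E : ∀ i, Filter (J i)} [∀ i, (E i).NeBot] {lam : (Σ i, J i) → Cardinal.{u}}

omit [Infinite (Σ i, J i)] in
theorem mk_fiber_le (i : ι) : #(J i) ≤ #(Σ i, J i) :=
  mk_le_of_injective (f := fun j => (⟨i, j⟩ : Σ i, J i)) fun a b h => by simpa using h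

omit [Infinite (Σ i, J i)] [D.NeBot] in
theorem mk_base_le (E : ∀ i, Filter (J i)) [∀ i, (E i).NeBot] : #ι ≤ #(Σ i, J i) := by
  have h : ∀ i, Nonempty (J i) := fun i => (inferInstance : (E i).NeBot).nonempty
  exact mk_le_of_injective (f := fun i => (⟨i, Classical.choice (h i)⟩ : Σ i, J i))
    fun a b h => (Sigma.mk.inj_iff.1 h).1

/-- `T` of a Fubini sum -/
theorem TD_fubini (h2 : ∀ x, 2 ^ #(Σ i, J i) < lam x) :
    TD (fubini D E) lam = TD D fun i => TD (E i) fun j => lam ⟨i, j⟩ := by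
  classical
  have hκ : ℵ₀ ≤ #(Σ i, J i) := aleph0_le_mk _
  have h0 : ℵ₀ ≤ 2 ^ #(Σ i, J i) := hκ.trans (cantor _).le
  have hT : ∀ i, 2 ^ #(Σ i, J i) < TD (E i) fun j => lam ⟨i, j⟩ := fun i =>
    lt_TD fun j => h2 ⟨i, j⟩
  have hG := fun i => exists_attained (D := E i) (lam := fun j => lam ⟨i, j⟩) h0
    (power_le_power_left two_ne_zero (mk_fiber_le i)) fun j => h2 ⟨i, j⟩
  choose G hG1 hG2 hG3 using hG
  have he : ∀ i, Nonempty ((TD (E i) fun j => lam ⟨i, j⟩).ord.ToType ≃ G i) := fun i => by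
    rw [← Cardinal.eq, mk_ord_toType, hG3 i]
  let e := fun i => Classical.choice (he i)
  apply le_antisymm
  · obtain ⟨H, hH1, hH2, hH3⟩ := exists_attained (D := D)
      (lam := fun i => TD (E i) fun j => lam ⟨i, j⟩) h0
      (power_le_power_left two_ne_zero (mk_base_le E)) hT
    rw [← hH3]
    apply ciSup_le'
    rintro ⟨F, hF⟩
    -- the functions built from the covering families
    let φ : (∀ i, (TD (E i) fun j => lam ⟨i, j⟩).ord.ToType) →
        ∀ x : Σ i, J i, (lam x).ord.ToType := fun h x => (e x.1 (h x.1)).1 x.2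
    have hcov : ∀ f : ∀ x : Σ i, J i, (lam x).ord.ToType, ∃ g ∈ φ '' H,
        ∃ᶠ x in fubini D E, f x = g x := by
      intro f
      have h3 : ∀ i, ∃ t : (TD (E i) fun j => lam ⟨i, j⟩).ord.ToType,
          ∃ᶠ j in E i, f ⟨i, j⟩ = (e i t).1 j := fun i => by
        obtain ⟨g, hg, hg'⟩ := hG2 i fun j => f ⟨i, j⟩
        refine ⟨(e i).symm ⟨g, hg⟩, ?_⟩
        simpa using hg'
      choose t ht using h3
      obtain ⟨h, hh, hh'⟩ := hH2 t
      refine ⟨φ h, ⟨h, hh, rfl⟩, ?_⟩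
      rw [frequently_fubini]
      refine hh'.mono fun i hi => (ht i).mono fun j hj => ?_
      rw [hj, hi]
    have h4 := card_le_cover hF hcov
    refine h4.trans ?_
    have h5 : #(φ '' H) ≤ #H := mk_image_le
    have h6 : 2 ^ #(Σ i, J i) ≤ #H := by rw [hH3]; exact (lt_TD hT).le
    calc #(φ '' H) * 2 ^ #(Σ i, J i) ≤ #H * #H := mul_le_mul' h5 h6
      _ = #H := mul_eq_self (h0.trans h6)
  · apply ciSup_le'
    rintro ⟨F, hF⟩
    let φ : F → ∀ x : Σ i, J i, (lam x).ord.ToType := fun h x => (e x.1 (h.1 x.1)).1 x.2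
    have hφ : ∀ f g : F, f ≠ g → ∀ᶠ x in fubini D E, φ f x ≠ φ g x := by
      intro f g hne
      rw [eventually_fubini]
      filter_upwards [hF f.1 f.2 g.1 g.2 fun h => hne (Subtype.ext h)] with i hi
      exact hG1 i _ (e i (f.1 i)).2 _ (e i (g.1 i)).2 fun h =>
        hi ((e i).injective (Subtype.ext h))
    have hinj : Function.Injective φ := by
      intro f g hfg
      by_contra hne
      obtain ⟨x, hx⟩ := (hφ f g hne).exists
      exact hx (congrFun hfg x)
    change #F ≤ _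
    rw [← mk_range_eq φ hinj]
    apply le_TD
    rintro _ ⟨f, rfl⟩ _ ⟨g, rfl⟩ hne
    exact hφ f g fun h => hne (by rw [h])

omit [Infinite (Σ i, J i)] [D.NeBot] [∀ i, (E i).NeBot] in
/-- the reduced product modulo a Fubini sum is an iterated reduced product -/
theorem depthPlus_fubini (B : (Σ i, J i) → Type u) [∀ x, Preorder (B x)] :
    depthPlus (RedProd (fubini D E) B) =
      depthPlus (RedProd D fun i => RedProd (E i) fun j => B ⟨i, j⟩) := by
  let φ : RedProd (fubini D E) B → RedProd D fun i => RedProd (E i) fun j => B ⟨i, j⟩ :=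
    fun f i j => f ⟨i, j⟩
  let ψ : (RedProd D fun i => RedProd (E i) fun j => B ⟨i, j⟩) → RedProd (fubini D E) B :=
    fun f x => f x.1 x.2
  have hle : ∀ f g : RedProd (fubini D E) B, φ f ≤ φ g ↔ f ≤ g := fun f g =>
    (eventually_fubini (p := fun x => f x ≤ g x)).symm
  have hle' : ∀ f g : RedProd D fun i => RedProd (E i) fun j => B ⟨i, j⟩, ψ f ≤ ψ g ↔ f ≤ g :=
    fun f g => eventually_fubini (p := fun x : Σ i, J i => f x.1 x.2 ≤ g x.1 x.2)
  unfold depthPlus
  congr 1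
  ext c
  simp only [Set.mem_ofPred_eq, not_iff_not]
  constructor
  · rintro ⟨h, hh⟩
    refine ⟨fun v => φ (h v), fun v w hvw => ?_⟩
    have h3 := hh hvw
    rw [lt_iff_le_not_ge] at h3 ⊢
    rwa [hle, hle]
  · rintro ⟨h, hh⟩
    refine ⟨fun v => ψ (h v), fun v w hvw => ?_⟩
    have h3 := hh hvw
    rw [lt_iff_le_not_ge] at h3 ⊢
    rwa [hle', hle']

end

/-- Q1 holds for the filter `D`: for all cardinals `lam i > 2 ^ κ`, `κ = #ι`, and all ordered sets
`B i` with `lam i < Depth⁺(B i)`. -/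
def Q1 {ι : Type u} (D : Filter ι) : Prop :=
  ∀ (B : ι → Type u) [∀ i, Preorder (B i)] (lam : ι → Cardinal.{u}), (∀ i, 2 ^ #ι < lam i) →
    (∀ i, lam i < depthPlus (B i)) → TD D lam < depthPlus (RedProd D B)

/-- Q1 passes to Fubini sums -/
theorem q1_fubini {ι : Type u} {J : ι → Type u} [Infinite (Σ i, J i)] {D : Filter ι} [D.NeBot]
    {E : ∀ i, Filter (J i)} [∀ i, (E i).NeBot] (hD : Q1 D)
    (B : (Σ i, J i) → Type u) [∀ x, Preorder (B x)] {lam : (Σ i, J i) → Cardinal.{u}}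
    (h2 : ∀ x, 2 ^ #(Σ i, J i) < lam x)
    (hE : ∀ i, TD (E i) (fun j => lam ⟨i, j⟩) < depthPlus (RedProd (E i) fun j => B ⟨i, j⟩)) :
    TD (fubini D E) lam < depthPlus (RedProd (fubini D E) B) := by
  rw [TD_fubini h2, depthPlus_fubini]
  exact hD (fun i => RedProd (E i) fun j => B ⟨i, j⟩) _ (fun i =>
    (power_le_power_left two_ne_zero (mk_base_le E)).trans_lt (lt_TD fun j => h2 ⟨i, j⟩)) hE

theorem Q1.fubini {ι : Type u} {J : ι → Type u} [Infinite (Σ i, J i)] {D : Filter ι} [D.NeBot]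
    {E : ∀ i, Filter (J i)} [∀ i, (E i).NeBot] (hD : Q1 D) (hE : ∀ i, Q1 (E i)) :
    Q1 (RPDepth.fubini D E) := fun B _ lam h2 hB =>
  q1_fubini hD B h2 fun i => hE i (fun j => B ⟨i, j⟩) (fun j => lam ⟨i, j⟩)
    (fun j => (power_le_power_left two_ne_zero (mk_fiber_le i)).trans_lt (h2 ⟨i, j⟩))
    fun j => hB ⟨i, j⟩

end Pool.Agent.RPDepth
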