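import Mathlib

/-!
# Regular cardinals cofinal in a singular cardinal
-/

set_option autoImplicit false

namespace Pool.Agent.RPDepth

universe u

open Cardinal Order Ordinal

/-- In a singular cardinal `T` there are `cf T` many regular cardinals that are cofinal in `T` and
larger than a given cardinal below `T`. -/
theorem fund {T a : Cardinal.{u}} (hT : ℵ₀ ≤ T) (hs : ¬ T.IsRegular) (ha : a < T) :
    ∃ χ : T.ord.cof.ord.ToType → Cardinal.{u},
      (∀ x, (χ x).IsRegular ∧ a < χ x ∧ T.ord.cof < χ x ∧ χ x < T) ∧ (∀ μ < T, ∃ x, μ < χ x) ∧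
        T ≤ Cardinal.sum χ := by
  have hcof : T.ord.cof < T := by
    refine lt_of_le_of_ne (cof_ord_le T) fun h => hs ⟨hT, h.ge⟩
  have h0 : ℵ₀ < T := by
    refine lt_of_le_of_ne hT fun h => hs (h ▸ isRegular_aleph0)
  have hlim : ∀ d < T, succ d < T := by
    intro d hd
    refine lt_of_le_of_ne (succ_le_of_lt hd) fun h => hs ?_
    have hd0 : ℵ₀ ≤ d := by
      by_contra hcon
      have h1 : succ d ≤ ℵ₀ := succ_le_of_lt (not_le.1 hcon)
      exact absurd (h ▸ h1) (not_le_of_gt h0)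
    rw [← h]
    exact isRegular_succ hd0
  obtain ⟨s, hcofs, hcard⟩ := Order.exists_cof_eq (α := T.ord.ToType)
  rw [cof_toType] at hcard
  obtain ⟨e⟩ : Nonempty (T.ord.cof.ord.ToType ≃ s) := by
    rw [← Cardinal.eq, mk_ord_toType, hcard]
  let b : T.ord.cof.ord.ToType → Ordinal.{u} := fun x => (e x).1.toOrd
  have hb : ∀ x, (b x).card < T := fun x => lt_ord.1 (e x).1.toOrd.2
  let χ : T.ord.cof.ord.ToType → Cardinal.{u} :=
    fun x => succ (max (max a T.ord.cof) (max ℵ₀ (b x).card))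
  have hbχ : ∀ x, (b x).card < χ x := fun x =>
    lt_succ_of_le ((le_max_right _ _).trans (le_max_right _ _))
  have hun : ∀ μ < T, ∃ x, μ < χ x := by
    intro μ hμ
    have h1 : μ.ord < T.ord := ord_lt_ord.2 hμ
    obtain ⟨y, hy, hle⟩ := hcofs (ToType.mk ⟨μ.ord, h1⟩)
    obtain ⟨x, hx⟩ := e.surjective ⟨y, hy⟩
    have h2 : μ.ord ≤ b x := by
      have h3 : (ToType.mk ⟨μ.ord, h1⟩ : T.ord.ToType) ≤ (e x).1 := by rw [hx]; exact hle
      have h4 := ToType.mk.symm.le_iff_le.2 h3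
      rw [OrderIso.symm_apply_apply] at h4
      exact Subtype.coe_le_coe.2 h4
    have h5 := Ordinal.card_le_card h2
    rw [card_ord] at h5
    exact ⟨x, h5.trans_lt (hbχ x)⟩
  refine ⟨χ, fun x => ⟨?_, ?_, ?_, ?_⟩, hun, ?_⟩
  · exact isRegular_succ ((le_max_left _ _).trans (le_max_right _ _))
  · exact lt_succ_of_le ((le_max_left _ _).trans (le_max_left _ _))
  · exact lt_succ_of_le ((le_max_right _ _).trans (le_max_left _ _))
  · exact hlim _ (max_lt (max_lt ha hcof) (max_lt h0 (hb x)))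
  · by_contra hcon
    obtain ⟨x, hx⟩ := hun _ (not_le.1 hcon)
    exact absurd (Cardinal.le_sum χ x) (not_le_of_gt hx)

end Pool.Agent.RPDepth
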