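import Pool.Agent.RPDepth.NormQ

/-!
# Q1 for filters with diagonally complete extensions on all positive sets
-/

set_option autoImplicit false

namespace Pool.Agent.RPDepth

universe u

open Cardinal Filter Order Ordinal

/-- `D'` is a `Q`-complete extension of `D`: a proper filter that contains `D` and is closed under
countable intersections and under the diagonal intersections along `Q`, where `{i | Q i w} ∈ D` for
all `w`. -/
def QExt {ι W : Type u} (Q : ι → W → Prop) (D D' : Filter ι) : Prop :=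
  D' ≤ D ∧ D'.NeBot ∧ (∀ w, ∀ᶠ i in D, Q i w) ∧ OmegaComplete D' ∧ QComplete Q D'

/-- For every `D`-positive set `Y` the filter `D + Y` has a `Q`-complete extension for some
`Q ⊆ ι × W`. -/
def Hereditary {ι : Type u} (W : Type u) (D : Filter ι) : Prop :=
  ∀ Y : Set ι, (∃ᶠ i in D, i ∈ Y) → ∃ (Q : ι → W → Prop) (D' : Filter ι), QExt Q (D ⊓ 𝓟 Y) D'

theorem OmegaComplete.restrict {ι : Type u} {D : Filter ι} (h : OmegaComplete D) (Y : Set ι) :
    OmegaComplete (D ⊓ 𝓟 Y) := by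
  intro S hS
  have h1 : ∀ n, {i | i ∈ Y → i ∈ S n} ∈ D := fun n => mem_inf_principal.1 (hS n)
  rw [mem_inf_principal]
  filter_upwards [h _ h1] with i hi hiA n
  exact hi n hiA

theorem QComplete.restrict {ι W : Type u} {D : Filter ι} {Q : ι → W → Prop} (h : QComplete Q D)
    (Y : Set ι) : QComplete Q (D ⊓ 𝓟 Y) := by
  intro S hS
  have h1 : ∀ n, {i | i ∈ Y → i ∈ S n} ∈ D := fun n => mem_inf_principal.1 (hS n)
  rw [mem_inf_principal]
  filter_upwards [h _ h1] with i hi hiA w hw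
  exact hi w hw hiA

theorem QExt.hereditary {ι W : Type u} {D : Filter ι} {Q : ι → W → Prop} (h : QExt Q D D) :
    Hereditary W D := fun Y hY =>
  ⟨Q, D ⊓ 𝓟 Y, le_rfl, frequently_mem_iff_neBot.1 hY, fun w => (h.2.2.1 w).filter_mono inf_le_left,
    h.2.2.2.1.restrict Y, h.2.2.2.2.restrict Y⟩

theorem q1_of_hereditary {ι W : Type u} [Infinite ι] (D : Filter ι) [D.NeBot] (B : ι → Type u)
    [∀ i, Preorder (B i)] (lam : ι → Cardinal.{u}) (h2 : ∀ i, 2 ^ #ι < lam i)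
    (hB : ∀ i, lam i < depthPlus (B i)) (hH : Hereditary W D) (hWι : #W ≤ #ι) {o : Ordinal.{u}}
    (h2o : 2 ^ #ι ≤ ℵ_ o) (hν : ∀ ν < ℵ_ o, ν ^ #ι ≤ ℵ_ o)
    (hcof : (ℵ_ o) ^ #ι = ℵ_ o ∨ (ℵ_ o).ord.cof ≤ #W)
    {β : Ordinal.{u}} (hβ : β.card ≤ #W) (hT : TD D lam ≤ ℵ_ (o + β))
    (hoT : ℵ_ o < TD D lam ∨ ∃ᶠ i in D, ℵ_ o < lam i) :
    TD D lam < depthPlus (RedProd D B) := by
  rcases lt_or_ge (ℵ_ o) (TD D lam) with h | h
  · refine q1_of_lengths D B lam h2 hB h2o h (fun χ' hr hL hT' g Y _ hb => ?_) fun hsing => ?_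
    · obtain ⟨Q, D', hDD', hNB, hfine, hω, hQ⟩ := hH Y hb.1
      have hb' : Big D' χ' g Y := by
        obtain ⟨-, f, hf, hne⟩ := hb
        refine ⟨?_, f, hf, fun v w hvw => ?_⟩
        · exact Eventually.frequently (hDD' (mem_inf_of_right (mem_principal_self Y)))
        · exact (hDD'.trans inf_le_left) (hne v w hvw)
      obtain ⟨A'', c, hA'', hc1, hc2, hc3⟩ := wchain_of_steps hDD' hω hQ hfine hWι h2o hν hcof hβ hr
        hL (hT'.trans hT) hb'
      refine ⟨A'', c, hA'', hc1, hc2, fun v w hvw => ⟨?_, ?_⟩⟩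
      · have h1 := (hc3 v w hvw).1
        rw [eventually_inf_principal] at h1
        filter_upwards [h1] with i hi
        by_cases hiY : i ∈ Y
        · exact hi hiY
        · rw [hc2 v i fun h => hiY (hA'' h)]
          exact bot_le
      · have h1 := (hc3 v w hvw).2
        rw [frequently_inf_principal] at h1
        exact h1.mono fun i hi => hi.2
    · rcases steps_aux h hT with ⟨γ, hγ, h3⟩ | h3
      · have h4 := (isRegular_succ (aleph0_le_aleph (o + γ))).cof_ord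
        rw [h3, h4] at hsing
        exact absurd hsing (lt_irrefl _)
      · exact h3.trans (hβ.trans (hWι.trans (cantor _).le))
  · rcases hoT with h' | h'
    · exact absurd h' (not_lt_of_ge h)
    · exact lt_depthPlus (chain_freq (fun i => exists_chain_of_lt (hB i))
        (fun i => bot_le.trans_lt (h2 i)) (h'.mono fun i hi => h.trans hi.le))

/-- with `T_{D+A}` -/
theorem q1_of_hereditary_strong {ι W : Type u} [Infinite ι] (D : Filter ι) (B : ι → Type u)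
    [∀ i, Preorder (B i)] (lam : ι → Cardinal.{u}) (h2 : ∀ i, 2 ^ #ι < lam i)
    (hB : ∀ i, lam i < depthPlus (B i)) {A : Set ι} (hA : ∃ᶠ i in D, i ∈ A)
    (hH : Hereditary W (D ⊓ 𝓟 A)) (hWι : #W ≤ #ι) {o : Ordinal.{u}}
    (h2o : 2 ^ #ι ≤ ℵ_ o) (hν : ∀ ν < ℵ_ o, ν ^ #ι ≤ ℵ_ o)
    (hcof : (ℵ_ o) ^ #ι = ℵ_ o ∨ (ℵ_ o).ord.cof ≤ #W)
    {β : Ordinal.{u}} (hβ : β.card ≤ #W) (hT : TD (D ⊓ 𝓟 A) lam ≤ ℵ_ (o + β))
    (hoT : ℵ_ o < TD (D ⊓ 𝓟 A) lam ∨ ∃ᶠ i in D, ℵ_ o < lam i) :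
    TD D lam ≤ TD (D ⊓ 𝓟 A) lam ∧ TD (D ⊓ 𝓟 A) lam < depthPlus (RedProd D B) := by
  refine ⟨TD_le_restrict D lam A, ?_⟩
  have hNB : (D ⊓ 𝓟 A).NeBot := frequently_mem_iff_neBot.1 hA
  rcases lt_or_ge (ℵ_ o) (TD (D ⊓ 𝓟 A) lam) with h | h
  · exact (q1_of_hereditary (D ⊓ 𝓟 A) B lam h2 hB hH hWι h2o hν hcof hβ hT
      (Or.inl h)).trans_le (depthPlus_restrict_le D B A)
  · rcases hoT with h' | h'
    · exact absurd h' (not_lt_of_ge h)
    · exact lt_depthPlus (chain_freq (fun i => exists_chain_of_lt (hB i))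
        (fun i => bot_le.trans_lt (h2 i)) (h'.mono fun i hi => h.trans hi.le))

/-- A counterexample with a hereditary `D` has `T_D(lam)` far above `σ`. -/
theorem sigma_lt_of_hereditary {ι : Type u} [Infinite ι] (D : Filter ι) [D.NeBot]
    (B : ι → Type u) [∀ i, Preorder (B i)] (lam : ι → Cardinal.{u}) (h2 : ∀ i, 2 ^ #ι < lam i)
    (hB : ∀ i, lam i < depthPlus (B i)) (hno : ¬ TD D lam < depthPlus (RedProd D B))
    (hH : Hereditary ι D) {s β : Ordinal.{u}} (hs : sigma D lam = ℵ_ s)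
    (hβ : β.card ≤ #ι) : ℵ_ (s + β) < TD D lam := by
  by_contra hcon
  apply hno
  obtain ⟨h3, h4⟩ := sigma_facts D lam h2
  obtain ⟨h8, -, -⟩ := fails_tau D B lam h2 hB hno
  have h5 : ℵ_ s < TD D lam := by
    rw [← hs]
    exact (sigma_le_tau D lam h2).trans_lt ((lt_succ _).trans h8)
  have h6 : ∀ ν < ℵ_ s, ν ^ #ι ≤ ℵ_ s := fun ν hν => by
    rw [← hs] at hν ⊢
    exact (h4 ν hν).le
  exact q1_of_hereditary D B lam h2 hB hH le_rfl (o := s) (hs ▸ h3.le) h6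
    (closed_or_cof (aleph0_le_aleph s) h6) hβ (not_lt.1 hcon) (Or.inl h5)

end Pool.Agent.RPDepth
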