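import Pool.Agent.RPDepth.Main

/-!
# A lower bound for `Depth⁺(∏ B i / D)`
-/

set_option autoImplicit false

namespace Pool.Agent.RPDepth

universe u

open Cardinal Filter Order Ordinal

section low

variable {ι : Type u} [Infinite ι] (D : Filter ι) [D.NeBot]
  (B : ι → Type u) [∀ i, Preorder (B i)] (lam : ι → Cardinal.{u})

theorem TD_le (h2 : ∀ i, 2 ^ #ι < lam i) : TD D lam ≤ sigma D lam ^ #ι := by
  have h2σ := (sigma_facts D lam h2).1
  refine ciSup_le' fun F => ?_
  have h3 := card_le (D := D) (S := {i | lam i ≤ sigma D lam ^ #ι}) (c := sigma D lam ^ #ι) F.2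
    (sigma_spec D lam).1 (power_ne_zero _ (bot_le.trans_lt h2σ).ne') (fun g _ i hi =>
      lt_of_lt_of_le (g i).toOrd.2 (ord_le_ord.2 hi))
  rwa [power_power_self] at h3

/-- The smaller one of `T_D(lam)` and `σ⁺` is less than `Depth⁺(∏ B i / D)`. -/
theorem min_lt (h2 : ∀ i, 2 ^ #ι < lam i) (hB : ∀ i, lam i < depthPlus (B i)) :
    min (TD D lam) (succ (sigma D lam)) < depthPlus (RedProd D B) := by
  have hch := fun i => exists_chain_of_lt (hB i)
  have hι : ℵ₀ ≤ #ι := aleph0_le_mk ι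
  have hκ : #ι < 2 ^ #ι := cantor _
  obtain ⟨h2σ, H1⟩ := sigma_facts D lam h2
  have hmin := (sigma_spec D lam).2
  by_cases hbig : ∃ F : Set (∀ i, (lam i).ord.ToType),
      (∀ f ∈ F, ∀ g ∈ F, f ≠ g → ∀ᶠ i in D, f i ≠ g i) ∧ sigma D lam < #F
  · obtain ⟨F, hF, hlt⟩ := hbig
    obtain ⟨f, hfF, hf⟩ := exists_good h2σ.le (fun ν hν => (H1 ν hν).le) hF hlt
    obtain ⟨G, hG, hmono⟩ := exists_chain
      (ρ := fun i => max (2 ^ #ι) ((f i).toOrd : Ordinal.{u}).card)
      (fun i => hι.trans (hκ.le.trans (le_max_left _ _))) hf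
    have hGl : ∀ w i, G w i < (lam i).ord := by
      intro w i
      refine (hG w i).trans_le (ord_le_ord.2 (succ_le_of_lt (max_lt (h2 i) ?_)))
      exact lt_ord.1 (f i).toOrd.2
    exact lt_of_le_of_lt (min_le_right _ _) (lt_depthPlus (chain_of hch G hGl hmono))
  · have h3 : TD D lam ≤ sigma D lam := by
      refine ciSup_le' fun F => ?_
      by_contra hcon
      exact hbig ⟨F.1, F.2, not_le.1 hcon⟩
    refine lt_of_le_of_lt ((min_le_left _ _).trans h3) (lt_depthPlus (chain_of hch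
      (fun (w : (sigma D lam).ord.ToType) i =>
        if ((w.toOrd : Ordinal.{u}) < (lam i).ord) then (w.toOrd : Ordinal.{u}) else 0)
      ?_ ?_))
    · intro w i
      split_ifs with h
      · exact h
      · exact ord_pos.2 (bot_le.trans_lt (h2 i))
    · intro v w hvw
      have hvw' : (v.toOrd : Ordinal.{u}) < (w.toOrd : Ordinal.{u}) :=
        ToType.mk.symm.lt_iff_lt.2 hvw
      have h4 : ((w.toOrd : Ordinal.{u})).card < sigma D lam := lt_ord.1 w.toOrd.2
      filter_upwards [hmin _ h4] with i hi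
      have h5 : (w.toOrd : Ordinal.{u}) < (lam i).ord :=
        lt_ord.2 ((self_le_power _ (one_le_aleph0.trans hι)).trans_lt hi)
      rw [if_pos h5, if_pos (hvw'.trans h5)]
      exact hvw'

/-- What happens if the inequality fails. -/
theorem fails (h2 : ∀ i, 2 ^ #ι < lam i) (hB : ∀ i, lam i < depthPlus (B i))
    (hno : ¬ TD D lam < depthPlus (RedProd D B)) :
    (sigma D lam).ord.cof ≤ #ι ∧ succ (sigma D lam) < TD D lam ∧
      (∀ᶠ i in D, lam i < TD D lam) ∧
      ∃ g : ∀ i, (lam i).ord.ToType,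
        ∀ β < (sigma D lam).ord, ∀ᶠ i in D, β ≤ ((g i).toOrd : Ordinal.{u}) := by
  obtain ⟨h3, h4, h5, h6⟩ := by_contra fun h => hno (main_thm D B lam h2 hB h)
  refine ⟨h3, ?_, ?_, h6⟩
  · by_contra h
    have h7 := min_lt D B lam h2 hB
    rw [min_eq_left (not_lt.1 h)] at h7
    exact hno h7
  · by_contra h
    rw [Filter.not_eventually] at h
    exact hno (lt_depthPlus (chain_freq (fun i => exists_chain_of_lt (hB i))
      (fun i => bot_le.trans_lt (h2 i)) (h.mono fun i hi => not_lt.1 hi)))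

end low

end Pool.Agent.RPDepth
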