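import Pool.Agent.RPDepth.Core

/-!
# `T_D(lam) < Depth⁺(∏ B i / D)` unless the singular cardinals hypothesis fails at one cardinal
-/

set_option autoImplicit false

namespace Pool.Agent.RPDepth

universe u

open Cardinal Filter Order Ordinal

/-- chains from a positive set -/
theorem chain_freq {ι : Type u} {D : Filter ι} {B : ι → Type u} [∀ i, Preorder (B i)]
    {lam : ι → Cardinal.{u}} (h : ∀ i, ∃ c : (lam i).ord.ToType → B i, StrictMono c)
    (hpos : ∀ i, 0 < lam i) {c : Cardinal.{u}} (hc : ∃ᶠ i in D, c ≤ lam i) :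
    ∃ k : c.ord.ToType → RedProd D B, StrictMono k := by
  classical
  choose e he using h
  have hw : ∀ (w : c.ord.ToType) i, c ≤ lam i → (w.toOrd : Ordinal.{u}) < (lam i).ord :=
    fun w i hi => lt_of_lt_of_le w.toOrd.2 (ord_le_ord.2 hi)
  let k : c.ord.ToType → RedProd D B := fun w i =>
    if hi : c ≤ lam i then e i (ToType.mk ⟨(w.toOrd : Ordinal.{u}), hw w i hi⟩)
    else e i (ToType.mk ⟨0, ord_pos.2 (hpos i)⟩)
  have hlt : ∀ v w, v < w → ∀ i, c ≤ lam i → k v i < k w i := by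
    intro v w hvw i hi
    simp only [k, dif_pos hi]
    have h1 : (v.toOrd : Ordinal.{u}) < (w.toOrd : Ordinal.{u}) := ToType.mk.symm.lt_iff_lt.2 hvw
    exact he i (ToType.mk.lt_iff_lt.2 h1)
  refine ⟨k, fun v w hvw => ?_⟩
  refine lt_iff_le_not_ge.2 ⟨?_, fun h3 => ?_⟩
  · have h4 : ∀ᶠ i in D, k v i ≤ k w i := by
      refine Eventually.of_forall fun i => ?_
      by_cases hi : c ≤ lam i
      · exact (hlt v w hvw i hi).le
      · simp only [k, dif_neg hi]
        exact le_rfl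
    exact h4
  · have h3' : ∀ᶠ i in D, k w i ≤ k v i := h3
    obtain ⟨i, h4, h5⟩ := (hc.and_eventually h3').exists
    exact absurd (hlt v w hvw i h4) (not_lt_of_ge h5)

/-- functions into a cardinal of large cofinality -/
theorem power_le_of_cof {ι : Type u} {σ : Cardinal.{u}} (h : #ι < σ.ord.cof) (hσ : ℵ₀ ≤ σ)
    (H1 : ∀ ν < σ, ν ^ #ι ≤ σ) : σ ^ #ι ≤ σ := by
  have key : ∀ g : ι → σ.ord.ToType, ∃ b : σ.ord.ToType, ∀ i, g i < b := by
    intro g
    have hb : (⨆ i, (((g i).toOrd : Ordinal.{u}) + 1)) < σ.ord :=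
      iSup_add_one_lt_of_lt_cof h (fun i => (g i).toOrd.2)
    refine ⟨ToType.mk ⟨_, hb⟩, fun i => ?_⟩
    have h0 : ((g i).toOrd : Ordinal.{u}) < ⨆ i, (((g i).toOrd : Ordinal.{u}) + 1) :=
      lt_of_lt_of_le (lt_add_one _)
        (le_ciSup (f := fun i => ((g i).toOrd : Ordinal.{u}) + 1) Ordinal.bddAbove_of_small i)
    have h1 : (g i).toOrd < (⟨_, hb⟩ : Set.Iio σ.ord) := h0
    have h2 := (ToType.mk (o := σ.ord)).lt_iff_lt.2 h1
    rwa [ToType.toOrd, OrderIso.apply_symm_apply] at h2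
  choose b hb using key
  have h1 := mk_le_mk_mul_of_mk_preimage_le (c := σ) b (fun w => ?_)
  · rw [← power_def, mk_ord_toType, mul_eq_self hσ] at h1
    exact h1
  · have h2 : Function.Injective (fun (g : b ⁻¹' {w}) (i : ι) =>
        (⟨g.1 i, by have := hb g.1 i; rwa [g.2] at this⟩ : Set.Iio w)) := by
      intro g g' hgg
      apply Subtype.ext
      funext i
      exact congrArg Subtype.val (congrFun hgg i)
    refine (mk_le_of_injective h2).trans ?_
    rw [← power_def]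
    apply H1
    have h3 := mk_Iio_lt w (by simp)
    rwa [mk_ord_toType] at h3

section main

variable {ι : Type u} [Infinite ι] (D : Filter ι) [D.NeBot]
  (B : ι → Type u) [∀ i, Preorder (B i)] (lam : ι → Cardinal.{u})

theorem power_power_self (ι : Type u) [Infinite ι] (c : Cardinal.{u}) : (c ^ #ι) ^ #ι = c ^ #ι := by
  rw [← power_mul, mul_eq_self (aleph0_le_mk ι)]

omit [D.NeBot] in
theorem sigma_aux (h2 : ∀ i, 2 ^ #ι < lam i) (σ : Cardinal.{u})
    (hσ : ∃ᶠ i in D, lam i ≤ σ ^ #ι) (hmin : ∀ ν < σ, ∀ᶠ i in D, ν ^ #ι < lam i) :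
    2 ^ #ι < σ ∧ ∀ ν < σ, ν ^ #ι < σ := by
  refine ⟨?_, fun ν hν => ?_⟩
  · by_contra hcon
    obtain ⟨i, hi⟩ := hσ.exists
    have h3 : σ ^ #ι ≤ 2 ^ #ι := by
      calc σ ^ #ι ≤ (2 ^ #ι) ^ #ι := power_le_power_right (not_lt.1 hcon)
        _ = 2 ^ #ι := power_power_self ι _
    exact absurd (hi.trans h3) (not_le_of_gt (h2 i))
  · by_contra hcon
    have h3 : σ ^ #ι ≤ ν ^ #ι := by
      calc σ ^ #ι ≤ (ν ^ #ι) ^ #ι := power_le_power_right (not_lt.1 hcon)
        _ = ν ^ #ι := power_power_self ι _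
    obtain ⟨i, hi, hi'⟩ := (hσ.and_eventually (hmin ν hν)).exists
    exact absurd (hi.trans h3) (not_le_of_gt hi')

theorem lt_depth_aux (h2 : ∀ i, 2 ^ #ι < lam i) (hB : ∀ i, lam i < depthPlus (B i))
    (σ : Cardinal.{u}) (hσ : ∃ᶠ i in D, lam i ≤ σ ^ #ι) (hmin : ∀ ν < σ, ∀ᶠ i in D, ν ^ #ι < lam i)
    (h : ¬ (σ.ord.cof ≤ #ι ∧ succ σ < σ ^ #ι ∧ (∀ᶠ i in D, lam i < σ ^ #ι) ∧
      ∃ g : ∀ i, (lam i).ord.ToType, ∀ β < σ.ord, ∀ᶠ i in D, β ≤ ((g i).toOrd : Ordinal.{u}))) :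
    TD D lam < depthPlus (RedProd D B) := by
  classical
  have hch := fun i => exists_chain_of_lt (hB i)
  have hι : ℵ₀ ≤ #ι := aleph0_le_mk ι
  have hκ : #ι < 2 ^ #ι := cantor _
  obtain ⟨h2σ, H1⟩ := sigma_aux D lam h2 σ hσ hmin
  have hσ0 : ℵ₀ ≤ σ := hι.trans (hκ.le.trans h2σ.le)
  have hT : TD D lam ≤ σ ^ #ι := by
    refine ciSup_le' fun F => ?_
    have h3 := card_le (D := D) (S := {i | lam i ≤ σ ^ #ι}) (c := σ ^ #ι) F.2 hσ
      (power_ne_zero _ (bot_le.trans_lt h2σ).ne') (fun g _ i hi =>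
        lt_of_lt_of_le (g i).toOrd.2 (ord_le_ord.2 hi))
    rwa [power_power_self] at h3
  by_cases hC : ∃ᶠ i in D, σ ^ #ι ≤ lam i
  · exact lt_of_le_of_lt hT (lt_depthPlus (chain_freq hch (fun i => bot_le.trans_lt (h2 i)) hC))
  have hC' : ∀ᶠ i in D, lam i < σ ^ #ι := by
    simpa [Filter.not_frequently] using hC
  by_cases hbig : ∃ F : Set (∀ i, (lam i).ord.ToType),
      (∀ f ∈ F, ∀ g ∈ F, f ≠ g → ∀ᶠ i in D, f i ≠ g i) ∧ σ < #F
  · obtain ⟨F, hF, hlt⟩ := hbig
    obtain ⟨f, hfF, hf⟩ := exists_good h2σ.le (fun ν hν => (H1 ν hν).le) hF hlt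
    have htend : ∀ β < σ.ord, ∀ᶠ i in D, β ≤ ((f i).toOrd : Ordinal.{u}) := by
      intro β hβ
      filter_upwards [hf (max (2 ^ #ι) β.card) (max_lt h2σ (lt_ord.1 hβ))] with i hi
      by_contra hcon
      have h4 : ((f i).toOrd : Ordinal.{u}).card ≤ β.card := card_le_card (not_le.1 hcon).le
      exact absurd hi (not_lt_of_ge (max_le_max_left _ h4))
    have hsucc : σ ^ #ι ≤ succ σ := by
      by_contra hcon
      apply h
      refine ⟨?_, not_le.1 hcon, hC', f, htend⟩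
      by_contra hcof
      exact hcon ((power_le_of_cof (not_le.1 hcof) hσ0 (fun ν hν => (H1 ν hν).le)).trans
        (le_succ _))
    obtain ⟨G, hG, hmono⟩ := exists_chain
      (ρ := fun i => max (2 ^ #ι) ((f i).toOrd : Ordinal.{u}).card)
      (fun i => hι.trans (hκ.le.trans (le_max_left _ _))) hf
    have hGl : ∀ w i, G w i < (lam i).ord := by
      intro w i
      refine (hG w i).trans_le (ord_le_ord.2 (succ_le_of_lt (max_lt (h2 i) ?_)))
      exact lt_ord.1 (f i).toOrd.2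
    exact lt_of_le_of_lt (hT.trans hsucc) (lt_depthPlus (chain_of hch G hGl hmono))
  · have h3 : TD D lam ≤ σ := by
      refine ciSup_le' fun F => ?_
      by_contra hcon
      exact hbig ⟨F.1, F.2, not_le.1 hcon⟩
    refine lt_of_le_of_lt h3 (lt_depthPlus (chain_of hch
      (fun (w : σ.ord.ToType) i =>
        if ((w.toOrd : Ordinal.{u}) < (lam i).ord) then (w.toOrd : Ordinal.{u}) else 0)
      ?_ ?_))
    · intro w i
      split_ifs with h
      · exact h
      · exact ord_pos.2 (bot_le.trans_lt (h2 i))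
    · intro v w hvw
      have hvw' : (v.toOrd : Ordinal.{u}) < (w.toOrd : Ordinal.{u}) :=
        ToType.mk.symm.lt_iff_lt.2 hvw
      have h4 : ((w.toOrd : Ordinal.{u})).card < σ := lt_ord.1 w.toOrd.2
      filter_upwards [hmin _ h4] with i hi
      have h5 : (w.toOrd : Ordinal.{u}) < (lam i).ord :=
        lt_ord.2 ((self_le_power _ (one_le_aleph0.trans hι)).trans_lt hi)
      rw [if_pos h5, if_pos (hvw'.trans h5)]
      exact hvw'

/-- The least cardinal `σ` such that `{i | lam i ≤ σ ^ |ι|}` is not a null set for `D`. -/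
noncomputable def sigma {ι : Type u} (D : Filter ι) (lam : ι → Cardinal.{u}) : Cardinal.{u} :=
  sInf {c | ∃ᶠ i in D, lam i ≤ c ^ #ι}

theorem sigma_spec : (∃ᶠ i in D, lam i ≤ sigma D lam ^ #ι) ∧
    ∀ ν < sigma D lam, ∀ᶠ i in D, ν ^ #ι < lam i := by
  constructor
  · have hne : {c : Cardinal.{u} | ∃ᶠ i in D, lam i ≤ c ^ #ι}.Nonempty := by
      refine ⟨⨆ i, lam i, Eventually.frequently (Eventually.of_forall fun i => ?_)⟩
      exact (le_ciSup Cardinal.bddAbove_of_small i).trans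
        (self_le_power _ (one_le_aleph0.trans (aleph0_le_mk ι)))
    exact csInf_mem hne
  · intro ν hν
    have h1 := notMem_of_lt_csInf' hν
    simpa [Filter.not_frequently] using h1

theorem sigma_facts (h2 : ∀ i, 2 ^ #ι < lam i) :
    2 ^ #ι < sigma D lam ∧ ∀ ν < sigma D lam, ν ^ #ι < sigma D lam :=
  sigma_aux D lam h2 _ (sigma_spec D lam).1 (sigma_spec D lam).2

theorem main_thm (h2 : ∀ i, 2 ^ #ι < lam i) (hB : ∀ i, lam i < depthPlus (B i))
    (h : ¬ ((sigma D lam).ord.cof ≤ #ι ∧ succ (sigma D lam) < sigma D lam ^ #ι ∧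
      (∀ᶠ i in D, lam i < sigma D lam ^ #ι) ∧
      ∃ g : ∀ i, (lam i).ord.ToType,
        ∀ β < (sigma D lam).ord, ∀ᶠ i in D, β ≤ ((g i).toOrd : Ordinal.{u}))) :
    TD D lam < depthPlus (RedProd D B) :=
  lt_depth_aux D B lam h2 hB _ (sigma_spec D lam).1 (sigma_spec D lam).2 h

theorem main_sch (h2 : ∀ i, 2 ^ #ι < lam i) (hB : ∀ i, lam i < depthPlus (B i))
    (h : ∀ ν : Cardinal.{u}, 2 ^ #ι < ν → ν ^ #ι ≤ succ ν) :
    TD D lam < depthPlus (RedProd D B) :=
  main_thm D B lam h2 hB fun hcon => absurd hcon.2.1 (not_lt_of_ge (h _ (sigma_facts D lam h2).1))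

theorem main_below (h2 : ∀ i, 2 ^ #ι < lam i) (hB : ∀ i, lam i < depthPlus (B i))
    (n : ℕ) (hn : ∃ᶠ i in D, lam i ≤ succ^[n] ((2 : Cardinal.{u}) ^ #ι)) :
    TD D lam < depthPlus (RedProd D B) := by
  refine main_thm D B lam h2 hB fun hcon => ?_
  have hι : ℵ₀ ≤ #ι := aleph0_le_mk ι
  have hκ : #ι < 2 ^ #ι := cantor _
  have hle : sigma D lam ≤ succ^[n] ((2 : Cardinal.{u}) ^ #ι) := by
    refine csInf_le' (hn.mono fun i hi => ?_)
    exact hi.trans (self_le_power _ (one_le_aleph0.trans hι))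
  have hlt := (sigma_facts D lam h2).1
  have key : ∀ m : ℕ, ∀ s : Cardinal.{u}, 2 ^ #ι < s → s ≤ succ^[m] ((2 : Cardinal.{u}) ^ #ι) → #ι < s.ord.cof := by
    intro m
    induction m with
    | zero => intro s h3 h4; exact absurd h4 (not_le_of_gt h3)
    | succ m ih =>
      intro s h3 h4
      rw [Function.iterate_succ_apply'] at h4
      rcases h4.lt_or_eq with h5 | h5
      · exact ih s h3 (lt_succ_iff.1 h5)
      · have h6 : (2 : Cardinal.{u}) ^ #ι ≤ succ^[m] ((2 : Cardinal.{u}) ^ #ι) := by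
          rw [h5] at h3
          exact lt_succ_iff.1 h3
        rw [h5, (isRegular_succ (hι.trans (hκ.le.trans h6))).cof_ord]
        exact hκ.trans_le (h6.trans (le_succ _))
  exact absurd hcon.1 (not_le_of_gt (key n _ hlt hle))

end main

end Pool.Agent.RPDepth
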