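import Pool.Agent.RPDepth.Tau
import Pool.Agent.RPDepth.CofB

/-!
# What happens at the largest closed cardinal if the inequality fails
-/

set_option autoImplicit false

namespace Pool.Agent.RPDepth

universe u

open Cardinal Filter Order Ordinal

theorem TD_const_le {ι : Type u} (E : Filter ι) (ν : Cardinal.{u}) :
    TD E (fun _ => ν) ≤ ν ^ #ι := by
  refine ciSup_le' fun F => ?_
  refine (mk_set_le F.1).trans ?_
  have h : #(ι → ν.ord.ToType) = ν ^ #ι := by rw [← power_def, mk_ord_toType]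
  exact h.le

theorem TD_le_const {ι : Type u} {D : Filter ι} {lam : ι → Cardinal.{u}} {A : Set ι}
    (hA : ∃ᶠ i in D, i ∈ A) {μ : Cardinal.{u}} (h : ∀ i ∈ A, lam i ≤ μ) :
    TD D lam ≤ TD (D ⊓ 𝓟 A) (fun _ => μ) := by
  refine ciSup_le' fun F => ?_
  have h1 := mk_le_TD (D := D) F.2 hA (β := μ.ord)
    (fun f _ i hi => (f i).toOrd.2.trans_le (ord_le_ord.2 (h i hi)))
  rwa [card_ord] at h1

theorem TD_const_mono {ι : Type u} {E : Filter ι} [E.NeBot] {ν μ : Cardinal.{u}} (h : ν ≤ μ) :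
    TD E (fun _ => ν) ≤ TD E (fun _ => μ) := by
  have h1 := TD_le_const (D := E) (lam := fun _ => ν) (A := Set.univ) (μ := μ)
    (Eventually.frequently (Eventually.of_forall fun i => Set.mem_univ i)) (fun i _ => h)
  rwa [principal_univ, inf_top_eq] at h1

theorem Closed.restrict {ι : Type u} {D : Filter ι} {L : Cardinal.{u}} (h : Closed D L)
    (A : Set ι) : Closed (D ⊓ 𝓟 A) L := by
  intro ν hν A' hA'
  rw [frequently_inf_principal] at hA'
  rw [inf_assoc, inf_principal]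
  exact h ν hν (A ∩ A') hA'

section tau

variable {ι : Type u} [Infinite ι] (D : Filter ι) [D.NeBot]
  (B : ι → Type u) [∀ i, Preorder (B i)] (lam : ι → Cardinal.{u})

omit [Infinite ι] in
theorem tau_bdd : BddAbove {L | (∀ ν < L, ∀ᶠ i in D, ν < lam i) ∧ Closed D L} := by
  refine ⟨⨆ i, lam i, fun L hL => ?_⟩
  by_contra hcon
  obtain ⟨i, hi⟩ := (hL.1 _ (not_le.1 hcon)).exists
  exact absurd (le_ciSup Cardinal.bddAbove_of_small i) (not_le_of_gt hi)

omit [Infinite ι] [D.NeBot] in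
theorem tau_ne : {L | (∀ ν < L, ∀ᶠ i in D, ν < lam i) ∧ Closed D L}.Nonempty :=
  ⟨0, fun _ hν => absurd hν (not_lt_of_ge zero_le),
    fun _ hν => absurd hν (not_lt_of_ge zero_le)⟩

omit [Infinite ι] [D.NeBot] in
theorem tau_lim : ∀ ν < tau D lam, ∀ᶠ i in D, ν < lam i := by
  intro ν hν
  obtain ⟨L, hL, h⟩ := exists_lt_of_lt_csSup (tau_ne D lam) hν
  exact hL.1 ν h

omit [Infinite ι] in
theorem tau_closed : Closed D (tau D lam) := by
  intro ν hν A hA
  obtain ⟨L, hL, h⟩ := exists_lt_of_lt_csSup (tau_ne D lam) hν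
  exact (hL.2 ν h A hA).trans (le_csSup (tau_bdd D lam) hL)

theorem sigma_le_tau (h2 : ∀ i, 2 ^ #ι < lam i) : sigma D lam ≤ tau D lam := by
  have hι : ℵ₀ ≤ #ι := aleph0_le_mk ι
  obtain ⟨h2σ, H1⟩ := sigma_facts D lam h2
  refine le_csSup (tau_bdd D lam) ⟨fun ν hν => ?_, fun ν hν A hA => ?_⟩
  · filter_upwards [(sigma_spec D lam).2 ν hν] with i hi
    exact (self_le_power _ (one_le_aleph0.trans hι)).trans_lt hi
  · exact (TD_const_le _ ν).trans (H1 ν hν).le

theorem fails_tau (h2 : ∀ i, 2 ^ #ι < lam i) (hB : ∀ i, lam i < depthPlus (B i))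
    (hno : ¬ TD D lam < depthPlus (RedProd D B)) :
    succ (tau D lam) < TD D lam ∧
    (∃ A : Set ι, (∃ᶠ i in D, i ∈ A) ∧
      succ (tau D lam) < TD (D ⊓ 𝓟 A) (fun _ => tau D lam)) ∧
    ∃ g : ∀ i, (lam i).ord.ToType,
      ∀ β < (tau D lam).ord, ∀ᶠ i in D, β ≤ ((g i).toOrd : Ordinal.{u}) := by
  have h2τ : 2 ^ #ι < tau D lam := (sigma_facts D lam h2).1.trans_le (sigma_le_tau D lam h2)
  have h1 : succ (tau D lam) < TD D lam := by
    by_contra h
    have h7 := min_lt_of_closed D B lam h2 hB h2τ.le (tau_lim D lam) (tau_closed D lam)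
    rw [min_eq_left (not_lt.1 h)] at h7
    exact hno h7
  refine ⟨h1, ?_, ?_⟩
  · by_contra hcon
    push Not at hcon
    by_cases hA : ∃ᶠ i in D, lam i ≤ tau D lam
    · have h3 := TD_le_const (D := D) (lam := lam) (A := {i | lam i ≤ tau D lam}) hA
        (μ := tau D lam) (fun i hi => hi)
      exact absurd (h3.trans (hcon _ hA)) (not_le_of_gt h1)
    · have hA' : ∀ᶠ i in D, tau D lam < lam i := by
        simpa [Filter.not_frequently] using hA
      have hmem : succ (tau D lam) ≤ tau D lam := by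
        refine le_csSup (tau_bdd D lam) ⟨fun ν hν => ?_, fun ν hν A hA => ?_⟩
        · exact hA'.mono fun i hi => (lt_succ_iff.1 hν).trans_lt hi
        · have : (D ⊓ 𝓟 A).NeBot := by
            rw [← frequently_mem_iff_neBot]
            exact hA
          exact (TD_const_mono (lt_succ_iff.1 hν)).trans (hcon A hA)
      exact absurd hmem (not_le_of_gt (lt_succ _))
  · obtain ⟨F, hF⟩ := exists_lt_of_lt_ciSup' ((lt_succ _).trans h1)
    obtain ⟨f, -, hf⟩ := exists_tends h2τ.le (tau_closed D lam) F.2 hF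
    exact ⟨f, hf⟩

/-- `D` is `θ`-complete. -/
def Complete {ι : Type u} (D : Filter ι) (θ : Cardinal.{u}) : Prop :=
  ∀ S : Set (Set ι), #S < θ → (∀ s ∈ S, s ∈ D) → ⋂₀ S ∈ D

omit [Infinite ι] [D.NeBot] in
theorem le_cof_of_complete {θ : Cardinal.{u}} (hθ : Complete D θ) {A : Set ι}
    (hA : ∃ᶠ i in D, i ∈ A) {L : Cardinal.{u}} (hL : ℵ₀ ≤ L) (f : ι → L.ord.ToType)
    (hf : ∀ β < L.ord, ∀ᶠ i in D ⊓ 𝓟 A, β ≤ ((f i).toOrd : Ordinal.{u})) :
    θ ≤ L.ord.cof := by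
  by_contra hcon
  have hlim := isSuccLimit_ord hL
  obtain ⟨s, hs, hcard⟩ := Order.exists_cof_eq (α := L.ord.ToType)
  rw [cof_toType] at hcard
  let S : Set (Set ι) := Set.range fun w : s => {i | i ∈ A → w.1 < f i}
  have hS : #S < θ := by
    refine lt_of_le_of_lt mk_range_le ?_
    rw [hcard]
    exact not_le.1 hcon
  have hSD : ∀ t ∈ S, t ∈ D := by
    rintro _ ⟨w, rfl⟩
    have h1 : succ (w.1.toOrd : Ordinal.{u}) < L.ord := hlim.succ_lt w.1.toOrd.2
    have h3 := hf _ h1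
    rw [eventually_inf_principal] at h3
    filter_upwards [h3] with i hi hiA
    have h4 : (w.1.toOrd : Ordinal.{u}) < ((f i).toOrd : Ordinal.{u}) :=
      (lt_succ _).trans_le (hi hiA)
    exact ToType.mk.symm.lt_iff_lt.1 h4
  obtain ⟨i, hiA, hi⟩ := (hA.and_eventually (hθ S hS hSD)).exists
  obtain ⟨w, hw, hle⟩ := hs (f i)
  exact absurd (hi _ ⟨⟨w, hw⟩, rfl⟩ hiA) (not_lt_of_ge hle)

theorem fails_cof (h2 : ∀ i, 2 ^ #ι < lam i) (hB : ∀ i, lam i < depthPlus (B i))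
    (hno : ¬ TD D lam < depthPlus (RedProd D B)) :
    (tau D lam).ord.cof ≤ #ι ∧ ∀ θ, Complete D θ → θ ≤ (tau D lam).ord.cof := by
  have hι : ℵ₀ ≤ #ι := aleph0_le_mk ι
  have hκ : #ι < 2 ^ #ι := cantor _
  have h2τ : 2 ^ #ι < tau D lam := (sigma_facts D lam h2).1.trans_le (sigma_le_tau D lam h2)
  obtain ⟨-, ⟨A, hA, h3⟩, -⟩ := fails_tau D B lam h2 hB hno
  obtain ⟨F, hF⟩ := exists_lt_of_lt_ciSup' ((lt_succ _).trans h3)
  obtain ⟨f, -, hf⟩ := exists_tends h2τ.le ((tau_closed D lam).restrict A) F.2 hF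
  have : (D ⊓ 𝓟 A).NeBot := by
    rw [← frequently_mem_iff_neBot]
    exact hA
  refine ⟨?_, fun θ hθ => le_cof_of_complete D hθ hA (hι.trans (hκ.le.trans h2τ.le)) f hf⟩
  by_contra hcof
  have hb : (⨆ i, (((f i).toOrd : Ordinal.{u}) + 1)) < (tau D lam).ord :=
    iSup_add_one_lt_of_lt_cof (not_le.1 hcof) (fun i => (f i).toOrd.2)
  obtain ⟨i, hi⟩ := (hf _ hb).exists
  have h5 : ((f i).toOrd : Ordinal.{u}) < ⨆ i, (((f i).toOrd : Ordinal.{u}) + 1) :=
    lt_of_lt_of_le (lt_add_one _)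
      (le_ciSup (f := fun i => ((f i).toOrd : Ordinal.{u}) + 1) Ordinal.bddAbove_of_small i)
  exact absurd hi (not_le_of_gt h5)

/-- The ZFC case: `D` is `θ`-complete and `lam i ≤ (2 ^ κ)^{+α}` for `D`-positively many `i`,
where `|α| < θ`. -/
theorem lt_of_complete (h2 : ∀ i, 2 ^ #ι < lam i) (hB : ∀ i, lam i < depthPlus (B i))
    {θ : Cardinal.{u}} (h0 : ℵ₀ ≤ θ) (hθ : Complete D θ) {o α : Ordinal.{u}}
    (ho : 2 ^ #ι = ℵ_ o) (hα : α.card < θ) (hfr : ∃ᶠ i in D, lam i ≤ ℵ_ (o + α)) :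
    TD D lam < depthPlus (RedProd D B) := by
  by_contra hno
  have hκ : #ι < 2 ^ #ι := cantor _
  have h2τ : 2 ^ #ι < tau D lam := (sigma_facts D lam h2).1.trans_le (sigma_le_tau D lam h2)
  obtain ⟨h3, h4⟩ := fails_cof D B lam h2 hB hno
  have hle : tau D lam ≤ ℵ_ (o + α) := by
    by_contra hcon
    obtain ⟨i, hi, hi'⟩ := (hfr.and_eventually (tau_lim D lam _ (not_le.1 hcon))).exists
    exact absurd hi (not_le_of_gt hi')
  rcases cof_between o α θ h0 hα (tau D lam) (ho ▸ h2τ) hle with h5 | h5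
  · exact absurd (h4 θ hθ) (not_le_of_gt h5)
  · rw [← ho] at h5
    exact absurd h3 (not_le_of_gt (hκ.trans h5))

end tau

end Pool.Agent.RPDepth
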