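import Pool.Agent.RPDepth.RkDef
import Pool.Agent.RPDepth.Fodor
import Pool.Agent.RPDepth.TauF

/-!
# Normal filters and complete filters are diagonally complete and closed under countable intersections
-/

namespace Pool.Agent.RPDepth

universe u

open Cardinal Filter Order Ordinal

/-- A normal filter is closed under diagonal intersections. -/
theorem QComplete.of_normal {ι : Type u} [LinearOrder ι] {D : Filter ι} (hD : Normal D) :
    QComplete (fun i j : ι => j < i) D := by
  classical
  intro S hS
  by_contra hcon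
  have hB : ∃ᶠ i in D, i ∈ {i | ∃ j, j < i ∧ i ∉ S j} := by
    intro hev
    apply hcon
    filter_upwards [hev] with i hi j hj
    by_contra h
    exact hi ⟨j, hj, h⟩
  have hch : ∀ i : ι, ∃ j : ι, i ∈ {i | ∃ j, j < i ∧ i ∉ S j} → j < i ∧ i ∉ S j := by
    intro i
    by_cases h : ∃ j, j < i ∧ i ∉ S j
    · obtain ⟨j, hj⟩ := h
      exact ⟨j, fun _ => hj⟩
    · exact ⟨i, fun h' => absurd h' h⟩
  choose h hh using hch
  obtain ⟨j, hj⟩ := hD _ hB h (fun i hi => (hh i hi).1)
  apply hj
  filter_upwards [hS j] with i hi hi'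
  have := (hh i hi'.1).2
  rw [hi'.2] at this
  exact this hi

/-- A normal filter that contains the tails is closed under countable intersections. -/
theorem OmegaComplete.of_normal {ι : Type u} [LinearOrder ι] {D : Filter ι} [D.NeBot] (hD : Normal D)
    (ht : ∀ j, ∀ᶠ i in D, j < i) : OmegaComplete D := by
  classical
  intro S hS
  have hex : ∀ j : ι, ∃ i, j < i := fun j => (ht j).exists
  obtain ⟨i0⟩ : Nonempty ι := nonempty_of_neBot D
  choose g hg using hex
  obtain ⟨J, hJ0, hJs⟩ : ∃ J : ℕ → ι, J 0 = i0 ∧ ∀ n, J n < J (n + 1) :=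
    ⟨fun n => g^[n] i0, rfl, fun n => by
      show g^[n] i0 < g^[n + 1] i0
      rw [Function.iterate_succ_apply']
      exact hg _⟩
  have hJm : StrictMono J := strictMono_nat_of_lt_succ hJs
  -- almost all points are above all `J n`
  have habove : ∀ᶠ i in D, ∀ n, J n < i := by
    by_contra hcon
    have hB : ∃ᶠ i in D, i ∈ {i | J 0 < i ∧ ∃ n, ¬ J n < i} := by
      intro hev
      apply hcon
      filter_upwards [hev, ht (J 0)] with i hi h0 n
      by_contra h
      exact hi ⟨h0, n, h⟩
    have hch : ∀ i : ι, ∃ n : ℕ, i ∈ {i | J 0 < i ∧ ∃ n, ¬ J n < i} → J n < i ∧ ¬ J (n + 1) < i := by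
      intro i
      by_cases h : J 0 < i ∧ ∃ n, ¬ J n < i
      · obtain ⟨h0, h1⟩ := h
        have h2 : Nat.find h1 ≠ 0 := by
          intro h3
          have := Nat.find_spec h1
          rw [h3] at this
          exact this h0
        obtain ⟨k, hk⟩ := Nat.exists_eq_succ_of_ne_zero h2
        refine ⟨k, fun _ => ⟨?_, ?_⟩⟩
        · have := Nat.find_min h1 (m := k) (by omega)
          exact not_not.1 this
        · have := Nat.find_spec h1
          rw [hk] at this
          exact this
      · exact ⟨0, fun h' => absurd h' h⟩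
    choose k hk using hch
    obtain ⟨j, hj⟩ := hD _ hB (fun i => J (k i)) (fun i hi => (hk i hi).1)
    obtain ⟨i1, hi1, hi1'⟩ := hj.exists
    apply hj
    filter_upwards [ht (J (k i1 + 1))] with i hi hi'
    have e : J (k i) = J (k i1) := hi'.2.trans hi1'.symm
    have e' : k i = k i1 := hJm.injective e
    have := (hk i hi'.1).2
    rw [e'] at this
    exact this hi
  by_contra hcon
  have hB : ∃ᶠ i in D, i ∈ {i | (∀ n, J n < i) ∧ ∃ n, i ∉ S n} := by
    intro hev
    apply hcon
    filter_upwards [hev, habove] with i hi h0 n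
    by_contra h
    exact hi ⟨h0, n, h⟩
  have hch : ∀ i : ι, ∃ n : ℕ, i ∈ {i | (∀ n, J n < i) ∧ ∃ n, i ∉ S n} → i ∉ S n := by
    intro i
    by_cases h : ∃ n, i ∉ S n
    · obtain ⟨n, hn⟩ := h
      exact ⟨n, fun _ => hn⟩
    · exact ⟨0, fun h' => absurd h'.2 h⟩
  choose k hk using hch
  obtain ⟨j, hj⟩ := hD _ hB (fun i => J (k i)) (fun i hi => hi.1 (k i))
  obtain ⟨i1, hi1, hi1'⟩ := hj.exists
  apply hj
  filter_upwards [hS (k i1)] with i hi hi'
  have e : J (k i) = J (k i1) := hi'.2.trans hi1'.symm
  have e' : k i = k i1 := hJm.injective e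
  have := hk i hi'.1
  rw [e'] at this
  exact this hi

/-- A `θ`-complete filter is closed under intersections of fewer than `θ` sets. -/
theorem QComplete.of_complete {ι W : Type u} {D : Filter ι} {θ : Cardinal.{u}} (hD : Complete D θ)
    (hW : #W < θ) : QComplete (fun (_ : ι) (_ : W) => True) D := by
  intro S hS
  have h1 : ⋂₀ Set.range S ∈ D := by
    apply hD
    · exact lt_of_le_of_lt mk_range_le hW
    · rintro s ⟨w, rfl⟩
      exact hS w
  filter_upwards [h1] with i hi w _
  exact Set.mem_sInter.1 hi _ ⟨w, rfl⟩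

theorem OmegaComplete.of_complete {ι : Type u} {D : Filter ι} {θ : Cardinal.{u}} (hD : Complete D θ)
    (hθ : ℵ₀ < θ) : OmegaComplete D := by
  intro S hS
  have h1 : ⋂₀ Set.range S ∈ D := by
    apply hD
    · exact lt_of_le_of_lt (Cardinal.mk_le_aleph0_iff.2 (Set.countable_range S).to_subtype) hθ
    · rintro s ⟨w, rfl⟩
      exact hS w
  filter_upwards [h1] with i hi n
  exact Set.mem_sInter.1 hi _ ⟨n, rfl⟩

end Pool.Agent.RPDepth
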