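import Pool.Agent.RPDepth.DirA
import Pool.Agent.RPDepth.Nm
import Pool.Agent.RPDepth.TauF

/-!
# Q1 for diagonally complete filters
-/

set_option autoImplicit false

namespace Pool.Agent.RPDepth

universe u

open Cardinal Filter Order Ordinal

/-- The regular lengths few steps above `ρ`, modulo every filter with a diagonally complete
extension. -/
theorem lt_of_extension {ι W : Type u} [Infinite ι] {D D' : Filter ι} (hDD' : D' ≤ D) [D'.NeBot]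
    (B : ι → Type u) [∀ i, Preorder (B i)] (lam : ι → Cardinal.{u}) (h2 : ∀ i, 2 ^ #ι < lam i)
    (hB : ∀ i, lam i < depthPlus (B i))
    (hω : OmegaComplete D') {Q : ι → W → Prop} (hQ : QComplete Q D')
    (htail : ∀ w, ∀ᶠ i in D, Q i w) (hWι : #W ≤ #ι) {o : Ordinal.{u}} (h2o : 2 ^ #ι ≤ ℵ_ o)
    (hν : ∀ ν < ℵ_ o, ν ^ #ι ≤ ℵ_ o) (hcof : (ℵ_ o) ^ #ι = ℵ_ o ∨ (ℵ_ o).ord.cof ≤ #W)
    {β : Ordinal.{u}} (hβ : β.card ≤ #W) {χ : Cardinal.{u}} (hχ : χ.IsRegular)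
    (hoχ : ℵ_ o < χ) (hχβ : χ ≤ ℵ_ (o + β)) (hχT : χ ≤ TD D' lam) :
    χ < depthPlus (RedProd D B) := by
  have hpos : ∀ i, 0 < lam i := fun i => bot_le.trans_lt (h2 i)
  obtain ⟨F, hF, hTF⟩ := exists_family_attained ((h2o.trans_lt hoχ).trans_le hχT)
  obtain ⟨A'', c, -, hc1, hc2, hc3⟩ := wchain_of_steps hDD' hω hQ htail hWι h2o hν hcof hβ hχ hoχ
    hχβ (g := fun i => (lam i).ord) (A := Set.univ) (big_of_family hF (hχT.trans hTF)
      (Eventually.frequently (Eventually.of_forall fun i => Set.mem_univ i)))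
  exact lt_of_wchain (fun i => exists_chain_of_lt (hB i)) hpos c hc1 hc2 hc3

/-- Q1 for `D + A`, if `T_{D+A}(lam)` is few steps above `ρ`. -/
theorem q1_of_diag {ι W : Type u} [Infinite ι] {D : Filter ι}
    (B : ι → Type u) [∀ i, Preorder (B i)] (lam : ι → Cardinal.{u}) (h2 : ∀ i, 2 ^ #ι < lam i)
    (hB : ∀ i, lam i < depthPlus (B i)) {A : Set ι} (hA : ∃ᶠ i in D, i ∈ A)
    (hω : OmegaComplete (D ⊓ 𝓟 A)) {Q : ι → W → Prop} (hQ : QComplete Q (D ⊓ 𝓟 A))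
    (htail : ∀ w, ∀ᶠ i in D, i ∈ A → Q i w) (hWι : #W ≤ #ι) {o : Ordinal.{u}}
    (h2o : 2 ^ #ι ≤ ℵ_ o)
    (hν : ∀ ν < ℵ_ o, ν ^ #ι ≤ ℵ_ o) (hcof : (ℵ_ o) ^ #ι = ℵ_ o ∨ (ℵ_ o).ord.cof ≤ #W)
    {β : Ordinal.{u}} (hβ : β.card ≤ #W) (hT : TD (D ⊓ 𝓟 A) lam ≤ ℵ_ (o + β))
    (hoT : ℵ_ o < TD (D ⊓ 𝓟 A) lam ∨ ∃ᶠ i in D, ℵ_ o < lam i) :
    TD (D ⊓ 𝓟 A) lam < depthPlus (RedProd D B) := by
  have hNB : (D ⊓ 𝓟 A).NeBot := frequently_mem_iff_neBot.1 hA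
  rcases lt_or_ge (ℵ_ o) (TD (D ⊓ 𝓟 A) lam) with h | h
  · exact (q1_of_steps (D ⊓ 𝓟 A) B lam h2 hB hω hQ (fun w => by
      rw [eventually_inf_principal]
      exact htail w) hWι h2o hν hcof hβ hT (Or.inl h)).trans_le (depthPlus_restrict_le D B A)
  · rcases hoT with h' | h'
    · exact absurd h' (not_lt_of_ge h)
    · exact lt_depthPlus (chain_freq (fun i => exists_chain_of_lt (hB i))
        (fun i => bot_le.trans_lt (h2 i)) (h'.mono fun i hi => h.trans hi.le))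

theorem closed_or_cof {ι : Type u} {ρ : Cardinal.{u}} (h0 : ℵ₀ ≤ ρ) [Nonempty ι]
    (hν : ∀ ν < ρ, ν ^ #ι ≤ ρ) : ρ ^ #ι = ρ ∨ ρ.ord.cof ≤ #ι := by
  rcases lt_or_ge #ι ρ.ord.cof with h | h
  · exact Or.inl (le_antisymm (power_le_of_cof h h0 hν)
      (self_le_power _ (Cardinal.one_le_iff_ne_zero.2 (Cardinal.mk_ne_zero ι))))
  · exact Or.inr h

/-- A counterexample with a diagonally complete `D`, `#W = κ`, has `T_D(lam)` far above `σ`. -/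
theorem sigma_lt_of_fails {ι : Type u} [Infinite ι] (D : Filter ι) [D.NeBot]
    (B : ι → Type u) [∀ i, Preorder (B i)] (lam : ι → Cardinal.{u}) (h2 : ∀ i, 2 ^ #ι < lam i)
    (hB : ∀ i, lam i < depthPlus (B i)) (hno : ¬ TD D lam < depthPlus (RedProd D B))
    (hω : OmegaComplete D) {Q : ι → ι → Prop} (hQ : QComplete Q D)
    (htail : ∀ w, ∀ᶠ i in D, Q i w) {s β : Ordinal.{u}} (hs : sigma D lam = ℵ_ s)
    (hβ : β.card ≤ #ι) : ℵ_ (s + β) < TD D lam := by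
  by_contra hcon
  apply hno
  obtain ⟨h3, h4⟩ := sigma_facts D lam h2
  obtain ⟨h8, -, -⟩ := fails_tau D B lam h2 hB hno
  have h5 : ℵ_ s < TD D lam := by
    rw [← hs]
    exact (sigma_le_tau D lam h2).trans_lt ((lt_succ _).trans h8)
  have h6 : ∀ ν < ℵ_ s, ν ^ #ι ≤ ℵ_ s := fun ν hν => by
    rw [← hs] at hν ⊢
    exact (h4 ν hν).le
  exact q1_of_steps D B lam h2 hB hω hQ htail le_rfl (o := s) (hs ▸ h3.le) h6
    (closed_or_cof (aleph0_le_aleph s) h6) hβ (not_lt.1 hcon) (Or.inl h5)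

theorem TD_mono_filter {ι : Type u} {D D' : Filter ι} (h : D' ≤ D) (lam : ι → Cardinal.{u}) :
    TD D lam ≤ TD D' lam := by
  refine ciSup_le' fun F => ?_
  exact le_ciSup (f := fun F : {F : Set (∀ i, (lam i).ord.ToType) //
    ∀ f ∈ F, ∀ g ∈ F, f ≠ g → ∀ᶠ i in D', f i ≠ g i} => #F.1) Cardinal.bddAbove_of_small
    ⟨F.1, fun f hf g hg hfg => h (F.2 f hf g hg hfg)⟩

/-- the same for extensions, if `T_D(lam)` is regular -/
theorem sigma_lt_of_fails' {ι : Type u} [Infinite ι] (D : Filter ι) [D.NeBot]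
    (B : ι → Type u) [∀ i, Preorder (B i)] (lam : ι → Cardinal.{u}) (h2 : ∀ i, 2 ^ #ι < lam i)
    (hB : ∀ i, lam i < depthPlus (B i)) (hno : ¬ TD D lam < depthPlus (RedProd D B))
    {D' : Filter ι} (hDD' : D' ≤ D) [D'.NeBot] (hreg : (TD D lam).IsRegular)
    (hω : OmegaComplete D') {Q : ι → ι → Prop} (hQ : QComplete Q D')
    (htail : ∀ w, ∀ᶠ i in D, Q i w) {s β : Ordinal.{u}} (hs : sigma D lam = ℵ_ s)
    (hβ : β.card ≤ #ι) : ℵ_ (s + β) < TD D lam := by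
  by_contra hcon
  apply hno
  obtain ⟨h3, h4⟩ := sigma_facts D lam h2
  obtain ⟨h8, -, -⟩ := fails_tau D B lam h2 hB hno
  have h5 : ℵ_ s < TD D lam := by
    rw [← hs]
    exact (sigma_le_tau D lam h2).trans_lt ((lt_succ _).trans h8)
  have h6 : ∀ ν < ℵ_ s, ν ^ #ι ≤ ℵ_ s := fun ν hν => by
    rw [← hs] at hν ⊢
    exact (h4 ν hν).le
  exact lt_of_extension hDD' B lam h2 hB hω hQ htail le_rfl (o := s) (hs ▸ h3.le) h6
    (closed_or_cof (aleph0_le_aleph s) h6) hβ hreg h5 (not_lt.1 hcon) (TD_mono_filter hDD' lam)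

end Pool.Agent.RPDepth
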