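import Mathlib

/-!
# Powers of a cardinal of large cofinality
-/

set_option autoImplicit false

namespace Pool.Agent.RPDepth

universe u

open Cardinal Filter Order Ordinal

/-- `σ ^ κ = σ` if the cofinality of `σ` is greater than `κ` and `ν ^ κ < σ` for `ν < σ` -/
theorem pow_le_self {ι : Type u} {σ : Cardinal.{u}} (hσ : ℵ₀ ≤ σ) (hcof : #ι < σ.ord.cof)
    (h : ∀ ν < σ, ν ^ #ι < σ) : σ ^ #ι ≤ σ := by
  have key : ∀ g : ι → σ.ord.ToType, ∃ b : σ.ord.ToType, ∀ i, g i < b := by
    intro g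
    have h1 : ⨆ i, ((g i).toOrd : Ordinal.{u}) + 1 < σ.ord :=
      Ordinal.iSup_add_one_lt_of_lt_cof hcof fun i => (g i).toOrd.2
    refine ⟨ToType.mk ⟨_, h1⟩, fun i => ?_⟩
    have h2 : (g i).toOrd < (⟨_, h1⟩ : Set.Iio σ.ord) :=
      Ordinal.lt_iSup_add_one (fun i => ((g i).toOrd : Ordinal.{u})) i
    have h3 := (ToType.mk (o := σ.ord)).lt_iff_lt.2 h2
    rwa [ToType.toOrd, OrderIso.apply_symm_apply] at h3
  choose b hb using key
  have h1 := mk_le_mk_mul_of_mk_preimage_le (c := σ) b (fun w => ?_)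
  · rw [← power_def, mk_ord_toType] at h1
    exact h1.trans (mul_eq_self hσ).le
  · have h2 : Function.Injective (fun (g : b ⁻¹' {w}) (i : ι) =>
        (⟨g.1 i, by have := hb g.1 i; rwa [g.2] at this⟩ : Set.Iio w)) := by
      intro g g' hgg
      apply Subtype.ext
      funext i
      exact congrArg Subtype.val (congrFun hgg i)
    refine (mk_le_of_injective h2).trans ?_
    rw [← power_def]
    refine (h _ ?_).le
    have h3 := mk_Iio_lt w (by simp)
    rwa [mk_ord_toType] at h3

end Pool.Agent.RPDepth
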