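import Pool.Agent.RPDepth.Step

/-!
# Precipitous filters have minimal pairs
-/

set_option autoImplicit false

namespace Pool.Agent.RPDepth

universe u

open Cardinal Filter Order Ordinal

/-- A functional on `S` for the filter `E`: a set of pairs `(X, f)`, where `f` is an ordinal valued
function to be considered on `X`, such that the `X` are `E`-positive subsets of `S`, pairwise
`E`-almost disjoint, and maximal with this property. -/
structure IsFunctional {ι : Type u} (E : Filter ι) (S : Set ι)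
    (Φ : Set (Set ι × (ι → Ordinal.{u}))) : Prop where
  pos : ∀ p ∈ Φ, p.1 ⊆ S ∧ ∃ᶠ i in E, i ∈ p.1
  disj : ∀ p ∈ Φ, ∀ q ∈ Φ, p ≠ q → ∀ᶠ i in E, ¬ (i ∈ p.1 ∧ i ∈ q.1)
  max : ∀ Y ⊆ S, (∃ᶠ i in E, i ∈ Y) → ∃ p ∈ Φ, ∃ᶠ i in E, i ∈ p.1 ∧ i ∈ Y

/-- `E` is precipitous, in the combinatorial form: there is no infinite descending sequence of
functionals on an `E`-positive set. -/
def Precipitous {ι : Type u} (E : Filter ι) : Prop :=
  ∀ S : Set ι, (∃ᶠ i in E, i ∈ S) → ¬ ∃ Φ : ℕ → Set (Set ι × (ι → Ordinal.{u})),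
    (∀ n, IsFunctional E S (Φ n)) ∧
      ∀ n, ∀ p ∈ Φ (n + 1), ∃ q ∈ Φ n, p.1 ⊆ q.1 ∧ ∀ i ∈ p.1, p.2 i < q.2 i

theorem not_precipitous {ι : Type u} {E : Filter ι} {P : (ι → Ordinal.{u}) → Set ι → Prop}
    (hpos : ∀ g A, P g A → ∃ᶠ i in E, i ∈ A)
    (hmono : ∀ g A A', P g A → (∃ᶠ i in E, i ∈ A') → A' ⊆ A → P g A')
    (hex : ∀ g A, P g A → ∃ (g' : ι → Ordinal.{u}) (A' : Set ι),
      A' ⊆ A ∧ (∀ i ∈ A', g' i < g i) ∧ P g' A')
    {g : ι → Ordinal.{u}} {A : Set ι} (h : P g A) : ¬ Precipitous E := by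
  intro hE
  -- the candidates below a pair
  let Cand : Set ι × (ι → Ordinal.{u}) → Set (Set ι × (ι → Ordinal.{u})) := fun p =>
    {q | q.1 ⊆ p.1 ∧ (∀ i ∈ q.1, q.2 i < p.2 i) ∧ P q.2 q.1}
  have hzorn : ∀ p, ∃ N : Set (Set ι × (ι → Ordinal.{u})), N ⊆ Cand p ∧
      (∀ q ∈ N, ∀ r ∈ N, q ≠ r → ∀ᶠ i in E, ¬ (i ∈ q.1 ∧ i ∈ r.1)) ∧
      ∀ q ∈ Cand p, ∃ r ∈ N, ∃ᶠ i in E, i ∈ r.1 ∧ i ∈ q.1 := by
    intro p
    obtain ⟨N, hN⟩ := zorn_subset {N : Set (Set ι × (ι → Ordinal.{u})) | N ⊆ Cand p ∧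
      ∀ q ∈ N, ∀ r ∈ N, q ≠ r → ∀ᶠ i in E, ¬ (i ∈ q.1 ∧ i ∈ r.1)} (by
        intro c hc hchain
        refine ⟨⋃₀ c, ⟨Set.sUnion_subset fun s hs => (hc hs).1, ?_⟩,
          fun s hs => Set.subset_sUnion_of_mem hs⟩
        rintro q ⟨s, hs, hq⟩ r ⟨t, ht, hr⟩ hqr
        rcases hchain.total hs ht with hst | hst
        · exact (hc ht).2 q (hst hq) r hr hqr
        · exact (hc hs).2 q hq r (hst hr) hqr)
    refine ⟨N, hN.1.1, hN.1.2, fun q hq => ?_⟩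
    by_contra hcon
    push Not at hcon
    have hq' : ∃ᶠ i in E, i ∈ q.1 := hpos _ _ hq.2.2
    have hmem : insert q N ∈ {N : Set (Set ι × (ι → Ordinal.{u})) | N ⊆ Cand p ∧
        ∀ q ∈ N, ∀ r ∈ N, q ≠ r → ∀ᶠ i in E, ¬ (i ∈ q.1 ∧ i ∈ r.1)} := by
      refine ⟨Set.insert_subset hq hN.1.1, ?_⟩
      rintro x (rfl | hx) y (rfl | hy) hxy
      · exact absurd rfl hxy
      · filter_upwards [hcon y hy] with i hi hi'
        exact hi hi'.2 hi'.1
      · filter_upwards [hcon x hx] with i hi hi'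
        exact hi hi'.1 hi'.2
      · exact hN.1.2 x hx y hy hxy
    have hqN : q ∈ N := hN.2 hmem (Set.subset_insert q N) (Set.mem_insert q N)
    obtain ⟨i, hi, hi'⟩ := (hq'.and_eventually (hcon q hqN)).exists
    exact hi' hi hi
  choose N hNsub hNad hNmax using hzorn
  let Φ : ℕ → Set (Set ι × (ι → Ordinal.{u})) := fun n =>
    Nat.rec {(A, g)} (fun _ s => ⋃ p ∈ s, N p) n
  have hΦ0 : Φ 0 = {(A, g)} := rfl
  have hΦs : ∀ n, Φ (n + 1) = ⋃ p ∈ Φ n, N p := fun n => rfl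
  have hinv : ∀ n, ∀ p ∈ Φ n, P p.2 p.1 ∧ p.1 ⊆ A := by
    intro n
    induction n with
    | zero =>
      intro p hp
      rw [hΦ0, Set.mem_singleton_iff] at hp
      subst hp
      exact ⟨h, subset_rfl⟩
    | succ n ih =>
      intro p hp
      rw [hΦs] at hp
      simp only [Set.mem_iUnion] at hp
      obtain ⟨q, hq, hpq⟩ := hp
      have h1 := hNsub q hpq
      exact ⟨h1.2.2, h1.1.trans (ih q hq).2⟩
  have hfun : ∀ n, IsFunctional E A (Φ n) := by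
    intro n
    refine ⟨fun p hp => ⟨(hinv n p hp).2, hpos _ _ (hinv n p hp).1⟩, ?_, ?_⟩
    · induction n with
      | zero =>
        intro p hp q hq hpq
        rw [hΦ0, Set.mem_singleton_iff] at hp hq
        exact absurd (hp.trans hq.symm) hpq
      | succ n ih =>
        intro p hp q hq hpq
        rw [hΦs] at hp hq
        simp only [Set.mem_iUnion] at hp hq
        obtain ⟨p', hp', hpp⟩ := hp
        obtain ⟨q', hq', hqq⟩ := hq
        by_cases hpq' : p' = q'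
        · subst hpq'
          exact hNad p' p hpp q hqq hpq
        · filter_upwards [ih p' hp' q' hq' hpq'] with i hi hi'
          exact hi ⟨(hNsub p' hpp).1 hi'.1, (hNsub q' hqq).1 hi'.2⟩
    · induction n with
      | zero =>
        intro Y hY hpY
        refine ⟨(A, g), by rw [hΦ0]; exact rfl, hpY.mono fun i hi => ⟨hY hi, hi⟩⟩
      | succ n ih =>
        intro Y hY hpY
        obtain ⟨p, hp, hpY'⟩ := ih Y hY hpY
        obtain ⟨g', A', hs, hlt, hP⟩ := hex _ _ (hmono _ _ (p.1 ∩ Y) (hinv n p hp).1 hpY'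
          Set.inter_subset_left)
        obtain ⟨r, hr, hfr⟩ := hNmax p (A', g')
          ⟨hs.trans Set.inter_subset_left, hlt, hP⟩
        refine ⟨r, ?_, hfr.mono fun i hi => ⟨hi.1, (hs hi.2).2⟩⟩
        rw [hΦs]
        simp only [Set.mem_iUnion]
        exact ⟨p, hp, hr⟩
  refine hE A (hpos _ _ h) ⟨Φ, hfun, fun n p hp => ?_⟩
  rw [hΦs] at hp
  simp only [Set.mem_iUnion] at hp
  obtain ⟨q, hq, hpq⟩ := hp
  exact ⟨q, hq, (hNsub q hpq).1, (hNsub q hpq).2.1⟩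

/-- All regular lengths are present if `D + A` is precipitous for one positive set `A`. -/
theorem lt_of_precipitous {ι : Type u} [Infinite ι] (D : Filter ι) (B : ι → Type u)
    [∀ i, Preorder (B i)] (lam : ι → Cardinal.{u})
    (h2 : ∀ i, 2 ^ #ι < lam i) (hB : ∀ i, lam i < depthPlus (B i))
    {χ : Cardinal.{u}} (hχ : χ.IsRegular) (h2χ : 2 ^ #ι < χ)
    {F : Set (∀ i, (lam i).ord.ToType)}
    (hF : ∀ f ∈ F, ∀ g ∈ F, f ≠ g → ∀ᶠ i in D, f i ≠ g i) (hχF : χ ≤ #F)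
    {A : Set ι} (hA : ∃ᶠ i in D, i ∈ A) (hP : Precipitous (D ⊓ 𝓟 A)) :
    χ < depthPlus (RedProd D B) := by
  by_contra hno
  refine not_precipitous (E := D ⊓ 𝓟 A) (P := fun g A' => Big D χ g A' ∧
    (∀ i ∈ A', g i ≤ (lam i).ord) ∧ A' ⊆ A) (g := fun i => (lam i).ord) (A := A)
    ?_ ?_ ?_ ⟨big_of_family hF hχF hA, fun i _ => le_rfl, subset_rfl⟩ hP
  · rintro g A' ⟨h1, -, h3⟩
    rw [frequently_inf_principal]
    exact h1.1.mono fun i hi => ⟨h3 hi, hi⟩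
  · rintro g A' A'' ⟨h1, h3, h4⟩ h5 h6
    rw [frequently_inf_principal] at h5
    exact ⟨h1.restrict (h5.mono fun i hi => hi.2) h6, fun i hi => h3 i (h6 hi), h6.trans h4⟩
  · rintro g A' ⟨h1, h3, h4⟩
    obtain ⟨g', A'', hs, hlt, hbig⟩ := no_minimal D B lam h2 hB hχ h2χ hno h3 h1
    exact ⟨g', A'', hs, hlt, hbig, fun i hi => (hlt i hi).le.trans (h3 i (hs hi)), hs.trans h4⟩

end Pool.Agent.RPDepth
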