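import Pool.Agent.RPDepth.PrecQ

/-!
# `T_D(lam) < Depth⁺(∏ B i / D)` if `D + A` is precipitous for some positive set `A`
-/

set_option autoImplicit false

namespace Pool.Agent.RPDepth

universe u

open Cardinal Filter Order Ordinal

/-- a minimal pair for all cardinals below `T` -/
theorem exists_minimal_all {ι : Type u} {D : Filter ι} {A : Set ι}
    (hP : Precipitous (D ⊓ 𝓟 A)) {T : Cardinal.{u}} (hT : 0 < T) {L : ι → Ordinal.{u}}
    (hbig : ∀ χ < T, Big D χ L A) :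
    ∃ (G : ι → Ordinal.{u}) (A' : Set ι), A' ⊆ A ∧ (∀ i ∈ A', G i ≤ L i) ∧
      (∀ χ < T, Big D χ G A') ∧ ∀ (g : ι → Ordinal.{u}) (X : Set ι), X ⊆ A' →
        (∀ i ∈ X, g i < G i) → ∃ χ < T, ¬ Big D χ g X := by
  by_contra hcon
  push Not at hcon
  refine not_precipitous (E := D ⊓ 𝓟 A) (P := fun g X => (∀ χ < T, Big D χ g X) ∧ X ⊆ A ∧
    ∀ i ∈ X, g i ≤ L i) (g := L) (A := A) ?_ ?_ ?_ ⟨hbig, subset_rfl, fun i _ => le_rfl⟩ hP
  · rintro g X ⟨h1, h3, -⟩
    rw [frequently_inf_principal]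
    exact (h1 0 hT).1.mono fun i hi => ⟨h3 hi, hi⟩
  · rintro g X Y ⟨h1, h3, h4⟩ h5 h6
    rw [frequently_inf_principal] at h5
    exact ⟨fun χ hχ => (h1 χ hχ).restrict (h5.mono fun i hi => hi.2) h6, h6.trans h3,
      fun i hi => h4 i (h6 hi)⟩
  · rintro g X ⟨h1, h3, h4⟩
    obtain ⟨g', Y, hYX, hlt, hbig'⟩ := hcon g X h3 h4 h1
    exact ⟨g', Y, hYX, hlt, hbig', hYX.trans h3, fun i hi => (hlt i hi).le.trans (h4 i (hYX hi))⟩

/-- Q1 for filters that are precipitous on a positive set. -/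
theorem q1_of_precipitous {ι : Type u} [Infinite ι] (D : Filter ι) [D.NeBot] (B : ι → Type u)
    [∀ i, Preorder (B i)] (lam : ι → Cardinal.{u}) (h2 : ∀ i, 2 ^ #ι < lam i)
    (hB : ∀ i, lam i < depthPlus (B i)) {A : Set ι} (hA : ∃ᶠ i in D, i ∈ A)
    (hP : Precipitous (D ⊓ 𝓟 A)) : TD D lam < depthPlus (RedProd D B) := by
  classical
  have hch := fun i => exists_chain_of_lt (hB i)
  have hι : ℵ₀ ≤ #ι := aleph0_le_mk ι
  have hκ : #ι < 2 ^ #ι := cantor _
  have hκ0 : ℵ₀ ≤ 2 ^ #ι := hι.trans hκ.le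
  have hpos : ∀ i, 0 < lam i := fun i => bot_le.trans_lt (h2 i)
  rcases le_or_gt (TD D lam) (2 ^ #ι) with h0 | h2T
  · exact lt_depthPlus (chain_freq hch hpos (hA.mono fun i _ => h0.trans (h2 i).le))
  obtain ⟨F, hF, hTF⟩ := exists_family_attained h2T
  set T := TD D lam with hTdef
  have hT0 : ℵ₀ ≤ T := hκ0.trans h2T.le
  -- the regular case
  by_cases hreg : T ≤ T.ord.cof
  · exact lt_of_precipitous D B lam h2 hB ⟨hT0, hreg⟩ h2T hF hTF hA hP
  -- the singular case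
  have hcof : T.ord.cof < T := not_le.1 hreg
  have hlim : ∀ μ < T, succ μ < T := by
    intro μ hμ
    refine lt_of_le_of_ne (succ_le_of_lt hμ) fun h => ?_
    have h3 : ℵ₀ ≤ μ := by
      by_contra h4
      have h5 : succ μ < ℵ₀ := (isSuccLimit_aleph0).succ_lt (not_le.1 h4)
      rw [h] at h5
      exact absurd hT0 (not_le_of_gt h5)
    have h6 := (isRegular_succ h3).cof_ord
    rw [h] at h6
    exact absurd h6 hcof.ne
  have hbig : ∀ X : Set ι, (∃ᶠ i in D, i ∈ X) → ∀ χ < T, Big D χ (fun i => (lam i).ord) X :=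
    fun X hX χ hχ => big_of_family hF (hχ.le.trans hTF) hX
  -- regular cardinals cofinal in `T`
  obtain ⟨s, hs, hscard⟩ := Order.exists_cof_eq (α := T.ord.ToType)
  rw [cof_toType] at hscard
  obtain ⟨σ⟩ : Nonempty (T.ord.cof.ord.ToType ≃ s) := by
    rw [← Cardinal.eq, mk_ord_toType, hscard]
  let χ : T.ord.cof.ord.ToType → Cardinal.{u} := fun x =>
    succ (max ((σ x).1.toOrd : Ordinal.{u}).card (2 ^ #ι))
  have hχ0 : ∀ x, ℵ₀ ≤ max ((σ x).1.toOrd : Ordinal.{u}).card (2 ^ #ι) :=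
    fun x => hκ0.trans (le_max_right _ _)
  have hχr : ∀ x, (χ x).IsRegular := fun x => isRegular_succ (hχ0 x)
  have hχT : ∀ x, χ x < T := fun x => hlim _ (max_lt (lt_ord.1 (σ x).1.toOrd.2) h2T)
  have hχ2 : ∀ x, 2 ^ #ι < χ x := fun x => lt_succ_of_le (le_max_right _ _)
  have hcofinal : ∀ β < T.ord, ∃ x, β < (χ x).ord := by
    intro β hβ
    obtain ⟨w, hw, hle⟩ := hs (ToType.mk ⟨β, hβ⟩)
    refine ⟨σ.symm ⟨w, hw⟩, lt_ord.2 (lt_succ_of_le ((card_le_card ?_).trans (le_max_left _ _)))⟩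
    rw [Equiv.apply_symm_apply]
    have h3 := (ToType.mk (o := T.ord)).symm.le_iff_le.2 hle
    rw [OrderIso.symm_apply_apply] at h3
    exact h3
  have hX : ∀ x : T.ord.cof.ord.ToType, #{y // y < x} < T.ord.cof := by
    intro x
    have h1 := mk_Iio_lt x (by simp)
    rwa [mk_ord_toType] at h1
  have hθ0 : ℵ₀ ≤ T.ord.cof := by
    rw [Ordinal.aleph0_le_cof_iff, Ordinal.one_lt_cof_iff]
    exact isSuccLimit_ord hT0
  rcases lt_or_ge (2 ^ #ι) T.ord.cof with hθ | hθ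
  · -- large cofinality: a minimal pair
    obtain ⟨G, A', hsA, hGl, hGb, hmin⟩ := exists_minimal_all hP (bot_le.trans_lt h2T)
      (hbig A hA)
    refine lt_of_small hch hpos hP hsA hGl h2T hlim hGb (fun g hg => ?_) hX
      (fun x => (hχr x).aleph0_le) hχT hcofinal
    have h3 : ∀ X : Set ι, ∃ μ < T, X ⊆ A' → ¬ Big D μ g X := by
      intro X
      by_cases hXA : X ⊆ A'
      · obtain ⟨μ, h4, h5⟩ := hmin g X hXA (fun i hi => hg i (hXA hi))
        exact ⟨μ, h4, fun _ => h5⟩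
      · exact ⟨0, bot_le.trans_lt h2T, fun h => absurd h hXA⟩
    choose μ hμT hμ using h3
    refine ⟨⨆ X, μ X, iSup_lt_of_lt_cof_ord (by rw [mk_set]; exact hθ) hμT, fun X hXA hb => ?_⟩
    exact hμ X hXA (hb.anti (le_ciSup Cardinal.bddAbove_of_small X))
  · -- small cofinality
    by_cases hg : ∃ g : ι → Ordinal.{u}, (∀ i ∈ A, g i < (lam i).ord) ∧
        ∀ μ < T, ∃ X ⊆ A, Big D μ g X
    · obtain ⟨g, hgl, hgb⟩ := hg
      have h3 : ∀ x, ∃ c : (χ x).ord.ToType → ι → Ordinal.{u}, (∀ v, ∀ i ∈ A, c v i ≤ g i) ∧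
          ∀ v w, v < w → WLt D A (c v) (c w) := by
        intro x
        obtain ⟨X, hXA, hXb⟩ := hgb _ (hχT x)
        obtain ⟨Y, c, hYX, hc1, hc2, hc3⟩ := wchain_of_big hP (hχr x) (hχ2 x) hXA hXb
        refine ⟨c, fun v i _ => ?_, fun v w hvw => ⟨(hc3 v w hvw).1.mono fun i hi _ => hi,
          (hc3 v w hvw).2.mono fun i hi => ⟨hXA (hYX hi.1), hi.2⟩⟩⟩
        by_cases hi : i ∈ Y
        · exact (hc1 v i hi).le
        · rw [hc2 v i hi]
          exact bot_le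
      choose c hc1 hc2 using h3
      exact lt_of_mul hch (fun i => hκ0.trans (h2 i).le) hθ0
        (fun i _ => hθ.trans (h2 i).le) hgl (fun x => (hχr x).aleph0_le) hcofinal c hc1 hc2
    · push Not at hg
      refine lt_of_small hch hpos hP subset_rfl (fun i _ => le_rfl) h2T hlim (hbig A hA)
        (fun g hgl => ?_) hX (fun x => (hχr x).aleph0_le) hχT hcofinal
      obtain ⟨μ, h4, h5⟩ := hg g hgl
      exact ⟨μ, h4, h5⟩

end Pool.Agent.RPDepth
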