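import Pool.Agent.RPDepth.Ext

/-!
# `T_D(lam) < Depth⁺(∏ B i / D)` if `D` is somewhere precipitous
-/

set_option autoImplicit false

namespace Pool.Agent.RPDepth

universe u

open Cardinal Filter Order Ordinal

/-- the supremum in `T_D` is attained if it is larger than `2 ^ κ` -/
theorem exists_family_attained {ι : Type u} {D : Filter ι} [D.NeBot] {lam : ι → Cardinal.{u}}
    [Infinite ι] (h : 2 ^ #ι < TD D lam) : ∃ F : Set (∀ i, (lam i).ord.ToType),
      (∀ f ∈ F, ∀ g ∈ F, f ≠ g → ∀ᶠ i in D, f i ≠ g i) ∧ TD D lam ≤ #F := by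
  classical
  obtain ⟨F, hF⟩ := zorn_subset {F : Set (∀ i, (lam i).ord.ToType) |
    ∀ f ∈ F, ∀ g ∈ F, f ≠ g → ∀ᶠ i in D, f i ≠ g i} (by
      intro c hc hchain
      refine ⟨⋃₀ c, ?_, fun s hs => Set.subset_sUnion_of_mem hs⟩
      rintro q ⟨s, hs, hq⟩ r ⟨t, ht, hr⟩ hqr
      rcases hchain.total hs ht with hst | hst
      · exact hc ht q (hst hq) r hr hqr
      · exact hc hs q hq r (hst hr) hqr)
  refine ⟨F, hF.1, ?_⟩
  have hmeet : ∀ g : ∀ i, (lam i).ord.ToType, ∃ f ∈ F, ∃ᶠ i in D, f i = g i := by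
    intro g
    by_contra hcon
    push Not at hcon
    have hmem : insert g F ∈ {F : Set (∀ i, (lam i).ord.ToType) |
        ∀ f ∈ F, ∀ g ∈ F, f ≠ g → ∀ᶠ i in D, f i ≠ g i} := by
      rintro x (rfl | hx) y (rfl | hy) hxy
      · exact absurd rfl hxy
      · filter_upwards [hcon y hy] with i hi hi'
        exact hi hi'.symm
      · exact hcon x hx
      · exact hF.1 x hx y hy hxy
    have hgF : g ∈ F := hF.2 hmem (Set.subset_insert g F) (Set.mem_insert g F)
    obtain ⟨i, hi⟩ := (hcon g hgF).exists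
    exact hi rfl
  have h1 : TD D lam ≤ #F * 2 ^ #ι := by
    refine ciSup_le' fun F' => ?_
    choose p hpF hp using fun g : F'.1 => hmeet g.1
    have hinj : Function.Injective (fun g : F'.1 =>
        ((⟨p g, hpF g⟩ : F), ({i | p g i = g.1 i} : Set ι))) := by
      intro g g' hgg
      by_contra hne
      have h2 : p g = p g' := congrArg Subtype.val (congrArg Prod.fst hgg)
      have h3 : {i | p g i = g.1 i} = {i | p g' i = g'.1 i} := congrArg Prod.snd hgg
      have h4 := F'.2 g.1 g.2 g'.1 g'.2 (fun h => hne (Subtype.ext h))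
      obtain ⟨i, hi, hi'⟩ := ((hp g).and_eventually h4).exists
      apply hi'
      have h5 : i ∈ {i | p g' i = g'.1 i} := h3 ▸ (show i ∈ {i | p g i = g.1 i} from hi)
      have h6 : p g' i = g'.1 i := h5
      rw [← hi, ← h6, h2]
    have h7 := mk_le_of_injective hinj
    rwa [mk_prod, Cardinal.lift_id, Cardinal.lift_id, mk_set] at h7
  have hκ : ℵ₀ ≤ 2 ^ #ι := (aleph0_le_mk ι).trans (cantor _).le
  rcases le_total (#F) (2 ^ #ι) with h8 | h8
  · have h9 : #F * 2 ^ #ι ≤ 2 ^ #ι := by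
      calc #F * 2 ^ #ι ≤ 2 ^ #ι * 2 ^ #ι := by gcongr
        _ = 2 ^ #ι := mul_eq_self hκ
    exact absurd (h1.trans h9) (not_le_of_gt h)
  · refine h1.trans ?_
    calc #F * 2 ^ #ι ≤ #F * #F := by gcongr
      _ = #F := mul_eq_self (hκ.trans h8)

/-- the singular case: blocks, if there is a pair below which everything is small -/
theorem lt_of_small {ι : Type u} [Infinite ι] {D : Filter ι} {B : ι → Type u}
    [∀ i, Preorder (B i)] {lam : ι → Cardinal.{u}}
    (h : ∀ i, ∃ c : (lam i).ord.ToType → B i, StrictMono c) (hpos : ∀ i, 0 < lam i)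
    {A A' : Set ι} (hP : Precipitous (D ⊓ 𝓟 A)) (hs : A' ⊆ A)
    {G : ι → Ordinal.{u}} (hGl : ∀ i ∈ A', G i ≤ (lam i).ord)
    {T : Cardinal.{u}} (h2T : 2 ^ #ι < T) (hlim : ∀ μ < T, succ μ < T)
    (hG : ∀ χ < T, Big D χ G A')
    (hm : ∀ g : ι → Ordinal.{u}, (∀ i ∈ A', g i < G i) → ∃ μ < T, ∀ X ⊆ A', ¬ Big D μ g X)
    {X : Type u} [LinearOrder X] [WellFoundedLT X] (hX : ∀ x : X, #{y // y < x} < T.ord.cof)
    {χ : X → Cardinal.{u}} (hχ0 : ∀ x, ℵ₀ ≤ χ x) (hχT : ∀ x, χ x < T)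
    (hT : ∀ β < T.ord, ∃ x, β < (χ x).ord) :
    T < depthPlus (RedProd D B) := by
  classical
  have step : ∀ (x : X) (prev : ∀ y, y < x →
      (((χ y).ord.ToType → ι → Ordinal.{u}) × {b : ι → Ordinal.{u} // ∀ i ∈ A', b i < G i})),
      ∃ m : ((χ x).ord.ToType → ι → Ordinal.{u}) × {b : ι → Ordinal.{u} // ∀ i ∈ A', b i < G i},
        (∀ v, ∀ i ∈ A', m.1 v i ≤ m.2.1 i) ∧
        (∀ v w, v < w → WLt D A' (m.1 v) (m.1 w)) ∧
        ∀ y (hy : y < x) v, ∀ᶠ i in D, i ∈ A' → (prev y hy).2.1 i ≤ m.1 v i := by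
    intro x prev
    obtain ⟨b, hb, hub⟩ := exists_upper h2T hlim hG hm (hX x)
      (fun y : {y // y < x} => (prev y.1 y.2).2.1) (fun y => (prev y.1 y.2).2.2)
    obtain ⟨c, b', h1, h2, h3, h4⟩ := exists_block hP hs h2T hlim hG hm hb (hχT x)
    refine ⟨(c, ⟨b', h1⟩), h2, h4, fun y hy v => ?_⟩
    filter_upwards [hub ⟨y, hy⟩] with i hi hiA
    exact (hi hiA).trans (h3 v i hiA)
  choose F hF1 hF2 hF3 using step
  let H : ∀ x : X, ((χ x).ord.ToType → ι → Ordinal.{u}) ×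
      {b : ι → Ordinal.{u} // ∀ i ∈ A', b i < G i} := (wellFounded_lt (α := X)).fix F
  have hH : ∀ x, H x = F x (fun y _ => H y) := fun x => WellFounded.fix_eq _ _ x
  refine chain_of_blocks h hpos (A := A') hχ0 hT (fun x => (H x).1) (fun x => (H x).2.1) ?_ ?_ ?_ ?_
  · intro x v i hi
    have h1 := hF1 x (fun y _ => H y) v i hi
    rw [← hH x] at h1
    exact h1.trans_lt (((H x).2.2 i hi).trans_le (hGl i hi))
  · intro x v i hi
    have h1 := hF1 x (fun y _ => H y) v i hi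
    rwa [← hH x] at h1
  · intro y x hyx v
    have h1 := hF3 x (fun y _ => H y) y hyx v
    rwa [← hH x] at h1
  · intro x v w hvw
    have h1 := hF2 x (fun y _ => H y) v w hvw
    rwa [← hH x] at h1

/-- the singular case: blocks over one function -/
theorem lt_of_mul {ι : Type u} {D : Filter ι} {B : ι → Type u}
    [∀ i, Preorder (B i)] {lam : ι → Cardinal.{u}}
    (h : ∀ i, ∃ c : (lam i).ord.ToType → B i, StrictMono c) (hpos : ∀ i, ℵ₀ ≤ lam i)
    {A : Set ι} {T θ : Cardinal.{u}} (hθ : ℵ₀ ≤ θ) (hθl : ∀ i ∈ A, θ ≤ lam i)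
    {g : ι → Ordinal.{u}} (hg : ∀ i ∈ A, g i < (lam i).ord)
    {χ : θ.ord.ToType → Cardinal.{u}} (hχ0 : ∀ x, ℵ₀ ≤ χ x)
    (hT : ∀ β < T.ord, ∃ x, β < (χ x).ord)
    (c : ∀ x, (χ x).ord.ToType → ι → Ordinal.{u}) (hc : ∀ x v, ∀ i ∈ A, c x v i ≤ g i)
    (hch : ∀ x v w, v < w → WLt D A (c x v) (c x w)) :
    T < depthPlus (RedProd D B) := by
  refine chain_of_blocks h (fun i => aleph0_pos.trans_le (hpos i)) (A := A) hχ0 hT
    (fun x v i => (g i + 1) * (x.toOrd : Ordinal.{u}) + c x v i)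
    (fun x i => (g i + 1) * (x.toOrd : Ordinal.{u}) + g i) ?_ ?_ ?_ ?_
  · intro x v i hi
    have h1 : g i + 1 < (lam i).ord := by
      rw [Ordinal.add_one_eq_succ]
      exact (isSuccLimit_ord (hpos i)).succ_lt (hg i hi)
    have h2 : (x.toOrd : Ordinal.{u}) + 1 < (lam i).ord := by
      rw [Ordinal.add_one_eq_succ]
      exact ((isSuccLimit_ord hθ).succ_lt x.toOrd.2).trans_le (ord_le_ord.2 (hθl i hi))
    have h3 := isPrincipal_mul_ord (hpos i) h1 h2
    refine lt_of_le_of_lt ?_ h3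
    show (g i + 1) * (x.toOrd : Ordinal.{u}) + c x v i ≤ (g i + 1) * ((x.toOrd : Ordinal.{u}) + 1)
    rw [mul_add_one]
    exact (add_le_add_iff_left _).2 ((hc x v i hi).trans (le_succ (g i)))
  · intro x v i hi
    exact (add_le_add_iff_left _).2 (hc x v i hi)
  · intro x y hxy v
    refine Eventually.of_forall fun i hi => ?_
    have hxy' : (x.toOrd : Ordinal.{u}) + 1 ≤ (y.toOrd : Ordinal.{u}) := by
      rw [Ordinal.add_one_eq_succ, succ_le_iff]
      exact ToType.mk.symm.lt_iff_lt.2 hxy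
    calc (g i + 1) * (x.toOrd : Ordinal.{u}) + g i
        ≤ (g i + 1) * (x.toOrd : Ordinal.{u}) + (g i + 1) :=
          (add_le_add_iff_left _).2 (le_succ (g i))
      _ = (g i + 1) * ((x.toOrd : Ordinal.{u}) + 1) := by rw [mul_add_one]
      _ ≤ (g i + 1) * (y.toOrd : Ordinal.{u}) := mul_le_mul_right hxy' _
      _ ≤ (g i + 1) * (y.toOrd : Ordinal.{u}) + c y v i := le_self_add
  · intro x v w hvw
    obtain ⟨h1, h2⟩ := hch x v w hvw
    refine ⟨h1.mono fun i hi hiA => (add_le_add_iff_left _).2 (hi hiA),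
      h2.mono fun i hi => ⟨hi.1, (add_lt_add_iff_left _).2 hi.2⟩⟩

end Pool.Agent.RPDepth
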