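import Pool.Agent.RPDepth.WF
import Pool.Agent.RPDepth.Ext2

/-!
# `T_D(lam) < Depth⁺(∏ B i / D)` for `lam` well-founded over smaller cardinals
-/

set_option autoImplicit false

namespace Pool.Agent.RPDepth

universe u

open Cardinal Filter Order Ordinal

/-- a single weak chain gives a chain -/
theorem lt_of_wchain {ι : Type u} {D : Filter ι} {B : ι → Type u} [∀ i, Preorder (B i)]
    {lam : ι → Cardinal.{u}} (h : ∀ i, ∃ c : (lam i).ord.ToType → B i, StrictMono c)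
    (hpos : ∀ i, 0 < lam i) {A : Set ι} {χ : Cardinal.{u}} (c : χ.ord.ToType → ι → Ordinal.{u})
    (hc1 : ∀ v, ∀ i ∈ A, c v i < (lam i).ord) (hc2 : ∀ v, ∀ i ∉ A, c v i = 0)
    (hc3 : ∀ v w, v < w → (∀ᶠ i in D, c v i ≤ c w i) ∧ ∃ᶠ i in D, i ∈ A ∧ c v i < c w i) :
    χ < depthPlus (RedProd D B) := by
  classical
  choose b hb using h
  have hlt : ∀ v i, c v i < (lam i).ord := by
    intro v i
    by_cases hi : i ∈ A
    · exact hc1 v i hi
    · rw [hc2 v i hi]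
      exact ord_pos.2 (hpos i)
  let k : χ.ord.ToType → RedProd D B := fun v i => b i (ToType.mk ⟨c v i, hlt v i⟩)
  refine lt_depthPlus ⟨k, fun v w hvw => lt_iff_le_not_ge.2 ⟨?_, fun h3 => ?_⟩⟩
  · have h4 : ∀ᶠ i in D, k v i ≤ k w i := by
      filter_upwards [(hc3 v w hvw).1] with i hi
      exact (hb i).monotone (ToType.mk.le_iff_le.2 hi)
    exact h4
  · have h3' : ∀ᶠ i in D, k w i ≤ k v i := h3
    obtain ⟨i, ⟨-, h5⟩, h4⟩ := ((hc3 v w hvw).2.and_eventually h3').exists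
    exact absurd (hb i (ToType.mk.lt_iff_lt.2 h5)) (not_lt_of_ge h4)

/-- The inequality of Q1, if `lam i ≤ (μ i)^{+ f i}` on a positive set, `f` is well-founded for `D`,
and `T_D(lam)` is larger than a common bound of the `T_{D+A}(μ)`. -/
theorem q1_of_wf {ι : Type u} [Infinite ι] (D : Filter ι) [D.NeBot] (B : ι → Type u)
    [∀ i, Preorder (B i)] (lam : ι → Cardinal.{u}) (h2 : ∀ i, 2 ^ #ι < lam i)
    (hB : ∀ i, lam i < depthPlus (B i)) {A : Set ι} (hA : ∃ᶠ i in D, i ∈ A)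
    {o f : ι → Ordinal.{u}} (hf : NoDescent D A f) {X : Cardinal.{u}} (h2X : 2 ^ #ι ≤ X)
    (hμ : ∀ A' ⊆ A, (∃ᶠ i in D, i ∈ A') → TD (D ⊓ 𝓟 A') (fun i => ℵ_ (o i)) ≤ X)
    (hlam : ∀ i ∈ A, lam i ≤ ℵ_ (o i + f i)) (hXT : X < TD D lam) :
    TD D lam < depthPlus (RedProd D B) := by
  classical
  have hch := fun i => exists_chain_of_lt (hB i)
  have hι : ℵ₀ ≤ #ι := aleph0_le_mk ι
  have hκ : #ι < 2 ^ #ι := cantor _
  have hκ0 : ℵ₀ ≤ 2 ^ #ι := hι.trans hκ.le
  have hpos : ∀ i, 0 < lam i := fun i => bot_le.trans_lt (h2 i)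
  have h2T : 2 ^ #ι < TD D lam := h2X.trans_lt hXT
  obtain ⟨F, hF, hTF⟩ := exists_family_attained h2T
  set T := TD D lam with hTdef
  have hT0 : ℵ₀ ≤ T := hκ0.trans h2T.le
  -- the regular case
  have hle : ∀ i ∈ A, (lam i).ord ≤ (ℵ_ (o i + f i)).ord := fun i hi => ord_le_ord.2 (hlam i hi)
  by_cases hreg : T ≤ T.ord.cof
  · obtain ⟨A'', c, -, hc1, hc2, hc3⟩ := wchain_of_wf hf hμ h2X (χ := T) ⟨hT0, hreg⟩ hXT
      (A' := A) subset_rfl hle (big_of_family hF hTF hA)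
    exact lt_of_wchain hch hpos c hc1 hc2 hc3
  -- the singular case
  have hcof : T.ord.cof < T := not_le.1 hreg
  have hlim : ∀ μ < T, succ μ < T := by
    intro μ hμ
    refine lt_of_le_of_ne (succ_le_of_lt hμ) fun h => ?_
    have h3 : ℵ₀ ≤ μ := by
      by_contra h4
      have h5 : succ μ < ℵ₀ := (isSuccLimit_aleph0).succ_lt (not_le.1 h4)
      rw [h] at h5
      exact absurd hT0 (not_le_of_gt h5)
    have h6 := (isRegular_succ h3).cof_ord
    rw [h] at h6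
    exact absurd h6 hcof.ne
  have hbig : ∀ X : Set ι, (∃ᶠ i in D, i ∈ X) → ∀ χ < T, Big D χ (fun i => (lam i).ord) X :=
    fun X hX χ hχ => big_of_family hF (hχ.le.trans hTF) hX
  -- regular cardinals cofinal in `T`
  obtain ⟨s, hs, hscard⟩ := Order.exists_cof_eq (α := T.ord.ToType)
  rw [cof_toType] at hscard
  obtain ⟨σ⟩ : Nonempty (T.ord.cof.ord.ToType ≃ s) := by
    rw [← Cardinal.eq, mk_ord_toType, hscard]
  let χ : T.ord.cof.ord.ToType → Cardinal.{u} := fun x =>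
    succ (max ((σ x).1.toOrd : Ordinal.{u}).card X)
  have hχ0 : ∀ x, ℵ₀ ≤ max ((σ x).1.toOrd : Ordinal.{u}).card X :=
    fun x => hκ0.trans (h2X.trans (le_max_right _ _))
  have hχr : ∀ x, (χ x).IsRegular := fun x => isRegular_succ (hχ0 x)
  have hχT : ∀ x, χ x < T := fun x => hlim _ (max_lt (lt_ord.1 (σ x).1.toOrd.2) hXT)
  have hχ2 : ∀ x, X < χ x := fun x => lt_succ_of_le (le_max_right _ _)
  have hcofinal : ∀ β < T.ord, ∃ x, β < (χ x).ord := by
    intro β hβ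
    obtain ⟨w, hw, hle⟩ := hs (ToType.mk ⟨β, hβ⟩)
    refine ⟨σ.symm ⟨w, hw⟩, lt_ord.2 (lt_succ_of_le ((card_le_card ?_).trans (le_max_left _ _)))⟩
    rw [Equiv.apply_symm_apply]
    have h3 := (ToType.mk (o := T.ord)).symm.le_iff_le.2 hle
    rw [OrderIso.symm_apply_apply] at h3
    exact h3
  have hX : ∀ x : T.ord.cof.ord.ToType, #{y // y < x} < T.ord.cof := by
    intro x
    have h1 := mk_Iio_lt x (by simp)
    rwa [mk_ord_toType] at h1
  have hθ0 : ℵ₀ ≤ T.ord.cof := by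
    rw [Ordinal.aleph0_le_cof_iff, Ordinal.one_lt_cof_iff]
    exact isSuccLimit_ord hT0
  rcases lt_or_ge (2 ^ #ι) T.ord.cof with hθ | hθ
  · -- large cofinality: a minimal pair
    obtain ⟨G, A', hsA, hGl, hGb, hmin⟩ := exists_min hf hμ
      (Q := fun g Y => ∀ χ < T, Big D χ g Y) (fun g Y h => h _ (hlim _ hXT))
      (fun g Y Z h h1 h3 χ hχ => (h χ hχ).restrict h1 h3) (fun g Y h χ hχ => (h χ hχ).card)
      (A' := A) subset_rfl hle (hbig A hA)
    refine lt_of_small' hch hpos hGl hlim h2X hXT (fun χ' hr hL _ g Y hY hg hb =>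
      wchain_of_wf hf hμ h2X hr hL (hY.trans hsA)
        (fun i hi => (hg i hi).trans ((hGl i (hY hi)).trans (hle i (hsA (hY hi))))) hb)
      hGb (fun g hg => ?_) hX (fun x => (hχr x).aleph0_le) hχT hcofinal
    have h3 : ∀ Y : Set ι, ∃ μ < T, Y ⊆ A' → ¬ Big D μ g Y := by
      intro Y
      by_cases hYA : Y ⊆ A'
      · have h4 := hmin g Y hYA (fun i hi => hg i (hYA hi))
        push Not at h4
        obtain ⟨μ, h5, h6⟩ := h4
        exact ⟨μ, h5, fun _ => h6⟩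
      · exact ⟨0, bot_le.trans_lt h2T, fun h => absurd h hYA⟩
    choose μ hμT hμ' using h3
    refine ⟨⨆ Y, μ Y, iSup_lt_of_lt_cof_ord (by rw [mk_set]; exact hθ) hμT, fun Y hYA hb => ?_⟩
    exact hμ' Y hYA (hb.anti (le_ciSup Cardinal.bddAbove_of_small Y))
  · -- small cofinality
    by_cases hg : ∃ g : ι → Ordinal.{u}, (∀ i ∈ A, g i < (lam i).ord) ∧
        ∀ μ < T, ∃ Y ⊆ A, Big D μ g Y
    · obtain ⟨g, hgl, hgb⟩ := hg
      have h3 : ∀ x, ∃ c : (χ x).ord.ToType → ι → Ordinal.{u}, (∀ v, ∀ i ∈ A, c v i ≤ g i) ∧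
          ∀ v w, v < w → WLt D A (c v) (c w) := by
        intro x
        obtain ⟨Y, hYA, hYb⟩ := hgb _ (hχT x)
        obtain ⟨Z, c, hZY, hc1, hc2, hc3⟩ := wchain_of_wf hf hμ h2X (hχr x) (hχ2 x) hYA
          (fun i hi => (hgl i (hYA hi)).le.trans (hle i (hYA hi))) hYb
        refine ⟨c, fun v i _ => ?_, fun v w hvw => ⟨(hc3 v w hvw).1.mono fun i hi _ => hi,
          (hc3 v w hvw).2.mono fun i hi => ⟨hYA (hZY hi.1), hi.2⟩⟩⟩
        by_cases hi : i ∈ Z
        · exact (hc1 v i hi).le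
        · rw [hc2 v i hi]
          exact bot_le
      choose c hc1 hc2 using h3
      exact lt_of_mul hch (fun i => hκ0.trans (h2 i).le) hθ0
        (fun i _ => hθ.trans (h2 i).le) hgl (fun x => (hχr x).aleph0_le) hcofinal c hc1 hc2
    · push Not at hg
      refine lt_of_small' hch hpos (G := fun i => (lam i).ord) (A' := A) (fun i _ => le_rfl) hlim
        h2X hXT (fun χ' hr hL _ g Y hY hg' hb => wchain_of_wf hf hμ h2X hr hL hY
          (fun i hi => (hg' i hi).trans (hle i (hY hi))) hb)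
        (hbig A hA) (fun g hgl => ?_) hX (fun x => (hχr x).aleph0_le) hχT hcofinal
      obtain ⟨μ, h4, h5⟩ := hg g hgl
      exact ⟨μ, h4, h5⟩

end Pool.Agent.RPDepth
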