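import Pool.Agent.RPDepth.Thin
import Pool.Agent.RPDepth.UFin

/-!
# Q1 reduces to regular lengths
-/

set_option autoImplicit false

namespace Pool.Agent.RPDepth

universe u

open Cardinal Filter Order Ordinal

/-- All regular lengths are present: for every positive set `A` and all cardinals
`2 ^ κ < μ i ≤ lam i`, every regular cardinal `χ > 2 ^ κ` that is at most `T_{D+A}(μ)` and at most
`T_D(lam)` is the length of a strictly increasing sequence of `∏ μ i / (D + A)`. -/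
def RegLengths {ι : Type u} (D : Filter ι) (lam : ι → Cardinal.{u}) : Prop :=
  ∀ A : Set ι, (∃ᶠ i in D, i ∈ A) → ∀ μ : ι → Cardinal.{u}, (∀ i, 2 ^ #ι < μ i ∧ μ i ≤ lam i) →
    ∀ χ : Cardinal.{u}, χ.IsRegular → 2 ^ #ι < χ → χ ≤ TD (D ⊓ 𝓟 A) μ → χ ≤ TD D lam →
      χ < depthPlus (RedProd (D ⊓ 𝓟 A) (fun i => (μ i).ord.ToType))

/-- a chain below `g`, strict on a positive set -/
theorem strict_of_reg {ι : Type u} [Infinite ι] {D : Filter ι} {lam : ι → Cardinal.{u}}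
    (h2 : ∀ i, 2 ^ #ι < lam i) (hR : RegLengths D lam) {χ : Cardinal.{u}} (hχ : χ.IsRegular)
    (h2χ : 2 ^ #ι < χ) (hχT : χ ≤ TD D lam) {g : ι → Ordinal.{u}} {A : Set ι}
    (hg : ∀ i ∈ A, g i ≤ (lam i).ord) (hbig : Big D χ g A) :
    ∃ (A' : Set ι) (c : χ.ord.ToType → ι → Ordinal.{u}), A' ⊆ A ∧ (∃ᶠ i in D, i ∈ A') ∧
      (∀ v, ∀ i ∈ A', c v i < g i) ∧ (∀ v, ∀ i ∉ A', c v i = 0) ∧
      ∀ v w, v < w → ∀ᶠ i in D, i ∈ A' → c v i < c w i := by
  classical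
  have hκκ : ((2 : Cardinal.{u}) ^ #ι) ^ #ι = 2 ^ #ι := power_power_self ι 2
  have hnull : ¬ ∃ᶠ i in D, i ∈ {i | i ∈ A ∧ (g i).card ≤ 2 ^ #ι} := by
    intro hpos
    have h1 := (hbig.restrict hpos (fun i hi => hi.1)).card
    have h3 := le_TD_of_big h1 (μ := fun _ => 2 ^ #ι)
      (fun i => (bot_le.trans_lt (cantor #ι))) (fun i hi => ord_le_ord.2 hi.2)
    exact absurd ((h3.trans (TD_const_le _ _)).trans hκκ.le) (not_le_of_gt h2χ)
  have hA1 : ∃ᶠ i in D, i ∈ {i | i ∈ A ∧ 2 ^ #ι < (g i).card} := by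
    rw [not_frequently] at hnull
    refine (hbig.1.and_eventually hnull).mono fun i hi => ⟨hi.1, ?_⟩
    by_contra h
    exact hi.2 ⟨hi.1, not_lt.1 h⟩
  set A1 : Set ι := {i | i ∈ A ∧ 2 ^ #ι < (g i).card} with hA1def
  have hb1 := (hbig.restrict hA1 (fun i hi => hi.1)).card
  let μ : ι → Cardinal.{u} := fun i => if i ∈ A1 then (g i).card else succ (2 ^ #ι)
  have hμ1 : ∀ i ∈ A1, μ i = (g i).card := fun i hi => if_pos hi
  have hμ : ∀ i, 2 ^ #ι < μ i ∧ μ i ≤ lam i := by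
    intro i
    by_cases hi : i ∈ A1
    · rw [hμ1 i hi]
      refine ⟨hi.2, ?_⟩
      have h3 := card_le_card (hg i hi.1)
      rwa [card_ord] at h3
    · simp only [μ, if_neg hi]
      exact ⟨lt_succ _, succ_le_of_lt (h2 i)⟩
  have hle := le_TD_of_big hb1 (μ := μ) (fun i => bot_le.trans_lt (hμ i).1) (fun i hi => by
    rw [hμ1 i hi])
  obtain ⟨k, hk⟩ := exists_chain_of_lt (hR A1 hA1 μ hμ χ hχ h2χ hle hχT)
  obtain ⟨A', hA'1, hA', e, he⟩ := exists_strict_of_weak (D := D) (A := A1) hχ h2χ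
    (fun v i => ((k v i).toOrd : Ordinal.{u})) (fun v w hvw => by
      obtain ⟨h3, h4⟩ := lt_iff_le_not_ge.1 (hk hvw)
      have h3' : ∀ᶠ i in D ⊓ 𝓟 A1, k v i ≤ k w i := h3
      have h4' : ¬ ∀ᶠ i in D ⊓ 𝓟 A1, k w i ≤ k v i := h4
      rw [eventually_inf_principal] at h3'
      rw [not_eventually, frequently_inf_principal] at h4'
      refine ⟨?_, ?_⟩
      · filter_upwards [h3'] with i hi hiA
        exact ToType.mk.symm.le_iff_le.2 (hi hiA)
      · refine h4'.mono fun i hi => ⟨hi.1, ?_⟩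
        exact ToType.mk.symm.lt_iff_lt.2 (not_le.1 hi.2))
  refine ⟨A', fun v i => if i ∈ A' then ((k (e v) i).toOrd : Ordinal.{u}) else 0,
    fun i hi => (hA'1 hi).1, hA', fun v i hi => ?_, fun v i hi => if_neg hi, fun v w hvw => ?_⟩
  · simp only [if_pos hi]
    have h3 : ((k (e v) i).toOrd : Ordinal.{u}) < (μ i).ord := (k (e v) i).toOrd.2
    have h4 : (μ i).ord = (g i).card.ord := by rw [hμ1 i (hA'1 hi)]
    exact (h3.trans_eq h4).trans_le (ord_card_le _)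
  · filter_upwards [he v w hvw] with i hi hiA
    simp only [if_pos hiA]
    exact hi hiA

theorem wlt_of_strict {ι : Type u} {D : Filter ι} {A' : Set ι} (hA' : ∃ᶠ i in D, i ∈ A')
    {f g : ι → Ordinal.{u}} (h0 : ∀ i ∉ A', f i = 0)
    (h : ∀ᶠ i in D, i ∈ A' → f i < g i) :
    (∀ᶠ i in D, f i ≤ g i) ∧ ∃ᶠ i in D, i ∈ A' ∧ f i < g i := by
  refine ⟨?_, (hA'.and_eventually h).mono fun i hi => ⟨hi.1, hi.2 hi.1⟩⟩
  filter_upwards [h] with i hi
  by_cases hiA : i ∈ A'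
  · exact (hi hiA).le
  · rw [h0 i hiA]
    exact bot_le

/-- Q1 reduces to regular lengths. -/
theorem q1_of_regular {ι : Type u} [Infinite ι] (D : Filter ι) [D.NeBot] (B : ι → Type u)
    [∀ i, Preorder (B i)] (lam : ι → Cardinal.{u}) (h2 : ∀ i, 2 ^ #ι < lam i)
    (hB : ∀ i, lam i < depthPlus (B i)) (hR : RegLengths D lam) :
    TD D lam < depthPlus (RedProd D B) := by
  classical
  have hch := fun i => exists_chain_of_lt (hB i)
  have hι : ℵ₀ ≤ #ι := aleph0_le_mk ι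
  have hκ : #ι < 2 ^ #ι := cantor _
  have hκ0 : ℵ₀ ≤ 2 ^ #ι := hι.trans hκ.le
  have hpos : ∀ i, 0 < lam i := fun i => bot_le.trans_lt (h2 i)
  have huniv : ∃ᶠ i in D, i ∈ (Set.univ : Set ι) :=
    Eventually.frequently (Eventually.of_forall fun i => Set.mem_univ i)
  rcases le_or_gt (TD D lam) (2 ^ #ι) with h0 | h2T
  · exact lt_depthPlus (chain_freq hch hpos (huniv.mono fun i _ => h0.trans (h2 i).le))
  obtain ⟨F, hF, hTF⟩ := exists_family_attained h2T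
  have hST : ∀ χ : Cardinal.{u}, χ.IsRegular → 2 ^ #ι < χ → χ ≤ TD D lam →
      ∀ (g : ι → Ordinal.{u}) (Y : Set ι), (∀ i ∈ Y, g i ≤ (lam i).ord) → Big D χ g Y →
      ∃ (A' : Set ι) (c : χ.ord.ToType → ι → Ordinal.{u}), A' ⊆ Y ∧ (∃ᶠ i in D, i ∈ A') ∧
        (∀ v, ∀ i ∈ A', c v i < g i) ∧ (∀ v, ∀ i ∉ A', c v i = 0) ∧
        ∀ v w, v < w → ∀ᶠ i in D, i ∈ A' → c v i < c w i :=
    fun χ hχ h2χ hχT g Y hg hb => strict_of_reg h2 hR hχ h2χ hχT hg hb
  clear hR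
  set T := TD D lam with hTdef
  have hT0 : ℵ₀ ≤ T := hκ0.trans h2T.le
  -- the regular case
  by_cases hreg : T ≤ T.ord.cof
  · obtain ⟨A', c, -, hA', hc1, hc2, hc3⟩ := hST T ⟨hT0, hreg⟩ h2T le_rfl
      (fun i => (lam i).ord) Set.univ (fun i _ => le_rfl) (big_of_family hF hTF huniv)
    exact lt_depthPlus (chain_of_pos hch hpos hA' c hc1 hc3)
  -- the singular case
  have hcof : T.ord.cof < T := not_le.1 hreg
  have hlim : ∀ μ < T, succ μ < T := by
    intro μ hμ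
    refine lt_of_le_of_ne (succ_le_of_lt hμ) fun h => ?_
    have h3 : ℵ₀ ≤ μ := by
      by_contra h4
      have h5 : succ μ < ℵ₀ := (isSuccLimit_aleph0).succ_lt (not_le.1 h4)
      rw [h] at h5
      exact absurd hT0 (not_le_of_gt h5)
    have h6 := (isRegular_succ h3).cof_ord
    rw [h] at h6
    exact absurd h6 hcof.ne
  have hbig : ∀ X : Set ι, (∃ᶠ i in D, i ∈ X) → ∀ χ < T, Big D χ (fun i => (lam i).ord) X :=
    fun X hX χ hχ => big_of_family hF (hχ.le.trans hTF) hX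
  -- regular cardinals cofinal in `T`
  obtain ⟨s, hs, hscard⟩ := Order.exists_cof_eq (α := T.ord.ToType)
  rw [cof_toType] at hscard
  obtain ⟨σ⟩ : Nonempty (T.ord.cof.ord.ToType ≃ s) := by
    rw [← Cardinal.eq, mk_ord_toType, hscard]
  let χ : T.ord.cof.ord.ToType → Cardinal.{u} := fun x =>
    succ (max ((σ x).1.toOrd : Ordinal.{u}).card (2 ^ #ι))
  have hχ0 : ∀ x, ℵ₀ ≤ max ((σ x).1.toOrd : Ordinal.{u}).card (2 ^ #ι) :=
    fun x => hκ0.trans (le_max_right _ _)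
  have hχr : ∀ x, (χ x).IsRegular := fun x => isRegular_succ (hχ0 x)
  have hχT : ∀ x, χ x < T := fun x => hlim _ (max_lt (lt_ord.1 (σ x).1.toOrd.2) h2T)
  have hχ2 : ∀ x, 2 ^ #ι < χ x := fun x => lt_succ_of_le (le_max_right _ _)
  have hcofinal : ∀ β < T.ord, ∃ x, β < (χ x).ord := by
    intro β hβ
    obtain ⟨w, hw, hle⟩ := hs (ToType.mk ⟨β, hβ⟩)
    refine ⟨σ.symm ⟨w, hw⟩, lt_ord.2 (lt_succ_of_le ((card_le_card ?_).trans (le_max_left _ _)))⟩
    rw [Equiv.apply_symm_apply]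
    have h3 := (ToType.mk (o := T.ord)).symm.le_iff_le.2 hle
    rw [OrderIso.symm_apply_apply] at h3
    exact h3
  have hX : ∀ x : T.ord.cof.ord.ToType, #{y // y < x} < T.ord.cof := by
    intro x
    have h1 := mk_Iio_lt x (by simp)
    rwa [mk_ord_toType] at h1
  have hθ0 : ℵ₀ ≤ T.ord.cof := by
    rw [Ordinal.aleph0_le_cof_iff, Ordinal.one_lt_cof_iff]
    exact isSuccLimit_ord hT0
  have hW : ∀ χ' : Cardinal.{u}, χ'.IsRegular → 2 ^ #ι < χ' → χ' < T →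
      ∀ (g : ι → Ordinal.{u}) (Y : Set ι), Y ⊆ Set.univ → (∀ i ∈ Y, g i ≤ (lam i).ord) →
        Big D χ' g Y → ∃ (A'' : Set ι) (c : χ'.ord.ToType → ι → Ordinal.{u}), A'' ⊆ Y ∧
          (∀ v, ∀ i ∈ A'', c v i < g i) ∧ (∀ v, ∀ i ∉ A'', c v i = 0) ∧
          ∀ v w, v < w → (∀ᶠ i in D, c v i ≤ c w i) ∧ ∃ᶠ i in D, i ∈ A'' ∧ c v i < c w i := by
    intro χ' hr h2' hT' g Y _ hg hb
    obtain ⟨A', c, h1, h3, h4, h5, h6⟩ := hST χ' hr h2' hT'.le g Y hg hb
    exact ⟨A', c, h1, h4, h5, fun v w hvw => wlt_of_strict h3 (h5 v) (h6 v w hvw)⟩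
  rcases lt_or_ge (2 ^ #ι) T.ord.cof with hθ | hθ
  · -- large cofinality
    by_cases hg : ∃ (g : ι → Ordinal.{u}) (A : Set ι), (∀ i ∈ A, g i < (lam i).ord) ∧
        ∀ μ < T, Big D μ g A
    · obtain ⟨g, A, hgl, hgb⟩ := hg
      have hA : ∃ᶠ i in D, i ∈ A := (hgb 0 (bot_le.trans_lt h2T)).1
      have hθr : (T.ord.cof).IsRegular := isRegular_cof (isSuccLimit_ord hT0)
      obtain ⟨A', H, hA'A, hA', hH1, -, hH3⟩ := hST T.ord.cof hθr hθ hcof.le
        (fun i => (lam i).ord) A (fun i _ => le_rfl) (hbig A hA _ hcof)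
      have h3 : ∀ x, ∃ c : (χ x).ord.ToType → ι → Ordinal.{u}, (∀ v, ∀ i ∈ A', c v i ≤ g i) ∧
          ∀ v w, v < w → WLt D A' (c v) (c w) := by
        intro x
        obtain ⟨Y, c, hYA, hY, hc1, hc2, hc3⟩ := hST (χ x) (hχr x) (hχ2 x) (hχT x).le g A'
          (fun i hi => (hgl i (hA'A hi)).le) ((hgb _ (hχT x)).restrict hA' hA'A)
        refine ⟨c, fun v i _ => ?_, fun v w hvw => ?_⟩
        · by_cases hi : i ∈ Y
          · exact (hc1 v i hi).le
          · rw [hc2 v i hi]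
            exact bot_le
        · obtain ⟨h5, h6⟩ := wlt_of_strict hY (hc2 v) (hc3 v w hvw)
          exact ⟨h5.mono fun i hi _ => hi, h6.mono fun i hi => ⟨hYA hi.1, hi.2⟩⟩
      choose c hc1 hc2 using h3
      exact lt_of_mul' hch (fun i => hκ0.trans (h2 i).le) (A := A') H hH1 hH3
        (fun i hi => hgl i (hA'A hi)) (fun x => (hχr x).aleph0_le) hcofinal c hc1 hc2
    · push Not at hg
      refine lt_of_small' hch hpos (G := fun i => (lam i).ord) (A' := Set.univ)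
        (fun i _ => le_rfl) hlim le_rfl h2T hW (hbig _ huniv) (fun g hgl => ?_) hX
        (fun x => (hχr x).aleph0_le) hχT hcofinal
      have h3 : ∀ Y : Set ι, ∃ μ < T, ¬ Big D μ g Y := fun Y =>
        hg g Y (fun i _ => hgl i (Set.mem_univ i))
      choose μ hμT hμ using h3
      refine ⟨⨆ Y, μ Y, iSup_lt_of_lt_cof_ord (by rw [mk_set]; exact hθ) hμT, fun Y _ hb => ?_⟩
      exact hμ Y (hb.anti (le_ciSup Cardinal.bddAbove_of_small Y))
  · -- small cofinality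
    by_cases hg : ∃ g : ι → Ordinal.{u}, (∀ i, g i < (lam i).ord) ∧
        ∀ μ < T, ∃ Y, Big D μ g Y
    · obtain ⟨g, hgl, hgb⟩ := hg
      have h3 : ∀ x, ∃ c : (χ x).ord.ToType → ι → Ordinal.{u},
          (∀ v, ∀ i ∈ (Set.univ : Set ι), c v i ≤ g i) ∧
          ∀ v w, v < w → WLt D Set.univ (c v) (c w) := by
        intro x
        obtain ⟨Y, hYb⟩ := hgb _ (hχT x)
        obtain ⟨Z, c, hZY, hc1, hc2, hc3⟩ := hW (χ x) (hχr x) (hχ2 x) (hχT x) g Y
          (Set.subset_univ _) (fun i _ => (hgl i).le) hYb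
        refine ⟨c, fun v i _ => ?_, fun v w hvw => ⟨(hc3 v w hvw).1.mono fun i hi _ => hi,
          (hc3 v w hvw).2.mono fun i hi => ⟨Set.mem_univ i, hi.2⟩⟩⟩
        by_cases hi : i ∈ Z
        · exact (hc1 v i hi).le
        · rw [hc2 v i hi]
          exact bot_le
      choose c hc1 hc2 using h3
      exact lt_of_mul hch (fun i => hκ0.trans (h2 i).le) hθ0
        (fun i _ => hθ.trans (h2 i).le) (fun i _ => hgl i) (fun x => (hχr x).aleph0_le)
        hcofinal c hc1 hc2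
    · push Not at hg
      refine lt_of_small' hch hpos (G := fun i => (lam i).ord) (A' := Set.univ)
        (fun i _ => le_rfl) hlim le_rfl h2T hW (hbig _ huniv) (fun g hgl => ?_) hX
        (fun x => (hχr x).aleph0_le) hχT hcofinal
      obtain ⟨μ, h4, h5⟩ := hg g (fun i => hgl i (Set.mem_univ i))
      exact ⟨μ, h4, fun Y _ => h5 Y⟩

end Pool.Agent.RPDepth
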