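import Pool.Agent.RPDepth.RkDef

/-!
# Minimal rank and the filter of a function of minimal rank
-/

set_option autoImplicit false

namespace Pool.Agent.RPDepth

universe u

open Cardinal Filter Order Ordinal

/-- The rank of `g` modulo `F` is at least `α`. -/
def RkGe {ι : Type u} (F : Filter ι) (α : Ordinal.{u + 1}) (g : ι → Ordinal.{u}) : Prop :=
  ∀ β < α, ∃ h : ι → Ordinal.{u}, (∀ᶠ i in F, h i < g i) ∧ RkGe F β h
termination_by α

theorem rkGe_iff {ι : Type u} {F : Filter ι} {α : Ordinal.{u + 1}} {g : ι → Ordinal.{u}} :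
    RkGe F α g ↔ ∀ β < α, ∃ h : ι → Ordinal.{u}, (∀ᶠ i in F, h i < g i) ∧ RkGe F β h := by
  rw [RkGe]

theorem RkGe.anti {ι : Type u} {F : Filter ι} {α α' : Ordinal.{u + 1}} {g : ι → Ordinal.{u}}
    (h : RkGe F α g) (hα : α' ≤ α) : RkGe F α' g := by
  rw [rkGe_iff] at h ⊢
  exact fun β hβ => h β (hβ.trans_le hα)

theorem RkGe.filter_mono {ι : Type u} {F F' : Filter ι} (hF : F' ≤ F) :
    ∀ {α : Ordinal.{u + 1}} {g : ι → Ordinal.{u}}, RkGe F α g → RkGe F' α g := by
  intro α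
  induction α using WellFoundedLT.induction with
  | ind α ih =>
    intro g h
    rw [rkGe_iff] at h ⊢
    intro β hβ
    obtain ⟨h', h1, h2⟩ := h β hβ
    exact ⟨h', hF h1, ih β hβ h2⟩

theorem RkGe.congr {ι : Type u} {F : Filter ι} {α : Ordinal.{u + 1}} {g g' : ι → Ordinal.{u}}
    (h : RkGe F α g) (hg : ∀ᶠ i in F, g i = g' i) : RkGe F α g' := by
  rw [rkGe_iff] at h ⊢
  intro β hβ
  obtain ⟨h', h1, h2⟩ := h β hβ
  exact ⟨h', by filter_upwards [h1, hg] with i a b using b ▸ a, h2⟩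

theorem rkGe_bot {ι : Type u} : ∀ (α : Ordinal.{u + 1}) (g : ι → Ordinal.{u}),
    RkGe (⊥ : Filter ι) α g := by
  intro α
  induction α using WellFoundedLT.induction with
  | ind α ih =>
    intro g
    rw [rkGe_iff]
    exact fun β hβ => ⟨g, by simp, ih β hβ g⟩

theorem RkGe.diag {ι W : Type u} {F : Filter ι} {Q : ι → W → Prop} (hQ : QComplete Q F) :
    ∀ (α : Ordinal.{u + 1}) (B : W → Set ι) (g : ι → Ordinal.{u}),
      (∀ w, RkGe (F ⊓ 𝓟 (B w)) α g) → RkGe (F ⊓ 𝓟 {i | ∃ w, Q i w ∧ i ∈ B w}) α g := by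
  classical
  intro α
  induction α using WellFoundedLT.induction with
  | ind α ih =>
    intro B g h
    rw [rkGe_iff]
    intro β hβ
    have h1 : ∀ w, ∃ h' : ι → Ordinal.{u}, (∀ᶠ i in F, i ∈ B w → h' i < g i) ∧
        RkGe (F ⊓ 𝓟 (B w)) β h' := by
      intro w
      obtain ⟨h', h2, h3⟩ := rkGe_iff.1 (h w) β hβ
      rw [eventually_inf_principal] at h2
      exact ⟨h', h2, h3⟩
    choose h' h2 h3 using h1
    rcases isEmpty_or_nonempty W with hW | hW
    · have h4 : {i | ∃ w, Q i w ∧ i ∈ B w} = (∅ : Set ι) := by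
        ext i
        simp
      rw [h4, principal_empty, inf_bot_eq]
      exact ⟨g, by simp, rkGe_bot _ _⟩
    have h4 : ∀ i, ∃ w, i ∈ {i | ∃ w, Q i w ∧ i ∈ B w} → Q i w ∧ i ∈ B w := by
      intro i
      by_cases hi : i ∈ {i | ∃ w, Q i w ∧ i ∈ B w}
      · obtain ⟨w, hw⟩ := hi
        exact ⟨w, fun _ => hw⟩
      · exact ⟨Classical.arbitrary W, fun hh => absurd hh hi⟩
    choose w hw using h4
    refine ⟨fun i => h' (w i) i, ?_, ?_⟩
    · rw [eventually_inf_principal]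
      filter_upwards [hQ (fun w => {i | i ∈ B w → h' w i < g i}) h2] with i hi hi'
      exact hi (w i) (hw i hi').1 (hw i hi').2
    · have h5 := ih β hβ (fun v => {i | (Q i v ∧ i ∈ B v) ∧ w i = v}) (fun i => h' (w i) i)
        (fun v => by
          refine ((h3 v).filter_mono (F' := F ⊓ 𝓟 {i | (Q i v ∧ i ∈ B v) ∧ w i = v})
            (inf_le_inf_left _ (principal_mono.2 fun i hi => hi.1.2))).congr ?_
          rw [eventually_inf_principal]
          exact Eventually.of_forall fun i hi => by rw [hi.2])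
      refine h5.filter_mono (inf_le_inf_left _ (principal_mono.2 fun i hi => ?_))
      exact ⟨w i, (hw i hi).1, hw i hi, rfl⟩

theorem RkGe.union {ι : Type u} {F : Filter ι} {α : Ordinal.{u + 1}} {g : ι → Ordinal.{u}}
    {B C : Set ι} (hB : RkGe (F ⊓ 𝓟 B) α g) (hC : RkGe (F ⊓ 𝓟 C) α g) :
    RkGe (F ⊓ 𝓟 (B ∪ C)) α g := by
  have h := RkGe.diag (W := ULift.{u} Bool) (Q := fun _ _ => True) (F := F) (fun S hS => by
    filter_upwards [hS ⟨true⟩, hS ⟨false⟩] with i h1 h2
    rintro ⟨w⟩ -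
    cases w
    · exact h2
    · exact h1) α (fun w => if w.down then B else C) g (fun w => by
      rcases w with ⟨w⟩
      cases w
      · simpa using hC
      · simpa using hB)
  refine h.filter_mono (inf_le_inf_left _ (principal_mono.2 fun i hi => ?_))
  rcases hi with hi | hi
  · exact ⟨⟨true⟩, trivial, by simpa using hi⟩
  · exact ⟨⟨false⟩, trivial, by simpa using hi⟩

theorem exists_not_rkGe {ι : Type u} {F : Filter ι} [F.NeBot] (hω : OmegaComplete F)
    (g : ι → Ordinal.{u}) : ∃ α, ¬ RkGe F α g := by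
  classical
  by_contra hcon
  push Not at hcon
  have step : ∀ g : {g : ι → Ordinal.{u} // ∀ α, RkGe F α g},
      ∃ h : {g : ι → Ordinal.{u} // ∀ α, RkGe F α g}, ∀ᶠ i in F, h.1 i < g.1 i := by
    rintro ⟨g, hg⟩
    have h1 : ∀ h : ι → Ordinal.{u}, ∃ α : Ordinal.{u + 1},
        (¬ ∀ α, RkGe F α h) → ¬ RkGe F α h := by
      intro h
      by_cases hh : ∀ α, RkGe F α h
      · exact ⟨0, fun h' => absurd hh h'⟩
      · push Not at hh
        obtain ⟨α, hα⟩ := hh
        exact ⟨α, fun _ => hα⟩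
    choose α hα using h1
    obtain ⟨h, h2, h3⟩ := rkGe_iff.1 (hg ((⨆ h, α h) + 1)) (⨆ h, α h) (lt_add_one _)
    refine ⟨⟨h, ?_⟩, h2⟩
    by_contra h4
    exact hα h h4 (h3.anti (le_ciSup Ordinal.bddAbove_of_small h))
  choose nxt hnxt using step
  let s : ℕ → {g : ι → Ordinal.{u} // ∀ α, RkGe F α g} := fun n =>
    Nat.rec ⟨g, hcon⟩ (fun _ x => nxt x) n
  have hs : ∀ n, ∀ᶠ i in F, (s (n + 1)).1 i < (s n).1 i := fun n => hnxt (s n)
  obtain ⟨i, hi⟩ := F.nonempty_of_mem (hω (fun n => {i | (s (n + 1)).1 i < (s n).1 i}) hs)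
  obtain ⟨n, hn⟩ := WellFounded.not_rel_apply_succ (r := ((· < ·) : Ordinal.{u} → Ordinal.{u} → Prop))
    (fun n => (s n).1 i)
  exact hn (hi n)

theorem exists_directed {ι W : Type u} [Infinite ι] {D : Filter ι} (hω : OmegaComplete D)
    {Q : ι → W → Prop} (hQ : QComplete Q D) {χ : Cardinal.{u}} (hχ : χ.IsRegular)
    (h2 : 2 ^ #ι < χ) {g : ι → Ordinal.{u}} {A : Set ι} (hbig : Big D χ g A) :
    ∃ (g' : ι → Ordinal.{u}) (A' : Set ι) (F : Filter ι), A' ⊆ A ∧ (∀ i ∈ A', g' i ≤ g i) ∧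
      F ≤ D ∧ A' ∈ F ∧ F.NeBot ∧ QComplete Q F ∧ ∀ μ < χ, Dir F g' Set.univ μ := by
  classical
  have hωA : ∀ A : Set ι, OmegaComplete (D ⊓ 𝓟 A) := by
    intro A S hS
    have h1 : ∀ n, {i | i ∈ A → i ∈ S n} ∈ D := fun n => mem_inf_principal.1 (hS n)
    rw [mem_inf_principal]
    filter_upwards [hω _ h1] with i hi hiA n
    exact hi n hiA
  -- minimal rank
  let R : Set Ordinal.{u + 1} := {α | ∃ (g' : ι → Ordinal.{u}) (A' : Set ι), A' ⊆ A ∧
    (∀ i ∈ A', g' i ≤ g i) ∧ Big D χ g' A' ∧ ¬ RkGe (D ⊓ 𝓟 A') α g'}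
  have hR : R.Nonempty := by
    have hNB : (D ⊓ 𝓟 A).NeBot := frequently_mem_iff_neBot.1 hbig.1
    obtain ⟨α, hα⟩ := exists_not_rkGe (hωA A) g
    exact ⟨α, g, A, subset_rfl, fun i _ => le_rfl, hbig, hα⟩
  obtain ⟨α, ⟨g', A', hA', hg', hbig', hrk⟩, hmin⟩ := WellFounded.has_min
    (r := ((· < ·) : Ordinal.{u + 1} → Ordinal.{u + 1} → Prop)) wellFounded_lt R hR
  have hmin' : ∀ β < α, ∀ (g'' : ι → Ordinal.{u}) (A'' : Set ι), A'' ⊆ A' →
      (∀ i ∈ A'', g'' i ≤ g' i) → Big D χ g'' A'' → RkGe (D ⊓ 𝓟 A'') β g'' := by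
    intro β hβ g'' A'' h1 h3 h4
    by_contra h5
    exact hmin β ⟨g'', A'', h1.trans hA', fun i hi => (h3 i hi).trans (hg' i (h1 hi)), h4, h5⟩ hβ
  -- the filter
  let F : Filter ι :=
    { sets := {S | RkGe (D ⊓ 𝓟 (A' \ S)) α g'}
      univ_sets := by
        have h1 : A' \ Set.univ = (∅ : Set ι) := by simp
        rw [Set.mem_setOf_eq, h1, principal_empty, inf_bot_eq]
        exact rkGe_bot _ _
      sets_of_superset := by
        intro S S' hS hSS'
        exact RkGe.filter_mono (inf_le_inf_left _ (principal_mono.2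
          (Set.diff_subset_diff_right hSS'))) hS
      inter_sets := by
        intro S S' hS hS'
        have h1 := RkGe.union (show RkGe (D ⊓ 𝓟 (A' \ S)) α g' from hS)
          (show RkGe (D ⊓ 𝓟 (A' \ S')) α g' from hS')
        rw [Set.mem_setOf_eq, Set.diff_inter]
        exact h1 }
  have hmemF : ∀ S : Set ι, S ∈ F ↔ RkGe (D ⊓ 𝓟 (A' \ S)) α g' := fun S => Iff.rfl
  have hFD : F ≤ D := by
    intro S hS
    rw [hmemF]
    have h1 : D ⊓ 𝓟 (A' \ S) = ⊥ := by
      rw [inf_principal_eq_bot]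
      filter_upwards [hS] with i hi hi'
      exact hi'.2 hi
    rw [h1]
    exact rkGe_bot _ _
  have hA'F : A' ∈ F := by
    rw [hmemF, Set.diff_self, principal_empty, inf_bot_eq]
    exact rkGe_bot _ _
  have hNBF : F.NeBot := by
    refine ⟨fun h => ?_⟩
    have h1 : (∅ : Set ι) ∈ F := by rw [h]; exact mem_bot
    rw [hmemF, Set.diff_empty] at h1
    exact hrk h1
  refine ⟨g', A', F, hA', hg', hFD, hA'F, hNBF, ?_, ?_⟩
  · intro S hS
    rw [hmemF]
    refine (RkGe.diag hQ α (fun w => A' \ S w) g' (fun w => hS w)).filter_mono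
      (inf_le_inf_left _ (principal_mono.2 fun i hi => ?_))
    obtain ⟨h1, h3⟩ := hi
    rw [Set.mem_setOf_eq] at h3
    push Not at h3
    obtain ⟨w, hw, hw'⟩ := h3
    exact ⟨w, hw, h1, hw'⟩
  · intro μ hμ V c hV hc
    obtain ⟨hA'pos, f, hf, hne⟩ := hbig'
    by_contra hcon
    have hx : ∀ x : χ.ord.ToType, ∃ v, ¬ ∀ᶠ i in F, i ∈ Set.univ → c v i < f x i := by
      intro x
      by_contra h
      push Not at h
      exact hcon ⟨f x, by filter_upwards [hA'F] with i hi _ using hf x i hi, h⟩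
    choose v hv using hx
    let Bs : χ.ord.ToType → Set ι := fun x =>
      {i | i ∈ A' ∧ f x i ≤ c (v x) i ∧ c (v x) i < g' i}
    let Es : χ.ord.ToType → Set ι := fun x => {i | i ∈ Bs x ∧ f x i = c (v x) i}
    have hBs : ∀ x, ¬ RkGe (D ⊓ 𝓟 (Bs x)) α g' := by
      intro x h
      apply hv x
      have h1 : (Bs x)ᶜ ∈ F := by
        rw [hmemF]
        refine h.filter_mono (inf_le_inf_left _ (principal_mono.2 fun i hi => ?_))
        by_contra h3
        exact hi.2 h3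
      filter_upwards [h1, hA'F, hc (v x)] with i h3 h4 h5 _
      by_contra h6
      exact h3 ⟨h4, not_lt.1 h6, h5 (Set.mem_univ i)⟩
    have hcard : #(V × Set ι × Set ι) < χ := by
      rw [mk_prod, mk_prod, Cardinal.lift_id, Cardinal.lift_id, Cardinal.lift_id, mk_set]
      exact mul_lt_of_lt hχ.aleph0_le (hV.trans_lt hμ)
        (mul_lt_of_lt hχ.aleph0_le h2 h2)
    obtain ⟨⟨v0, B0, E0⟩, hfib⟩ := infinite_pigeonhole_card
      (fun x : χ.ord.ToType => ((v x, Bs x, Es x) : V × Set ι × Set ι)) χ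
      (by rw [mk_ord_toType]) hχ.aleph0_le (by rw [hχ.cof_ord]; exact hcard)
    obtain ⟨e⟩ : Nonempty (χ.ord.ToType ↪
        ((fun x : χ.ord.ToType => ((v x, Bs x, Es x) : V × Set ι × Set ι)) ⁻¹' {(v0, B0, E0)})) := by
      rw [← Cardinal.le_def, mk_ord_toType]; exact hfib
    have he : ∀ y, v (e y).1 = v0 ∧ Bs (e y).1 = B0 ∧ Es (e y).1 = E0 := by
      intro y
      have h1 : (v (e y).1, Bs (e y).1, Es (e y).1) = (v0, B0, E0) := (e y).2
      simpa [Prod.ext_iff] using h1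
    -- `E0` is null
    have hE0 : E0ᶜ ∈ D := by
      have h1 : ∃ y z : χ.ord.ToType, y ≠ z := by
        have h3 : Nontrivial χ.ord.ToType := by
          rw [← Cardinal.one_lt_iff_nontrivial, mk_ord_toType]
          exact one_lt_aleph0.trans_le hχ.aleph0_le
        exact h3.exists_pair_ne
      obtain ⟨y, z, hyz⟩ := h1
      have h3 : (e y).1 ≠ (e z).1 := fun h => hyz (e.injective (Subtype.ext h))
      filter_upwards [hne _ _ h3] with i hi hiE
      have h4 : i ∈ Es (e y).1 := by rw [(he y).2.2]; exact hiE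
      have h5 : i ∈ Es (e z).1 := by rw [(he z).2.2]; exact hiE
      refine hi h4.1.1 ?_
      rw [h4.2, h5.2, (he y).1, (he z).1]
    have hne0 : Nonempty χ.ord.ToType := by
      rw [← Cardinal.mk_ne_zero_iff, mk_ord_toType]
      exact (aleph0_pos.trans_le hχ.aleph0_le).ne'
    obtain ⟨y0⟩ := hne0
    have hB0A : ∀ i ∈ B0, i ∈ A' ∧ c v0 i < g' i := by
      intro i hi
      rw [← (he y0).2.1] at hi
      have h1 := hi.2.2
      rw [(he y0).1] at h1
      exact ⟨hi.1, h1⟩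
    have hB0rk : ¬ RkGe (D ⊓ 𝓟 (B0 \ E0)) α g' := by
      intro h
      have h1 := hBs (e y0).1
      rw [(he y0).2.1] at h1
      refine h1 (h.filter_mono (le_inf inf_le_left ?_))
      rw [le_principal_iff, mem_inf_principal]
      filter_upwards [hE0] with i hi hiB
      exact ⟨hiB, hi⟩
    have hpos : ∃ᶠ i in D, i ∈ B0 \ E0 := by
      rw [frequently_mem_iff_neBot]
      refine ⟨fun h => hB0rk ?_⟩
      rw [h]
      exact rkGe_bot _ _
    have hbig0 : Big D χ (c v0) (B0 \ E0) := by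
      refine ⟨hpos, fun y => f (e y).1, fun y i hi => ?_, fun y z hyz => ?_⟩
      · have h1 : i ∈ Bs (e y).1 := by rw [(he y).2.1]; exact hi.1
        have h3 := h1.2.1
        rw [(he y).1] at h3
        refine lt_of_le_of_ne h3 fun h4 => hi.2 ?_
        rw [← (he y).2.2]
        refine ⟨h1, ?_⟩
        rw [(he y).1]
        exact h4
      · have h3 : (e y).1 ≠ (e z).1 := fun h => hyz (e.injective (Subtype.ext h))
        filter_upwards [hne _ _ h3] with i hi hiB
        exact hi (hB0A i hiB.1).1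
    apply hB0rk
    rw [rkGe_iff]
    intro β hβ
    refine ⟨c v0, ?_, hmin' β hβ (c v0) (B0 \ E0) (fun i hi => (hB0A i hi.1).1)
      (fun i hi => (hB0A i hi.1).2.le) hbig0⟩
    rw [eventually_inf_principal]
    exact Eventually.of_forall fun i hi => (hB0A i hi.1).2

end Pool.Agent.RPDepth
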