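import Pool.Agent.RPDepth.UStr

/-!
# Diagonal completeness and directed products
-/

set_option autoImplicit false

namespace Pool.Agent.RPDepth

universe u

open Cardinal Filter Order Ordinal

/-- `F` is closed under the diagonal intersections of families indexed by `W`, where the member `w`
is used at the points `i` with `Q i w`. -/
def QComplete {ι W : Type u} (Q : ι → W → Prop) (F : Filter ι) : Prop :=
  ∀ S : W → Set ι, (∀ w, S w ∈ F) → {i | ∀ w, Q i w → i ∈ S w} ∈ F

/-- `F` is closed under countable intersections. -/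
def OmegaComplete {ι : Type u} (F : Filter ι) : Prop :=
  ∀ S : ℕ → Set ι, (∀ n, S n ∈ F) → {i | ∀ n, i ∈ S n} ∈ F

/-- Every family of at most `μ` functions that are less than `g` on `A`, modulo `E`, has an upper
bound that is less than `g` on `A`, modulo `E`. -/
def Dir {ι : Type u} (E : Filter ι) (g : ι → Ordinal.{u}) (A : Set ι) (μ : Cardinal.{u}) : Prop :=
  ∀ (V : Type u) (c : V → ι → Ordinal.{u}), #V ≤ μ → (∀ v, ∀ᶠ i in E, i ∈ A → c v i < g i) →
    ∃ c' : ι → Ordinal.{u}, (∀ᶠ i in E, i ∈ A → c' i < g i) ∧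
      ∀ v, ∀ᶠ i in E, i ∈ A → c v i < c' i

end Pool.Agent.RPDepth
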