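import Pool.Agent.RPDepth.Desc

/-!
# Lengths that are missing: no minimal pair, and reduction to smaller cardinals
-/

set_option autoImplicit false

namespace Pool.Agent.RPDepth

universe u

open Cardinal Filter Order Ordinal

section big

variable {ι : Type u} {D : Filter ι} {χ : Cardinal.{u}}

theorem Big.mono {g g' : ι → Ordinal.{u}} {A : Set ι} (h : Big D χ g A)
    (hg : ∀ i ∈ A, g i ≤ g' i) : Big D χ g' A := by
  obtain ⟨hA, f, hf, hne⟩ := h
  exact ⟨hA, f, fun v i hi => (hf v i hi).trans_le (hg i hi), hne⟩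

theorem Big.restrict {g : ι → Ordinal.{u}} {A A' : Set ι} (h : Big D χ g A)
    (hA' : ∃ᶠ i in D, i ∈ A') (hs : A' ⊆ A) : Big D χ g A' := by
  obtain ⟨hA, f, hf, hne⟩ := h
  exact ⟨hA', f, fun v i hi => hf v i (hs hi),
    fun v w hvw => (hne v w hvw).mono fun i hi hiA => hi (hs hiA)⟩

theorem Big.card {g : ι → Ordinal.{u}} {A : Set ι} (h : Big D χ g A) :
    Big D χ (fun i => (g i).card.ord) A := by
  classical
  obtain ⟨hA, f, hf, hne⟩ := h
  have he : ∀ i, ∃ e : (g i).ToType → (g i).card.ord.ToType, Function.Injective e := fun i => by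
    obtain ⟨e⟩ : Nonempty ((g i).ToType ≃ (g i).card.ord.ToType) := by
      rw [← Cardinal.eq, mk_toType, mk_ord_toType]
    exact ⟨e, e.injective⟩
  choose e he using he
  refine ⟨hA, fun v i => if hi : i ∈ A then
    ((e i (ToType.mk ⟨f v i, hf v i hi⟩)).toOrd : Ordinal.{u}) else 0, fun v i hi => ?_,
    fun v w hvw => ?_⟩
  · simp only [dif_pos hi]
    exact (e i (ToType.mk ⟨f v i, hf v i hi⟩)).toOrd.2
  · filter_upwards [hne v w hvw] with i hi hiA h
    simp only [dif_pos hiA] at h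
    have h3 := he i (ToType.mk.symm.injective (Subtype.ext h))
    exact hi hiA (Subtype.mk.inj (ToType.mk.injective h3))

theorem le_TD_of_big {g : ι → Ordinal.{u}} {A : Set ι} (h : Big D χ g A)
    {μ : ι → Cardinal.{u}} (hμ : ∀ i, 0 < μ i) (hg : ∀ i ∈ A, g i ≤ (μ i).ord) :
    χ ≤ TD (D ⊓ 𝓟 A) μ := by
  classical
  obtain ⟨hA, f, hf, hne⟩ := h
  have hNB : (D ⊓ 𝓟 A).NeBot := by
    rw [← frequently_mem_iff_neBot]
    exact hA
  let φ : χ.ord.ToType → ∀ i, (μ i).ord.ToType := fun v i =>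
    if hi : i ∈ A then ToType.mk ⟨f v i, (hf v i hi).trans_le (hg i hi)⟩
    else ToType.mk ⟨0, ord_pos.2 (hμ i)⟩
  have hne' : ∀ v w, v ≠ w → ∀ᶠ i in D ⊓ 𝓟 A, φ v i ≠ φ w i := by
    intro v w hvw
    rw [eventually_inf_principal]
    filter_upwards [hne v w hvw] with i hi hiA h
    simp only [φ, dif_pos hiA] at h
    exact hi hiA (Subtype.mk.inj (ToType.mk.injective h))
  have hinj : Function.Injective φ := by
    intro v w hvw
    by_contra hcon
    obtain ⟨i, hi⟩ := (hne' v w hcon).exists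
    exact hi (congrFun hvw i)
  have h1 : #(Set.range φ) ≤ TD (D ⊓ 𝓟 A) μ := by
    refine le_TD ?_
    rintro _ ⟨v, rfl⟩ _ ⟨w, rfl⟩ hvw
    exact hne' v w (fun h => hvw (by rw [h]))
  rwa [mk_range_eq φ hinj, mk_ord_toType] at h1

theorem big_of_family {lam : ι → Cardinal.{u}} {F : Set (∀ i, (lam i).ord.ToType)}
    (hF : ∀ f ∈ F, ∀ g ∈ F, f ≠ g → ∀ᶠ i in D, f i ≠ g i) (hχ : χ ≤ #F) {A : Set ι}
    (hA : ∃ᶠ i in D, i ∈ A) : Big D χ (fun i => (lam i).ord) A := by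
  obtain ⟨e⟩ : Nonempty (χ.ord.ToType ↪ F) := by
    rw [← Cardinal.le_def, mk_ord_toType]; exact hχ
  refine ⟨hA, fun v i => (((e v).1 i).toOrd : Ordinal.{u}), fun v i _ => ((e v).1 i).toOrd.2,
    fun v w hvw => ?_⟩
  have h1 : (e v).1 ≠ (e w).1 := fun h => hvw (e.injective (Subtype.ext h))
  filter_upwards [hF _ (e v).2 _ (e w).2 h1] with i hi _ h
  exact hi (ToType.mk.symm.injective (Subtype.ext h))

theorem exists_pos_of_complete {θ : Cardinal.{u}} (hθ : Complete D θ) {J : Type u} (hJ : #J < θ)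
    (s : J → Set ι) {A : Set ι} (hA : ∃ᶠ i in D, i ∈ A) (hcov : ∀ i ∈ A, ∃ j, i ∈ s j) :
    ∃ j, ∃ᶠ i in D, i ∈ s j := by
  by_contra hcon
  push Not at hcon
  have h1 : ⋂₀ (Set.range fun j => (s j)ᶜ) ∈ D := by
    refine hθ _ (lt_of_le_of_lt mk_range_le hJ) ?_
    rintro _ ⟨j, rfl⟩
    exact hcon j
  obtain ⟨i, hiA, hi⟩ := (hA.and_eventually h1).exists
  obtain ⟨j, hj⟩ := hcov i hiA
  exact hi _ ⟨j, rfl⟩ hj

end big

section step

variable {ι : Type u} [Infinite ι] (D : Filter ι) (B : ι → Type u) [∀ i, Preorder (B i)]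
  (lam : ι → Cardinal.{u})

omit [Infinite ι] in
/-- If the length `χ` is missing then no pair is minimal. -/
theorem no_minimal (h2 : ∀ i, 2 ^ #ι < lam i) (hB : ∀ i, lam i < depthPlus (B i))
    {χ : Cardinal.{u}} (hχ : χ.IsRegular) (h2χ : 2 ^ #ι < χ)
    (hno : ¬ χ < depthPlus (RedProd D B)) {g : ι → Ordinal.{u}} {A : Set ι}
    (hg : ∀ i ∈ A, g i ≤ (lam i).ord) (hbig : Big D χ g A) :
    ∃ (g' : ι → Ordinal.{u}) (A' : Set ι), A' ⊆ A ∧ (∀ i ∈ A', g' i < g i) ∧ Big D χ g' A' := by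
  by_contra hcon
  push Not at hcon
  obtain ⟨G, hG, hmono⟩ := chain_of_minimal hχ h2χ hbig hcon
  exact hno (lt_depthPlus (chain_of_pos (fun i => exists_chain_of_lt (hB i))
    (fun i => bot_le.trans_lt (h2 i)) hbig.1 G (fun w i hi => (hG w i hi).trans_le (hg i hi))
    hmono))

omit [Infinite ι] in
theorem step_aux (h2 : ∀ i, 2 ^ #ι < lam i) (hB : ∀ i, lam i < depthPlus (B i))
    {χ : Cardinal.{u}} (hχ : χ.IsRegular) (h2χ : 2 ^ #ι < χ)
    (hno : ¬ χ < depthPlus (RedProd D B)) {θ : Cardinal.{u}} (hθ : Complete D θ)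
    (o : ι → Ordinal.{u})
    (hμ : ∀ A : Set ι, (∃ᶠ i in D, i ∈ A) → ¬ Big D χ (fun i => (ℵ_ (o i)).ord) A) :
    ∀ α : Ordinal.{u}, α.card < θ → ∀ (g : ι → Ordinal.{u}) (A : Set ι),
      (∀ i ∈ A, g i ≤ (lam i).ord) → (∀ i ∈ A, g i ≤ (ℵ_ (o i + α)).ord) → ¬ Big D χ g A := by
  intro α
  induction α using WellFoundedLT.induction with
  | ind α ih =>
    intro hα g A hg hgα hbig
    obtain ⟨g', A', hs, hlt, hbig'⟩ := no_minimal D B lam h2 hB hχ h2χ hno hg hbig
    by_cases hα0 : α = 0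
    · subst hα0
      refine hμ A' hbig'.1 (hbig'.mono fun i hi => ?_)
      have h3 := (hlt i hi).le.trans (hgα i (hs hi))
      rwa [add_zero] at h3
    have hex : ∀ i ∈ A', ∃ β : α.ToType,
        (g' i).card ≤ ℵ_ (o i + (β.toOrd : Ordinal.{u})) := by
      intro i hi
      have h3 : (g' i).card < ℵ_ (o i + α) := lt_ord.1 ((hlt i hi).trans_le (hgα i (hs hi)))
      have hα1 : 0 < α := pos_iff_ne_zero.2 hα0
      rcases lt_or_ge (g' i).card (ℵ_ (o i)) with h4 | h4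
      · refine ⟨ToType.mk ⟨0, hα1⟩, ?_⟩
        rw [ToType.toOrd, OrderIso.symm_apply_apply]
        simpa using h4.le
      · obtain ⟨b, hb⟩ : ∃ b, ℵ_ b = (g' i).card := by
          have h5 : (g' i).card ∈ Set.range aleph := by
            rw [range_aleph]
            exact (aleph0_le_aleph _).trans h4
          exact h5
        have h6 : o i ≤ b := aleph_le_aleph.1 (hb ▸ h4)
        have h7 : b < o i + α := aleph_lt_aleph.1 (hb ▸ h3)
        have h8 : b - o i < α := by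
          rw [← add_lt_add_iff_left (o i), Ordinal.add_sub_cancel_of_le h6]
          exact h7
        refine ⟨ToType.mk ⟨b - o i, h8⟩, ?_⟩
        rw [ToType.toOrd, OrderIso.symm_apply_apply]
        rw [Ordinal.add_sub_cancel_of_le h6, hb]
    obtain ⟨β, hβ⟩ := exists_pos_of_complete (J := α.ToType) hθ (by rw [mk_toType]; exact hα)
      (fun β => {i | i ∈ A' ∧ (g' i).card ≤ ℵ_ (o i + (β.toOrd : Ordinal.{u}))}) hbig'.1
      (fun i hi => by
        obtain ⟨β, h⟩ := hex i hi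
        exact ⟨β, hi, h⟩)
    have hβα : (β.toOrd : Ordinal.{u}) < α := β.toOrd.2
    refine ih _ hβα ((card_le_card hβα.le).trans_lt hα) _ _ ?_ ?_
      ((hbig'.restrict hβ (fun i hi => hi.1)).card)
    · intro i hi
      exact (ord_card_le _).trans ((hlt i hi.1).le.trans (hg i (hs hi.1)))
    · intro i hi
      exact ord_le_ord.2 hi.2

omit [Infinite ι] in
/-- If the length `χ` is missing then it is missing for smaller cardinals. -/
theorem step_down (h2 : ∀ i, 2 ^ #ι < lam i) (hB : ∀ i, lam i < depthPlus (B i))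
    {χ : Cardinal.{u}} (hχ : χ.IsRegular) (h2χ : 2 ^ #ι < χ)
    (hno : ¬ χ < depthPlus (RedProd D B)) {F : Set (∀ i, (lam i).ord.ToType)}
    (hF : ∀ f ∈ F, ∀ g ∈ F, f ≠ g → ∀ᶠ i in D, f i ≠ g i) (hχF : χ ≤ #F)
    {θ : Cardinal.{u}} (hθ : Complete D θ) (o : ι → Ordinal.{u}) {α : Ordinal.{u}}
    (hα : α.card < θ) (hfr : ∃ᶠ i in D, lam i ≤ ℵ_ (o i + α)) :
    ∃ A : Set ι, (∃ᶠ i in D, i ∈ A) ∧ χ ≤ TD (D ⊓ 𝓟 A) (fun i => ℵ_ (o i)) := by
  by_contra hcon
  push Not at hcon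
  refine step_aux D B lam h2 hB hχ h2χ hno hθ o (fun A hA hbig => ?_) α hα
    (fun i => (lam i).ord) {i | lam i ≤ ℵ_ (o i + α)} (fun i _ => le_rfl)
    (fun i hi => ord_le_ord.2 hi) (big_of_family hF hχF hfr)
  exact absurd (le_TD_of_big hbig (fun i => aleph0_pos.trans_le (aleph0_le_aleph _))
    (fun i _ => le_rfl)) (not_le_of_gt (hcon A hA))

end step

end Pool.Agent.RPDepth
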