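import Pool.Agent.RPDepth.Low

/-!
# Cardinals that are closed for `T_D`
-/

set_option autoImplicit false

namespace Pool.Agent.RPDepth

universe u

open Cardinal Filter Order Ordinal

/-- `L` is closed for `D`: `T_{D+A}(ν) ≤ L` for all `ν < L` and all `D`-positive sets `A`, where
`D + A` is the filter generated by `D` and `A`, and `ν` also denotes the constant family. -/
def Closed {ι : Type u} (D : Filter ι) (L : Cardinal.{u}) : Prop :=
  ∀ ν < L, ∀ A : Set ι, (∃ᶠ i in D, i ∈ A) → TD (D ⊓ 𝓟 A) (fun _ => ν) ≤ L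

/-- The largest cardinal `τ` that is closed for `D` and such that, for all `ν < τ`, `ν < lam i`
for `D`-almost all `i`. -/
noncomputable def tau {ι : Type u} (D : Filter ι) (lam : ι → Cardinal.{u}) : Cardinal.{u} :=
  sSup {L | (∀ ν < L, ∀ᶠ i in D, ν < lam i) ∧ Closed D L}

theorem le_TD {ι : Type u} {D : Filter ι} {lam : ι → Cardinal.{u}}
    {F : Set (∀ i, (lam i).ord.ToType)}
    (hF : ∀ f ∈ F, ∀ g ∈ F, f ≠ g → ∀ᶠ i in D, f i ≠ g i) : #F ≤ TD D lam :=
  le_ciSup (f := fun F : {F : Set (∀ i, (lam i).ord.ToType) //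
    ∀ f ∈ F, ∀ g ∈ F, f ≠ g → ∀ᶠ i in D, f i ≠ g i} => #F.1) Cardinal.bddAbove_of_small ⟨F, hF⟩

/-- restriction to a positive set -/
theorem mk_le_TD {ι : Type u} {D : Filter ι} {lam : ι → Cardinal.{u}}
    {F : Set (∀ i, (lam i).ord.ToType)}
    (hF : ∀ f ∈ F, ∀ g ∈ F, f ≠ g → ∀ᶠ i in D, f i ≠ g i)
    {A : Set ι} (hA : ∃ᶠ i in D, i ∈ A) {β : Ordinal.{u}}
    (h : ∀ f ∈ F, ∀ i ∈ A, ((f i).toOrd : Ordinal.{u}) < β) :
    #F ≤ TD (D ⊓ 𝓟 A) (fun _ => β.card) := by
  classical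
  rcases F.eq_empty_or_nonempty with rfl | ⟨f0, hf0⟩
  · simp
  obtain ⟨i0, hi0⟩ := hA.exists
  have hβ : 0 < β := (bot_le.trans_lt (h f0 hf0 i0 hi0) : (⊥ : Ordinal.{u}) < β)
  obtain ⟨e⟩ : Nonempty (β.ToType ≃ (β.card).ord.ToType) := by
    rw [← Cardinal.eq, mk_toType, mk_ord_toType]
  let φ : F → (ι → (β.card).ord.ToType) := fun f i =>
    if hi : i ∈ A then e (ToType.mk ⟨((f.1 i).toOrd : Ordinal.{u}), h f.1 f.2 i hi⟩)
    else e (ToType.mk ⟨0, hβ⟩)
  have hne : ∀ f g : F, f ≠ g → ∀ᶠ i in D ⊓ 𝓟 A, φ f i ≠ φ g i := by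
    intro f g hfg
    have h1 := hF f.1 f.2 g.1 g.2 (fun h => hfg (Subtype.ext h))
    have h2 : ∀ᶠ i in D ⊓ 𝓟 A, i ∈ A := mem_inf_of_right (mem_principal_self A)
    filter_upwards [mem_inf_of_left h1, h2] with i hi hiA hφ
    simp only [φ, dif_pos hiA] at hφ
    have h3 := ToType.mk.injective (e.injective hφ)
    exact hi (ToType.mk.symm.injective (Subtype.ext (Subtype.mk.inj h3)))
  have hNB : (D ⊓ 𝓟 A).NeBot := by
    rw [← frequently_mem_iff_neBot]
    exact hA
  have hinj : Function.Injective φ := by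
    intro f g hfg
    by_contra hcon
    obtain ⟨i, hi⟩ := (hne f g hcon).exists
    exact hi (congrFun hfg i)
  rw [← mk_range_eq φ hinj]
  refine le_TD (D := D ⊓ 𝓟 A) (lam := fun _ => β.card) ?_
  rintro _ ⟨f, rfl⟩ _ ⟨g, rfl⟩ hfg
  exact hne f g (fun h => hfg (by rw [h]))

/-- a large family has a member that tends to `L` -/
theorem exists_tends {ι : Type u} [Infinite ι] {D : Filter ι} {lam : ι → Cardinal.{u}}
    {L : Cardinal.{u}} (h2 : 2 ^ #ι ≤ L) (hcl : Closed D L)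
    {F : Set (∀ i, (lam i).ord.ToType)}
    (hF : ∀ f ∈ F, ∀ g ∈ F, f ≠ g → ∀ᶠ i in D, f i ≠ g i) (hlt : L < #F) :
    ∃ f ∈ F, ∀ β < L.ord, ∀ᶠ i in D, β ≤ ((f i).toOrd : Ordinal.{u}) := by
  have hι : ℵ₀ ≤ #ι := aleph0_le_mk ι
  have hκ : #ι < 2 ^ #ι := cantor _
  have hL : ℵ₀ ≤ L := hι.trans (hκ.le.trans h2)
  by_contra hcon
  push Not at hcon
  have hcon' : ∀ f : F, ∃ β < L.ord, ∃ᶠ i in D, ((f.1 i).toOrd : Ordinal.{u}) < β := by
    intro f
    obtain ⟨β, h1, h3⟩ := hcon f.1 f.2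
    exact ⟨β, h1, by simpa [Filter.not_eventually] using h3⟩
  choose β hβL hβ using hcon'
  let ψ : F → L.ord.ToType × Set ι := fun f =>
    (ToType.mk ⟨β f, hβL f⟩, {i | ((f.1 i).toOrd : Ordinal.{u}) < β f})
  have hle := mk_le_mk_mul_of_mk_preimage_le (c := L) ψ (fun b => ?_)
  · have h5 : #F ≤ L := by
      refine hle.trans ?_
      rw [mk_prod, Cardinal.lift_id, Cardinal.lift_id, mk_ord_toType, mk_set]
      calc L * 2 ^ #ι * L ≤ L * L * L := by gcongr
        _ = L := by rw [mul_eq_self hL, mul_eq_self hL]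
    exact absurd h5 (not_le_of_gt hlt)
  · by_cases hne : (ψ ⁻¹' {b}).Nonempty
    · obtain ⟨f0, hf0⟩ := hne
      have hfib : ∀ f ∈ ψ ⁻¹' {b}, β f = β f0 ∧
          {i | ((f.1 i).toOrd : Ordinal.{u}) < β f} =
            {i | ((f0.1 i).toOrd : Ordinal.{u}) < β f0} := by
        intro f hf
        have h6 : ψ f = ψ f0 := by
          rw [Set.mem_preimage, Set.mem_singleton_iff] at hf hf0
          rw [hf, hf0]
        have h7 := ToType.mk.injective (congrArg Prod.fst h6)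
        exact ⟨Subtype.mk.inj h7, congrArg Prod.snd h6⟩
      have h8 : #(Subtype.val '' (ψ ⁻¹' {b})) ≤
          TD (D ⊓ 𝓟 {i | ((f0.1 i).toOrd : Ordinal.{u}) < β f0}) (fun _ => (β f0).card) := by
        refine mk_le_TD (D := D) ?_ (hβ f0) ?_
        · rintro _ ⟨f, -, rfl⟩ _ ⟨g, -, rfl⟩ hne
          exact hF f.1 f.2 g.1 g.2 hne
        · rintro _ ⟨f, hf, rfl⟩ i hi
          have h9 := (hfib f hf).2
          have h10 : i ∈ {i | ((f.1 i).toOrd : Ordinal.{u}) < β f} := by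
            rw [h9]; exact hi
          rw [← (hfib f hf).1]
          exact h10
      rw [mk_image_eq Subtype.val_injective] at h8
      exact h8.trans (hcl _ (lt_ord.1 (hβL f0)) _ (hβ f0))
    · rw [Set.not_nonempty_iff_eq_empty.1 hne]
      simp

/-- a function that tends to `L` has cardinals that tend to `L` -/
theorem card_tends {ι : Type u} [Infinite ι] {D : Filter ι} {L : Cardinal.{u}} (h2 : #ι < L)
    {f : ι → Ordinal.{u}} (hf : ∀ β < L.ord, ∀ᶠ i in D, β ≤ f i) :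
    ∀ ν < L, ∀ᶠ i in D, ν < (f i).card := by
  classical
  intro ν hν
  have hι : ℵ₀ ≤ #ι := aleph0_le_mk ι
  rcases lt_or_ge (succ ν) L with h | h
  · filter_upwards [hf (succ ν).ord (ord_lt_ord.2 h)] with i hi
    exact (lt_succ ν).trans_le (ord_le.1 hi)
  · have hL : L = succ ν := le_antisymm h (succ_le_of_lt hν)
    have hν0 : ℵ₀ ≤ ν := hι.trans (lt_succ_iff.1 (hL ▸ h2))
    have hreg : L.ord.cof = L := by
      rw [hL]; exact (isRegular_succ hν0).cof_ord
    have hL0 : (0 : Ordinal.{u}) < L.ord := ord_pos.2 (bot_le.trans_lt h2)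
    have hb : (⨆ i, ((if f i < L.ord then f i else 0) + 1)) < L.ord := by
      refine iSup_add_one_lt_of_lt_cof (by rw [hreg]; exact h2) (fun i => ?_)
      split_ifs with h
      · exact h
      · exact hL0
    filter_upwards [hf _ hb] with i hi
    refine hν.trans_le (ord_le.1 ?_)
    by_contra hcon
    have h3 : (if f i < L.ord then f i else 0) + 1 ≤ ⨆ i, ((if f i < L.ord then f i else 0) + 1) :=
      le_ciSup (f := fun i => (if f i < L.ord then f i else 0) + 1) Ordinal.bddAbove_of_small i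
    rw [if_pos (not_le.1 hcon)] at h3
    exact absurd (h3.trans hi) (not_le_of_gt (lt_add_one _))

section closed

variable {ι : Type u} [Infinite ι] (D : Filter ι) [D.NeBot]
  (B : ι → Type u) [∀ i, Preorder (B i)] (lam : ι → Cardinal.{u})

/-- The lower bound for closed cardinals. -/
theorem min_lt_of_closed (h2 : ∀ i, 2 ^ #ι < lam i) (hB : ∀ i, lam i < depthPlus (B i))
    {L : Cardinal.{u}} (h2L : 2 ^ #ι ≤ L) (hlim : ∀ ν < L, ∀ᶠ i in D, ν < lam i)
    (hcl : Closed D L) : min (TD D lam) (succ L) < depthPlus (RedProd D B) := by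
  have hch := fun i => exists_chain_of_lt (hB i)
  have hι : ℵ₀ ≤ #ι := aleph0_le_mk ι
  have hκ : #ι < 2 ^ #ι := cantor _
  by_cases hbig : ∃ F : Set (∀ i, (lam i).ord.ToType),
      (∀ f ∈ F, ∀ g ∈ F, f ≠ g → ∀ᶠ i in D, f i ≠ g i) ∧ L < #F
  · obtain ⟨F, hF, hlt⟩ := hbig
    obtain ⟨f, hfF, hf⟩ := exists_tends h2L hcl hF hlt
    have hf' := card_tends (hκ.trans_le h2L) hf
    obtain ⟨G, hG, hmono⟩ := exists_chain (D := D) (L := L)
      (ρ := fun i => max (2 ^ #ι) ((f i).toOrd : Ordinal.{u}).card)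
      (fun i => hι.trans (hκ.le.trans (le_max_left _ _)))
      (fun ν hν => (hf' ν hν).mono fun i hi => lt_max_of_lt_right hi)
    have hGl : ∀ w i, G w i < (lam i).ord := by
      intro w i
      refine (hG w i).trans_le (ord_le_ord.2 (succ_le_of_lt (max_lt (h2 i) ?_)))
      exact lt_ord.1 (f i).toOrd.2
    exact lt_of_le_of_lt (min_le_right _ _) (lt_depthPlus (chain_of hch G hGl hmono))
  · have h3 : TD D lam ≤ L := by
      refine ciSup_le' fun F => ?_
      by_contra hcon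
      exact hbig ⟨F.1, F.2, not_le.1 hcon⟩
    refine lt_of_le_of_lt ((min_le_left _ _).trans h3) (lt_depthPlus (chain_of hch
      (fun (w : L.ord.ToType) i =>
        if ((w.toOrd : Ordinal.{u}) < (lam i).ord) then (w.toOrd : Ordinal.{u}) else 0)
      ?_ ?_))
    · intro w i
      split_ifs with h
      · exact h
      · exact ord_pos.2 (bot_le.trans_lt (h2 i))
    · intro v w hvw
      have hvw' : (v.toOrd : Ordinal.{u}) < (w.toOrd : Ordinal.{u}) :=
        ToType.mk.symm.lt_iff_lt.2 hvw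
      have h4 : ((w.toOrd : Ordinal.{u})).card < L := lt_ord.1 w.toOrd.2
      filter_upwards [hlim _ h4] with i hi
      have h5 : (w.toOrd : Ordinal.{u}) < (lam i).ord := lt_ord.2 hi
      rw [if_pos h5, if_pos (hvw'.trans h5)]
      exact hvw'

end closed

end Pool.Agent.RPDepth
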