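import Pool.Agent.RPDepth.UFin
import Pool.Agent.RPDepth.Below

/-!
# Q1 for `lam i ≤ ρ ^{+ f i}`
-/

set_option autoImplicit false

namespace Pool.Agent.RPDepth

universe u

open Cardinal Filter Order Ordinal

/-- `q1_of_wf` with the alternative `X < lam i` on a positive set. -/
theorem q1_of_wf' {ι : Type u} [Infinite ι] (D : Filter ι) [D.NeBot] (B : ι → Type u)
    [∀ i, Preorder (B i)] (lam : ι → Cardinal.{u}) (h2 : ∀ i, 2 ^ #ι < lam i)
    (hB : ∀ i, lam i < depthPlus (B i)) {A : Set ι} (hA : ∃ᶠ i in D, i ∈ A)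
    {o f : ι → Ordinal.{u}} (hf : NoDescent D A f) {X : Cardinal.{u}} (h2X : 2 ^ #ι ≤ X)
    (hμ : ∀ A' ⊆ A, (∃ᶠ i in D, i ∈ A') → TD (D ⊓ 𝓟 A') (fun i => ℵ_ (o i)) ≤ X)
    (hlam : ∀ i ∈ A, lam i ≤ ℵ_ (o i + f i)) (hX : X < TD D lam ∨ ∃ᶠ i in D, X < lam i) :
    TD D lam < depthPlus (RedProd D B) := by
  rcases lt_or_ge X (TD D lam) with h | h
  · exact q1_of_wf D B lam h2 hB hA hf h2X hμ hlam h
  · rcases hX with h' | h'
    · exact absurd h' (not_lt_of_ge h)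
    · exact lt_depthPlus (chain_freq (fun i => exists_chain_of_lt (hB i))
        (fun i => bot_le.trans_lt (h2 i)) (h'.mono fun i hi => h.trans hi.le))

/-- Q1 for `ρ < lam i ≤ ρ ^{+ f i}` on a positive set, `ρ ^ κ = ρ`, `f` well-founded for `D`. -/
theorem q1_of_closed {ι : Type u} [Infinite ι] (D : Filter ι) [D.NeBot] (B : ι → Type u)
    [∀ i, Preorder (B i)] (lam : ι → Cardinal.{u}) (h2 : ∀ i, 2 ^ #ι < lam i)
    (hB : ∀ i, lam i < depthPlus (B i)) {A : Set ι} (hA : ∃ᶠ i in D, i ∈ A)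
    {o : Ordinal.{u}} (ho : (ℵ_ o) ^ #ι = ℵ_ o) {f : ι → Ordinal.{u}} (hf : NoDescent D A f)
    (hlam : ∀ i ∈ A, ℵ_ o < lam i ∧ lam i ≤ ℵ_ (o + f i)) :
    TD D lam < depthPlus (RedProd D B) := by
  have h2o : (2 : Cardinal.{u}) ^ #ι ≤ ℵ_ o := by
    calc (2 : Cardinal.{u}) ^ #ι ≤ (ℵ_ o) ^ #ι :=
          power_le_power_right ((natCast_lt_aleph0 (n := 2)).le.trans (aleph0_le_aleph o))
      _ = ℵ_ o := ho
  exact q1_of_wf' D B lam h2 hB hA (o := fun _ => o) hf h2o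
    (fun A' _ _ => (TD_const_le _ _).trans ho.le) (fun i hi => (hlam i hi).2)
    (Or.inr (hA.mono fun i hi => (hlam i hi).1))

end Pool.Agent.RPDepth
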