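import Pool.Agent.RPDepth.UCor

/-!
# The sharper form with `T_{D+A}`
-/

set_option autoImplicit false

namespace Pool.Agent.RPDepth

universe u

open Cardinal Filter Order Ordinal

theorem NoDescent.restrict {ι : Type u} {D : Filter ι} {A : Set ι} {f : ι → Ordinal.{u}}
    (h : NoDescent D A f) : NoDescent (D ⊓ 𝓟 A) A f := by
  rintro S hSA hS ⟨Φ, hΦ, h0, hdesc⟩
  have hfr : ∀ X ⊆ A, (∃ᶠ i in D ⊓ 𝓟 A, i ∈ X) ↔ ∃ᶠ i in D, i ∈ X := by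
    intro X hX
    rw [frequently_inf_principal]
    exact ⟨fun h => h.mono fun i hi => hi.2, fun h => h.mono fun i hi => ⟨hX hi, hi⟩⟩
  refine h S hSA ((hfr S hSA).1 hS) ⟨Φ, fun n => ⟨fun p hp => ?_, fun p hp q hq hpq => ?_,
    fun Y hY hYpos => ?_⟩, h0, hdesc⟩
  · obtain ⟨h1, h2⟩ := (hΦ n).pos p hp
    exact ⟨h1, (hfr _ (h1.trans hSA)).1 h2⟩
  · have h1 := (hΦ n).disj p hp q hq hpq
    rw [eventually_inf_principal] at h1
    filter_upwards [h1] with i hi hi'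
    exact hi (hSA (((hΦ n).pos p hp).1 hi'.1)) hi'
  · obtain ⟨p, hp, h1⟩ := (hΦ n).max Y hY ((hfr _ (hY.trans hSA)).2 hYpos)
    rw [frequently_inf_principal] at h1
    exact ⟨p, hp, h1.mono fun i hi => hi.2⟩

/-- `T_{D+A}(lam) < Depth⁺(∏ B i / D)` if `lam i ≤ (μ i)^{+ f i}` on `A`. -/
theorem q1_of_wf_strong {ι : Type u} [Infinite ι] (D : Filter ι) (B : ι → Type u)
    [∀ i, Preorder (B i)] (lam : ι → Cardinal.{u}) (h2 : ∀ i, 2 ^ #ι < lam i)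
    (hB : ∀ i, lam i < depthPlus (B i)) {A : Set ι} (hA : ∃ᶠ i in D, i ∈ A)
    {o f : ι → Ordinal.{u}} (hf : NoDescent D A f) {X : Cardinal.{u}} (h2X : 2 ^ #ι ≤ X)
    (hμ : ∀ A' ⊆ A, (∃ᶠ i in D, i ∈ A') → TD (D ⊓ 𝓟 A') (fun i => ℵ_ (o i)) ≤ X)
    (hlam : ∀ i ∈ A, lam i ≤ ℵ_ (o i + f i))
    (hX : X < TD (D ⊓ 𝓟 A) lam ∨ ∃ᶠ i in D, X < lam i) :
    TD (D ⊓ 𝓟 A) lam < depthPlus (RedProd D B) := by
  have hNB : (D ⊓ 𝓟 A).NeBot := by
    rw [← frequently_mem_iff_neBot]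
    exact hA
  rcases lt_or_ge X (TD (D ⊓ 𝓟 A) lam) with h | h
  · refine (q1_of_wf (D ⊓ 𝓟 A) B lam h2 hB (A := A) ?_ hf.restrict h2X (fun A' hA' hpos => ?_)
      hlam h).trans_le (depthPlus_restrict_le D B A)
    · rw [frequently_inf_principal]
      exact hA.mono fun i hi => ⟨hi, hi⟩
    · rw [frequently_inf_principal] at hpos
      rw [inf_assoc, inf_principal, Set.inter_eq_self_of_subset_right hA']
      exact hμ A' hA' (hpos.mono fun i hi => hi.2)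
  · rcases hX with h' | h'
    · exact absurd h' (not_lt_of_ge h)
    · exact lt_depthPlus (chain_freq (fun i => exists_chain_of_lt (hB i))
        (fun i => bot_le.trans_lt (h2 i)) (h'.mono fun i hi => h.trans hi.le))

/-- `T_{D+A}(lam) < Depth⁺(∏ B i / D)` if `ρ < lam i ≤ ρ^{+ f i}` on `A` and `ρ ^ κ = ρ`. -/
theorem q1_of_closed_strong {ι : Type u} [Infinite ι] (D : Filter ι) (B : ι → Type u)
    [∀ i, Preorder (B i)] (lam : ι → Cardinal.{u}) (h2 : ∀ i, 2 ^ #ι < lam i)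
    (hB : ∀ i, lam i < depthPlus (B i)) {A : Set ι} (hA : ∃ᶠ i in D, i ∈ A)
    {o : Ordinal.{u}} (ho : (ℵ_ o) ^ #ι = ℵ_ o) {f : ι → Ordinal.{u}} (hf : NoDescent D A f)
    (hlam : ∀ i ∈ A, ℵ_ o < lam i ∧ lam i ≤ ℵ_ (o + f i)) :
    TD D lam ≤ TD (D ⊓ 𝓟 A) lam ∧ TD (D ⊓ 𝓟 A) lam < depthPlus (RedProd D B) := by
  have h2o : (2 : Cardinal.{u}) ^ #ι ≤ ℵ_ o := by
    calc (2 : Cardinal.{u}) ^ #ι ≤ (ℵ_ o) ^ #ι :=
          power_le_power_right ((natCast_lt_aleph0 (n := 2)).le.trans (aleph0_le_aleph o))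
      _ = ℵ_ o := ho
  exact ⟨TD_le_restrict D lam A, q1_of_wf_strong D B lam h2 hB hA (o := fun _ => o) hf h2o
    (fun A' _ _ => (TD_const_le _ _).trans ho.le) (fun i hi => (hlam i hi).2)
    (Or.inr (hA.mono fun i hi => (hlam i hi).1))⟩

end Pool.Agent.RPDepth
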