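import Pool.Agent.RPDepth.PrecG
import Pool.Agent.RPDepth.Gh

/-!
# Functions below which there is no descending sequence of functionals
-/

set_option autoImplicit false

namespace Pool.Agent.RPDepth

universe u

open Cardinal Filter Order Ordinal

/-- On no `D`-positive subset `S` of `A₀` is there an infinite descending sequence of functionals
below `f`. -/
def NoDescent {ι : Type u} (D : Filter ι) (A₀ : Set ι) (f : ι → Ordinal.{u}) : Prop :=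
  ∀ S ⊆ A₀, (∃ᶠ i in D, i ∈ S) → ¬ ∃ Φ : ℕ → Set (Set ι × (ι → Ordinal.{u})),
    (∀ n, IsFunctional D S (Φ n)) ∧ (∀ p ∈ Φ 0, ∀ i ∈ p.1, p.2 i ≤ f i) ∧
      ∀ n, ∀ p ∈ Φ (n + 1), ∃ q ∈ Φ n, p.1 ⊆ q.1 ∧ ∀ i ∈ p.1, p.2 i < q.2 i

theorem exists_descent {ι : Type u} {E : Filter ι} {P : (ι → Ordinal.{u}) → Set ι → Prop}
    (hpos : ∀ g A, P g A → ∃ᶠ i in E, i ∈ A)
    (hmono : ∀ g A A', P g A → (∃ᶠ i in E, i ∈ A') → A' ⊆ A → P g A')
    (hex : ∀ g A, P g A → ∃ (g' : ι → Ordinal.{u}) (A' : Set ι),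
      A' ⊆ A ∧ (∀ i ∈ A', g' i < g i) ∧ P g' A')
    {g : ι → Ordinal.{u}} {A : Set ι} (h : P g A) :
    ∃ Φ : ℕ → Set (Set ι × (ι → Ordinal.{u})), Φ 0 = {(A, g)} ∧
      (∀ n, IsFunctional E A (Φ n)) ∧
        ∀ n, ∀ p ∈ Φ (n + 1), ∃ q ∈ Φ n, p.1 ⊆ q.1 ∧ ∀ i ∈ p.1, p.2 i < q.2 i := by
  -- the candidates below a pair
  let Cand : Set ι × (ι → Ordinal.{u}) → Set (Set ι × (ι → Ordinal.{u})) := fun p =>
    {q | q.1 ⊆ p.1 ∧ (∀ i ∈ q.1, q.2 i < p.2 i) ∧ P q.2 q.1}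
  have hzorn : ∀ p, ∃ N : Set (Set ι × (ι → Ordinal.{u})), N ⊆ Cand p ∧
      (∀ q ∈ N, ∀ r ∈ N, q ≠ r → ∀ᶠ i in E, ¬ (i ∈ q.1 ∧ i ∈ r.1)) ∧
      ∀ q ∈ Cand p, ∃ r ∈ N, ∃ᶠ i in E, i ∈ r.1 ∧ i ∈ q.1 := by
    intro p
    obtain ⟨N, hN⟩ := zorn_subset {N : Set (Set ι × (ι → Ordinal.{u})) | N ⊆ Cand p ∧
      ∀ q ∈ N, ∀ r ∈ N, q ≠ r → ∀ᶠ i in E, ¬ (i ∈ q.1 ∧ i ∈ r.1)} (by
        intro c hc hchain
        refine ⟨⋃₀ c, ⟨Set.sUnion_subset fun s hs => (hc hs).1, ?_⟩,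
          fun s hs => Set.subset_sUnion_of_mem hs⟩
        rintro q ⟨s, hs, hq⟩ r ⟨t, ht, hr⟩ hqr
        rcases hchain.total hs ht with hst | hst
        · exact (hc ht).2 q (hst hq) r hr hqr
        · exact (hc hs).2 q hq r (hst hr) hqr)
    refine ⟨N, hN.1.1, hN.1.2, fun q hq => ?_⟩
    by_contra hcon
    push Not at hcon
    have hq' : ∃ᶠ i in E, i ∈ q.1 := hpos _ _ hq.2.2
    have hmem : insert q N ∈ {N : Set (Set ι × (ι → Ordinal.{u})) | N ⊆ Cand p ∧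
        ∀ q ∈ N, ∀ r ∈ N, q ≠ r → ∀ᶠ i in E, ¬ (i ∈ q.1 ∧ i ∈ r.1)} := by
      refine ⟨Set.insert_subset hq hN.1.1, ?_⟩
      rintro x (rfl | hx) y (rfl | hy) hxy
      · exact absurd rfl hxy
      · filter_upwards [hcon y hy] with i hi hi'
        exact hi hi'.2 hi'.1
      · filter_upwards [hcon x hx] with i hi hi'
        exact hi hi'.1 hi'.2
      · exact hN.1.2 x hx y hy hxy
    have hqN : q ∈ N := hN.2 hmem (Set.subset_insert q N) (Set.mem_insert q N)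
    obtain ⟨i, hi, hi'⟩ := (hq'.and_eventually (hcon q hqN)).exists
    exact hi' hi hi
  choose N hNsub hNad hNmax using hzorn
  let Φ : ℕ → Set (Set ι × (ι → Ordinal.{u})) := fun n =>
    Nat.rec {(A, g)} (fun _ s => ⋃ p ∈ s, N p) n
  have hΦ0 : Φ 0 = {(A, g)} := rfl
  have hΦs : ∀ n, Φ (n + 1) = ⋃ p ∈ Φ n, N p := fun n => rfl
  have hinv : ∀ n, ∀ p ∈ Φ n, P p.2 p.1 ∧ p.1 ⊆ A := by
    intro n
    induction n with
    | zero =>
      intro p hp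
      rw [hΦ0, Set.mem_singleton_iff] at hp
      subst hp
      exact ⟨h, subset_rfl⟩
    | succ n ih =>
      intro p hp
      rw [hΦs] at hp
      simp only [Set.mem_iUnion] at hp
      obtain ⟨q, hq, hpq⟩ := hp
      have h1 := hNsub q hpq
      exact ⟨h1.2.2, h1.1.trans (ih q hq).2⟩
  have hfun : ∀ n, IsFunctional E A (Φ n) := by
    intro n
    refine ⟨fun p hp => ⟨(hinv n p hp).2, hpos _ _ (hinv n p hp).1⟩, ?_, ?_⟩
    · induction n with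
      | zero =>
        intro p hp q hq hpq
        rw [hΦ0, Set.mem_singleton_iff] at hp hq
        exact absurd (hp.trans hq.symm) hpq
      | succ n ih =>
        intro p hp q hq hpq
        rw [hΦs] at hp hq
        simp only [Set.mem_iUnion] at hp hq
        obtain ⟨p', hp', hpp⟩ := hp
        obtain ⟨q', hq', hqq⟩ := hq
        by_cases hpq' : p' = q'
        · subst hpq'
          exact hNad p' p hpp q hqq hpq
        · filter_upwards [ih p' hp' q' hq' hpq'] with i hi hi'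
          exact hi ⟨(hNsub p' hpp).1 hi'.1, (hNsub q' hqq).1 hi'.2⟩
    · induction n with
      | zero =>
        intro Y hY hpY
        refine ⟨(A, g), by rw [hΦ0]; exact rfl, hpY.mono fun i hi => ⟨hY hi, hi⟩⟩
      | succ n ih =>
        intro Y hY hpY
        obtain ⟨p, hp, hpY'⟩ := ih Y hY hpY
        obtain ⟨g', A', hs, hlt, hP⟩ := hex _ _ (hmono _ _ (p.1 ∩ Y) (hinv n p hp).1 hpY'
          Set.inter_subset_left)
        obtain ⟨r, hr, hfr⟩ := hNmax p (A', g')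
          ⟨hs.trans Set.inter_subset_left, hlt, hP⟩
        refine ⟨r, ?_, hfr.mono fun i hi => ⟨hi.1, (hs hi.2).2⟩⟩
        rw [hΦs]
        simp only [Set.mem_iUnion]
        exact ⟨p, hp, hr⟩
  refine ⟨Φ, hΦ0, hfun, fun n p hp => ?_⟩
  rw [hΦs] at hp
  simp only [Set.mem_iUnion] at hp
  obtain ⟨q, hq, hpq⟩ := hp
  exact ⟨q, hq, (hNsub q hpq).1, (hNsub q hpq).2.1⟩

/-- minimal pairs -/
theorem exists_min {ι : Type u} {D : Filter ι} {A₀ : Set ι} {o f : ι → Ordinal.{u}}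
    (hf : NoDescent D A₀ f) {X : Cardinal.{u}}
    (hμ : ∀ A ⊆ A₀, (∃ᶠ i in D, i ∈ A) → TD (D ⊓ 𝓟 A) (fun i => ℵ_ (o i)) ≤ X)
    {Q : (ι → Ordinal.{u}) → Set ι → Prop} (hQX : ∀ g Y, Q g Y → Big D (succ X) g Y)
    (hQr : ∀ g Y Z, Q g Y → (∃ᶠ i in D, i ∈ Z) → Z ⊆ Y → Q g Z)
    (hQc : ∀ g Y, Q g Y → Q (fun i => (g i).card.ord) Y)
    {g : ι → Ordinal.{u}} {A' : Set ι} (hA' : A' ⊆ A₀)
    (hg : ∀ i ∈ A', g i ≤ (ℵ_ (o i + f i)).ord) (hQ : Q g A') :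
    ∃ (g' : ι → Ordinal.{u}) (A'' : Set ι), A'' ⊆ A' ∧ (∀ i ∈ A'', g' i ≤ g i) ∧ Q g' A'' ∧
      ∀ (g'' : ι → Ordinal.{u}) (Y : Set ι), Y ⊆ A'' → (∀ i ∈ Y, g'' i < g' i) → ¬ Q g'' Y := by
  classical
  by_contra hcon
  push Not at hcon
  have key : ∃ Φ : ℕ → Set (Set ι × (ι → Ordinal.{u})), Φ 0 = {(A', f)} ∧
      (∀ n, IsFunctional D A' (Φ n)) ∧
        ∀ n, ∀ p ∈ Φ (n + 1), ∃ q ∈ Φ n, p.1 ⊆ q.1 ∧ ∀ i ∈ p.1, p.2 i < q.2 i := by
    refine exists_descent (E := D) (P := fun f' Y => Y ⊆ A' ∧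
      ∃ g' : ι → Ordinal.{u}, Q g' Y ∧ (∀ i ∈ Y, g' i ≤ g i) ∧
        ∀ i ∈ Y, g' i ≤ (ℵ_ (o i + f' i)).ord) ?_ ?_ ?_
        ⟨subset_rfl, g, hQ, fun i _ => le_rfl, hg⟩
    · rintro f' Y ⟨-, g', hQ', -⟩
      exact (hQX _ _ hQ').1
    · rintro f' Y Z ⟨hY, g', hQ', h1, h2⟩ hZ hZY
      exact ⟨hZY.trans hY, g', hQr _ _ _ hQ' hZ hZY, fun i hi => h1 i (hZY hi),
        fun i hi => h2 i (hZY hi)⟩
    · rintro f' Y ⟨hY, g', hQ', h1, h2⟩
      obtain ⟨g'', Z, hZ, hlt, hQ''⟩ := hcon g' Y hY h1 hQ'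
      have hlt' : ∀ i ∈ Z, (g'' i).card < ℵ_ (o i + f' i) := fun i hi =>
        lt_ord.1 ((hlt i hi).trans_le (h2 i (hZ hi)))
      -- `f' = 0` only on a null set
      have hnull : ¬ ∃ᶠ i in D, i ∈ {i | i ∈ Z ∧ f' i = 0} := by
        intro hpos
        have h3 : Big D (succ X) g'' {i | i ∈ Z ∧ f' i = 0} :=
          (hQX _ _ hQ'').restrict hpos (fun i hi => hi.1)
        have h4 : ∀ i ∈ {i | i ∈ Z ∧ f' i = 0}, g'' i ≤ (ℵ_ (o i)).ord := by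
          intro i hi
          have h5 := hlt' i hi.1
          rw [hi.2, add_zero] at h5
          exact (lt_ord.2 h5).le
        have h6 := le_TD_of_big h3 (μ := fun i => ℵ_ (o i))
          (fun i => aleph0_pos.trans_le (aleph0_le_aleph _)) h4
        exact absurd (h6.trans (hμ _ (fun i hi => hA' (hY (hZ hi.1))) hpos))
          (not_le_of_gt (lt_succ X))
      have hZpos := (hQX _ _ hQ'').1
      have hZ'pos : ∃ᶠ i in D, i ∈ {i | i ∈ Z ∧ f' i ≠ 0} := by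
        rw [not_frequently] at hnull
        exact (hZpos.and_eventually hnull).mono fun i hi => ⟨hi.1, fun h => hi.2 ⟨hi.1, h⟩⟩
      have hex : ∀ i, ∃ β : Ordinal.{u}, i ∈ {i | i ∈ Z ∧ f' i ≠ 0} →
          β < f' i ∧ (g'' i).card ≤ ℵ_ (o i + β) := by
        intro i
        by_cases hi : i ∈ {i | i ∈ Z ∧ f' i ≠ 0}
        · have h3 := hlt' i hi.1
          rcases lt_or_ge (g'' i).card (ℵ_ (o i)) with h4 | h4
          · refine ⟨0, fun _ => ⟨pos_iff_ne_zero.2 hi.2, ?_⟩⟩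
            rw [add_zero]
            exact h4.le
          · obtain ⟨b, hb⟩ : ∃ b, ℵ_ b = (g'' i).card := by
              have h5 : (g'' i).card ∈ Set.range aleph := by
                rw [range_aleph]
                exact (aleph0_le_aleph _).trans h4
              exact h5
            have h6 : o i ≤ b := aleph_le_aleph.1 (hb ▸ h4)
            have h7 : b < o i + f' i := aleph_lt_aleph.1 (hb ▸ h3)
            refine ⟨b - o i, fun _ => ⟨?_, ?_⟩⟩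
            · rw [← add_lt_add_iff_left (o i), Ordinal.add_sub_cancel_of_le h6]
              exact h7
            · rw [Ordinal.add_sub_cancel_of_le h6, hb]
        · exact ⟨0, fun h => absurd h hi⟩
      choose β hβ using hex
      refine ⟨β, {i | i ∈ Z ∧ f' i ≠ 0}, fun i hi => hZ hi.1, fun i hi => (hβ i hi).1,
        fun i hi => hY (hZ hi.1), fun i => (g'' i).card.ord,
        hQr _ _ _ (hQc _ _ hQ'') hZ'pos (fun i hi => hi.1), fun i hi => ?_, fun i hi => ?_⟩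
      · exact (ord_card_le _).trans ((hlt i hi.1).le.trans (h1 i (hZ hi.1)))
      · exact ord_le_ord.2 (hβ i hi).2
  obtain ⟨Φ, h0, h1, h2⟩ := key
  refine hf A' hA' (hQX _ _ hQ).1 ⟨Φ, h1, fun p hp i _ => ?_, h2⟩
  rw [h0, Set.mem_singleton_iff] at hp
  rw [hp]

/-- chains of all regular lengths above `X` -/
theorem wchain_of_wf {ι : Type u} {D : Filter ι} {A₀ : Set ι} {o f : ι → Ordinal.{u}}
    (hf : NoDescent D A₀ f) {X : Cardinal.{u}}
    (hμ : ∀ A ⊆ A₀, (∃ᶠ i in D, i ∈ A) → TD (D ⊓ 𝓟 A) (fun i => ℵ_ (o i)) ≤ X)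
    (h2X : 2 ^ #ι ≤ X) {χ : Cardinal.{u}} (hχ : χ.IsRegular) (hX : X < χ)
    {g : ι → Ordinal.{u}} {A' : Set ι} (hA' : A' ⊆ A₀)
    (hg : ∀ i ∈ A', g i ≤ (ℵ_ (o i + f i)).ord) (hbig : Big D χ g A') :
    ∃ (A'' : Set ι) (c : χ.ord.ToType → ι → Ordinal.{u}), A'' ⊆ A' ∧
      (∀ v, ∀ i ∈ A'', c v i < g i) ∧ (∀ v, ∀ i ∉ A'', c v i = 0) ∧
      ∀ v w, v < w → (∀ᶠ i in D, c v i ≤ c w i) ∧ ∃ᶠ i in D, i ∈ A'' ∧ c v i < c w i := by
  classical
  obtain ⟨g', A'', hs', hle, hbig', hmin⟩ := exists_min hf hμ (Q := fun g Y => Big D χ g Y)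
    (fun g Y h => h.anti (succ_le_of_lt hX)) (fun g Y Z h h1 h3 => h.restrict h1 h3)
    (fun g Y h => h.card) hA' hg hbig
  obtain ⟨G, hG, hmono⟩ := chain_of_minimal hχ (h2X.trans_lt hX) hbig' hmin
  refine ⟨A'', fun v i => if i ∈ A'' then G v i else 0, hs', fun v i hi => ?_, fun v i hi => ?_,
    fun v w hvw => ⟨?_, ?_⟩⟩
  · simp only [if_pos hi]
    exact (hG v i hi).trans_le (hle i hi)
  · simp only [if_neg hi]
  · filter_upwards [hmono v w hvw] with i hi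
    by_cases hiA : i ∈ A''
    · simp only [if_pos hiA]
      exact (hi hiA).le
    · simp only [if_neg hiA]
      exact le_rfl
  · refine (hbig'.1.and_eventually (hmono v w hvw)).mono fun i hi => ⟨hi.1, ?_⟩
    simp only [if_pos hi.1]
    exact hi.2 hi.1

end Pool.Agent.RPDepth
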